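import Pool.Agent.W_b58c63_h28.Defs

/-!
# The integers of the window in arithmetic progressions (MP_b58c63_nt, P_4, task ApS)
-/

set_option autoImplicit false

noncomputable section

open Finset Filter

namespace Pool.Agent.P4

open Pool.Agent.Wb58c63
open Pool.Agent.W33m (IW aw_tv)

theorem ApS_cover (m a N : ℕ) (hm : 1 ≤ m) (hN : m ≤ N) : ∃ i < m, N - i ≡ a [MOD m] ∧ i ≤ N := by
  refine ⟨(N + (m - a % m)) % m, Nat.mod_lt _ hm, ?_, ?_⟩
  · have hlt : (N + (m - a % m)) % m < m := Nat.mod_lt _ hm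
    have h1 : (N + (m - a % m)) % m ≡ N + (m - a % m) [MOD m] := Nat.mod_modEq _ _
    have h2 : a + (N + (m - a % m)) % m ≡ a % m + (N + (m - a % m)) [MOD m] :=
      Nat.ModEq.add (Nat.mod_modEq a m).symm h1
    have h3 : a % m < m := Nat.mod_lt _ hm
    have h4 : a % m + (N + (m - a % m)) = N + m := by omega
    rw [h4] at h2
    have h5 : N + m ≡ N [MOD m] := by
      unfold Nat.ModEq
      rw [Nat.add_mod_right]
    have h6 : (N - (N + (m - a % m)) % m) + (N + (m - a % m)) % m = N := by omega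
    have h7 : (N - (N + (m - a % m)) % m) + (N + (m - a % m)) % m ≡
        a + (N + (m - a % m)) % m [MOD m] := by
      rw [h6]
      exact (h2.trans h5).symm
    exact Nat.ModEq.add_right_cancel' _ h7
  · exact (Nat.mod_lt _ hm).le.trans hN

theorem ApS_inj (m a B : ℕ) : Set.InjOn (fun p : ℕ × ℕ => p.1 + p.2)
    (((range B).filter (fun n => n ≡ a [MOD m])) ×ˢ range m : Finset (ℕ × ℕ)) := by
  rintro ⟨n, i⟩ h ⟨n', i'⟩ h' he
  simp only [Finset.mem_coe, mem_product, mem_filter, mem_range] at h h' he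
  have h1 : n + i ≡ n' + i' [MOD m] := by rw [he]
  have h2 : n ≡ n' [MOD m] := h.1.2.trans h'.1.2.symm
  have h3 : i ≡ i' [MOD m] := Nat.ModEq.add_left_cancel h2 h1
  have h4 : i = i' := Nat.ModEq.eq_of_lt_of_lt h3 h.2 h'.2
  have h5 : n = n' := by omega
  rw [h4, h5]

theorem ApS_tele (f : ℕ → ℝ) (n i m : ℕ) (hi : i ≤ m) :
    |f n - f (n + i)| ≤ ∑ l ∈ range m, |f (n + l + 1) - f (n + l)| := by
  have h1 : ∀ i : ℕ, |f n - f (n + i)| ≤ ∑ l ∈ range i, |f (n + l + 1) - f (n + l)| := by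
    intro i
    induction i with
    | zero => simp
    | succ i ih =>
      rw [sum_range_succ]
      have h2 : f n - f (n + (i + 1)) = (f n - f (n + i)) - (f (n + i + 1) - f (n + i)) := by
        rw [← add_assoc]
        ring
      rw [h2]
      refine (abs_sub _ _).trans ?_
      linarith
  refine (h1 i).trans ?_
  exact sum_le_sum_of_subset_of_nonneg (range_mono hi) fun _ _ _ => abs_nonneg _

/-- A function which vanishes outside of `[A, B)`, in a progression modulo `m ≤ A`.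

Proof. Let `f n = 0` for `n ∉ Ico A B`. The integers `n ≡ a` with `n ≥ A - m + 1`, i.e. `n_0 < n_1 < ...` (`n_(i+1) = n_i + m`,
`0 < n_0 ≤ A`), define the disjoint blocks `[n_i, n_i + m)` which cover `Ico A B`; `f (n_i) - (1 / m) ∑_(j < m) f (n_i + j)` is at most
`∑_(n_i ≤ j < n_i + m) |f (j + 1) - f j|` in absolute value. Sum over the blocks. (The sum over all integers `n < B` of
`|f (n + 1) - f n|` is the one over `range B`; `n = A - 1` contributes too.) -/
theorem ap_gen (f : ℕ → ℝ) (A B m a : ℕ) (hm : 1 ≤ m) (hmA : m ≤ A) (hf : ∀ n, n ∉ Ico A B → f n = 0) :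
    |∑ n ∈ (Ico A B).filter (fun n => n ≡ a [MOD m]), f n - (∑ n ∈ Ico A B, f n) / m| ≤
      ∑ n ∈ range B, |f (n + 1) - f n| := by
  classical
  set R := (range B).filter (fun n => n ≡ a [MOD m]) with hR
  have hm0 : (0 : ℝ) < m := by exact_mod_cast hm
  have hS : ∑ n ∈ (Ico A B).filter (fun n => n ≡ a [MOD m]), f n = ∑ n ∈ R, f n := by
    apply sum_subset
    · intro n hn
      rw [mem_filter, mem_Ico] at hn
      rw [hR, mem_filter, mem_range]
      exact ⟨hn.1.2, hn.2⟩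
    · intro n hn hn2
      apply hf
      intro hc
      apply hn2
      rw [hR, mem_filter] at hn
      exact mem_filter.2 ⟨hc, hn.2⟩
  have hgen : ∀ g : ℕ → ℝ, ∑ n ∈ R, ∑ i ∈ range m, g (n + i) =
      ∑ N ∈ (R ×ˢ range m).image (fun p : ℕ × ℕ => p.1 + p.2), g N := by
    intro g
    rw [sum_image (ApS_inj m a B), sum_product]
  have hW : ∑ n ∈ R, ∑ i ∈ range m, f (n + i) = ∑ n ∈ Ico A B, f n := by
    rw [hgen]
    symm
    apply sum_subset
    · intro N hN
      rw [mem_Ico] at hN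
      obtain ⟨i, hi, h1, h2⟩ := ApS_cover m a N hm (hmA.trans hN.1)
      rw [mem_image]
      refine ⟨(N - i, i), ?_, ?_⟩
      · rw [mem_product, hR, mem_filter, mem_range, mem_range]
        exact ⟨⟨by omega, h1⟩, hi⟩
      · show N - i + i = N
        omega
    · intro N _ hN
      exact hf N hN
  have hD : ∑ n ∈ R, ∑ i ∈ range m, |f (n + i + 1) - f (n + i)| ≤
      ∑ n ∈ range B, |f (n + 1) - f n| := by
    rw [hgen (fun N => |f (N + 1) - f N|)]
    rw [← sum_filter_add_sum_filter_not ((R ×ˢ range m).image (fun p : ℕ × ℕ => p.1 + p.2))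
      (fun N => N < B)]
    have h0 : ∑ N ∈ ((R ×ˢ range m).image (fun p : ℕ × ℕ => p.1 + p.2)).filter (fun N => ¬ N < B),
        |f (N + 1) - f N| = 0 := by
      apply sum_eq_zero
      intro N hN
      rw [mem_filter] at hN
      rw [hf N (by rw [mem_Ico]; omega), hf (N + 1) (by rw [mem_Ico]; omega)]
      simp
    rw [h0, add_zero]
    apply sum_le_sum_of_subset_of_nonneg
    · intro N hN
      rw [mem_filter] at hN
      exact mem_range.2 hN.2
    · intro _ _ _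
      exact abs_nonneg _
  rw [hS, ← hW]
  have h1 : ∑ n ∈ R, f n - (∑ n ∈ R, ∑ i ∈ range m, f (n + i)) / m =
      (∑ n ∈ R, ∑ i ∈ range m, (f n - f (n + i))) / m := by
    have h2 : ∑ n ∈ R, ∑ i ∈ range m, (f n - f (n + i)) =
        m * ∑ n ∈ R, f n - ∑ n ∈ R, ∑ i ∈ range m, f (n + i) := by
      rw [mul_sum, ← sum_sub_distrib]
      refine sum_congr rfl fun n _ => ?_
      rw [sum_sub_distrib, sum_const, card_range, nsmul_eq_mul]
    rw [h2]
    field_simp
  rw [h1, abs_div, abs_of_pos hm0, div_le_iff₀ hm0]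
  refine (abs_sum_le_sum_abs _ _).trans ?_
  have h3 : ∀ n ∈ R, |∑ i ∈ range m, (f n - f (n + i))| ≤
      m * ∑ i ∈ range m, |f (n + i + 1) - f (n + i)| := by
    intro n _
    refine (abs_sum_le_sum_abs _ _).trans ?_
    have h4 : ∀ i ∈ range m, |f n - f (n + i)| ≤ ∑ l ∈ range m, |f (n + l + 1) - f (n + l)| :=
      fun i hi => ApS_tele f n i m (mem_range.1 hi).le
    refine (sum_le_sum h4).trans ?_
    rw [sum_const, card_range, nsmul_eq_mul]
  refine (sum_le_sum h3).trans ?_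
  rw [← mul_sum, mul_comm]
  exact mul_le_mul_of_nonneg_right hD hm0.le

/-- **The integers of the window in a progression.**

Proof. `ap_gen` for `f n = aw k Y n * log n` (`A = ⌊Y / 2⌋`, `B = ⌈2 Y⌉`; `aw_support`: `f n ≠ 0` only for `Y < n < 2 Y`). For the variation:
`|f (n + 1) - f n| ≤ |aw (n + 1) - aw n| log (n + 1) + aw n |log (n + 1) - log n|`, `log (n + 1) ≤ 2 log Y` in the window, `aw_tv`, and
`∑_(Y < n < 2 Y) aw n / n ≤ 2 ^ k * 2` (`aw_le`); outside of `IW Y` both values vanish (also for `n = ⌊Y / 2⌋ - 1`). -/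
theorem ap_sum (k : ℕ) : ∃ C : ℝ, 0 < C ∧ ∀ᶠ Y : ℝ in atTop, ∀ m a : ℕ, 1 ≤ m → (m : ℝ) ≤ Y / 4 →
    |∑ n ∈ (IW Y).filter (fun n => n ≡ a [MOD m]), aw k Y n * Real.log n - WI k Y / m| ≤
      C * Real.log Y := by
  obtain ⟨C₁, hC₁, hev⟩ := aw_tv k
  refine ⟨2 * C₁ + 9 * 2 ^ k, by positivity, ?_⟩
  filter_upwards [hev, eventually_ge_atTop (12 : ℝ)] with Y h1 hY m a hm hmY
  have hY0 : 0 < Y := by linarith
  have hlog : 1 ≤ Real.log Y := by
    rw [Real.le_log_iff_exp_le hY0]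
    have := Real.exp_one_lt_d9
    linarith
  have hsupp : ∀ n, n ∉ IW Y → aw k Y n * Real.log n = 0 := by
    intro n hn
    by_contra hc
    have h2 : aw k Y n ≠ 0 := fun h0 => hc (by rw [h0, zero_mul])
    obtain ⟨h3, h4⟩ := aw_support k Y (by linarith) n h2
    apply hn
    unfold IW
    rw [mem_Ico]
    constructor
    · have e1 : ((⌊Y / 2⌋₊ : ℕ) : ℝ) ≤ Y / 2 := Nat.floor_le (by linarith)
      have e2 : ((⌊Y / 2⌋₊ : ℕ) : ℝ) ≤ n := by linarith
      exact_mod_cast e2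
    · rw [Nat.lt_ceil]
      exact h4
  have hmA : m ≤ ⌊Y / 2⌋₊ := by
    apply Nat.le_floor
    linarith
  have key := ap_gen (fun n => aw k Y n * Real.log n) ⌊Y / 2⌋₊ ⌈2 * Y⌉₊ m a hm hmA hsupp
  refine key.trans ?_
  have hsplit : ∑ n ∈ range ⌈2 * Y⌉₊, |aw k Y (n + 1) * Real.log ((n + 1 : ℕ) : ℝ) - aw k Y n * Real.log n| =
      ∑ n ∈ IW Y, |aw k Y (n + 1) * Real.log ((n + 1 : ℕ) : ℝ) - aw k Y n * Real.log n| := by
    symm
    apply sum_subset
    · intro n hn
      unfold IW at hn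
      rw [mem_Ico] at hn
      exact mem_range.2 hn.2
    · intro n hn hn2
      rw [hsupp n hn2, sub_zero]
      have h2 : aw k Y (n + 1) = 0 := by
        by_contra hc
        obtain ⟨h3, h4⟩ := aw_support k Y (by linarith) (n + 1) hc
        apply hn2
        unfold IW
        rw [mem_Ico]
        refine ⟨?_, mem_range.1 hn⟩
        have e1 : ((⌊Y / 2⌋₊ : ℕ) : ℝ) ≤ Y / 2 := Nat.floor_le (by linarith)
        have e2 : ((⌊Y / 2⌋₊ : ℕ) : ℝ) ≤ n := by
          push_cast at h3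
          linarith
        exact_mod_cast e2
      rw [h2, zero_mul, abs_zero]
  show ∑ n ∈ range ⌈2 * Y⌉₊, |aw k Y (n + 1) * Real.log ((n + 1 : ℕ) : ℝ) - aw k Y n * Real.log n| ≤ _
  rw [hsplit]
  have hpt : ∀ n ∈ IW Y, |aw k Y (n + 1) * Real.log ((n + 1 : ℕ) : ℝ) - aw k Y n * Real.log n| ≤
      2 * Real.log Y * |aw k Y (n + 1) - aw k Y n| + 2 ^ k * (3 / Y) := by
    intro n hn
    unfold IW at hn
    rw [mem_Ico] at hn
    have g1 : Y / 3 ≤ n := by
      have e1 : Y / 2 < ⌊Y / 2⌋₊ + 1 := Nat.lt_floor_add_one _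
      have e2 : ((⌊Y / 2⌋₊ : ℕ) : ℝ) ≤ n := by exact_mod_cast hn.1
      linarith
    have hn0 : (0 : ℝ) < n := by linarith
    have g2 : ((n + 1 : ℕ) : ℝ) ≤ Y ^ 2 := by
      have e1 : n + 1 ≤ ⌈2 * Y⌉₊ := hn.2
      have e2 : ((⌈2 * Y⌉₊ : ℕ) : ℝ) < 2 * Y + 1 := Nat.ceil_lt_add_one (by linarith)
      have e3 : ((n + 1 : ℕ) : ℝ) ≤ ((⌈2 * Y⌉₊ : ℕ) : ℝ) := by exact_mod_cast e1
      nlinarith
    have g3 : Real.log ((n + 1 : ℕ) : ℝ) ≤ 2 * Real.log Y := by
      have e1 := Real.log_le_log (by positivity) g2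
      rw [Real.log_pow] at e1
      push_cast at e1 ⊢
      exact e1
    have g3' : 0 ≤ Real.log ((n + 1 : ℕ) : ℝ) := Real.log_natCast_nonneg _
    have g4 : Real.log ((n + 1 : ℕ) : ℝ) - Real.log n ≤ 3 / Y := by
      have e1 : Real.log ((n + 1 : ℕ) : ℝ) - Real.log n = Real.log (1 + 1 / n) := by
        rw [← Real.log_div (by positivity) hn0.ne']
        congr 1
        push_cast
        field_simp
      have e3 := Real.log_le_sub_one_of_pos (by positivity : (0 : ℝ) < 1 + 1 / n)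
      have e4 : (1 : ℝ) / n ≤ 3 / Y := by
        rw [div_le_div_iff₀ hn0 hY0]
        linarith
      rw [e1]
      linarith
    have g5 : 0 ≤ Real.log ((n + 1 : ℕ) : ℝ) - Real.log n := by
      have := Real.log_le_log hn0 (by push_cast; linarith : (n : ℝ) ≤ ((n + 1 : ℕ) : ℝ))
      linarith
    have e0 : aw k Y (n + 1) * Real.log ((n + 1 : ℕ) : ℝ) - aw k Y n * Real.log n =
        (aw k Y (n + 1) - aw k Y n) * Real.log ((n + 1 : ℕ) : ℝ) +
        aw k Y n * (Real.log ((n + 1 : ℕ) : ℝ) - Real.log n) := by ring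
    rw [e0]
    refine (abs_add_le _ _).trans ?_
    rw [abs_mul, abs_mul, abs_of_nonneg g3', abs_of_nonneg g5,
      abs_of_nonneg (aw_nonneg k Y (by linarith) n)]
    have e1 : |aw k Y (n + 1) - aw k Y n| * Real.log ((n + 1 : ℕ) : ℝ) ≤
        |aw k Y (n + 1) - aw k Y n| * (2 * Real.log Y) :=
      mul_le_mul_of_nonneg_left g3 (abs_nonneg _)
    have e2 : aw k Y n * (Real.log ((n + 1 : ℕ) : ℝ) - Real.log n) ≤ 2 ^ k * (3 / Y) :=
      mul_le_mul (aw_le k Y (by linarith) n) g4 g5 (by positivity)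
    linarith
  refine (sum_le_sum hpt).trans ?_
  rw [sum_add_distrib, ← mul_sum, sum_const, nsmul_eq_mul]
  have hcard : ((IW Y).card : ℝ) ≤ 3 * Y := by
    unfold IW
    rw [Nat.card_Ico]
    have e2 : ((⌈2 * Y⌉₊ : ℕ) : ℝ) < 2 * Y + 1 := Nat.ceil_lt_add_one (by linarith)
    have e3 : ((⌈2 * Y⌉₊ - ⌊Y / 2⌋₊ : ℕ) : ℝ) ≤ ((⌈2 * Y⌉₊ : ℕ) : ℝ) := by
      exact_mod_cast Nat.sub_le _ _
    linarith
  have e1 : 2 * Real.log Y * ∑ n ∈ IW Y, |aw k Y (n + 1) - aw k Y n| ≤ 2 * Real.log Y * C₁ :=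
    mul_le_mul_of_nonneg_left h1 (by linarith)
  have e2 : ((IW Y).card : ℝ) * (2 ^ k * (3 / Y)) ≤ 9 * 2 ^ k := by
    have : ((IW Y).card : ℝ) * (2 ^ k * (3 / Y)) ≤ 3 * Y * (2 ^ k * (3 / Y)) :=
      mul_le_mul_of_nonneg_right hcard (by positivity)
    refine this.trans (le_of_eq ?_)
    field_simp
    ring
  have e3 : (9 : ℝ) * 2 ^ k ≤ 9 * 2 ^ k * Real.log Y := by
    have : (0 : ℝ) < 9 * 2 ^ k := by positivity
    nlinarith
  nlinarith

end Pool.Agent.P4
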