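import Pool.Agent.W_b58c63_h28.Defs
import Pool.Agent.W_b58c63_h68.HRho

/-!
# The coefficients `rho3` (MP_b58c63_nt, P_4, task CoA)
-/

set_option autoImplicit false

noncomputable section

open Finset

namespace Pool.Agent.P4

open Pool.Agent.Wb58c63

/-- Copy of the proof of `rho2_adm` (`W_b58c63_h68/HRho.lean`) with `om y q` replaced by `φ q` and `y` by `w`
(`HRho_om` replaced by `hφ`). -/
theorem rho3_adm (φ : ℕ → ℝ) (u₀ z w D : ℝ) (hφ : ∀ q : ℕ, z ≤ (q : ℝ) → (q : ℝ) < w → |φ q| ≤ 1)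
    (hz : 2 ≤ z) (hzw : z ≤ w) (hwD : w ≤ D) (m : ℕ) :
    |rho3 φ u₀ z w D m| ≤ 1 ∧ (rho3 φ u₀ z w D m ≠ 0 → Squarefree m ∧
      (m : ℝ) ≤ primorial ⌈u₀⌉₊ * D ∧ ∀ p : ℕ, p.Prime → p ∣ m → (p : ℝ) < w) := by
  classical
  by_cases hex : ∃ q ∈ m.primeFactors.filter (fun q : ℕ => z ≤ (q : ℝ) ∧ (q : ℝ) < w),
      smz z (m / q)
  · obtain ⟨q, hq, hs⟩ := hex
    have hq' := Finset.mem_filter.1 hq
    have hqp := Nat.prime_of_mem_primeFactors hq'.1
    have hqm := Nat.dvd_of_mem_primeFactors hq'.1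
    have hm : m = q * (m / q) := (Nat.mul_div_cancel' hqm).symm
    have hsum : rho3 φ u₀ z w D m = φ q * rhoS true u₀ (D / q) (m / q).primeFactors := by
      unfold rho3
      rw [Finset.sum_eq_single_of_mem q hq, if_pos hs]
      intro r hr hrq
      rw [if_neg, mul_zero]
      intro hsr
      have hr' := Finset.mem_filter.1 hr
      have hrp := Nat.prime_of_mem_primeFactors hr'.1
      have hrm := Nat.dvd_of_mem_primeFactors hr'.1
      have h1 : q ∣ r * (m / r) := by rw [Nat.mul_div_cancel' hrm]; exact hqm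
      rcases (Nat.Prime.dvd_mul hqp).1 h1 with h2 | h2
      · exact hrq ((Nat.prime_dvd_prime_iff_eq hqp hrp).1 h2).symm
      · exact absurd (HRho_lt hsr hqp h2) (not_lt.2 hq'.2.1)
    have hq0 : (0 : ℝ) < q := by exact_mod_cast hqp.pos
    rw [hsum]
    constructor
    · rw [abs_mul]
      calc |φ q| * |rhoS true u₀ (D / q) (m / q).primeFactors| ≤ 1 * 1 :=
            mul_le_mul (hφ q hq'.2.1 hq'.2.2) (abs_rhoS_le _ _ _ _)
              (abs_nonneg _) zero_le_one
        _ = 1 := one_mul 1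
    · intro h0
      have h1 : rhoS true u₀ (D / q) (m / q).primeFactors ≠ 0 := right_ne_zero_of_mul h0
      have hcop : q.Coprime (m / q) := by
        refine (Nat.Prime.coprime_iff_not_dvd hqp).2 fun h2 => ?_
        exact absurd (HRho_lt hs hqp h2) (not_lt.2 hq'.2.1)
      have hDq : 1 < D / q := by
        rw [one_lt_div hq0]
        exact lt_of_lt_of_le hq'.2.2 hwD
      refine ⟨?_, ?_, ?_⟩
      · rw [hm, Nat.squarefree_mul hcop]
        exact ⟨hqp.squarefree, hs.1⟩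
      · have h2 := rhoS_true_support u₀ (D / q) hDq (m / q).primeFactors
          (fun p hp => Nat.prime_of_mem_primeFactors hp) h1
        rw [HRho_prod hs] at h2
        have h3 : (m : ℝ) = q * ((m / q : ℕ) : ℝ) := by
          rw [← Nat.cast_mul, ← hm]
        rw [h3]
        calc (q : ℝ) * ((m / q : ℕ) : ℝ) ≤ q * (primorial ⌈u₀⌉₊ * (D / q)) :=
              mul_le_mul_of_nonneg_left h2 hq0.le
          _ = primorial ⌈u₀⌉₊ * D := by field_simp
      · intro p hp hpm
        rw [hm] at hpm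
        rcases (Nat.Prime.dvd_mul hp).1 hpm with h2 | h2
        · rw [(Nat.prime_dvd_prime_iff_eq hp hqp).1 h2]
          exact hq'.2.2
        · exact lt_of_lt_of_le (HRho_lt hs hp h2) hzw
  · have hsum : rho3 φ u₀ z w D m = 0 := by
      unfold rho3
      refine Finset.sum_eq_zero fun q hq => ?_
      rw [if_neg fun hs => hex ⟨q, hq, hs⟩, mul_zero]
    rw [hsum]
    exact ⟨by rw [abs_zero]; exact zero_le_one, fun h => absurd rfl h⟩

/-- Copy of the proof of `sum_rho2` (`W_b58c63_h68/HRho.lean`). -/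
theorem sum_rho3 (φ : ℕ → ℝ) (u₀ z w D : ℝ) (hz : 2 ≤ z) (M N : ℕ) (hN : 1 ≤ N)
    (hM : ∀ q ∈ PI z w, ∀ m, smz z m → rhoS true u₀ (D / q) m.primeFactors ≠ 0 → q * m ≤ M)
    (f : ℕ → ℝ) :
    ∑ m ∈ (Icc 1 M).filter (fun m => m.Coprime N), rho3 φ u₀ z w D m * f m =
      ∑ q ∈ QN N z w, φ q *
        ∑ S ∈ (PN N z).powerset, rhoS true u₀ (D / q) S * f (q * ∏ p ∈ S, p) := by
  classical
  set A := (Icc 1 M).filter (fun m => m.Coprime N) with hA
  have e1 : ∀ m ∈ A, rho3 φ u₀ z w D m * f m = ∑ q ∈ PI z w, φ q *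
      (if q ∣ m then (if smz z (m / q) then rhoS true u₀ (D / q) (m / q).primeFactors else 0) * f m
        else 0) := by
    intro m hm
    rw [hA, Finset.mem_filter, Finset.mem_Icc] at hm
    have hset : m.primeFactors.filter (fun q : ℕ => z ≤ (q : ℝ) ∧ (q : ℝ) < w) =
        (PI z w).filter (fun q => q ∣ m) := by
      ext q
      rw [Finset.mem_filter, Finset.mem_filter, Nat.mem_primeFactors, mem_PI]
      constructor
      · rintro ⟨⟨h1, h2, -⟩, h3, h4⟩
        exact ⟨⟨h1, h3, h4⟩, h2⟩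
      · rintro ⟨⟨h1, h3, h4⟩, h2⟩
        exact ⟨⟨h1, h2, by omega⟩, h3, h4⟩
    unfold rho3
    rw [hset, Finset.sum_mul, Finset.sum_filter]
    refine Finset.sum_congr rfl fun q _ => ?_
    by_cases hq : q ∣ m
    · rw [if_pos hq, if_pos hq, mul_assoc]
    · rw [if_neg hq, if_neg hq, mul_zero]
  rw [Finset.sum_congr rfl e1, Finset.sum_comm]
  unfold QN
  rw [Finset.sum_filter]
  refine Finset.sum_congr rfl fun q hq => ?_
  rw [← Finset.mul_sum]
  by_cases hqN : q ∣ N
  · rw [if_neg (not_not.2 hqN)]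
    have h0 : ∑ m ∈ A, (if q ∣ m then (if smz z (m / q) then
        rhoS true u₀ (D / q) (m / q).primeFactors else 0) * f m else 0) = 0 := by
      refine Finset.sum_eq_zero fun m hm => ?_
      rw [hA, Finset.mem_filter] at hm
      rw [if_neg]
      intro hqm
      exact Nat.Prime.not_coprime_iff_dvd.2 ⟨q, (mem_PI.1 hq).1, hqm, hqN⟩ hm.2
    rw [h0, mul_zero]
  · rw [if_pos hqN]
    have h1 := HRho_gen z (fun S => rhoS true u₀ (D / q) S) q M N (mem_PI.1 hq).1.one_lt.le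
      ((Nat.Prime.coprime_iff_not_dvd (mem_PI.1 hq).1).2 hqN) (hM q hq) f
    rw [← h1]

end Pool.Agent.P4
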