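import Pool.Agent.W_b58c63_h28.CoA
import Pool.Agent.W_b58c63_h68.HW

/-!
# The weighted sum (MP_b58c63_nt, P_4, task CoB)
-/

set_option autoImplicit false

noncomputable section

open Finset

namespace Pool.Agent.P4

open Pool.Agent.Wb58c63

open Classical in
/-- **Pointwise inequality**: `rho_lower` and `rho_upper` for the set of the primes of `PN N z` which divide `n`;
`l, φ ≥ 0`. -/
private theorem CoB_wt_ge (N : ℕ) (z w l u₀ D : ℝ) (φ : ℕ → ℝ) (hφ : ∀ q ∈ PI z w, 0 ≤ φ q)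
    (hl : 0 ≤ l) (n : ℕ) :
    ∑ S ∈ ((PN N z).filter fun p => p ∣ n).powerset, rhoS false u₀ D S -
      l * ∑ q ∈ (QN N z w).filter (fun q => q ∣ n), φ q *
        ∑ S ∈ ((PN N z).filter fun p => p ∣ n).powerset, rhoS true u₀ (D / q) S ≤
      wt3 N z w l φ n := by
  have hom : ∀ q ∈ (QN N z w).filter (fun q => q ∣ n), 0 ≤ φ q := by
    intro q hq
    exact hφ q (HW_mem_QN.1 (mem_filter.1 hq).1).1
  unfold wt3
  split_ifs with h
  · have h1 := rho_lower u₀ D ((PN N z).filter fun p => p ∣ n)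
    rw [if_pos h] at h1
    have h2 : ∑ q ∈ (QN N z w).filter (fun q => q ∣ n), φ q ≤
        ∑ q ∈ (QN N z w).filter (fun q => q ∣ n), φ q *
          ∑ S ∈ ((PN N z).filter fun p => p ∣ n).powerset, rhoS true u₀ (D / q) S := by
      refine Finset.sum_le_sum (fun q hq => ?_)
      have h3 := rho_upper u₀ (D / q) ((PN N z).filter fun p => p ∣ n)
      rw [if_pos h] at h3
      exact le_mul_of_one_le_right (hom q hq) h3
    have h4 := mul_le_mul_of_nonneg_left h2 hl
    linarith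
  · have h1 := rho_lower u₀ D ((PN N z).filter fun p => p ∣ n)
    rw [if_neg h] at h1
    have h2 : 0 ≤ ∑ q ∈ (QN N z w).filter (fun q => q ∣ n), φ q *
          ∑ S ∈ ((PN N z).filter fun p => p ∣ n).powerset, rhoS true u₀ (D / q) S := by
      refine Finset.sum_nonneg (fun q hq => ?_)
      have h3 := rho_upper u₀ (D / q) ((PN N z).filter fun p => p ∣ n)
      rw [if_neg h] at h3
      exact mul_nonneg (hom q hq) h3
    have h4 := mul_nonneg hl h2
    linarith

/-- The same with a prime `q ∈ QN N z w` (which is coprime to `∏ S`). -/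
private theorem CoB_sum_swap2 (k : ℕ) (Y : ℝ) (N : ℕ) (hN : 2 * Y ≤ N) (z w : ℝ) (φ : ℕ → ℝ)
    (R : ℕ → Finset ℕ → ℝ) :
    ∑ p ∈ Pr Y, ap k Y p * ∑ q ∈ (QN N z w).filter (fun q => q ∣ N - p), φ q *
        ∑ S ∈ ((PN N z).filter fun q => q ∣ N - p).powerset, R q S =
      ∑ q ∈ QN N z w, φ q *
        ∑ S ∈ (PN N z).powerset, R q S * Sd k Y N (q * ∏ q ∈ S, q) := by
  have h1 : ∀ p ∈ Pr Y, ap k Y p * ∑ q ∈ (QN N z w).filter (fun q => q ∣ N - p), φ q *
        ∑ S ∈ ((PN N z).filter fun q => q ∣ N - p).powerset, R q S =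
      ∑ q ∈ QN N z w, φ q * ∑ S ∈ (PN N z).powerset, R q S *
        (if (q * ∏ q ∈ S, q) ∣ N - p then ap k Y p else 0) := by
    intro p _
    rw [Finset.sum_filter, Finset.mul_sum]
    refine Finset.sum_congr rfl (fun q hq => ?_)
    have hq1 := mem_PI.1 (HW_mem_QN.1 hq).1
    by_cases h : q ∣ N - p
    · rw [if_pos h, HW_powerset, ← mul_assoc, mul_comm (ap k Y p) (φ q), mul_assoc,
        Finset.mul_sum]
      congr 1
      refine Finset.sum_congr rfl (fun S hS => ?_)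
      rw [mem_powerset] at hS
      have hco : Nat.Coprime q (∏ q ∈ S, q) := by
        refine Nat.Coprime.prod_right (fun q' hq' => ?_)
        have h2 := mem_PI.1 (HW_mem_PN.1 (hS hq')).1
        rw [Nat.coprime_primes hq1.1 h2.1]
        rintro rfl
        linarith [hq1.2.1, h2.2.2]
      have h3 : (q * ∏ q ∈ S, q) ∣ N - p ↔ (∏ q ∈ S, q) ∣ N - p := by
        constructor
        · intro h4
          exact (Dvd.intro_left q rfl).trans h4
        · intro h4
          exact hco.mul_dvd_of_dvd_of_dvd h h4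
      by_cases h5 : (∏ q ∈ S, q) ∣ N - p
      · rw [if_pos h5, if_pos (h3.2 h5)]
        ring
      · rw [if_neg h5, if_neg (fun h6 => h5 (h3.1 h6))]
        ring
    · rw [if_neg h, mul_zero]
      symm
      rw [Finset.sum_eq_zero, mul_zero]
      intro S _
      rw [if_neg, mul_zero]
      intro h4
      exact h ((Dvd.intro _ rfl).trans h4)
  rw [Finset.sum_congr rfl h1, Finset.sum_comm]
  refine Finset.sum_congr rfl (fun q _ => ?_)
  rw [← Finset.mul_sum, Finset.sum_comm]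
  congr 1
  refine Finset.sum_congr rfl (fun S _ => ?_)
  rw [← Finset.mul_sum, HW_Sd k Y N hN]

/-- **The weighted sum.** Copy of `wt_ge`, `sum_swap2`, `W_ge` (`W_b58c63_h68/HW.lean`) with `om y q` replaced by `φ q`, `y` by `w`,
`wt` by `wt3`, `rho2` by `rho3`, `sum_rho2` by `sum_rho3`. -/
theorem W3_ge (k : ℕ) (Y : ℝ) (hY : 1 ≤ Y) (N : ℕ) (hN : 2 * Y ≤ N) (z w l u₀ D : ℝ) (φ : ℕ → ℝ)
    (hφ : ∀ q ∈ PI z w, 0 ≤ φ q) (hz : 2 ≤ z) (hl : 0 ≤ l) (M : ℕ)
    (hM1 : ∀ m, rho1 u₀ z D m ≠ 0 → m ≤ M)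
    (hM2 : ∀ q ∈ PI z w, ∀ m, smz z m → rhoS true u₀ (D / q) m.primeFactors ≠ 0 → q * m ≤ M) :
    XM k Y * (∑ S ∈ (PN N z).powerset, rhoS false u₀ D S * ∏ p ∈ S, gp p -
        l * ∑ q ∈ QN N z w, φ q * gp q *
          ∑ S ∈ (PN N z).powerset, rhoS true u₀ (D / q) S * ∏ p ∈ S, gp p) +
      Err k Y (rho1 u₀ z D) M N - l * Err k Y (rho3 φ u₀ z w D) M N ≤
      ∑ p ∈ Pr Y, ap k Y p * wt3 N z w l φ (N - p) := by
  have hN1 : 1 ≤ N := by
    have h1 : (1 : ℝ) ≤ N := by linarith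
    exact_mod_cast h1
  have hPN : ∀ S ∈ (PN N z).powerset, ∀ q ∈ S, q.Prime := by
    intro S hS q hq
    exact (mem_PI.1 (HW_mem_PN.1 (mem_powerset.1 hS hq)).1).1
  have h2 : ∑ p ∈ Pr Y, ap k Y p *
      (∑ S ∈ ((PN N z).filter fun q => q ∣ N - p).powerset, rhoS false u₀ D S -
      l * ∑ q ∈ (QN N z w).filter (fun q => q ∣ N - p), φ q *
        ∑ S ∈ ((PN N z).filter fun q => q ∣ N - p).powerset, rhoS true u₀ (D / q) S) ≤
      ∑ p ∈ Pr Y, ap k Y p * wt3 N z w l φ (N - p) := by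
    refine Finset.sum_le_sum (fun p _ => ?_)
    exact mul_le_mul_of_nonneg_left (CoB_wt_ge N z w l u₀ D φ hφ hl (N - p)) (ap_nonneg k Y hY p)
  refine le_trans (le_of_eq ?_) h2
  have h3 : ∑ p ∈ Pr Y, ap k Y p *
      (∑ S ∈ ((PN N z).filter fun q => q ∣ N - p).powerset, rhoS false u₀ D S -
      l * ∑ q ∈ (QN N z w).filter (fun q => q ∣ N - p), φ q *
        ∑ S ∈ ((PN N z).filter fun q => q ∣ N - p).powerset, rhoS true u₀ (D / q) S) =
      ∑ S ∈ (PN N z).powerset, rhoS false u₀ D S * Sd k Y N (∏ q ∈ S, q) -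
      l * ∑ q ∈ QN N z w, φ q *
        ∑ S ∈ (PN N z).powerset, rhoS true u₀ (D / q) S * Sd k Y N (q * ∏ q ∈ S, q) := by
    rw [← sum_swap1 k Y N hN z (fun S => rhoS false u₀ D S),
      ← CoB_sum_swap2 k Y N hN z w φ (fun q S => rhoS true u₀ (D / q) S), Finset.mul_sum,
      ← Finset.sum_sub_distrib]
    refine Finset.sum_congr rfl (fun p _ => ?_)
    ring
  rw [h3]
  have h4 : ∀ d, Sd k Y N d = XM k Y * (1 / (d.totient : ℝ)) + Er k Y N d := by
    intro d
    unfold Er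
    ring
  have h5 : ∑ S ∈ (PN N z).powerset, rhoS false u₀ D S * Sd k Y N (∏ q ∈ S, q) =
      XM k Y * ∑ S ∈ (PN N z).powerset, rhoS false u₀ D S * ∏ p ∈ S, gp p +
        Err k Y (rho1 u₀ z D) M N := by
    unfold Err
    rw [sum_rho1 u₀ z D M N hN1 hM1 (fun d => Er k Y N d), Finset.mul_sum,
      ← Finset.sum_add_distrib]
    refine Finset.sum_congr rfl (fun S hS => ?_)
    rw [h4, HW_inv_totient (hPN S hS)]
    ring
  have h6 : ∑ q ∈ QN N z w, φ q *
        ∑ S ∈ (PN N z).powerset, rhoS true u₀ (D / q) S * Sd k Y N (q * ∏ q ∈ S, q) =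
      XM k Y * ∑ q ∈ QN N z w, φ q * gp q *
          ∑ S ∈ (PN N z).powerset, rhoS true u₀ (D / q) S * ∏ p ∈ S, gp p +
        Err k Y (rho3 φ u₀ z w D) M N := by
    unfold Err
    rw [sum_rho3 φ u₀ z w D hz M N hN1 hM2 (fun d => Er k Y N d), Finset.mul_sum,
      ← Finset.sum_add_distrib]
    refine Finset.sum_congr rfl (fun q hq => ?_)
    have hq1 := mem_PI.1 (HW_mem_QN.1 hq).1
    have h7 : ∀ S ∈ (PN N z).powerset, rhoS true u₀ (D / q) S * Sd k Y N (q * ∏ q ∈ S, q) =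
        XM k Y * gp q * (rhoS true u₀ (D / q) S * ∏ p ∈ S, gp p) +
          rhoS true u₀ (D / q) S * Er k Y N (q * ∏ q ∈ S, q) := by
      intro S hS
      have hco : q ∉ S := by
        intro hqS
        have h2 := mem_PI.1 (HW_mem_PN.1 (mem_powerset.1 hS hqS)).1
        linarith [hq1.2.1, h2.2.2]
      have h8 : 1 / (((q * ∏ q ∈ S, q : ℕ)).totient : ℝ) = gp q * ∏ p ∈ S, gp p := by
        rw [← Finset.prod_insert (f := fun q => q) hco, ← Finset.prod_insert hco]
        refine HW_inv_totient (fun q' hq' => ?_)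
        rcases mem_insert.1 hq' with h9 | h9
        · rw [h9]
          exact hq1.1
        · exact hPN S hS q' h9
      rw [h4, h8]
      ring
    rw [Finset.sum_congr rfl h7, Finset.sum_add_distrib, ← Finset.mul_sum]
    ring
  rw [h5, h6]
  ring

/-- Splitting of Richert's weights at `w`.

Proof. `QN N z y` is the disjoint union of `QN N z w` and `QN N w y`; `(PN N z).filter (∣ n) = ∅` iff `sif N z n`; exchange the
sums over `p` and `q`. -/
theorem wt_split (k : ℕ) (Y : ℝ) (N : ℕ) (z w y l : ℝ) (hzw : z ≤ w) (hwy : w ≤ y) :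
    ∑ p ∈ Pr Y, ap k Y p * wt N z y l (N - p) =
      ∑ p ∈ Pr Y, ap k Y p * wt3 N z w l (om y) (N - p) -
        l * ∑ q ∈ QN N w y, om y q * SQ k Y N z q := by
  classical
  have hdis : Disjoint (QN N z w) (QN N w y) := by
    rw [Finset.disjoint_left]
    intro q h1 h2
    have h3 := (mem_PI.1 (HW_mem_QN.1 h1).1).2.2
    have h4 := (mem_PI.1 (HW_mem_QN.1 h2).1).2.1
    linarith
  have huni : QN N z y = QN N z w ∪ QN N w y := by
    ext q
    rw [Finset.mem_union, HW_mem_QN, HW_mem_QN, HW_mem_QN, mem_PI, mem_PI, mem_PI]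
    constructor
    · rintro ⟨⟨h1, h2, h3⟩, h4⟩
      rcases lt_or_ge (q : ℝ) w with h5 | h5
      · exact Or.inl ⟨⟨h1, h2, h5⟩, h4⟩
      · exact Or.inr ⟨⟨h1, h5, h3⟩, h4⟩
    · rintro (⟨⟨h1, h2, h3⟩, h4⟩ | ⟨⟨h1, h2, h3⟩, h4⟩)
      · exact ⟨⟨h1, h2, lt_of_lt_of_le h3 hwy⟩, h4⟩
      · exact ⟨⟨h1, hzw.trans h2, h3⟩, h4⟩
  have hsif : ∀ n : ℕ, (PN N z).filter (fun p => p ∣ n) = ∅ ↔ sif N z n := by
    intro n
    rw [Finset.filter_eq_empty_iff]
    unfold sif
    exact Iff.rfl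
  have hpt : ∀ n : ℕ, wt N z y l n = wt3 N z w l (om y) n -
      l * ∑ q ∈ QN N w y, (if q ∣ n ∧ sif N z n then om y q else 0) := by
    intro n
    unfold wt wt3
    by_cases h : sif N z n
    · have h' := (hsif n).2 h
      rw [if_pos h', if_pos h']
      have h1 : ∑ q ∈ QN N w y, (if q ∣ n ∧ sif N z n then om y q else 0) =
          ∑ q ∈ (QN N w y).filter (fun q => q ∣ n), om y q := by
        rw [Finset.sum_filter]
        refine Finset.sum_congr rfl (fun q _ => ?_)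
        simp only [h, and_true]
      have h2 : ∑ q ∈ (QN N z y).filter (fun q => q ∣ n), om y q =
          ∑ q ∈ (QN N z w).filter (fun q => q ∣ n), om y q +
            ∑ q ∈ (QN N w y).filter (fun q => q ∣ n), om y q := by
        rw [huni, Finset.filter_union, Finset.sum_union (Finset.disjoint_filter_filter hdis)]
      rw [h1, h2]
      ring
    · have h' : ¬ (PN N z).filter (fun p => p ∣ n) = ∅ := fun h1 => h ((hsif n).1 h1)
      rw [if_neg h', if_neg h']
      have h1 : ∑ q ∈ QN N w y, (if q ∣ n ∧ sif N z n then om y q else 0) = 0 := by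
        refine Finset.sum_eq_zero (fun q _ => ?_)
        rw [if_neg (fun h2 => h h2.2)]
      rw [h1]
      ring
  have h1 : ∑ p ∈ Pr Y, ap k Y p * wt N z y l (N - p) =
      ∑ p ∈ Pr Y, ap k Y p * wt3 N z w l (om y) (N - p) -
        l * ∑ p ∈ Pr Y, ap k Y p *
          ∑ q ∈ QN N w y, (if q ∣ N - p ∧ sif N z (N - p) then om y q else 0) := by
    rw [Finset.mul_sum, ← Finset.sum_sub_distrib]
    refine Finset.sum_congr rfl (fun p _ => ?_)
    rw [hpt]
    ring
  rw [h1]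
  congr 2
  have h2 : ∀ p ∈ Pr Y, ap k Y p *
      ∑ q ∈ QN N w y, (if q ∣ N - p ∧ sif N z (N - p) then om y q else 0) =
      ∑ q ∈ QN N w y, om y q * (if q ∣ N - p ∧ sif N z (N - p) then ap k Y p else 0) := by
    intro p _
    rw [Finset.mul_sum]
    refine Finset.sum_congr rfl (fun q _ => ?_)
    split_ifs
    · ring
    · ring
  rw [Finset.sum_congr rfl h2, Finset.sum_comm]
  refine Finset.sum_congr rfl (fun q _ => ?_)
  rw [← Finset.mul_sum]
  unfold SQ
  rw [Finset.sum_filter]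

end Pool.Agent.P4
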