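import Pool.Agent.W_b58c63_h68.HPer
import Pool.Agent.W_b58c63_h44.Sel
import Pool.Agent.W_d33b62m_h36.Mf3

/-!
# P_4 for every large even number (MP_b58c63_nt, helper28): definitions

`Y = √N` (`N` even), primes `p ∈ (Y, 2 Y)` with the weights `ap k Y p` of helper68 (`W_b58c63_h68`), almost primes `N - p`.
`D = Y ^ (499/1000) = z ^ 6`, `z = Y ^ (499/6000)`, `w = z ^ 5 = D / z`, `y = Y ^ (5/8)`, Richert's weights with `l = 5/9`.
For the primes `q ∈ [z, w)` the linear sieve of level `D / q` is used, for `q ∈ [w, y)` Selberg's sieve for the integers of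
the window in the class `N mod q`.
-/

set_option autoImplicit false

noncomputable section

open Finset

namespace Pool.Agent.P4

open Pool.Agent.Wb58c63 (PI mem_PI VP gp aw ap XM Pr PN QN om wt smz rho1 rhoS Sd Er Err Adm UW hh)
open Pool.Agent.PSG (pp gg SF)
open Pool.Agent.W33m (IW)

/-- `∏_{p < z} (1 - 1 / p)`. -/
def V1 (z : ℝ) : ℝ := ∏ p ∈ PI 0 z, (1 - 1 / (p : ℝ))

/-- `v ^ 2 / 2 - ∫_1^v (v - t) ^ 2 / (2 t) dt`. -/
def KK (v : ℝ) : ℝ := 5 / 4 * v ^ 2 - v + 1 / 4 - v ^ 2 / 2 * Real.log v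

open Classical in
/-- The number of forbidden classes modulo `p`: `0` and, for `p < z` with `p ∤ N`, also `N`. -/
def rN (N : ℕ) (z : ℝ) (p : ℕ) : ℕ := if (p : ℝ) < z ∧ ¬ p ∣ N then 2 else 1

/-- The density of the forbidden classes modulo `p`. -/
def hN (N : ℕ) (z : ℝ) (p : ℕ) : ℝ := (rN N z p : ℝ) / p

open Classical in
/-- The largest density: `2 / p` for the odd `p < z`, `1 / p` otherwise. -/
def hS (z : ℝ) (p : ℕ) : ℝ := if (p : ℝ) < z ∧ p ≠ 2 then 2 / (p : ℝ) else 1 / (p : ℝ)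

/-- `n` is in a forbidden class modulo every prime factor of `d`. -/
def Om (N : ℕ) (z : ℝ) (d n : ℕ) : Prop :=
  ∀ p ∈ d.primeFactors, p ∣ n ∨ ((p : ℝ) < z ∧ ¬ p ∣ N ∧ n ≡ N [MOD p])

/-- The number of classes modulo `d` which are forbidden modulo all the prime factors of `d`. -/
def rP (N : ℕ) (z : ℝ) (d : ℕ) : ℕ := ∏ p ∈ d.primeFactors, rN N z p

/-- The sum of the weights over the integers. -/
def WI (k : ℕ) (Y : ℝ) : ℝ := ∑ n ∈ IW Y, aw k Y n * Real.log n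

/-- No prime of `PN N z` divides `n`. -/
def sif (N : ℕ) (z : ℝ) (n : ℕ) : Prop := ∀ p ∈ PN N z, ¬ p ∣ n

open Classical in
/-- The weighted number of the primes `p` of the window with `q ∣ N - p`, `N - p` sifted. -/
def SQ (k : ℕ) (Y : ℝ) (N : ℕ) (z : ℝ) (q : ℕ) : ℝ :=
  ∑ p ∈ (Pr Y).filter (fun p => q ∣ N - p ∧ sif N z (N - p)), ap k Y p

open Classical in
/-- The weight `1 - l ∑_{q ∣ n, z ≤ q < w} φ q` of a sifted number. -/
def wt3 (N : ℕ) (z w l : ℝ) (φ : ℕ → ℝ) (n : ℕ) : ℝ :=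
  if (PN N z).filter (fun p => p ∣ n) = ∅ then 1 - l * ∑ q ∈ (QN N z w).filter (fun q => q ∣ n), φ q
  else 0

open Classical in
/-- The coefficients of the upper bound sieves of level `D / q`, `q ∈ [z, w)`, with weights `φ q`. -/
def rho3 (φ : ℕ → ℝ) (u₀ z w D : ℝ) (m : ℕ) : ℝ :=
  ∑ q ∈ m.primeFactors.filter (fun q : ℕ => z ≤ (q : ℝ) ∧ (q : ℝ) < w),
    φ q * (if smz z (m / q) then rhoS true u₀ (D / q) (m / q).primeFactors else 0)

/-- `∑_{a ≤ x, (a, P) = 1} log (x / a) / a`. -/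
def EE (P : ℕ) (x : ℝ) : ℝ := ∑ a ∈ (Icc 1 ⌊x⌋₊).filter (fun a => a.Coprime P), Real.log (x / a) / a

/-- `∑_{b ≤ y, (b, P) = 1} 1 / b`. -/
def HH (P : ℕ) (y : ℝ) : ℝ := ∑ b ∈ (Icc 1 ⌊y⌋₊).filter (fun b => b.Coprime P), (1 : ℝ) / b

/-- The squarefree numbers up to `x` which are coprime to `P`. -/
def SFP (P : ℕ) (x : ℝ) : Finset ℕ := (SF x).filter (fun d => d.Coprime P)

end Pool.Agent.P4
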