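import Pool.Agent.W_b58c63_h28.Defs

/-!
# Sums over the integers coprime to `P` (MP_b58c63_nt, P_4, task Ebd)
-/

set_option autoImplicit false

noncomputable section

open Finset

namespace Pool.Agent.P4

/-- generic step: splitting off the multiples of `p` -/
private theorem Ebd_split (P p : ℕ) (hp : p.Prime) (hpP : ¬ p ∣ P) (n : ℕ) (f : ℕ → ℝ) :
    ∑ a ∈ (Icc 1 n).filter (fun a => a.Coprime P), f a =
      ∑ a ∈ (Icc 1 n).filter (fun a => a.Coprime (P * p)), f a +
        ∑ a ∈ (Icc 1 (n / p)).filter (fun a => a.Coprime P), f (p * a) := by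
  classical
  rw [← Finset.sum_filter_add_sum_filter_not ((Icc 1 n).filter (fun a => a.Coprime P))
    (fun a => ¬ p ∣ a)]
  congr 1
  · apply Finset.sum_congr _ (fun _ _ => rfl)
    ext a
    simp only [mem_filter, mem_Icc, Nat.coprime_mul_iff_right]
    constructor
    · rintro ⟨⟨h1, h2⟩, h3⟩
      exact ⟨h1, h2, ((Nat.Prime.coprime_iff_not_dvd hp).2 h3).symm⟩
    · rintro ⟨h1, h2, h3⟩
      exact ⟨⟨h1, h2⟩, (Nat.Prime.coprime_iff_not_dvd hp).1 h3.symm⟩
  · symm
    apply Finset.sum_bij (fun a _ => p * a)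
    · intro a ha
      simp only [mem_filter, mem_Icc] at ha ⊢
      refine ⟨⟨⟨?_, ?_⟩, ?_⟩, ?_⟩
      · exact Nat.mul_pos hp.pos (by omega)
      · have := Nat.mul_le_mul_left p ha.1.2
        exact this.trans (Nat.mul_div_le n p)
      · exact Nat.Coprime.mul_left ((Nat.Prime.coprime_iff_not_dvd hp).2 hpP) ha.2
      · simp
    · intro a _ b _ h
      exact Nat.eq_of_mul_eq_mul_left hp.pos h
    · intro b hb
      simp only [mem_filter, mem_Icc, not_not] at hb
      obtain ⟨⟨⟨h1, h2⟩, h3⟩, c, rfl⟩ := hb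
      refine ⟨c, ?_, rfl⟩
      simp only [mem_filter, mem_Icc]
      refine ⟨⟨?_, ?_⟩, ?_⟩
      · rcases Nat.eq_zero_or_pos c with h | h
        · subst h; simp at h1
        · exact h
      · rw [Nat.le_div_iff_mul_le hp.pos]
        linarith [Nat.mul_comm p c]
      · exact Nat.Coprime.coprime_mul_left h3
    · intro a _
      rfl

/-- a prime factor of `P` once more changes nothing -/
private theorem Ebd_filter (P p : ℕ) (hpP : p ∣ P) (n : ℕ) (f : ℕ → ℝ) :
    ∑ a ∈ (Icc 1 n).filter (fun a => a.Coprime (P * p)), f a =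
      ∑ a ∈ (Icc 1 n).filter (fun a => a.Coprime P), f a := by
  apply Finset.sum_congr _ (fun _ _ => rfl)
  ext a
  simp only [mem_filter, mem_Icc, Nat.coprime_mul_iff_right]
  constructor
  · rintro ⟨h1, h2, _⟩
    exact ⟨h1, h2⟩
  · rintro ⟨h1, h2⟩
    exact ⟨h1, h2, Nat.Coprime.coprime_dvd_right hpP h2⟩

private theorem Ebd_G {x a b : ℝ} (hx : 0 < x) (ha : 0 < a) (hb : 0 < b) :
    Real.log (x / a) ^ 2 / 2 - Real.log (x / b) ^ 2 / 2 =
      Real.log (b / a) * (Real.log (x / a) + Real.log (x / b)) / 2 := by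
  rw [Real.log_div hx.ne' ha.ne', Real.log_div hx.ne' hb.ne', Real.log_div hb.ne' ha.ne']
  ring

private theorem Ebd_log_le (a : ℕ) (ha : 1 ≤ a) :
    Real.log (((a + 1 : ℕ) : ℝ) / (a : ℝ)) ≤ 1 / (a : ℝ) := by
  have ha' : (0 : ℝ) < a := by exact_mod_cast ha
  have h := Real.log_le_sub_one_of_pos (x := ((a + 1 : ℕ) : ℝ) / (a : ℝ)) (by positivity)
  refine h.trans (le_of_eq ?_)
  push_cast
  field_simp
  ring

private theorem Ebd_le_log (a : ℕ) (ha : 1 ≤ a) :
    1 / ((a + 1 : ℕ) : ℝ) ≤ Real.log (((a + 1 : ℕ) : ℝ) / (a : ℝ)) := by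
  have ha' : (0 : ℝ) < a := by exact_mod_cast ha
  have h := Real.one_sub_inv_le_log_of_pos (x := ((a + 1 : ℕ) : ℝ) / (a : ℝ)) (by positivity)
  refine le_trans (le_of_eq ?_) h
  push_cast
  field_simp
  ring

private theorem Ebd_low (x : ℝ) (m : ℕ) (hm : ((m + 1 : ℕ) : ℝ) ≤ x) :
    Real.log x ^ 2 / 2 - Real.log (x / ((m + 1 : ℕ) : ℝ)) ^ 2 / 2 +
        Real.log (x / ((m + 1 : ℕ) : ℝ)) / ((m + 1 : ℕ) : ℝ) ≤
      ∑ a ∈ Icc 1 (m + 1), Real.log (x / a) / a := by
  induction m with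
  | zero => simp
  | succ m ih =>
    have h1 : ((m + 1 : ℕ) : ℝ) ≤ x := by
      refine le_trans ?_ hm
      push_cast
      linarith
    have hx : 0 < x := lt_of_lt_of_le (by positivity) h1
    rw [Finset.sum_Icc_succ_top (by omega)]
    have h2 := ih h1
    have h3 := Ebd_G (x := x) (a := ((m + 1 : ℕ) : ℝ)) (b := ((m + 1 + 1 : ℕ) : ℝ)) hx
      (by positivity) (by positivity)
    have h4 := Ebd_log_le (m + 1) (by omega)
    have h5 : 0 ≤ Real.log (((m + 1 + 1 : ℕ) : ℝ) / ((m + 1 : ℕ) : ℝ)) := by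
      apply Real.log_nonneg
      rw [one_le_div (by positivity)]
      push_cast
      linarith
    have h6 : 0 ≤ Real.log (x / ((m + 1 : ℕ) : ℝ)) := by
      apply Real.log_nonneg
      rw [one_le_div (by positivity)]
      exact h1
    have h7 : Real.log (x / ((m + 1 + 1 : ℕ) : ℝ)) ≤ Real.log (x / ((m + 1 : ℕ) : ℝ)) := by
      apply Real.log_le_log (by positivity)
      apply div_le_div_of_nonneg_left hx.le (by positivity)
      push_cast
      linarith
    have h8 : Real.log (((m + 1 + 1 : ℕ) : ℝ) / ((m + 1 : ℕ) : ℝ)) *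
        (Real.log (x / ((m + 1 : ℕ) : ℝ)) + Real.log (x / ((m + 1 + 1 : ℕ) : ℝ))) / 2 ≤
        Real.log (x / ((m + 1 : ℕ) : ℝ)) / ((m + 1 : ℕ) : ℝ) := by
      have h9 : Real.log (((m + 1 + 1 : ℕ) : ℝ) / ((m + 1 : ℕ) : ℝ)) *
        (Real.log (x / ((m + 1 : ℕ) : ℝ)) + Real.log (x / ((m + 1 + 1 : ℕ) : ℝ))) ≤
        Real.log (((m + 1 + 1 : ℕ) : ℝ) / ((m + 1 : ℕ) : ℝ)) *
          (2 * Real.log (x / ((m + 1 : ℕ) : ℝ))) :=
        mul_le_mul_of_nonneg_left (by linarith) h5
      have h10 : Real.log (((m + 1 + 1 : ℕ) : ℝ) / ((m + 1 : ℕ) : ℝ)) *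
          (2 * Real.log (x / ((m + 1 : ℕ) : ℝ))) ≤
          1 / ((m + 1 : ℕ) : ℝ) * (2 * Real.log (x / ((m + 1 : ℕ) : ℝ))) :=
        mul_le_mul_of_nonneg_right h4 (by linarith)
      have h11 : 1 / ((m + 1 : ℕ) : ℝ) * (2 * Real.log (x / ((m + 1 : ℕ) : ℝ))) =
          2 * (Real.log (x / ((m + 1 : ℕ) : ℝ)) / ((m + 1 : ℕ) : ℝ)) := by ring
      linarith
    linarith

private theorem Ebd_up (x : ℝ) (m : ℕ) (hm : ((m + 1 : ℕ) : ℝ) ≤ x) :
    ∑ a ∈ Icc 1 (m + 1), Real.log (x / a) / a ≤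
      Real.log x ^ 2 / 2 + Real.log x - Real.log (x / ((m + 1 : ℕ) : ℝ)) ^ 2 / 2 := by
  induction m with
  | zero => simp
  | succ m ih =>
    have h1 : ((m + 1 : ℕ) : ℝ) ≤ x := by
      refine le_trans ?_ hm
      push_cast
      linarith
    have hx : 0 < x := lt_of_lt_of_le (by positivity) h1
    rw [Finset.sum_Icc_succ_top (by omega)]
    have h2 := ih h1
    have h3 := Ebd_G (x := x) (a := ((m + 1 : ℕ) : ℝ)) (b := ((m + 1 + 1 : ℕ) : ℝ)) hx
      (by positivity) (by positivity)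
    have h4 := Ebd_le_log (m + 1) (by omega)
    have h5 : 0 ≤ Real.log (((m + 1 + 1 : ℕ) : ℝ) / ((m + 1 : ℕ) : ℝ)) := by
      apply Real.log_nonneg
      rw [one_le_div (by positivity)]
      push_cast
      linarith
    have h6 : 0 ≤ Real.log (x / ((m + 1 + 1 : ℕ) : ℝ)) := by
      apply Real.log_nonneg
      rw [one_le_div (by positivity)]
      exact hm
    have h7 : Real.log (x / ((m + 1 + 1 : ℕ) : ℝ)) ≤ Real.log (x / ((m + 1 : ℕ) : ℝ)) := by
      apply Real.log_le_log (by positivity)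
      apply div_le_div_of_nonneg_left hx.le (by positivity)
      push_cast
      linarith
    have h8 : Real.log (x / ((m + 1 + 1 : ℕ) : ℝ)) / ((m + 1 + 1 : ℕ) : ℝ) ≤
        Real.log (((m + 1 + 1 : ℕ) : ℝ) / ((m + 1 : ℕ) : ℝ)) *
        (Real.log (x / ((m + 1 : ℕ) : ℝ)) + Real.log (x / ((m + 1 + 1 : ℕ) : ℝ))) / 2 := by
      have h9 : Real.log (((m + 1 + 1 : ℕ) : ℝ) / ((m + 1 : ℕ) : ℝ)) *
          (2 * Real.log (x / ((m + 1 + 1 : ℕ) : ℝ))) ≤
          Real.log (((m + 1 + 1 : ℕ) : ℝ) / ((m + 1 : ℕ) : ℝ)) *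
        (Real.log (x / ((m + 1 : ℕ) : ℝ)) + Real.log (x / ((m + 1 + 1 : ℕ) : ℝ))) :=
        mul_le_mul_of_nonneg_left (by linarith) h5
      have h10 : 1 / ((m + 1 + 1 : ℕ) : ℝ) * (2 * Real.log (x / ((m + 1 + 1 : ℕ) : ℝ))) ≤
          Real.log (((m + 1 + 1 : ℕ) : ℝ) / ((m + 1 : ℕ) : ℝ)) *
          (2 * Real.log (x / ((m + 1 + 1 : ℕ) : ℝ))) :=
        mul_le_mul_of_nonneg_right h4 (by linarith)
      have h11 : 1 / ((m + 1 + 1 : ℕ) : ℝ) * (2 * Real.log (x / ((m + 1 + 1 : ℕ) : ℝ))) =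
          2 * (Real.log (x / ((m + 1 + 1 : ℕ) : ℝ)) / ((m + 1 + 1 : ℕ) : ℝ)) := by ring
      linarith
    linarith

/-- `P = 1`: comparison with `∫_1^x log (x / t) / t dt = (log x) ^ 2 / 2` (the integrand is antitone on `[1, x]`), first term `log x`. -/
theorem EE_one (x : ℝ) (hx : 1 ≤ x) :
    Real.log x ^ 2 / 2 ≤ EE 1 x ∧ EE 1 x ≤ Real.log x ^ 2 / 2 + Real.log x := by
  have h0 : EE 1 x = ∑ a ∈ Icc 1 ⌊x⌋₊, Real.log (x / a) / a := by
    unfold EE
    rw [Finset.filter_true_of_mem (fun a _ => Nat.coprime_one_right a)]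
  have h1 : 1 ≤ ⌊x⌋₊ := (Nat.le_floor_iff (by linarith)).2 (by simpa using hx)
  obtain ⟨m, hm⟩ : ∃ m, ⌊x⌋₊ = m + 1 := ⟨⌊x⌋₊ - 1, by omega⟩
  have h2 : ((m + 1 : ℕ) : ℝ) ≤ x := by
    rw [← hm]
    exact Nat.floor_le (by linarith)
  have h3 : x < ((m + 1 : ℕ) : ℝ) + 1 := by
    rw [← hm]
    exact Nat.lt_floor_add_one x
  have hx0 : 0 < x := by linarith
  rw [h0, hm]
  have hl := Ebd_low x m h2
  have hu := Ebd_up x m h2
  have h6 : 0 ≤ Real.log (x / ((m + 1 : ℕ) : ℝ)) := by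
    apply Real.log_nonneg
    rw [one_le_div (by positivity)]
    exact h2
  have h7 : Real.log (x / ((m + 1 : ℕ) : ℝ)) ≤ 1 / ((m + 1 : ℕ) : ℝ) := by
    refine le_trans ?_ (Ebd_log_le (m + 1) (by omega))
    apply Real.log_le_log (by positivity)
    apply div_le_div_of_nonneg_right _ (by positivity)
    push_cast at h3 ⊢
    linarith
  constructor
  · refine le_trans ?_ hl
    have h8 : Real.log (x / ((m + 1 : ℕ) : ℝ)) ^ 2 ≤
        Real.log (x / ((m + 1 : ℕ) : ℝ)) / ((m + 1 : ℕ) : ℝ) := by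
      calc Real.log (x / ((m + 1 : ℕ) : ℝ)) ^ 2
          = Real.log (x / ((m + 1 : ℕ) : ℝ)) * Real.log (x / ((m + 1 : ℕ) : ℝ)) := by ring
        _ ≤ Real.log (x / ((m + 1 : ℕ) : ℝ)) * (1 / ((m + 1 : ℕ) : ℝ)) :=
          mul_le_mul_of_nonneg_left h7 h6
        _ = _ := by ring
    have h9 : 0 ≤ Real.log (x / ((m + 1 : ℕ) : ℝ)) / ((m + 1 : ℕ) : ℝ) := by positivity
    linarith
  · have h10 : 0 ≤ Real.log (x / ((m + 1 : ℕ) : ℝ)) ^ 2 := sq_nonneg _
    linarith

private theorem Ebd_floor (x : ℝ) (p : ℕ) : ⌊x / (p : ℝ)⌋₊ = ⌊x⌋₊ / p :=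
  Nat.floor_div_natCast x p

/-- One more prime: the `a ≤ x` coprime to `P` which are divisible by `p` are the `p a'`, `a' ≤ x / p` coprime to `P`. -/
theorem EE_step (P p : ℕ) (hp : p.Prime) (hpP : ¬ p ∣ P) (x : ℝ) (hx : 0 ≤ x) :
    EE P x = EE (P * p) x + 1 / (p : ℝ) * EE P (x / p) := by
  unfold EE
  rw [Ebd_split P p hp hpP, Ebd_floor, Finset.mul_sum]
  congr 1
  apply Finset.sum_congr rfl
  intro a _
  push_cast
  rw [div_div x (p : ℝ) (a : ℝ)]
  rw [one_div, inv_mul_eq_div, div_div, mul_comm (a : ℝ) (p : ℝ)]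

/-- One more prime, for the harmonic sum. -/
private theorem Ebd_HH_step (P p : ℕ) (hp : p.Prime) (hpP : ¬ p ∣ P) (x : ℝ) :
    HH P x = HH (P * p) x + 1 / (p : ℝ) * HH P (x / p) := by
  unfold HH
  rw [Ebd_split P p hp hpP, Ebd_floor, Finset.mul_sum]
  congr 1
  apply Finset.sum_congr rfl
  intro a _
  push_cast
  rw [one_div, one_div, one_div, mul_inv]

private theorem Ebd_term {x : ℝ} {a : ℕ} (ha : a ∈ Icc 1 ⌊x⌋₊) (hx : 0 ≤ x) :
    0 ≤ Real.log (x / a) / a := by
  rw [mem_Icc] at ha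
  have h1 : (a : ℝ) ≤ x := (Nat.le_floor_iff hx).1 ha.2
  have h2 : (0 : ℝ) < a := by exact_mod_cast ha.1
  apply div_nonneg _ h2.le
  apply Real.log_nonneg
  rw [one_le_div h2]
  exact h1

private theorem Ebd_nonneg (P : ℕ) {x : ℝ} (hx : 0 ≤ x) : 0 ≤ EE P x := by
  unfold EE
  apply Finset.sum_nonneg
  intro a ha
  exact Ebd_term (mem_of_mem_filter a ha) hx

private theorem Ebd_mono (P : ℕ) {x y : ℝ} (hx : 0 < x) (hxy : x ≤ y) : EE P x ≤ EE P y := by
  unfold EE
  calc ∑ a ∈ (Icc 1 ⌊x⌋₊).filter (fun a => a.Coprime P), Real.log (x / a) / a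
      ≤ ∑ a ∈ (Icc 1 ⌊x⌋₊).filter (fun a => a.Coprime P), Real.log (y / a) / a := by
        apply Finset.sum_le_sum
        intro a ha
        have h1 := mem_of_mem_filter a ha
        rw [mem_Icc] at h1
        have h2 : (0 : ℝ) < a := by exact_mod_cast h1.1
        apply div_le_div_of_nonneg_right _ h2.le
        apply Real.log_le_log (by positivity)
        exact div_le_div_of_nonneg_right hxy h2.le
    _ ≤ ∑ a ∈ (Icc 1 ⌊y⌋₊).filter (fun a => a.Coprime P), Real.log (y / a) / a := by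
        apply Finset.sum_le_sum_of_subset_of_nonneg
        · apply Finset.filter_subset_filter
          apply Finset.Icc_subset_Icc_right
          exact Nat.floor_mono hxy
        · intro a ha _
          exact Ebd_term (mem_of_mem_filter a ha) (by linarith)

private theorem Ebd_HH_mono (P : ℕ) {x y : ℝ} (hxy : x ≤ y) : HH P x ≤ HH P y := by
  unfold HH
  apply Finset.sum_le_sum_of_subset_of_nonneg
  · apply Finset.filter_subset_filter
    apply Finset.Icc_subset_Icc_right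
    exact Nat.floor_mono hxy
  · intro a _ _
    positivity

/-- induction on the number of prime factors -/
private theorem Ebd_ind {Q : ℕ → Prop} (h1 : Q 1)
    (h2 : ∀ P p : ℕ, 1 ≤ P → p.Prime → ¬ p ∣ P → Q P → Q (P * p))
    (h3 : ∀ P p : ℕ, 1 ≤ P → p.Prime → p ∣ P → Q P → Q (P * p)) (P : ℕ) (hP : 1 ≤ P) : Q P := by
  induction P using Nat.strong_induction_on with
  | _ P ih =>
    rcases Nat.eq_or_lt_of_le hP with h | h
    · rw [← h]
      exact h1
    · have hp : (P.minFac).Prime := Nat.minFac_prime (by omega)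
      obtain ⟨R, hR⟩ := Nat.minFac_dvd P
      have hR0 : 1 ≤ R := by
        rcases Nat.eq_zero_or_pos R with h0 | h0
        · rw [h0, mul_zero] at hR
          omega
        · exact h0
      have hlt : R < P := by
        have h4 := hp.two_le
        calc R < P.minFac * R := by nlinarith
          _ = P := hR.symm
      have h5 := ih R hlt hR0
      have h6 : P = R * P.minFac := by rw [mul_comm]; exact hR
      by_cases hd : P.minFac ∣ R
      · have := h3 R P.minFac hR0 hp hd h5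
        rwa [← h6] at this
      · have := h2 R P.minFac hR0 hp hd h5
        rwa [← h6] at this

private theorem Ebd_tot_new (P p : ℕ) (hP : 1 ≤ P) (hp : p.Prime) (hpP : ¬ p ∣ P) :
    (((P * p).totient : ℕ) : ℝ) / ((P * p : ℕ) : ℝ) =
      (P.totient : ℝ) / P - 1 / (p : ℝ) * ((P.totient : ℝ) / P) := by
  have h1 : Nat.Coprime P p := ((Nat.Prime.coprime_iff_not_dvd hp).2 hpP).symm
  rw [Nat.totient_mul h1, Nat.totient_prime hp]
  have hp0 : (0 : ℝ) < p := by exact_mod_cast hp.pos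
  have hP0 : (0 : ℝ) < P := by exact_mod_cast hP
  rw [Nat.cast_mul, Nat.cast_mul, Nat.cast_sub hp.one_le]
  push_cast
  field_simp

private theorem Ebd_tot_old (P p : ℕ) (hP : 1 ≤ P) (hp : p.Prime) (hpP : p ∣ P) :
    (((P * p).totient : ℕ) : ℝ) / ((P * p : ℕ) : ℝ) = (P.totient : ℝ) / P := by
  have hp0 : (0 : ℝ) < p := by exact_mod_cast hp.pos
  have hP0 : (0 : ℝ) < P := by exact_mod_cast hP
  rw [mul_comm P p, Nat.totient_mul_of_prime_of_dvd hp hpP]
  push_cast
  field_simp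

private theorem Ebd_tot_le (P : ℕ) : (P.totient : ℝ) / P ≤ 1 := by
  rcases Nat.eq_zero_or_pos P with h | h
  · subst h
    simp
  · rw [div_le_one (by exact_mod_cast h)]
    exact_mod_cast Nat.totient_le P

/-- `EE P` is monotone (more terms, larger terms) and depends only on the prime factors of `P`.

Proof of the bounds by induction on the prime factors. Lower bound: `EE (P p) x ≥ EE P x - (1 / p) EE P x`. Upper bound:
`EE (P p) x = EE P x - (1 / p) EE P (x / p)` and, for `x ≥ p`, `(log x) ^ 2 / 2 - (log (x / p)) ^ 2 / 2 ≤ log x log p` (for `x < p`: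
`(log x) ^ 2 ≤ log x log p`), so the constant increases by at most `(log p) / p ≤ log p`; the sum of the `log p`, `p ∣ P`, is at most `log P`. -/
theorem EE_ge (P : ℕ) (hP : 1 ≤ P) (x : ℝ) (hx : 1 ≤ x) :
    (P.totient : ℝ) / P * (Real.log x ^ 2 / 2) ≤ EE P x := by
  revert P
  apply Ebd_ind
  · simpa using (EE_one x hx).1
  · intro P p hP hp hpP ih
    have hp1 : (1 : ℝ) ≤ p := by exact_mod_cast hp.one_le
    have h1 := EE_step P p hp hpP x (by linarith)
    have h2 : EE P (x / p) ≤ EE P x := Ebd_mono P (by positivity) (div_le_self (by linarith) hp1)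
    rw [Ebd_tot_new P p hP hp hpP]
    have h3 : 1 / (p : ℝ) * EE P (x / p) ≤ 1 / (p : ℝ) * EE P x :=
      mul_le_mul_of_nonneg_left h2 (by positivity)
    have h4 : (1 - 1 / (p : ℝ)) * ((P.totient : ℝ) / P * (Real.log x ^ 2 / 2)) ≤
        (1 - 1 / (p : ℝ)) * EE P x := by
      apply mul_le_mul_of_nonneg_left ih
      rw [sub_nonneg, div_le_one (by linarith)]
      exact hp1
    nlinarith [h1, h3, h4]
  · intro P p hP hp hpP ih
    rw [Ebd_tot_old P p hP hp hpP]
    unfold EE at ih ⊢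
    rw [Ebd_filter P p hpP]
    exact ih

/-- See `EE_ge`. -/
theorem EE_le (P : ℕ) (hP : 1 ≤ P) (x : ℝ) (hx : 1 ≤ x) :
    EE P x ≤ (P.totient : ℝ) / P * (Real.log x ^ 2 / 2) + (1 + Real.log P) * Real.log x := by
  have hlx : 0 ≤ Real.log x := Real.log_nonneg hx
  revert P
  apply Ebd_ind
  · simpa using (EE_one x hx).2
  · intro P p hP hp hpP ih
    have hp1 : (1 : ℝ) ≤ p := by exact_mod_cast hp.one_le
    have hp0 : (0 : ℝ) < p := by linarith
    have hP0 : (0 : ℝ) < P := by exact_mod_cast hP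
    have hlp : 0 ≤ Real.log p := Real.log_nonneg hp1
    have h1 := EE_step P p hp hpP x (by linarith)
    have h2 : (P.totient : ℝ) / P * (Real.log x ^ 2 / 2) - Real.log p * Real.log x ≤
        EE P (x / p) := by
      have h0 : 0 ≤ (P.totient : ℝ) / P := by positivity
      have h00 := Ebd_tot_le P
      rcases le_or_gt (p : ℝ) x with h | h
      · have h3 := EE_ge P hP (x / p) (by rw [one_le_div hp0]; exact h)
        have h4 := Ebd_G (x := x) (a := 1) (b := (p : ℝ)) (by linarith) one_pos hp0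
        rw [div_one, div_one] at h4
        have h5 : Real.log (x / p) ≤ Real.log x :=
          Real.log_le_log (by positivity) (div_le_self (by linarith) hp1)
        have h6 : Real.log p * (Real.log x + Real.log (x / p)) ≤ Real.log p * (2 * Real.log x) :=
          mul_le_mul_of_nonneg_left (by linarith) hlp
        have h7 : Real.log x ^ 2 / 2 - Real.log (x / p) ^ 2 / 2 ≤ Real.log p * Real.log x := by
          linarith
        have h8 : (P.totient : ℝ) / P * (Real.log x ^ 2 / 2 - Real.log (x / p) ^ 2 / 2) ≤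
            (P.totient : ℝ) / P * (Real.log p * Real.log x) :=
          mul_le_mul_of_nonneg_left h7 h0
        have h9 : (P.totient : ℝ) / P * (Real.log p * Real.log x) ≤
            1 * (Real.log p * Real.log x) :=
          mul_le_mul_of_nonneg_right h00 (mul_nonneg hlp hlx)
        linarith
      · have h3 : 0 ≤ EE P (x / p) := Ebd_nonneg P (by positivity)
        have h4 : Real.log x ≤ Real.log p := Real.log_le_log (by linarith) h.le
        have h5 : (P.totient : ℝ) / P * (Real.log x ^ 2 / 2) ≤ 1 * (Real.log x ^ 2 / 2) :=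
          mul_le_mul_of_nonneg_right h00 (by positivity)
        have h6 : Real.log x ^ 2 ≤ Real.log p * Real.log x := by
          nlinarith
        nlinarith [sq_nonneg (Real.log x)]
    rw [Ebd_tot_new P p hP hp hpP]
    have h3 : 1 / (p : ℝ) * ((P.totient : ℝ) / P * (Real.log x ^ 2 / 2) -
        Real.log p * Real.log x) ≤ 1 / (p : ℝ) * EE P (x / p) :=
      mul_le_mul_of_nonneg_left h2 (by positivity)
    have h4 : 1 / (p : ℝ) * (Real.log p * Real.log x) ≤ 1 * (Real.log p * Real.log x) := by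
      apply mul_le_mul_of_nonneg_right _ (mul_nonneg hlp hlx)
      rw [div_le_one hp0]
      exact hp1
    have h5 : Real.log ((P * p : ℕ) : ℝ) = Real.log P + Real.log p := by
      push_cast
      exact Real.log_mul hP0.ne' hp0.ne'
    rw [h5]
    nlinarith [h1, h3, h4, ih]
  · intro P p hP hp hpP ih
    rw [Ebd_tot_old P p hP hp hpP]
    have hP0 : (0 : ℝ) < P := by exact_mod_cast hP
    have hp1 : (1 : ℝ) ≤ p := by exact_mod_cast hp.one_le
    have h5 : Real.log ((P * p : ℕ) : ℝ) = Real.log P + Real.log p := by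
      push_cast
      exact Real.log_mul hP0.ne' (by linarith : (0 : ℝ) < p).ne'
    have h6 : EE (P * p) x = EE P x := by
      unfold EE
      rw [Ebd_filter P p hpP]
    rw [h5, h6]
    have hlp : 0 ≤ Real.log p := Real.log_nonneg hp1
    nlinarith [mul_nonneg hlp hlx]

/-- `EE P` is monotone. -/
theorem EE_mono (P : ℕ) {x y : ℝ} (hx : 0 < x) (hxy : x ≤ y) : EE P x ≤ EE P y :=
  Ebd_mono P hx hxy

private theorem Ebd_harm (y : ℝ) (hy : 1 ≤ y) : Real.log y ≤ HH 1 y := by
  have h0 : HH 1 y = ((harmonic ⌊y⌋₊ : ℚ) : ℝ) := by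
    unfold HH
    rw [Finset.filter_true_of_mem (fun a _ => Nat.coprime_one_right a), harmonic_eq_sum_Icc]
    push_cast
    apply Finset.sum_congr rfl
    intro a _
    rw [one_div]
  rw [h0]
  refine le_trans ?_ (log_add_one_le_harmonic ⌊y⌋₊)
  apply Real.log_le_log (by linarith)
  push_cast
  exact (Nat.lt_floor_add_one y).le

/-- The same way (`P = 1`: the harmonic sum is at least `log y`; step: `HH P y = HH (P p) y + (1 / p) HH P (y / p)`). -/
theorem HH_ge (P : ℕ) (hP : 1 ≤ P) (y : ℝ) (hy : 1 ≤ y) : (P.totient : ℝ) / P * Real.log y ≤ HH P y := by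
  revert P
  apply Ebd_ind
  · simpa using Ebd_harm y hy
  · intro P p hP hp hpP ih
    have hp1 : (1 : ℝ) ≤ p := by exact_mod_cast hp.one_le
    have h1 := Ebd_HH_step P p hp hpP y
    have h2 : HH P (y / p) ≤ HH P y := Ebd_HH_mono P (div_le_self (by linarith) hp1)
    rw [Ebd_tot_new P p hP hp hpP]
    have h3 : 1 / (p : ℝ) * HH P (y / p) ≤ 1 / (p : ℝ) * HH P y :=
      mul_le_mul_of_nonneg_left h2 (by positivity)
    have h4 : (1 - 1 / (p : ℝ)) * ((P.totient : ℝ) / P * Real.log y) ≤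
        (1 - 1 / (p : ℝ)) * HH P y := by
      apply mul_le_mul_of_nonneg_left ih
      rw [sub_nonneg, div_le_one (by linarith)]
      exact hp1
    nlinarith [h1, h3, h4]
  · intro P p hP hp hpP ih
    rw [Ebd_tot_old P p hP hp hpP]
    unfold HH at ih ⊢
    rw [Ebd_filter P p hpP]
    exact ih

end Pool.Agent.P4
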