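import Pool.Agent.W_b58c63_h28.Defs

/-!
# Numerics of the Selberg part (MP_b58c63_nt, P_4, task NuB)
-/

set_option autoImplicit false

noncomputable section

namespace Pool.Agent.P4

/-- The value of one piece. -/
def RR (u v₁ v₂ : ℝ) : ℝ := 6000000 / (499 * 561 * KK u) * (Real.log (v₂ / v₁) - 8 / 5 * (v₂ - v₁))

/-! The values are `KK = 4.11681, 3.81057, 3.45382, 3.09364, 2.73329, 2.27545`,
`log (v₂ / v₁) - 8 / 5 (v₂ - v₁) = 0.0211230, 0.0172405, 0.0150959, 0.0103750, 0.00624230, 0.00272354`,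
`RR = 0.109972, 0.096972, 0.093680, 0.071880, 0.048949, 0.025654`. Needed: upper bounds for `log u` (`KK u` is decreasing in `log u`) and for
`log (v₂ / v₁)`, for instance `Real.log_le_sub_one_of_pos`-type bounds are too weak for the latter: use the series
(`Real.hasSum_log_sub_log_of_abs_lt_one`, or `Real.exp_bound'` / `Real.sum_le_exp_of_nonneg` at a rational number). -/

private theorem NuB_log {x y : ℝ} (hx : 0 < x) (hy : 0 ≤ y) (n : ℕ)
    (h : x ≤ ∑ i ∈ Finset.range n, y ^ i / (i.factorial : ℝ)) : Real.log x ≤ y := by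
  rw [Real.log_le_iff_le_exp hx]
  exact h.trans (Real.sum_le_exp_of_nonneg hy n)

private theorem NuB_pos {u lu : ℝ} (h : Real.log u ≤ lu)
    (hK : 0 < 5 / 4 * u ^ 2 - u + 1 / 4 - u ^ 2 / 2 * lu) : 0 < KK u := by
  unfold KK
  have := mul_le_mul_of_nonneg_left h (show 0 ≤ u ^ 2 / 2 by positivity)
  linarith

private theorem NuB_RR {u v₁ v₂ lu lv c : ℝ} (h : Real.log u ≤ lu)
    (hK : 0 < 5 / 4 * u ^ 2 - u + 1 / 4 - u ^ 2 / 2 * lu) (h' : Real.log (v₂ / v₁) ≤ lv)
    (h0 : 0 ≤ lv - 8 / 5 * (v₂ - v₁))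
    (hc : 6000000 * (lv - 8 / 5 * (v₂ - v₁)) ≤
      c * (499 * 561 * (5 / 4 * u ^ 2 - u + 1 / 4 - u ^ 2 / 2 * lu))) : RR u v₁ v₂ ≤ c := by
  have hKK : 5 / 4 * u ^ 2 - u + 1 / 4 - u ^ 2 / 2 * lu ≤ KK u := by
    unfold KK
    have := mul_le_mul_of_nonneg_left h (show 0 ≤ u ^ 2 / 2 by positivity)
    linarith
  have hp : 0 < KK u := hK.trans_le hKK
  have hc0 : 0 ≤ c := by
    by_contra hneg
    push Not at hneg
    have : c * (499 * 561 * (5 / 4 * u ^ 2 - u + 1 / 4 - u ^ 2 / 2 * lu)) < 0 :=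
      mul_neg_of_neg_of_pos hneg (by positivity)
    linarith
  unfold RR
  rw [div_mul_eq_mul_div, div_le_iff₀ (by positivity)]
  have h2 : c * (499 * 561 * (5 / 4 * u ^ 2 - u + 1 / 4 - u ^ 2 / 2 * lu)) ≤
      c * (499 * 561 * KK u) := mul_le_mul_of_nonneg_left (by linarith) hc0
  linarith

private theorem NuB_lu0 : Real.log (10 / 3) ≤ 301 / 250 := by
  refine NuB_log (by norm_num) (by norm_num) 9 ?_
  simp only [Finset.sum_range_succ, Finset.sum_range_zero, Nat.factorial]
  norm_num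

private theorem NuB_lv0 : Real.log (89 / 200 / (499 / 1200)) ≤ 6779 / 100000 := by
  refine NuB_log (by norm_num) (by norm_num) 5 ?_
  simp only [Finset.sum_range_succ, Finset.sum_range_zero, Nat.factorial]
  norm_num

private theorem NuB_lu1 : Real.log (63 / 20) ≤ 459 / 400 := by
  refine NuB_log (by norm_num) (by norm_num) 8 ?_
  simp only [Finset.sum_range_succ, Finset.sum_range_zero, Nat.factorial]
  norm_num

private theorem NuB_lv1 : Real.log (19 / 40 / (89 / 200)) ≤ 65241 / 1000000 := by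
  refine NuB_log (by norm_num) (by norm_num) 5 ?_
  simp only [Finset.sum_range_succ, Finset.sum_range_zero, Nat.factorial]
  norm_num

private theorem NuB_lu2 : Real.log (147 / 50) ≤ 2157 / 2000 := by
  refine NuB_log (by norm_num) (by norm_num) 8 ?_
  simp only [Finset.sum_range_succ, Finset.sum_range_zero, Nat.factorial]
  norm_num

private theorem NuB_lv2 : Real.log (51 / 100 / (19 / 40)) ≤ 8887 / 125000 := by
  refine NuB_log (by norm_num) (by norm_num) 5 ?_
  simp only [Finset.sum_range_succ, Finset.sum_range_zero, Nat.factorial]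
  norm_num

private theorem NuB_lu3 : Real.log (273 / 100) ≤ 2511 / 2500 := by
  refine NuB_log (by norm_num) (by norm_num) 7 ?_
  simp only [Finset.sum_range_succ, Finset.sum_range_zero, Nat.factorial]
  norm_num

private theorem NuB_lv3 : Real.log (109 / 200 / (51 / 100)) ≤ 8297 / 125000 := by
  refine NuB_log (by norm_num) (by norm_num) 4 ?_
  simp only [Finset.sum_range_succ, Finset.sum_range_zero, Nat.factorial]
  norm_num

private theorem NuB_lu4 : Real.log (63 / 25) ≤ 9243 / 10000 := by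
  refine NuB_log (by norm_num) (by norm_num) 8 ?_
  simp only [Finset.sum_range_succ, Finset.sum_range_zero, Nat.factorial]
  norm_num

private theorem NuB_lv4 : Real.log (29 / 50 / (109 / 200)) ≤ 62243 / 1000000 := by
  refine NuB_log (by norm_num) (by norm_num) 4 ?_
  simp only [Finset.sum_range_succ, Finset.sum_range_zero, Nat.factorial]
  norm_num

private theorem NuB_lu5 : Real.log (9 / 4) ≤ 811 / 1000 := by
  refine NuB_log (by norm_num) (by norm_num) 7 ?_
  simp only [Finset.sum_range_succ, Finset.sum_range_zero, Nat.factorial]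
  norm_num

private theorem NuB_lv5 : Real.log (5 / 8 / (29 / 50)) ≤ 18681 / 250000 := by
  refine NuB_log (by norm_num) (by norm_num) 5 ?_
  simp only [Finset.sum_range_succ, Finset.sum_range_zero, Nat.factorial]
  norm_num

theorem KK_pos0 : 0 < KK (10 / 3) :=
  NuB_pos NuB_lu0 (by norm_num)

theorem KK_pos1 : 0 < KK (63 / 20) :=
  NuB_pos NuB_lu1 (by norm_num)

theorem KK_pos2 : 0 < KK (147 / 50) :=
  NuB_pos NuB_lu2 (by norm_num)

theorem KK_pos3 : 0 < KK (273 / 100) :=
  NuB_pos NuB_lu3 (by norm_num)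

theorem KK_pos4 : 0 < KK (63 / 25) :=
  NuB_pos NuB_lu4 (by norm_num)

theorem KK_pos5 : 0 < KK (9 / 4) :=
  NuB_pos NuB_lu5 (by norm_num)

theorem RR0 : RR (10 / 3) (499 / 1200) (89 / 200) ≤ 1100 / 10000 :=
  NuB_RR NuB_lu0 (by norm_num) NuB_lv0 (by norm_num) (by norm_num)

theorem RR1 : RR (63 / 20) (89 / 200) (19 / 40) ≤ 970 / 10000 :=
  NuB_RR NuB_lu1 (by norm_num) NuB_lv1 (by norm_num) (by norm_num)

theorem RR2 : RR (147 / 50) (19 / 40) (51 / 100) ≤ 937 / 10000 :=
  NuB_RR NuB_lu2 (by norm_num) NuB_lv2 (by norm_num) (by norm_num)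

theorem RR3 : RR (273 / 100) (51 / 100) (109 / 200) ≤ 719 / 10000 :=
  NuB_RR NuB_lu3 (by norm_num) NuB_lv3 (by norm_num) (by norm_num)

theorem RR4 : RR (63 / 25) (109 / 200) (29 / 50) ≤ 490 / 10000 :=
  NuB_RR NuB_lu4 (by norm_num) NuB_lv4 (by norm_num) (by norm_num)

theorem RR5 : RR (9 / 4) (29 / 50) (5 / 8) ≤ 257 / 10000 :=
  NuB_RR NuB_lu5 (by norm_num) NuB_lv5 (by norm_num) (by norm_num)

end Pool.Agent.P4
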