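import Pool.Agent.W_b58c63_h28.SqA

/-!
# One piece of the Selberg part (MP_b58c63_nt, P_4, task Pie)
-/

set_option autoImplicit false

noncomputable section

open Finset

namespace Pool.Agent.P4

open Pool.Agent.Wb58c63

/-- The integral of `(1 - (8 / 5) t) / t`. -/
theorem Pie_int (v₁ v₂ : ℝ) (h1 : 0 < v₁) (h12 : v₁ ≤ v₂) :
    ∫ t in v₁..v₂, (1 - 8 / 5 * t) / t = Real.log (v₂ / v₁) - 8 / 5 * (v₂ - v₁) := by
  have e : Set.EqOn (fun t : ℝ => (1 - 8 / 5 * t) / t) (fun t : ℝ => t⁻¹ - 8 / 5) (Set.uIcc v₁ v₂) := by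
    intro t ht
    rw [Set.uIcc_of_le h12] at ht
    have h0 : t ≠ 0 := (lt_of_lt_of_le h1 ht.1).ne'
    simp only []
    field_simp
  rw [intervalIntegral.integral_congr e, intervalIntegral.integral_sub, integral_inv_of_pos h1 (lt_of_lt_of_le h1 h12)]
  · simp
    ring
  · apply intervalIntegral.intervalIntegrable_inv
    · intro t ht
      rw [Set.uIcc_of_le h12] at ht
      exact (lt_of_lt_of_le h1 ht.1).ne'
    · exact continuousOn_id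
  · exact intervalIntegrable_const

/-- **One piece.**

Proof. `SQ_asymp` (`a = v₁`, `v = v₂`) for the `q ∈ QN N (Y ^ v₁) (Y ^ v₂) ⊆ PI (Y ^ v₁) (Y ^ v₂)`,
`om y q = 1 - log q / log y = 1 - (8 / 5) t ≥ 0` with `y = Y ^ (5/8)`, `t = log q / log Y ∈ [v₁, v₂]`, and `prime_riemann` for
`H t = 1 - (8 / 5) t` (`D = Y`): `∑ om gp ≤ log (v₂ / v₁) - (8 / 5) (v₂ - v₁) + δ'`. -/
theorem piece (k : ℕ) (v₁ v₂ u δ : ℝ) (h1 : 0 < v₁) (h12 : v₁ ≤ v₂) (h2 : v₂ ≤ 5 / 8) (hu : 1 < u) (hK : 0 < KK u)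
    (hv : 499 / 3000 * u < 1 - v₂) (ha : 499 / 6000 * u < v₁) (hδ : 0 < δ) :
    ∃ Y₀ : ℝ, 3 ≤ Y₀ ∧ ∀ (Y : ℝ) (N : ℕ), Y₀ ≤ Y → Even N → Y ^ 2 / 2 < N → (N : ℝ) ≤ Y ^ 2 →
      ∑ q ∈ QN N (Y ^ v₁) (Y ^ v₂), om (Y ^ (5 / 8 : ℝ)) q * SQ k Y N (Y ^ (499 / 6000 : ℝ)) q ≤
        XM k Y * VP gp (PN N (Y ^ (499 / 6000 : ℝ))) *
          (6000000 / (499 * 561 * KK u) * (Real.log (v₂ / v₁) - 8 / 5 * (v₂ - v₁)) + δ) := by
  obtain ⟨c, hc⟩ : ∃ c : ℝ, c = 6000000 / (499 * 561 * KK u) := ⟨_, rfl⟩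
  obtain ⟨L, hL⟩ : ∃ L : ℝ, L = Real.log (v₂ / v₁) - 8 / 5 * (v₂ - v₁) := ⟨_, rfl⟩
  have hc0 : 0 < c := by
    rw [hc]
    positivity
  obtain ⟨η, hη⟩ : ∃ η : ℝ, η = min 1 (δ / (c + |L| + 1)) := ⟨_, rfl⟩
  have hden : 0 < c + |L| + 1 := by positivity
  have hη0 : 0 < η := by
    rw [hη]
    exact lt_min one_pos (div_pos hδ hden)
  have hη1 : η ≤ 1 := by
    rw [hη]
    exact min_le_left _ _
  have hη2 : η * (c + |L| + 1) ≤ δ := by
    rw [← le_div_iff₀ hden, hη]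
    exact min_le_right _ _
  obtain ⟨Y₁, hY₁, hS⟩ := SQ_asymp k v₁ v₂ u η hu hK hv ha hη0
  obtain ⟨Y₂, hY₂, hR⟩ := prime_riemann (fun t => 1 - 8 / 5 * t) v₁ v₂ h1 h12
    (fun a _ b _ hab => by show (1 : ℝ) - 8 / 5 * b ≤ 1 - 8 / 5 * a; linarith)
    (fun t ht => by show (0 : ℝ) ≤ 1 - 8 / 5 * t; linarith [ht.2]) η hη0
  refine ⟨max Y₁ Y₂, hY₁.trans (le_max_left _ _), ?_⟩
  intro Y N hY hN hN1 hN2
  have hYa : Y₁ ≤ Y := (le_max_left _ _).trans hY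
  have hYb : Y₂ ≤ Y := (le_max_right _ _).trans hY
  have hY3 : 3 ≤ Y := hY₁.trans hYa
  have hY1 : 1 < Y := by linarith
  have hlY : 0 < Real.log Y := Real.log_pos hY1
  have hX : 0 ≤ XM k Y := Finset.sum_nonneg fun p _ => ap_nonneg k Y hY1.le p
  have hV : 0 < VP gp (PN N (Y ^ (499 / 6000 : ℝ))) := by
    apply VP_pos
    intro p hp
    obtain ⟨h3, h4⟩ := HW_mem_PN.1 hp
    obtain ⟨h5, _, _⟩ := mem_PI.1 h3
    apply JFin_gp
    have h6 : p ≠ 2 := by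
      rintro rfl
      exact h4 hN.two_dvd
    have h7 := h5.two_le
    have h8 : 3 ≤ p := by omega
    exact_mod_cast h8
  have hly : Real.log (Y ^ (5 / 8 : ℝ)) = 5 / 8 * Real.log Y := Real.log_rpow (by linarith) _
  have hq : ∀ q ∈ QN N (Y ^ v₁) (Y ^ v₂), q.Prime ∧ Y ^ v₁ ≤ q ∧ (q : ℝ) < Y ^ v₂ ∧ 1 < (q : ℝ) ∧
      om (Y ^ (5 / 8 : ℝ)) q = 1 - 8 / 5 * (Real.log q / Real.log Y) ∧
      0 ≤ 1 - 8 / 5 * (Real.log q / Real.log Y) := by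
    intro q hq
    obtain ⟨hq1, hq2, hq3⟩ := mem_PI.1 (HW_mem_QN.1 hq).1
    have hq4 : 1 < (q : ℝ) := by exact_mod_cast hq1.one_lt
    refine ⟨hq1, hq2, hq3, hq4, ?_, ?_⟩
    · unfold om
      rw [hly]
      field_simp
    · have h3 : Real.log q ≤ v₂ * Real.log Y := by
        rw [← Real.log_rpow (by linarith) v₂]
        exact Real.log_le_log (by linarith) hq3.le
      have h4 : Real.log q / Real.log Y ≤ v₂ := by
        rw [div_le_iff₀ hlY]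
        exact h3
      linarith
  have key : ∑ q ∈ QN N (Y ^ v₁) (Y ^ v₂), om (Y ^ (5 / 8 : ℝ)) q * gp q ≤ L + η := by
    have h3 := hR Y hYb
    have e := Pie_int v₁ v₂ h1 h12
    rw [e, ← hL] at h3
    refine le_trans ?_ h3
    have h4 : ∑ q ∈ QN N (Y ^ v₁) (Y ^ v₂), om (Y ^ (5 / 8 : ℝ)) q * gp q =
        ∑ q ∈ QN N (Y ^ v₁) (Y ^ v₂), (1 - 8 / 5 * (Real.log q / Real.log Y)) / ((q : ℝ) - 1) := by
      apply Finset.sum_congr rfl
      intro q hqq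
      rw [(hq q hqq).2.2.2.2.1]
      unfold gp
      rw [mul_one_div]
    rw [h4]
    apply Finset.sum_le_sum_of_subset_of_nonneg
    · intro q hqq
      exact (HW_mem_QN.1 hqq).1
    · intro q hqq _
      obtain ⟨hq1, hq2, hq3⟩ := mem_PI.1 hqq
      have hq4 : 1 < (q : ℝ) := by exact_mod_cast hq1.one_lt
      apply div_nonneg _ (by linarith)
      have h3 : Real.log q ≤ v₂ * Real.log Y := by
        rw [← Real.log_rpow (by linarith) v₂]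
        exact Real.log_le_log (by linarith) hq3.le
      have h4 : Real.log q / Real.log Y ≤ v₂ := by
        rw [div_le_iff₀ hlY]
        exact h3
      linarith
  rw [← hc, ← hL]
  calc ∑ q ∈ QN N (Y ^ v₁) (Y ^ v₂), om (Y ^ (5 / 8 : ℝ)) q * SQ k Y N (Y ^ (499 / 6000 : ℝ)) q
      ≤ ∑ q ∈ QN N (Y ^ v₁) (Y ^ v₂), XM k Y * VP gp (PN N (Y ^ (499 / 6000 : ℝ))) * (c + η) *
          (om (Y ^ (5 / 8 : ℝ)) q * gp q) := by
        apply Finset.sum_le_sum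
        intro q hqq
        obtain ⟨hq1, hq2, hq3, hq4, hq5, hq6⟩ := hq q hqq
        have h3 := hS Y N q hYa hN hN1 hN2 hq1 hq2 hq3.le
        rw [← hc] at h3
        have h4 : 0 ≤ om (Y ^ (5 / 8 : ℝ)) q := by rw [hq5]; exact hq6
        calc om (Y ^ (5 / 8 : ℝ)) q * SQ k Y N (Y ^ (499 / 6000 : ℝ)) q
            ≤ om (Y ^ (5 / 8 : ℝ)) q * (XM k Y * VP gp (PN N (Y ^ (499 / 6000 : ℝ))) * (gp q * (c + η))) :=
              mul_le_mul_of_nonneg_left h3 h4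
          _ = _ := by ring
    _ = XM k Y * VP gp (PN N (Y ^ (499 / 6000 : ℝ))) * (c + η) *
          ∑ q ∈ QN N (Y ^ v₁) (Y ^ v₂), om (Y ^ (5 / 8 : ℝ)) q * gp q := by
        rw [Finset.mul_sum]
    _ ≤ XM k Y * VP gp (PN N (Y ^ (499 / 6000 : ℝ))) * (c + η) * (L + η) :=
        mul_le_mul_of_nonneg_left key (mul_nonneg (mul_nonneg hX hV.le) (by linarith))
    _ = XM k Y * VP gp (PN N (Y ^ (499 / 6000 : ℝ))) * ((c + η) * (L + η)) := by ring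
    _ ≤ XM k Y * VP gp (PN N (Y ^ (499 / 6000 : ℝ))) * (c * L + δ) := by
        apply mul_le_mul_of_nonneg_left _ (mul_nonneg hX hV.le)
        have h3 : L ≤ |L| := le_abs_self L
        have h4 : η * η ≤ η * 1 := mul_le_mul_of_nonneg_left hη1 hη0.le
        have h5 : η * L ≤ η * |L| := mul_le_mul_of_nonneg_left h3 hη0.le
        nlinarith

end Pool.Agent.P4
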