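import Pool.Agent.W_b58c63_h28.MaL
import Pool.Agent.W_b58c63_h28.CoB
import Pool.Agent.W_b58c63_h28.Pie
import Pool.Agent.W_b58c63_h28.NuB
import Pool.Agent.W_b58c63_h68.Fin

/-!
# The final theorem (MP_b58c63_nt, P_4, helper28)
-/

set_option autoImplicit false

noncomputable section

open Finset

namespace Pool.Agent.P4

open Pool.Agent.Wb58c63

/-- The final inequality: `A (log 4 / 5 - (5/9) 0.36608) ≥ 0.2574`, `(5/9) 0.4473 = 0.2485`. -/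
theorem num_final (A : ℝ) (hA : 1000 / 287 ≤ A) :
    1 / 200 ≤ A * Real.log 4 / 5 - 5 / 9 * (A * (36608 / 100000)) - 5 / 9 * (4473 / 10000) := by
  have h1 : Real.log 4 = 2 * Real.log 2 := by
    rw [show (4 : ℝ) = 2 ^ 2 by norm_num, Real.log_pow]
    norm_num
  have h2 := Real.log_two_gt_d9
  rw [h1]
  nlinarith

theorem Fin_QN_union (N : ℕ) (u v w : ℝ) (h1 : u ≤ v) (h2 : v ≤ w) (f : ℕ → ℝ) :
    ∑ p ∈ QN N u w, f p = ∑ p ∈ QN N u v, f p + ∑ p ∈ QN N v w, f p := by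
  classical
  unfold QN
  rw [Finset.sum_filter, Finset.sum_filter, Finset.sum_filter]
  exact ArD_PI_union u v w h1 h2 _

theorem Fin_XV (k : ℕ) (Y : ℝ) (hY : 1 ≤ Y) (N : ℕ) (hN : Even N) (z : ℝ) :
    0 ≤ XM k Y * VP gp (PN N z) := by
  refine mul_nonneg ?_ (SqA_VP_pos N hN z).le
  unfold XM
  exact Finset.sum_nonneg fun p _ => ap_nonneg k Y hY p

/-- The sum of the six pieces. -/
theorem sel_sum (k : ℕ) (δ : ℝ) (hδ : 0 < δ) :
    ∃ Y₀ : ℝ, 3 ≤ Y₀ ∧ ∀ (Y : ℝ) (N : ℕ), Y₀ ≤ Y → Even N → Y ^ 2 / 2 < N → (N : ℝ) ≤ Y ^ 2 →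
      ∑ q ∈ QN N (Y ^ (499 / 1200 : ℝ)) (Y ^ (5 / 8 : ℝ)), om (Y ^ (5 / 8 : ℝ)) q * SQ k Y N (Y ^ (499 / 6000 : ℝ)) q ≤
        XM k Y * VP gp (PN N (Y ^ (499 / 6000 : ℝ))) * (4473 / 10000 + δ) := by
  obtain ⟨Y₀, hY₀, h0⟩ := piece k (499 / 1200) (89 / 200) (10 / 3) (δ / 6) (by norm_num) (by norm_num)
    (by norm_num) (by norm_num) KK_pos0 (by norm_num) (by norm_num) (by positivity)
  obtain ⟨Y₁, hY₁, h1⟩ := piece k (89 / 200) (19 / 40) (63 / 20) (δ / 6) (by norm_num) (by norm_num)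
    (by norm_num) (by norm_num) KK_pos1 (by norm_num) (by norm_num) (by positivity)
  obtain ⟨Y₂, hY₂, h2⟩ := piece k (19 / 40) (51 / 100) (147 / 50) (δ / 6) (by norm_num) (by norm_num)
    (by norm_num) (by norm_num) KK_pos2 (by norm_num) (by norm_num) (by positivity)
  obtain ⟨Y₃, hY₃, h3⟩ := piece k (51 / 100) (109 / 200) (273 / 100) (δ / 6) (by norm_num) (by norm_num)
    (by norm_num) (by norm_num) KK_pos3 (by norm_num) (by norm_num) (by positivity)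
  obtain ⟨Y₄, hY₄, h4⟩ := piece k (109 / 200) (29 / 50) (63 / 25) (δ / 6) (by norm_num) (by norm_num)
    (by norm_num) (by norm_num) KK_pos4 (by norm_num) (by norm_num) (by positivity)
  obtain ⟨Y₅, hY₅, h5⟩ := piece k (29 / 50) (5 / 8) (9 / 4) (δ / 6) (by norm_num) (by norm_num)
    (by norm_num) (by norm_num) KK_pos5 (by norm_num) (by norm_num) (by positivity)
  obtain ⟨Z, hZ⟩ : ∃ Z : ℝ, Z = max (max (max Y₀ Y₁) (max Y₂ Y₃)) (max Y₄ Y₅) := ⟨_, rfl⟩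
  have e0 : Y₀ ≤ Z := by
    rw [hZ]; exact ((le_max_left _ _).trans (le_max_left _ _)).trans (le_max_left _ _)
  have e1 : Y₁ ≤ Z := by
    rw [hZ]; exact ((le_max_right _ _).trans (le_max_left _ _)).trans (le_max_left _ _)
  have e2 : Y₂ ≤ Z := by
    rw [hZ]; exact ((le_max_left _ _).trans (le_max_right _ _)).trans (le_max_left _ _)
  have e3 : Y₃ ≤ Z := by
    rw [hZ]; exact ((le_max_right _ _).trans (le_max_right _ _)).trans (le_max_left _ _)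
  have e4 : Y₄ ≤ Z := by
    rw [hZ]; exact (le_max_left _ _).trans (le_max_right _ _)
  have e5 : Y₅ ≤ Z := by
    rw [hZ]; exact (le_max_right _ _).trans (le_max_right _ _)
  refine ⟨Z, hY₀.trans e0, fun Y N hY hN hN1 hN2 => ?_⟩
  have hY3 : 3 ≤ Y := (hY₀.trans e0).trans hY
  have hY1 : 1 ≤ Y := by linarith
  have g0 := h0 Y N (e0.trans hY) hN hN1 hN2
  have g1 := h1 Y N (e1.trans hY) hN hN1 hN2
  have g2 := h2 Y N (e2.trans hY) hN hN1 hN2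
  have g3 := h3 Y N (e3.trans hY) hN hN1 hN2
  have g4 := h4 Y N (e4.trans hY) hN hN1 hN2
  have g5 := h5 Y N (e5.trans hY) hN hN1 hN2
  have hmono : ∀ a b : ℝ, a ≤ b → Y ^ a ≤ Y ^ b := fun a b hab => Real.rpow_le_rpow_of_exponent_le hY1 hab
  rw [Fin_QN_union N (Y ^ (499 / 1200 : ℝ)) (Y ^ (89 / 200 : ℝ)) (Y ^ (5 / 8 : ℝ)) (hmono _ _ (by norm_num))
      (hmono _ _ (by norm_num)),
    Fin_QN_union N (Y ^ (89 / 200 : ℝ)) (Y ^ (19 / 40 : ℝ)) (Y ^ (5 / 8 : ℝ)) (hmono _ _ (by norm_num))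
      (hmono _ _ (by norm_num)),
    Fin_QN_union N (Y ^ (19 / 40 : ℝ)) (Y ^ (51 / 100 : ℝ)) (Y ^ (5 / 8 : ℝ)) (hmono _ _ (by norm_num))
      (hmono _ _ (by norm_num)),
    Fin_QN_union N (Y ^ (51 / 100 : ℝ)) (Y ^ (109 / 200 : ℝ)) (Y ^ (5 / 8 : ℝ)) (hmono _ _ (by norm_num))
      (hmono _ _ (by norm_num)),
    Fin_QN_union N (Y ^ (109 / 200 : ℝ)) (Y ^ (29 / 50 : ℝ)) (Y ^ (5 / 8 : ℝ)) (hmono _ _ (by norm_num))
      (hmono _ _ (by norm_num))]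
  have hX := Fin_XV k Y hY1 N hN (Y ^ (499 / 6000 : ℝ))
  obtain ⟨X, hXX⟩ : ∃ X, X = XM k Y * VP gp (PN N (Y ^ (499 / 6000 : ℝ))) := ⟨_, rfl⟩
  rw [← hXX] at hX g0 g1 g2 g3 g4 g5 ⊢
  have r0 := mul_le_mul_of_nonneg_left RR0 hX
  have r1 := mul_le_mul_of_nonneg_left RR1 hX
  have r2 := mul_le_mul_of_nonneg_left RR2 hX
  have r3 := mul_le_mul_of_nonneg_left RR3 hX
  have r4 := mul_le_mul_of_nonneg_left RR4 hX
  have r5 := mul_le_mul_of_nonneg_left RR5 hX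
  unfold RR at r0 r1 r2 r3 r4 r5
  rw [mul_add] at g0 g1 g2 g3 g4 g5
  have hsum : X * (4473 / 10000 + δ) = X * (1100 / 10000) + X * (970 / 10000) + X * (937 / 10000) +
      X * (719 / 10000) + X * (490 / 10000) + X * (257 / 10000) + 6 * (X * (δ / 6)) := by ring
  rw [hsum]
  linarith

/-- **The weighted sum for one even number.** -/
theorem per4 : ∃ c Y₀ : ℝ, 0 < c ∧ 3 ≤ Y₀ ∧ ∀ (Y : ℝ) (N : ℕ), Y₀ ≤ Y → Even N → Y ^ 2 / 2 < N → (N : ℝ) ≤ Y ^ 2 →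
    c * Y / Real.log Y ≤
      ∑ p ∈ Pr Y, ap 40 Y p * wt N (Y ^ (499 / 6000 : ℝ)) (Y ^ (5 / 8 : ℝ)) (5 / 9) (N - p) := by
  obtain ⟨A, hA, hmain⟩ := main_lin
  obtain ⟨u₀, z₀, hu₀, hz₀, hmain⟩ := hmain (1 / 1200) (by norm_num)
  obtain ⟨Y₁, hY₁, hsel⟩ := sel_sum 40 (1 / 1200) (by norm_num)
  obtain ⟨c₂, hc₂, hVP⟩ := VP_ge
  obtain ⟨c₃, Y₂, hc₃, hY₂, hXM⟩ := XM_ge 40
  obtain ⟨c₄, hc₄⟩ : ∃ c₄ : ℝ, c₄ = c₃ * c₂ / 400 := ⟨_, rfl⟩
  have hc₄0 : 0 < c₄ := by rw [hc₄]; positivity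
  obtain ⟨Y₃, hY₃, hexc⟩ := exc_none 40 le_rfl (4995 / 10000) (c₄ / 4) (by norm_num) (by norm_num)
    (by positivity)
  obtain ⟨Pm, hPm⟩ : ∃ Pm : ℝ, Pm = (primorial ⌈u₀⌉₊ : ℝ) := ⟨_, rfl⟩
  have hev1 : ∀ᶠ Y : ℝ in Filter.atTop, Pm ≤ Y ^ (5 / 10000 : ℝ) :=
    (tendsto_rpow_atTop (by norm_num)).eventually_ge_atTop Pm
  have hev2 : ∀ᶠ Y : ℝ in Filter.atTop, max 3 z₀ ≤ Y ^ (499 / 6000 : ℝ) :=
    (tendsto_rpow_atTop (by norm_num)).eventually_ge_atTop (max 3 z₀)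
  obtain ⟨Y₄, hY₄⟩ := Filter.eventually_atTop.1 (hev1.and hev2)
  refine ⟨c₄ / 2, max (max Y₁ Y₂) (max Y₃ (max 4 Y₄)), by positivity,
    (hY₁.trans (le_max_left _ _)).trans (le_max_left _ _), fun Y N hY hN hN1 hN2 => ?_⟩
  have hYa : Y₁ ≤ Y := ((le_max_left _ _).trans (le_max_left _ _)).trans hY
  have hYb : Y₂ ≤ Y := ((le_max_right _ _).trans (le_max_left _ _)).trans hY
  have hYc : Y₃ ≤ Y := ((le_max_left _ _).trans (le_max_right _ _)).trans hY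
  have hY4 : 4 ≤ Y := (((le_max_left _ _).trans (le_max_right _ _)).trans (le_max_right _ _)).trans hY
  have hYd : Y₄ ≤ Y := (((le_max_right _ _).trans (le_max_right _ _)).trans (le_max_right _ _)).trans hY
  obtain ⟨hPY, hzY⟩ := hY₄ Y hYd
  have hY3 : 3 ≤ Y := by linarith
  have hY0 : 0 < Y := by linarith
  have hY1 : 1 ≤ Y := by linarith
  have hY1' : 1 < Y := by linarith
  have hl1 := ExB_log hY3
  have hl0 : 0 < Real.log Y := by linarith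
  have hselY := hsel Y N hYa hN hN1 hN2
  obtain ⟨z, hz⟩ : ∃ z, z = Y ^ (499 / 6000 : ℝ) := ⟨_, rfl⟩
  obtain ⟨w, hw⟩ : ∃ w, w = Y ^ (499 / 1200 : ℝ) := ⟨_, rfl⟩
  obtain ⟨y, hy⟩ : ∃ y, y = Y ^ (5 / 8 : ℝ) := ⟨_, rfl⟩
  obtain ⟨D, hD⟩ : ∃ D, D = Y ^ (499 / 1000 : ℝ) := ⟨_, rfl⟩
  rw [← hz] at hzY
  rw [← hz, ← hw, ← hy] at hselY
  rw [← hz, ← hy]
  have hz3 : 3 ≤ z := (le_max_left _ _).trans hzY
  have hzz₀ : z₀ ≤ z := (le_max_right _ _).trans hzY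
  have hmono : ∀ a b : ℝ, a ≤ b → Y ^ a ≤ Y ^ b := fun a b hab => Real.rpow_le_rpow_of_exponent_le hY1 hab
  have hzw : z ≤ w := by rw [hz, hw]; exact hmono _ _ (by norm_num)
  have hwy : w ≤ y := by rw [hw, hy]; exact hmono _ _ (by norm_num)
  have hwD : w ≤ D := by rw [hw, hD]; exact hmono _ _ (by norm_num)
  have hyY : y ≤ Y := by
    calc y ≤ Y ^ (1 : ℝ) := by rw [hy]; exact hmono _ _ (by norm_num)
      _ = Y := Real.rpow_one Y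
  have hD1 : 1 < D := by linarith
  have hz6 : z ^ 6 = D := by
    rw [hz, hD, ← Real.rpow_natCast, ← Real.rpow_mul hY0.le]
    congr 1
    push_cast
    norm_num
  have hz5 : z ^ 5 = w := by
    rw [hz, hw, ← Real.rpow_natCast, ← Real.rpow_mul hY0.le]
    congr 1
    push_cast
    norm_num
  have hz2D : z ^ 2 ≤ D := by
    rw [← hz6]
    exact pow_le_pow_right₀ (by linarith) (by norm_num)
  have hPD : Pm * D ≤ Y ^ (4995 / 10000 : ℝ) := by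
    calc Pm * D ≤ Y ^ (5 / 10000 : ℝ) * Y ^ (499 / 1000 : ℝ) := by
          rw [hD]
          exact mul_le_mul_of_nonneg_right hPY (Real.rpow_nonneg hY0.le _)
      _ = Y ^ (4995 / 10000 : ℝ) := by
          rw [← Real.rpow_add hY0]
          congr 1
          norm_num
  have hlogy : Real.log y = 625 / 499 * Real.log (z ^ 6) := by
    rw [hz6, hy, hD, Real.log_rpow hY0, Real.log_rpow hY0]
    ring
  have hy1 : 1 < y := by linarith
  have hlogy0 : 0 < Real.log y := Real.log_pos hy1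
  have hφ0 : ∀ q ∈ PI z w, 0 ≤ om y q := by
    intro q hq
    obtain ⟨e1, e2, e3⟩ := mem_PI.1 hq
    exact HW_om_nonneg (z := z) (y := y) (by linarith) (mem_PI.2 ⟨e1, e2, by linarith⟩)
  have hφ1 : ∀ q : ℕ, z ≤ (q : ℝ) → (q : ℝ) < w → |om y q| ≤ 1 := by
    intro q h1 h2
    unfold om
    have h3 : 0 ≤ Real.log q / Real.log y := div_nonneg (Real.log_nonneg (by linarith)) hlogy0.le
    have h4 : Real.log q / Real.log y ≤ 1 := by
      rw [div_le_one hlogy0]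
      exact Real.log_le_log (by linarith) (by linarith)
    rw [abs_le]
    constructor <;> linarith
  have hadm1 : Adm Y (4995 / 10000) (rho1 u₀ z D) := by
    refine ⟨fun d => (rho1_adm u₀ z D hD1 (by linarith) hz2D d).1, fun d hd => ?_⟩
    obtain ⟨e1, e2, e3⟩ := (rho1_adm u₀ z D hD1 (by linarith) hz2D d).2 hd
    rw [← hPm] at e2
    refine ⟨e1, e2.trans hPD, fun p hp hpd => ?_⟩
    have := e3 p hp hpd
    linarith
  have hadm2 : Adm Y (4995 / 10000) (rho3 (om y) u₀ z w D) := by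
    refine ⟨fun d => (rho3_adm (om y) u₀ z w D hφ1 (by linarith) hzw hwD d).1, fun d hd => ?_⟩
    obtain ⟨e1, e2, e3⟩ := (rho3_adm (om y) u₀ z w D hφ1 (by linarith) hzw hwD d).2 hd
    rw [← hPm] at e2
    refine ⟨e1, e2.trans hPD, fun p hp hpd => ?_⟩
    have := e3 p hp hpd
    linarith
  have hE1 := hexc Y _ N hYc hadm1
  have hE2 := hexc Y _ N hYc hadm2
  have hN2Y : 2 * Y ≤ N := by nlinarith
  have hzκ : Real.log z = 499 / 6000 * Real.log Y := by rw [hz, Real.log_rpow hY0]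
  have hlz : 0 < Real.log z := by rw [hzκ]; positivity
  have hN1' : 1 ≤ N := by
    have : (1 : ℝ) ≤ N := by linarith
    exact_mod_cast this
  have hM1 : ∀ m, rho1 u₀ z D m ≠ 0 → m ≤ ⌊Y ^ (4995 / 10000 : ℝ)⌋₊ := by
    intro m hm
    exact Nat.le_floor (hadm1.2 m hm).2.1
  have hM2 : ∀ q ∈ PI z w, ∀ m, smz z m → rhoS true u₀ (D / q) m.primeFactors ≠ 0 →
      q * m ≤ ⌊Y ^ (4995 / 10000 : ℝ)⌋₊ := by
    intro q hq m hm hne
    obtain ⟨hq1, hq2, hq3⟩ := mem_PI.1 hq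
    have hq0 : (0 : ℝ) < q := by linarith
    have hDq : 1 < D / q := by
      rw [one_lt_div hq0]
      linarith
    have e1 := rhoS_true_support u₀ (D / q) hDq m.primeFactors
      (fun p hp => Nat.prime_of_mem_primeFactors hp) hne
    rw [Nat.prod_primeFactors_of_squarefree hm.1, ← hPm] at e1
    refine Nat.le_floor ?_
    calc ((q * m : ℕ) : ℝ) = q * m := by push_cast; ring
      _ ≤ q * (Pm * (D / q)) := mul_le_mul_of_nonneg_left e1 hq0.le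
      _ = Pm * D := by field_simp
      _ ≤ Y ^ (4995 / 10000 : ℝ) := hPD
  have hW := W3_ge 40 Y hY1 N hN2Y z w (5 / 9) u₀ D (om y) hφ0 (by linarith) (by norm_num)
    ⌊Y ^ (4995 / 10000 : ℝ)⌋₊ hM1 hM2
  rw [wt_split 40 Y N z w y (5 / 9) hzw hwy]
  obtain ⟨hm1, hm2⟩ := hmain N z y hN hN1' hzz₀ hlogy
  rw [hz6, hz5] at hm2
  rw [hz6] at hm1
  have hVPz : c₂ / Real.log z ≤ VP gp (PN N z) := by
    refine hVP (PN N z) z hz3 (fun p hp => ?_)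
    obtain ⟨e2, e3⟩ := HW_mem_PN.1 hp
    obtain ⟨e4, _, e5⟩ := mem_PI.1 e2
    refine ⟨e4, ?_, e5⟩
    have e6 : p ≠ 2 := by
      rintro rfl
      exact e3 hN.two_dvd
    have e7 := e4.two_le
    omega
  have hXY := hXM Y hYb
  have hX0 : 0 ≤ XM 40 Y := le_trans (by positivity) hXY
  obtain ⟨V, hV⟩ : ∃ V, V = VP gp (PN N z) := ⟨_, rfl⟩
  rw [← hV] at hm1 hm2 hVPz hselY
  have hXV : c₃ * c₂ * (Y / Real.log Y) ≤ XM 40 Y * V := by
    have e1 : c₂ / Real.log Y ≤ V := by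
      refine le_trans (div_le_div_of_nonneg_left hc₂.le hlz ?_) hVPz
      rw [hzκ]
      linarith
    calc c₃ * c₂ * (Y / Real.log Y) = c₃ * Y * (c₂ / Real.log Y) := by ring
      _ ≤ XM 40 Y * V := mul_le_mul hXY e1 (by positivity) hX0
  have hXV0 : 0 ≤ XM 40 Y * V := le_trans (by positivity) hXV
  obtain ⟨S₁, hS₁⟩ : ∃ S₁, S₁ = ∑ S ∈ (PN N z).powerset, rhoS false u₀ D S * ∏ p ∈ S, gp p := ⟨_, rfl⟩
  obtain ⟨S₂, hS₂⟩ : ∃ S₂, S₂ = ∑ q ∈ QN N z w, om y q * gp q *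
      ∑ S ∈ (PN N z).powerset, rhoS true u₀ (D / q) S * ∏ p ∈ S, gp p := ⟨_, rfl⟩
  rw [← hS₁] at hm1 hW
  rw [← hS₂] at hm2 hW
  have hnum := num_final A hA
  have hbr : XM 40 Y * V * (1 / 400) + 5 / 9 * (XM 40 Y * V * (4473 / 10000 + 1 / 1200)) ≤
      XM 40 Y * (S₁ - 5 / 9 * S₂) := by
    have e1 : V * (A * Real.log 4 / 5 - 1 / 1200) - 5 / 9 * (V * (A * (36608 / 100000) + 1 / 1200)) ≤
        S₁ - 5 / 9 * S₂ := by linarith
    have e2 := mul_le_mul_of_nonneg_left e1 hX0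
    refine le_trans ?_ e2
    have e3 := mul_le_mul_of_nonneg_left hnum hXV0
    nlinarith
  have hE1' := (abs_le.1 hE1).1
  have hE2' := (abs_le.1 hE2).2
  have e5 : c₄ * (Y / Real.log Y) ≤ XM 40 Y * V * (1 / 400) := by
    rw [hc₄]
    linarith
  have e6 : c₄ / 2 * Y / Real.log Y = c₄ * (Y / Real.log Y) - 2 * (c₄ / 4 * Y / Real.log Y) := by ring
  have e7 : 0 ≤ c₄ / 4 * Y / Real.log Y := by positivity
  rw [e6]
  linarith

/-- **All even numbers, `P_4`.** -/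
theorem all_even4 : ∃ (c : ℝ) (n₀ : ℕ), 0 < c ∧ ∀ n : ℕ, n₀ ≤ n →
    c * Real.sqrt (2 * n : ℕ) / Real.log (2 * n : ℕ) ^ 2 ≤ ((gd n 4).card : ℝ) := by
  obtain ⟨c₀, Y₀, hc₀, hY₀, hper⟩ := per4
  obtain ⟨c, Y₁, hc, hY₁, halm⟩ := almost_primes 40 4 (499 / 6000) (5 / 8) (5 / 9) c₀ (by norm_num) (by norm_num)
    (by norm_num) (by norm_num) hc₀ (by norm_num)
  obtain ⟨Z, hZ⟩ : ∃ Z : ℝ, Z = max (max Y₀ Y₁) 4 := ⟨_, rfl⟩
  refine ⟨c, ⌈Z ^ 2⌉₊, hc, fun n hn => ?_⟩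
  have hZ4 : 4 ≤ Z := by rw [hZ]; exact le_max_right _ _
  have hnZ : Z ^ 2 ≤ n := (Nat.le_ceil _).trans (by exact_mod_cast hn)
  obtain ⟨Y, hY⟩ : ∃ Y, Y = Real.sqrt (2 * n : ℕ) := ⟨_, rfl⟩
  have hn2 : ((2 * n : ℕ) : ℝ) = 2 * n := by push_cast; ring
  have hY2 : Y ^ 2 = (2 * n : ℕ) := by rw [hY]; exact Real.sq_sqrt (Nat.cast_nonneg _)
  have hYZ : Z ≤ Y := by
    rw [hY]
    refine Real.le_sqrt_of_sq_le ?_
    rw [hn2]
    nlinarith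
  have hY4 : 4 ≤ Y := hZ4.trans hYZ
  have hYa : Y₀ ≤ Y := by
    refine le_trans ?_ hYZ
    rw [hZ]
    exact (le_max_left _ _).trans (le_max_left _ _)
  have hYb : Y₁ ≤ Y := by
    refine le_trans ?_ hYZ
    rw [hZ]
    exact (le_max_right _ _).trans (le_max_left _ _)
  have h1 : Y ^ 2 / 2 < (2 * n : ℕ) := by
    rw [← hY2]
    nlinarith
  have h2 : ((2 * n : ℕ) : ℝ) ≤ Y ^ 2 := hY2.ge
  have h3 := halm Y (2 * n) hYb h1 h2 (hper Y (2 * n) hYa (even_two_mul n) h1 h2)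
  have h4 := Finset.card_le_card (window_sub Y hY4 n 4 h1 h2)
  refine (Fin_window_ge Y c hY4 hc.le n h1 h2).trans (h3.trans ?_)
  exact_mod_cast h4

end Pool.Agent.P4
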