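import Pool.Agent.W_b58c63_h28.Defs

/-!
# The product over the small primes (MP_b58c63_nt, P_4, task PrS)
-/

set_option autoImplicit false

noncomputable section

open Finset

namespace Pool.Agent.P4

open Pool.Agent.Wb58c63 (PI mem_PI)

private lemma PrS_one_sub (s : Finset ℕ) (f : ℕ → ℝ) (h0 : ∀ i ∈ s, 0 ≤ f i)
    (h1 : ∀ i ∈ s, f i ≤ 1) : 1 - ∑ i ∈ s, f i ≤ ∏ i ∈ s, (1 - f i) := by
  classical
  induction s using Finset.induction_on with
  | empty => simp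
  | insert a s ha ih =>
    have ih' := ih (fun i hi => h0 i (mem_insert_of_mem hi)) (fun i hi => h1 i (mem_insert_of_mem hi))
    have ha0 := h0 a (mem_insert_self _ _)
    have ha1 := h1 a (mem_insert_self _ _)
    rw [sum_insert ha, prod_insert ha]
    have h2 : 0 ≤ ∑ i ∈ s, f i := sum_nonneg fun i hi => h0 i (mem_insert_of_mem hi)
    have h3 : (1 - f a) * (1 - ∑ i ∈ s, f i) ≤ (1 - f a) * ∏ i ∈ s, (1 - f i) :=
      mul_le_mul_of_nonneg_left ih' (by linarith)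
    nlinarith [mul_nonneg ha0 h2]

private lemma PrS_tele (T : ℕ) (hT : 3 ≤ T) (M : ℕ) (hM : T ≤ M) :
    ∑ n ∈ Ico T M, 1 / ((n : ℝ) - 1) ^ 2 ≤ 1 / ((T : ℝ) - 2) - 1 / ((M : ℝ) - 2) := by
  induction M, hM using Nat.le_induction with
  | base => simp
  | succ M hM ih =>
    rw [sum_Ico_succ_top hM]
    have hM3 : (3 : ℝ) ≤ M := by exact_mod_cast hT.trans hM
    have h1 : 0 < (M : ℝ) - 2 := by linarith
    have h2 : 0 < (M : ℝ) - 1 := by linarith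
    have h3 : 1 / ((M : ℝ) - 1) ^ 2 ≤ 1 / ((M : ℝ) - 2) - 1 / ((M : ℝ) - 1) := by
      rw [div_sub_div _ _ h1.ne' h2.ne', div_le_div_iff₀ (by positivity) (by positivity)]
      nlinarith
    have h4 : ((M + 1 : ℕ) : ℝ) - 2 = (M : ℝ) - 1 := by push_cast; ring
    rw [h4]
    linarith

private lemma PrS_sum (T : ℕ) (hT : 3 ≤ T) (s : Finset ℕ) (hs : ∀ p ∈ s, T ≤ p) :
    ∑ p ∈ s, 1 / ((p : ℝ) - 1) ^ 2 ≤ 1 / ((T : ℝ) - 2) := by
  have hsub : s ⊆ Ico T (max T (s.sup id + 1)) := by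
    intro p hp
    rw [mem_Ico]
    exact ⟨hs p hp, lt_of_lt_of_le (Nat.lt_succ_of_le (le_sup (f := id) hp)) (le_max_right _ _)⟩
  refine (sum_le_sum_of_subset_of_nonneg hsub (fun i _ _ => by positivity)).trans ?_
  refine (PrS_tele T hT _ (le_max_left _ _)).trans ?_
  have h3 : (3 : ℝ) ≤ ((max T (s.sup id + 1) : ℕ) : ℝ) := by
    exact_mod_cast hT.trans (le_max_left _ _)
  have h4 : 0 ≤ 1 / (((max T (s.sup id + 1) : ℕ) : ℝ) - 2) := by
    apply div_nonneg zero_le_one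
    linarith
  linarith

private lemma PrS_main (T : ℕ) (hT : 3 ≤ T) {ε : ℝ} (hTε : 1 / ((T : ℝ) - 2) ≤ ε) (s : Finset ℕ)
    (hs : ∀ p ∈ s, T ≤ p) :
    (1 - ε) * (∏ p ∈ s, (1 - 1 / (p : ℝ))) ^ 2 ≤ ∏ p ∈ s, (1 - 2 / (p : ℝ)) := by
  have h3 : ∀ p ∈ s, (3 : ℝ) ≤ p := fun p hp => by exact_mod_cast hT.trans (hs p hp)
  have h1 : ∏ p ∈ s, (1 - 2 / (p : ℝ))
      = (∏ p ∈ s, (1 - 1 / (p : ℝ))) ^ 2 * ∏ p ∈ s, (1 - 1 / ((p : ℝ) - 1) ^ 2) := by
    rw [← prod_pow, ← prod_mul_distrib]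
    refine prod_congr rfl fun p hp => ?_
    have hp3 := h3 p hp
    have e1 : (p : ℝ) ≠ 0 := by linarith
    have e2 : (p : ℝ) - 1 ≠ 0 := by
      have : 0 < (p : ℝ) - 1 := by linarith
      exact this.ne'
    field_simp
    ring
  have h2 : 1 - ε ≤ ∏ p ∈ s, (1 - 1 / ((p : ℝ) - 1) ^ 2) := by
    refine le_trans ?_ (PrS_one_sub s (fun p => 1 / ((p : ℝ) - 1) ^ 2) (fun p _ => by positivity) ?_)
    · have := PrS_sum T hT s hs
      linarith
    · intro p hp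
      have hp3 := h3 p hp
      rw [div_le_one (by nlinarith)]
      nlinarith
  rw [h1, mul_comm]
  exact mul_le_mul_of_nonneg_left h2 (sq_nonneg _)

/-- **The small primes.**

Proof. `P = ∏_(p < T) p`, `T ≥ 3` a natural number with `∑_(p ≥ T) 1 / (p - 1) ^ 2 ≤ 1 / (T - 2) ≤ ε`. For `z ≥ P + 1 (≥ T)` the prime factors of `P`
are the primes `p < T`; the factors `1 - hS z p` for them cancel: the right side is `(φ P / P) ^ 2 ∏_(T ≤ p < z) (1 - 2 / p)`,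
`φ P / P = ∏_(p < T) (1 - 1 / p)` (`Nat.totient_eq_mul_prod_factors`), and
`(1 - 2 / p) = (1 - 1 / p) ^ 2 (1 - 1 / (p - 1) ^ 2)`, `∏ (1 - 1 / (p - 1) ^ 2) ≥ 1 - ∑ 1 / (p - 1) ^ 2 ≥ 1 - ε`
(`Finset.one_sub_sum_le_prod_one_sub` or `prod_add_prod_le`, or induction). -/
theorem prod_small (ε : ℝ) (hε : 0 < ε) : ∃ P : ℕ, Squarefree P ∧ 2 ∣ P ∧ ∀ z : ℝ, (P : ℝ) + 1 ≤ z →
    (1 - ε) * V1 z ^ 2 ≤ ((P.totient : ℝ) / P) ^ 2 * (∏ p ∈ P.primeFactors, 1 / (1 - hS z p)) *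
      ∏ p ∈ PI 0 z, (1 - hS z p) := by
  classical
  obtain ⟨T₀, hT₀⟩ := exists_nat_gt (1 / ε)
  obtain ⟨T, hT3, hTε⟩ : ∃ T : ℕ, 3 ≤ T ∧ 1 / ((T : ℝ) - 2) ≤ ε := by
    refine ⟨T₀ + 3, by omega, ?_⟩
    have h0 : (0 : ℝ) ≤ T₀ := Nat.cast_nonneg _
    have h1 : 0 < ((T₀ + 3 : ℕ) : ℝ) - 2 := by push_cast; linarith
    rw [div_le_iff₀ h1]
    have h2 : 1 < T₀ * ε := by
      rwa [div_lt_iff₀ hε] at hT₀
    push_cast
    nlinarith
  have hpr : ∀ p ∈ (range T).filter Nat.Prime, p.Prime := fun p hp => (mem_filter.1 hp).2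
  have hSf : (∏ p ∈ (range T).filter Nat.Prime, p).primeFactors = (range T).filter Nat.Prime :=
    Nat.primeFactors_prod hpr
  obtain ⟨S, hSdef⟩ : ∃ S, S = (range T).filter Nat.Prime := ⟨_, rfl⟩
  obtain ⟨P, hPdef⟩ : ∃ P, P = ∏ p ∈ (range T).filter Nat.Prime, p := ⟨_, rfl⟩
  rw [← hPdef, ← hSdef] at hSf
  rw [← hSdef] at hPdef hpr
  have hmemS : ∀ p, p ∈ S ↔ p < T ∧ p.Prime := by
    intro p
    rw [hSdef, mem_filter, mem_range]
  have hPpos : 0 < P := by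
    rw [hPdef]
    exact prod_pos fun p hp => (hpr p hp).pos
  refine ⟨P, ?_, ?_, ?_⟩
  · rw [hPdef]
    refine Finset.squarefree_prod_of_pairwise_isCoprime (fun p hp q hq hpq => ?_) (fun p hp => ?_)
    · rw [Function.onFun, ← Nat.coprime_iff_isRelPrime]
      exact (Nat.coprime_primes (hpr p hp) (hpr q hq)).2 hpq
    · exact (hpr p hp).prime.squarefree
  · rw [hPdef]
    exact dvd_prod_of_mem _ ((hmemS 2).2 ⟨by omega, Nat.prime_two⟩)
  · intro z hz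
    rw [hSf]
    have hlt : ∀ p ∈ S, (p : ℝ) < z := by
      intro p hp
      have : p ≤ P := Nat.le_of_dvd hPpos (by rw [hPdef]; exact dvd_prod_of_mem _ hp)
      have : (p : ℝ) ≤ P := by exact_mod_cast this
      linarith
    have hsub : S ⊆ PI 0 z := by
      intro p hp
      rw [mem_PI]
      exact ⟨hpr p hp, Nat.cast_nonneg _, hlt p hp⟩
    obtain ⟨R, hR⟩ : ∃ R, R = PI 0 z \ S := ⟨_, rfl⟩
    have hRT : ∀ p ∈ R, T ≤ p := by
      intro p hp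
      rw [hR, mem_sdiff, hmemS, mem_PI] at hp
      by_contra hcon
      exact hp.2 ⟨by omega, hp.1.1⟩
    have hRz : ∀ p ∈ R, (p : ℝ) < z := by
      intro p hp
      rw [hR, mem_sdiff, mem_PI] at hp
      exact hp.1.2.2
    have hsplit : ∀ f : ℕ → ℝ, ∏ p ∈ PI 0 z, f p = (∏ p ∈ R, f p) * ∏ p ∈ S, f p := by
      intro f
      rw [hR]
      exact (prod_sdiff hsub).symm
    have htot : (P.totient : ℝ) / P = ∏ p ∈ S, (1 - 1 / (p : ℝ)) := by
      have h1 := Nat.totient_eq_mul_prod_factors P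
      rw [hSf] at h1
      have h2 : (P.totient : ℝ) = (P : ℝ) * ∏ p ∈ S, (1 - ((p : ℝ))⁻¹) := by
        have := congrArg (fun q : ℚ => (q : ℝ)) h1
        push_cast at this
        exact this
      rw [h2]
      have hP0 : (P : ℝ) ≠ 0 := by exact_mod_cast hPpos.ne'
      rw [mul_div_cancel_left₀ _ hP0]
      refine prod_congr rfl fun p _ => ?_
      rw [one_div]
    have hne : ∀ p ∈ S, 1 - hS z p ≠ 0 := by
      intro p hp
      have hp2 := (hpr p hp).two_le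
      unfold Pool.Agent.P4.hS
      split_ifs with h
      · have hp3 : 3 ≤ p := by omega
        have hp3' : (3 : ℝ) ≤ p := by exact_mod_cast hp3
        have h1 : 2 / (p : ℝ) < 1 := by
          rw [div_lt_one (by linarith)]
          linarith
        exact (sub_pos.2 h1).ne'
      · have hp2' : (2 : ℝ) ≤ p := by exact_mod_cast hp2
        have h1 : 1 / (p : ℝ) < 1 := by
          rw [div_lt_one (by linarith)]
          linarith
        exact (sub_pos.2 h1).ne'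
    have hcan : (∏ p ∈ S, 1 / (1 - Pool.Agent.P4.hS z p)) * ∏ p ∈ S, (1 - Pool.Agent.P4.hS z p) = 1 := by
      rw [← prod_mul_distrib]
      refine prod_eq_one fun p hp => ?_
      exact one_div_mul_cancel (hne p hp)
    have hRval : ∏ p ∈ R, (1 - Pool.Agent.P4.hS z p) = ∏ p ∈ R, (1 - 2 / (p : ℝ)) := by
      refine prod_congr rfl fun p hp => ?_
      have h1 := hRz p hp
      have h2 : p ≠ 2 := by
        have := hRT p hp
        omega
      unfold Pool.Agent.P4.hS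
      rw [if_pos ⟨h1, h2⟩]
    rw [hsplit, hRval, htot]
    unfold V1
    rw [hsplit]
    have hmain := PrS_main T hT3 hTε R hRT
    have hq : 0 ≤ (∏ p ∈ S, (1 - 1 / (p : ℝ))) ^ 2 := sq_nonneg _
    calc (1 - ε) * ((∏ p ∈ R, (1 - 1 / (p : ℝ))) * ∏ p ∈ S, (1 - 1 / (p : ℝ))) ^ 2
        = (∏ p ∈ S, (1 - 1 / (p : ℝ))) ^ 2 * ((1 - ε) * (∏ p ∈ R, (1 - 1 / (p : ℝ))) ^ 2) := by ring
      _ ≤ (∏ p ∈ S, (1 - 1 / (p : ℝ))) ^ 2 * ∏ p ∈ R, (1 - 2 / (p : ℝ)) :=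
          mul_le_mul_of_nonneg_left hmain hq
      _ = (∏ p ∈ S, (1 - 1 / (p : ℝ))) ^ 2 * (∏ p ∈ S, 1 / (1 - Pool.Agent.P4.hS z p)) *
            ((∏ p ∈ R, (1 - 2 / (p : ℝ))) * ∏ p ∈ S, (1 - Pool.Agent.P4.hS z p)) := by
          rw [mul_assoc, mul_left_comm (∏ p ∈ S, 1 / (1 - Pool.Agent.P4.hS z p)), hcan, mul_one]

end Pool.Agent.P4
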