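import Pool.Agent.W_b58c63_h28.Defs

/-!
# From integers to squarefree numbers (MP_b58c63_nt, P_4, task Rad)
-/

set_option autoImplicit false

noncomputable section

open Finset

namespace Pool.Agent.P4

open Pool.Agent.PSG (gg)

theorem Rad_prod {n : ℕ} (hn : n ≠ 0) {s : Finset ℕ} (hs : n.primeFactors ⊆ s) :
    ∏ p ∈ s, p ^ n.factorization p = n := by
  conv_rhs => rw [← Nat.prod_factorization_pow_eq_self hn]
  rw [Finsupp.prod_of_support_subset _ (by simpa using hs) _ (by simp)]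

theorem Rad_geom {p : ℕ} (hp : 2 ≤ p) (K : ℕ) :
    ∑ j ∈ range (K + 1), (1 / (p : ℝ)) ^ j ≤ p / (p - 1) := by
  have h1 := geom_sum_mul_neg (1 / (p : ℝ)) (K + 1)
  have hp2 : (2 : ℝ) ≤ p := by exact_mod_cast hp
  have h2 : (0 : ℝ) ≤ (1 / (p : ℝ)) ^ (K + 1) := by positivity
  have h3 : (1 : ℝ) - 1 / p = (p - 1) / p := by field_simp
  rw [h3] at h1
  rw [le_div_iff₀ (by linarith)]
  have h4 : (∑ j ∈ range (K + 1), (1 / (p : ℝ)) ^ j) * (p - 1) =
      ((∑ j ∈ range (K + 1), (1 / (p : ℝ)) ^ j) * ((p - 1) / p)) * p := by field_simp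
  rw [h4, h1]
  nlinarith

/-- The possible pairs of exponents at `p`. -/
noncomputable def Rad_S (z : ℝ) (K p : ℕ) : Finset (ℕ × ℕ) := by
  classical
  exact (range (K + 1) ×ˢ range (K + 1)).filter
    (fun x => 0 < x.1 + x.2 ∧ ((p : ℝ) < z ∨ x.1 = 0))

theorem Rad_mem {z : ℝ} {K p : ℕ} {x : ℕ × ℕ} :
    x ∈ Rad_S z K p ↔ (x.1 < K + 1 ∧ x.2 < K + 1) ∧ (0 < x.1 + x.2 ∧ ((p : ℝ) < z ∨ x.1 = 0)) := by
  classical
  unfold Rad_S
  rw [mem_filter, mem_product, mem_range, mem_range]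

theorem Rad_sum (z : ℝ) (K : ℕ) {p : ℕ} (hp : 2 ≤ p) (hp2 : p ≠ 2) :
    ∑ x ∈ Rad_S z K p, (1 / (p : ℝ)) ^ (x.1 + x.2) ≤ hS z p / (1 - hS z p) := by
  classical
  have hp3 : (3 : ℝ) ≤ p := by
    have : 3 ≤ p := by omega
    exact_mod_cast this
  have hg := Rad_geom hp K
  have h0 : (0, 0) ∉ Rad_S z K p := by
    intro h
    have := (Rad_mem.1 h).2.1
    simp at this
  have hnn : ∀ x : ℕ × ℕ, 0 ≤ (1 / (p : ℝ)) ^ (x.1 + x.2) := fun x => by positivity
  have hins : ∀ U : Finset (ℕ × ℕ), Rad_S z K p ⊆ U → (0, 0) ∈ U →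
      (1 : ℝ) + ∑ x ∈ Rad_S z K p, (1 / (p : ℝ)) ^ (x.1 + x.2) ≤
        ∑ x ∈ U, (1 / (p : ℝ)) ^ (x.1 + x.2) := by
    intro U hU h00
    have h1 := sum_insert (f := fun x : ℕ × ℕ => (1 / (p : ℝ)) ^ (x.1 + x.2)) h0
    simp only [add_zero, pow_zero] at h1
    rw [← h1]
    exact sum_le_sum_of_subset_of_nonneg (insert_subset h00 hU) fun x _ _ => hnn x
  by_cases hz : (p : ℝ) < z
  · have h1 := hins (range (K + 1) ×ˢ range (K + 1)) (fun x hx => by
      have := (Rad_mem.1 hx).1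
      rw [mem_product, mem_range, mem_range]
      exact this) (by simp)
    have h2 : ∑ x ∈ range (K + 1) ×ˢ range (K + 1), (1 / (p : ℝ)) ^ (x.1 + x.2) =
        (∑ j ∈ range (K + 1), (1 / (p : ℝ)) ^ j) * (∑ j ∈ range (K + 1), (1 / (p : ℝ)) ^ j) := by
      rw [sum_mul_sum, sum_product]
      refine sum_congr rfl fun i _ => sum_congr rfl fun j _ => ?_
      rw [pow_add]
    rw [h2] at h1
    have h3 : (0 : ℝ) ≤ ∑ j ∈ range (K + 1), (1 / (p : ℝ)) ^ j :=
      sum_nonneg fun j _ => by positivity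
    have h4 := mul_le_mul hg hg h3 (by
      apply div_nonneg
      · linarith
      · linarith)
    have h5 : hS z p = 2 / (p : ℝ) := by
      unfold hS
      rw [if_pos ⟨hz, hp2⟩]
    rw [h5]
    have h6 : (2 / (p : ℝ)) / (1 - 2 / (p : ℝ)) = 2 / (p - 2) := by
      have : (p : ℝ) - 2 ≠ 0 := by linarith
      have hp0 : (p : ℝ) ≠ 0 := by linarith
      field_simp
    rw [h6]
    have h7 : (p : ℝ) / (p - 1) * (p / (p - 1)) ≤ 1 + 2 / (p - 2) := by
      have hA : (0 : ℝ) < p - 1 := by linarith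
      have hB : (0 : ℝ) < p - 2 := by linarith
      rw [div_mul_div_comm, ← sub_nonneg]
      have : (1 : ℝ) + 2 / (p - 2) - p * p / ((p - 1) * (p - 1)) =
          p / ((p - 2) * ((p - 1) * (p - 1))) := by
        field_simp
        ring
      rw [this]
      positivity
    linarith
  · have h1 := hins ({0} ×ˢ range (K + 1)) (fun x hx => by
      have := Rad_mem.1 hx
      rw [mem_product, mem_range, mem_singleton]
      exact ⟨this.2.2.resolve_left hz, this.1.2⟩) (by simp)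
    have h2 : ∑ x ∈ ({0} : Finset ℕ) ×ˢ range (K + 1), (1 / (p : ℝ)) ^ (x.1 + x.2) =
        ∑ j ∈ range (K + 1), (1 / (p : ℝ)) ^ j := by
      rw [sum_product, sum_singleton]
      refine sum_congr rfl fun j _ => ?_
      rw [zero_add]
    rw [h2] at h1
    have h5 : hS z p = 1 / (p : ℝ) := by
      unfold hS
      rw [if_neg (fun h => hz h.1)]
    rw [h5]
    have h6 : (1 / (p : ℝ)) / (1 - 1 / (p : ℝ)) = p / (p - 1) - 1 := by
      have : (p : ℝ) - 1 ≠ 0 := by linarith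
      have hp0 : (p : ℝ) ≠ 0 := by linarith
      field_simp
      ring
    rw [h6]
    linarith

/-- The pairs with product having the prime factors of `d`. -/
theorem Rad_fiber (P : ℕ) (hP : 2 ∣ P) (z : ℝ) (K d : ℕ) (hd0 : d ≠ 0) (hdP : d.Coprime P)
    (S : Finset (ℕ × ℕ))
    (hS' : ∀ y ∈ S, y.1 ≠ 0 ∧ y.2 ≠ 0 ∧ y.1 ≤ K ∧ y.2 ≤ K ∧ (y.1 * y.2).primeFactors = d.primeFactors ∧
      ∀ p : ℕ, p.Prime → p ∣ y.1 → (p : ℝ) < z) :
    ∑ y ∈ S, 1 / ((y.1 : ℝ) * y.2) ≤ gg (hS z) d := by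
  classical
  let ι : Type := {p : ℕ // p ∈ d.primeFactors}
  let e : ℕ × ℕ → (ι → ℕ × ℕ) := fun y p => (y.1.factorization p.1, y.2.factorization p.1)
  let f : (ι → ℕ × ℕ) → ℝ := fun φ => ∏ p : ι, (1 / ((p.1 : ℕ) : ℝ)) ^ ((φ p).1 + (φ p).2)
  have hsub : ∀ y ∈ S, y.1.primeFactors ⊆ d.primeFactors ∧ y.2.primeFactors ⊆ d.primeFactors := by
    intro y hy
    obtain ⟨h1, h2, -, -, h5, -⟩ := hS' y hy
    rw [← h5, Nat.primeFactors_mul h1 h2]
    exact ⟨subset_union_left, subset_union_right⟩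
  have hf : ∀ y ∈ S, 1 / ((y.1 : ℝ) * y.2) = f (e y) := by
    intro y hy
    obtain ⟨h1, h2, -, -, h5, -⟩ := hS' y hy
    obtain ⟨s1, s2⟩ := hsub y hy
    have e1 := Rad_prod h1 s1
    have e2 := Rad_prod h2 s2
    have e3 : f (e y) = ∏ p ∈ d.primeFactors,
        (1 / (p : ℝ)) ^ (y.1.factorization p + y.2.factorization p) :=
      Finset.prod_coe_sort d.primeFactors
        (fun p => (1 / (p : ℝ)) ^ (y.1.factorization p + y.2.factorization p))
    rw [e3]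
    have e4 : (y.1 : ℝ) * y.2 = ∏ p ∈ d.primeFactors,
        (p : ℝ) ^ (y.1.factorization p + y.2.factorization p) := by
      conv_lhs => rw [← e1, ← e2]
      push_cast
      rw [← prod_mul_distrib]
      refine prod_congr rfl fun p _ => ?_
      rw [pow_add]
    rw [e4, one_div, ← prod_inv_distrib]
    refine prod_congr rfl fun p _ => ?_
    rw [one_div, inv_pow]
  have hinj : Set.InjOn e (S : Set (ℕ × ℕ)) := by
    intro y hy y' hy' hee
    have hy1 := Finset.mem_coe.1 hy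
    have hy2 := Finset.mem_coe.1 hy'
    obtain ⟨h1, h2, -⟩ := hS' y hy1
    obtain ⟨k1, k2, -⟩ := hS' y' hy2
    obtain ⟨s1, s2⟩ := hsub y hy1
    obtain ⟨t1, t2⟩ := hsub y' hy2
    have hc : ∀ p ∈ d.primeFactors, y.1.factorization p = y'.1.factorization p ∧
        y.2.factorization p = y'.2.factorization p := by
      intro p hp
      have := congrFun hee ⟨p, hp⟩
      exact Prod.mk.inj this
    refine Prod.ext ?_ ?_
    · rw [← Rad_prod h1 s1, ← Rad_prod k1 t1]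
      exact prod_congr rfl fun p hp => by rw [(hc p hp).1]
    · rw [← Rad_prod h2 s2, ← Rad_prod k2 t2]
      exact prod_congr rfl fun p hp => by rw [(hc p hp).2]
  rw [sum_congr rfl hf, ← sum_image (f := f) hinj]
  have hsubset : S.image e ⊆ Fintype.piFinset (fun p : ι => Rad_S z K p.1) := by
    intro φ hφ
    rw [mem_image] at hφ
    obtain ⟨y, hy, rfl⟩ := hφ
    rw [Fintype.mem_piFinset]
    intro p
    obtain ⟨h1, h2, h3, h4, h5, h6⟩ := hS' y hy
    have hpp : p.1.Prime := Nat.prime_of_mem_primeFactors p.2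
    rw [Rad_mem]
    refine ⟨⟨?_, ?_⟩, ?_, ?_⟩
    · exact (Nat.factorization_lt p.1 h1).trans_le (by omega)
    · exact (Nat.factorization_lt p.1 h2).trans_le (by omega)
    · show 0 < y.1.factorization p.1 + y.2.factorization p.1
      have hq : p.1 ∈ (y.1 * y.2).primeFactors := by
        rw [h5]
        exact p.2
      have hq2 := hpp.factorization_pos_of_dvd (Nat.mul_ne_zero h1 h2) (Nat.dvd_of_mem_primeFactors hq)
      rw [Nat.factorization_mul h1 h2] at hq2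
      exact hq2
    · by_cases hd : p.1 ∣ y.1
      · exact Or.inl (h6 p.1 hpp hd)
      · exact Or.inr (Nat.factorization_eq_zero_of_not_dvd hd)
  refine (sum_le_sum_of_subset_of_nonneg hsubset fun φ _ _ =>
    prod_nonneg fun p _ => by positivity).trans ?_
  have hprod := (Finset.prod_univ_sum (fun p : ι => Rad_S z K p.1)
    (fun (p : ι) (x : ℕ × ℕ) => (1 / ((p.1 : ℕ) : ℝ)) ^ (x.1 + x.2)))
  have hgg : gg (hS z) d = ∏ p : ι, hS z p.1 / (1 - hS z p.1) := by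
    show ∏ p ∈ d.primeFactors, hS z p / (1 - hS z p) = _
    exact (Finset.prod_coe_sort d.primeFactors (fun p => hS z p / (1 - hS z p))).symm
  rw [hgg]
  refine (le_of_eq hprod.symm).trans ?_
  refine prod_le_prod (fun p _ => sum_nonneg fun x _ => by positivity) fun p _ => ?_
  have hpp : p.1.Prime := Nat.prime_of_mem_primeFactors p.2
  refine Rad_sum z K hpp.two_le ?_
  intro h2
  have h3 : p.1 ∣ d := Nat.dvd_of_mem_primeFactors p.2
  have h4 : p.1 ∣ P := by rw [h2]; exact hP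
  exact hpp.one_lt.ne' (Nat.eq_one_of_dvd_coprimes hdP h3 h4)

open Classical in
/-- **From integers to squarefree numbers.**

Proof. The left side is `∑ c n` over the `n ≤ x` coprime to `P`, `c n = (1 / n) #{a ∣ n : a is z-smooth}` (`n = a b`); `c` is
multiplicative, `c (p ^ k) = (k + 1) / p ^ k` for `p < z`, `1 / p ^ k` for `p ≥ z`. For a finite set `T` of primes not dividing `P` let
`L_T x` be the sum of the `c n` over the `n ≤ x` with all prime factors in `T`, `R_T x` the sum of the `gg (hS z) d` over the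
squarefree `d ≤ x` with all prime factors in `T`. Claim: `L_T x ≤ R_T x` for all `x`. Induction on `T`: for a new prime `p`
`L x = ∑_(k ≥ 0, p ^ k ≤ x) c (p ^ k) L_T (x / p ^ k) ≤ R_T x + ∑_(1 ≤ k ≤ K) c (p ^ k) R_T (x / p)` and
`R x = R_T x + g p R_T (x / p)`, `g p = hS z p / (1 - hS z p)` (`p` is odd as `2 ∣ P`): `g p = 2 / (p - 2)` for `p < z`, and
`∑_(1 ≤ k ≤ K) (k + 1) / p ^ k ≤ (2 p - 1) / (p - 1) ^ 2 ≤ 2 / (p - 2)`; for `p ≥ z`: `∑_(1 ≤ k ≤ K) 1 / p ^ k ≤ 1 / (p - 1) = g p`.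
At the end `T` = the primes `≤ x` not dividing `P`. (It may be simpler to keep the pairs `(a, b)` with `a b ≤ x` instead of `c`:
for `p < z` the pair `(i, j)` of exponents, for `p ≥ z` only `j`.) -/
theorem rad_le (P : ℕ) (hP : 2 ∣ P) (hP0 : P ≠ 0) (z x : ℝ) (hx : 1 ≤ x) :
    ∑ a ∈ (Icc 1 ⌊x⌋₊).filter (fun a => a.Coprime P ∧ ∀ p : ℕ, p.Prime → p ∣ a → (p : ℝ) < z),
      1 / (a : ℝ) * HH P (x / a) ≤ ∑ d ∈ SFP P x, gg (hS z) d := by
  set A : Finset ℕ := (Icc 1 ⌊x⌋₊).filter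
    (fun a => a.Coprime P ∧ ∀ p : ℕ, p.Prime → p ∣ a → (p : ℝ) < z) with hA
  let B : ℕ → Finset ℕ := fun a => (Icc 1 ⌊x / a⌋₊).filter (fun b => b.Coprime P)
  let T : Finset (ℕ × ℕ) := (Icc 1 ⌊x⌋₊ ×ˢ Icc 1 ⌊x⌋₊).filter (fun y => y.1 ∈ A ∧ y.2 ∈ B y.1)
  have hx0 : 0 ≤ x := by linarith
  have hT : ∀ y ∈ T, y.1 ≠ 0 ∧ y.2 ≠ 0 ∧ y.1 ≤ ⌊x⌋₊ ∧ y.2 ≤ ⌊x⌋₊ ∧ (y.1 : ℝ) * y.2 ≤ x ∧
      (y.1 * y.2).Coprime P ∧ ∀ p : ℕ, p.Prime → p ∣ y.1 → (p : ℝ) < z := by
    intro y hy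
    rw [mem_filter, mem_product, mem_Icc, mem_Icc] at hy
    obtain ⟨⟨⟨h1, h2⟩, h3, h4⟩, h5, h6⟩ := hy
    rw [hA, mem_filter] at h5
    have h7 := (mem_filter.1 h6)
    have h8 := (mem_Icc.1 h7.1).2
    have hy1 : (0 : ℝ) < y.1 := by exact_mod_cast h1
    have h9 : (y.2 : ℝ) ≤ x / y.1 := (Nat.le_floor_iff (by positivity)).1 h8
    rw [le_div_iff₀ hy1] at h9
    refine ⟨by omega, by omega, h2, h4, by linarith, ?_, h5.2.2⟩
    exact Nat.Coprime.mul_left h5.2.1 h7.2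
  have hL : ∑ a ∈ A, 1 / (a : ℝ) * HH P (x / a) = ∑ y ∈ T, 1 / ((y.1 : ℝ) * y.2) := by
    have h1 : ∑ a ∈ A, 1 / (a : ℝ) * HH P (x / a) =
        ∑ a ∈ A, ∑ b ∈ B a, 1 / ((a : ℝ) * b) := by
      refine sum_congr rfl fun a _ => ?_
      unfold HH
      rw [mul_sum]
      refine sum_congr rfl fun b _ => ?_
      rw [one_div_mul_one_div]
    rw [h1, sum_sigma']
    refine sum_bij' (fun y _ => (y.1, y.2)) (fun y _ => ⟨y.1, y.2⟩) ?_ ?_ ?_ ?_ ?_
    · rintro ⟨a, b⟩ hab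
      rw [mem_sigma] at hab
      have ha := hab.1
      have hb := hab.2
      simp only at ha hb
      show (a, b) ∈ T
      rw [mem_filter, mem_product]
      refine ⟨⟨?_, ?_⟩, ha, hb⟩
      · rw [hA, mem_filter] at ha
        exact ha.1
      · rw [hA, mem_filter] at ha
        have ha1 := (mem_Icc.1 ha.1).1
        have hb1 := mem_Icc.1 (mem_filter.1 hb).1
        rw [mem_Icc]
        refine ⟨hb1.1, hb1.2.trans (Nat.floor_mono ?_)⟩
        have ha2 : (1 : ℝ) ≤ a := by exact_mod_cast ha1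
        exact div_le_self hx0 ha2
    · rintro ⟨a, b⟩ hab
      rw [mem_filter] at hab
      rw [mem_sigma]
      exact hab.2
    · rintro ⟨a, b⟩ _
      rfl
    · rintro ⟨a, b⟩ _
      rfl
    · rintro ⟨a, b⟩ _
      rfl
  rw [hL]
  let ρ : ℕ × ℕ → ℕ := fun y => ∏ p ∈ (y.1 * y.2).primeFactors, p
  have hρp : ∀ y : ℕ × ℕ, (ρ y).primeFactors = (y.1 * y.2).primeFactors := fun y =>
    Nat.primeFactors_prod fun p hp => Nat.prime_of_mem_primeFactors hp
  have hρ : ∀ y ∈ T, ρ y ∈ SFP P x := by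
    intro y hy
    obtain ⟨h1, h2, -, -, h5, h6, -⟩ := hT y hy
    have hdvd : ρ y ∣ y.1 * y.2 := Nat.prod_primeFactors_dvd _
    have hpos : 0 < y.1 * y.2 := Nat.pos_of_ne_zero (Nat.mul_ne_zero h1 h2)
    unfold SFP
    rw [mem_filter, Pool.Agent.PSG.Sel_mem]
    refine ⟨⟨Nat.pos_of_dvd_of_pos hdvd hpos, ?_, ?_⟩, h6.coprime_dvd_left hdvd⟩
    · have := Nat.le_of_dvd hpos hdvd
      have h7 : (ρ y : ℝ) ≤ ((y.1 * y.2 : ℕ) : ℝ) := by exact_mod_cast this
      push_cast at h7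
      linarith
    · refine Finset.squarefree_prod_of_pairwise_isCoprime (fun p hp q hq hpq => ?_) fun p hp => ?_
      · show IsRelPrime p q
        rw [← Nat.coprime_iff_isRelPrime]
        exact (Nat.coprime_primes (Nat.prime_of_mem_primeFactors hp)
          (Nat.prime_of_mem_primeFactors hq)).2 hpq
      · exact (Nat.prime_of_mem_primeFactors hp).prime.squarefree
  rw [← sum_fiberwise_of_maps_to hρ]
  refine sum_le_sum fun d hd => ?_
  unfold SFP at hd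
  rw [mem_filter, Pool.Agent.PSG.Sel_mem] at hd
  refine Rad_fiber P hP z ⌊x⌋₊ d (by omega) hd.2 _ ?_
  intro y hy
  rw [mem_filter] at hy
  obtain ⟨h1, h2, h3, h4, -, -, h7⟩ := hT y hy.1
  refine ⟨h1, h2, h3, h4, ?_, h7⟩
  rw [← hy.2, hρp]

end Pool.Agent.P4
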