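import Pool.Agent.W_b58c63_h28.Defs

/-!
# Smooth numbers (MP_b58c63_nt, P_4, task Smo)
-/

set_option autoImplicit false

noncomputable section

open Finset

namespace Pool.Agent.P4

open Pool.Agent.Wb58c63 (PI mem_PI)

open Classical in
/-- **Smooth numbers.**

Proof. An `a ≤ x` coprime to `P` which is not `z`-smooth has a prime factor `l ≥ z`, `l ≤ x`, `a = l a'`, `a' ≤ x / l` coprime to `P`,
`log (x / a) / a = (1 / l) log ((x / l) / a') / a'` (all terms are `≥ 0`); for `l = x` the term is `0`. -/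
theorem smooth_ge (P : ℕ) (z x : ℝ) (hx : 1 ≤ x) :
    EE P x - ∑ l ∈ PI z x, 1 / (l : ℝ) * EE P (x / l) ≤
      ∑ a ∈ (Icc 1 ⌊x⌋₊).filter (fun a => a.Coprime P ∧ ∀ p : ℕ, p.Prime → p ∣ a → (p : ℝ) < z),
        Real.log (x / a) / a := by
  have hx0 : 0 < x := by linarith
  set T := (Icc 1 ⌊x⌋₊).filter
    (fun a => a.Coprime P ∧ ∀ p : ℕ, p.Prime → p ∣ a → (p : ℝ) < z) with hT
  set S := (Icc 1 ⌊x⌋₊).filter (fun a => a.Coprime P) with hS
  have memS : ∀ a, a ∈ S ↔ (1 ≤ a ∧ a ≤ ⌊x⌋₊) ∧ a.Coprime P := by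
    intro a
    rw [hS, mem_filter, mem_Icc]
  have memT : ∀ a, a ∈ T ↔ (1 ≤ a ∧ a ≤ ⌊x⌋₊) ∧ a.Coprime P ∧
      ∀ p : ℕ, p.Prime → p ∣ a → (p : ℝ) < z := by
    intro a
    rw [hT, mem_filter, mem_Icc]
  have hle : ∀ a, a ∈ S → (a : ℝ) ≤ x ∧ (1 : ℝ) ≤ a := by
    intro a ha
    obtain ⟨⟨h1, h2⟩, _⟩ := (memS a).1 ha
    exact ⟨(Nat.le_floor_iff hx0.le).1 h2, by exact_mod_cast h1⟩
  have hf0 : ∀ a, a ∈ S → 0 ≤ Real.log (x / a) / a := by
    intro a ha
    obtain ⟨h1, h2⟩ := hle a ha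
    have h3 : (1 : ℝ) ≤ x / a := by
      rw [le_div_iff₀ (by linarith)]
      linarith
    exact div_nonneg (Real.log_nonneg h3) (by linarith)
  have hTS : T ⊆ S := fun a ha => by
    rw [memT] at ha
    rw [memS]
    exact ⟨ha.1, ha.2.1⟩
  have h1 : EE P x = ∑ a ∈ S \ T, Real.log (x / a) / a + ∑ a ∈ T, Real.log (x / a) / a := by
    rw [sum_sdiff hTS]
    unfold EE
    refine sum_congr ?_ fun _ _ => rfl
    ext a
    rw [memS]
  have h2 : ∑ a ∈ S \ T, Real.log (x / a) / a ≤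
      ∑ a ∈ S \ T, ∑ l ∈ (PI z x).filter (fun l => l ∣ a), Real.log (x / a) / a := by
    refine sum_le_sum fun a ha => ?_
    rw [mem_sdiff] at ha
    have haS := (memS a).1 ha.1
    obtain ⟨hax, ha1⟩ := hle a ha.1
    rw [sum_const, nsmul_eq_mul]
    have hex : ∃ p : ℕ, p.Prime ∧ p ∣ a ∧ z ≤ p := by
      by_contra hcon
      push Not at hcon
      exact ha.2 ((memT a).2 ⟨haS.1, haS.2, fun p hp hpa => hcon p hp hpa⟩)
    obtain ⟨p, hp, hpa, hzp⟩ := hex
    have hpa' : (p : ℝ) ≤ a := by exact_mod_cast Nat.le_of_dvd (by omega) hpa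
    by_cases hpx : (p : ℝ) < x
    · have hmem : p ∈ (PI z x).filter (fun l => l ∣ a) :=
        mem_filter.2 ⟨mem_PI.2 ⟨hp, hzp, hpx⟩, hpa⟩
      have hc : (1 : ℝ) ≤ (((PI z x).filter (fun l => l ∣ a)).card : ℝ) := by
        exact_mod_cast card_pos.2 ⟨p, hmem⟩
      have := hf0 a ha.1
      nlinarith
    · have hxa : (a : ℝ) = x := le_antisymm hax (by linarith)
      rw [hxa, div_self hx0.ne', Real.log_one]
      simp
  have h3 : ∑ a ∈ S \ T, ∑ l ∈ (PI z x).filter (fun l => l ∣ a), Real.log (x / a) / a =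
      ∑ l ∈ PI z x, ∑ a ∈ (S \ T).filter (fun a => l ∣ a), Real.log (x / a) / a := by
    refine sum_comm' fun a l => ?_
    rw [mem_filter, mem_filter]
    tauto
  have h4 : ∑ l ∈ PI z x, ∑ a ∈ (S \ T).filter (fun a => l ∣ a), Real.log (x / a) / a ≤
      ∑ l ∈ PI z x, 1 / (l : ℝ) * EE P (x / l) := by
    refine sum_le_sum fun l hl => ?_
    obtain ⟨hlp, _, hlx⟩ := mem_PI.1 hl
    have hl0 : (0 : ℝ) < l := by exact_mod_cast hlp.pos
    set U := (Icc 1 ⌊x / l⌋₊).filter (fun a => a.Coprime P) with hU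
    have memU : ∀ a, a ∈ U ↔ (1 ≤ a ∧ a ≤ ⌊x / l⌋₊) ∧ a.Coprime P := by
      intro a
      rw [hU, mem_filter, mem_Icc]
    have hsub : (S \ T).filter (fun a => l ∣ a) ⊆ (U.image (fun b => l * b)) := by
      intro a ha
      rw [mem_filter, mem_sdiff] at ha
      obtain ⟨⟨haS, _⟩, b, rfl⟩ := ha
      obtain ⟨hax, ha1⟩ := hle _ haS
      have haS' := (memS _).1 haS
      rw [mem_image]
      refine ⟨b, (memU b).2 ⟨⟨?_, ?_⟩, ?_⟩, rfl⟩
      · rcases Nat.eq_zero_or_pos b with h | h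
        · subst h
          simp at haS'
        · exact h
      · refine Nat.le_floor ?_
        rw [le_div_iff₀ hl0]
        push_cast at hax
        linarith
      · exact haS'.2.coprime_dvd_left (Dvd.intro_left l rfl)
    have hterm : ∀ b : ℕ, Real.log (x / ((l * b : ℕ) : ℝ)) / ((l * b : ℕ) : ℝ) =
        1 / (l : ℝ) * (Real.log (x / l / b) / b) := by
      intro b
      push_cast
      rw [div_div x (l : ℝ) (b : ℝ)]
      rw [div_mul_div_comm, one_mul]
    have hnn : ∀ a ∈ U.image (fun b => l * b), 0 ≤ Real.log (x / (a : ℝ)) / a := by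
      intro a ha
      obtain ⟨b, hb, rfl⟩ := mem_image.1 ha
      obtain ⟨⟨hb1, hb2⟩, _⟩ := (memU b).1 hb
      have hb3 : (b : ℝ) ≤ x / l := (Nat.le_floor_iff (by positivity)).1 hb2
      have hb0 : (0 : ℝ) < b := by exact_mod_cast hb1
      rw [hterm]
      have h5 : (1 : ℝ) ≤ x / l / b := by
        rw [le_div_iff₀ hb0]
        linarith
      exact mul_nonneg (by positivity) (div_nonneg (Real.log_nonneg h5) hb0.le)
    calc ∑ a ∈ (S \ T).filter (fun a => l ∣ a), Real.log (x / a) / a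
        ≤ ∑ a ∈ U.image (fun b => l * b), Real.log (x / (a : ℝ)) / a :=
          sum_le_sum_of_subset_of_nonneg hsub fun a ha _ => hnn a ha
      _ = ∑ b ∈ U, Real.log (x / ((l * b : ℕ) : ℝ)) / ((l * b : ℕ) : ℝ) := by
          refine sum_image fun b _ b' _ h => ?_
          exact Nat.eq_of_mul_eq_mul_left hlp.pos h
      _ = ∑ b ∈ U, 1 / (l : ℝ) * (Real.log (x / l / b) / b) :=
          sum_congr rfl fun b _ => hterm b
      _ = 1 / (l : ℝ) * EE P (x / l) := by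
          rw [← mul_sum]
          rfl
  linarith

end Pool.Agent.P4
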