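import Pool.Agent.W_b58c63_h28.Defs

/-!
# Splitting off the small primes (MP_b58c63_nt, P_4, task Spl)
-/

set_option autoImplicit false
set_option linter.unusedVariables false

noncomputable section

open Finset

namespace Pool.Agent.P4

open Pool.Agent.PSG (gg GG SF pp)

/-- **Splitting off the small primes.**

Proof. `∏_(p ∣ P) 1 / (1 - h p) = ∏ (1 + h p / (1 - h p)) = ∑_(e ∣ P) gg h e` (`Pool.Agent.PSG.Sel_sum_div`); the map `(e, d) ↦ e d`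
(`e ∣ P`, `d ∈ SFP P (ξ / P)`) is injective (`e = gcd (e d, P)`), its values are in `SF ξ`, `gg h (e d) = gg h e * gg h d` (`Sel_gg_mul`),
and all terms of `GG h ξ` are `≥ 0` (`Sel_gg_pos`). -/
theorem split_small (h : ℕ → ℝ) (hh : ∀ p : ℕ, p.Prime → 0 < h p ∧ h p < 1) (P : ℕ) (hP : Squarefree P) (ξ : ℝ)
    (hξ : 0 ≤ ξ) :
    (∏ p ∈ P.primeFactors, 1 / (1 - h p)) * ∑ d ∈ SFP P (ξ / P), gg h d ≤ GG h ξ := by
  have hP0 : P ≠ 0 := hP.ne_zero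
  have e1 : (∏ p ∈ P.primeFactors, 1 / (1 - h p)) = ∑ e ∈ P.divisors, gg h e := by
    have h1 := Pool.Agent.PSG.Sel_sum_div (fun p => h p / (1 - h p)) hP
    unfold gg
    rw [h1]
    refine prod_congr rfl fun p hp => ?_
    have h2 := hh p (Nat.prime_of_mem_primeFactors hp)
    have h3 : (1 - h p) ≠ 0 := by linarith [h2.2]
    field_simp
    ring
  have hmem : ∀ x ∈ P.divisors ×ˢ SFP P (ξ / P), x.1 ∣ P ∧ x.1 ≠ 0 ∧ 1 ≤ x.2 ∧ (x.2 : ℝ) ≤ ξ / P ∧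
      Squarefree x.2 ∧ x.2.Coprime P := by
    intro x hx
    rw [mem_product] at hx
    obtain ⟨h1, h2⟩ := hx
    unfold SFP at h2
    rw [mem_filter, Pool.Agent.PSG.Sel_mem] at h2
    have h3 := Nat.dvd_of_mem_divisors h1
    exact ⟨h3, fun h0 => hP0 (by rw [h0] at h3; exact Nat.eq_zero_of_zero_dvd h3), h2.1.1, h2.1.2.1,
      h2.1.2.2, h2.2⟩
  have hinj : Set.InjOn (fun x : ℕ × ℕ => x.1 * x.2) (P.divisors ×ˢ SFP P (ξ / P) : Finset (ℕ × ℕ)) := by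
    intro x hx y hy hxy
    rw [mem_coe] at hx hy
    obtain ⟨a1, a2, -, -, -, a3⟩ := hmem x hx
    obtain ⟨b1, b2, -, -, -, b3⟩ := hmem y hy
    have hxy : x.1 * x.2 = y.1 * y.2 := hxy
    have c1 : Nat.gcd (x.1 * x.2) P = x.1 := by
      rw [Nat.Coprime.gcd_mul_right_cancel x.1 a3, Nat.gcd_eq_left a1]
    have c2 : Nat.gcd (y.1 * y.2) P = y.1 := by
      rw [Nat.Coprime.gcd_mul_right_cancel y.1 b3, Nat.gcd_eq_left b1]
    have c3 : x.1 = y.1 := by rw [← c1, hxy, c2]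
    have c4 : x.2 = y.2 := by
      rw [c3] at hxy
      exact Nat.eq_of_mul_eq_mul_left (Nat.pos_of_ne_zero b2) hxy
    exact Prod.ext c3 c4
  rw [e1, sum_mul_sum, ← sum_product']
  have e2 : ∑ x ∈ P.divisors ×ˢ SFP P (ξ / P), gg h x.1 * gg h x.2 =
      ∑ m ∈ (P.divisors ×ˢ SFP P (ξ / P)).image (fun x : ℕ × ℕ => x.1 * x.2), gg h m := by
    rw [sum_image hinj]
    refine sum_congr rfl fun x hx => ?_
    obtain ⟨a1, -, -, -, -, a3⟩ := hmem x hx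
    exact (Pool.Agent.PSG.Sel_gg_mul h (Nat.Coprime.coprime_dvd_left a1 a3.symm)).symm
  rw [e2]
  unfold GG
  refine sum_le_sum_of_subset_of_nonneg ?_ fun m _ _ => (Pool.Agent.PSG.Sel_gg_pos h hh m).le
  intro m hm
  obtain ⟨x, hx, rfl⟩ := mem_image.1 hm
  obtain ⟨a1, a2, a3, a4, a5, a6⟩ := hmem x hx
  rw [Pool.Agent.PSG.Sel_mem]
  have hc : Nat.Coprime x.1 x.2 := Nat.Coprime.coprime_dvd_left a1 a6.symm
  refine ⟨Nat.mul_pos (Nat.pos_of_ne_zero a2) a3, ?_,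
    (Nat.squarefree_mul hc).2 ⟨hP.squarefree_of_dvd a1, a5⟩⟩
  have hPpos : (0 : ℝ) < P := by exact_mod_cast Nat.pos_of_ne_zero hP0
  have h1 : (x.1 : ℝ) ≤ P := by exact_mod_cast Nat.le_of_dvd (Nat.pos_of_ne_zero hP0) a1
  have h2 : (x.2 : ℝ) * P ≤ ξ := (le_div_iff₀ hPpos).1 a4
  have h3 : (0 : ℝ) ≤ x.2 := Nat.cast_nonneg _
  show ((x.1 * x.2 : ℕ) : ℝ) ≤ ξ
  push_cast
  nlinarith

end Pool.Agent.P4
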