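import Pool.Agent.W_b58c63_h28.Ebd
import Pool.Agent.W_b58c63_h28.Rad
import Pool.Agent.W_b58c63_h28.Smo
import Pool.Agent.W_b58c63_h28.Spl
import Pool.Agent.W_b58c63_h28.PrS
import Pool.Agent.W_b58c63_h68.ArD

/-!
# The lower bound for Selberg's sum (MP_b58c63_nt, P_4, task Glo)
-/

set_option autoImplicit false

noncomputable section

open Finset

namespace Pool.Agent.P4

open Pool.Agent.Wb58c63
open Pool.Agent.PSG (gg GG SF)

/-- `∫_1^v ((v - t) ^ 2 / 2) / t dt = v ^ 2 / 2 - KK v`. -/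
theorem int_KK (v : ℝ) (hv : 1 ≤ v) : ∫ t in (1 : ℝ)..v, ((v - t) ^ 2 / 2) / t = v ^ 2 / 2 - KK v := by
  have h1 : ∀ t ∈ Set.uIcc (1 : ℝ) v, HasDerivAt
      (fun t : ℝ => v ^ 2 / 2 * Real.log t - v * t + t ^ 2 / 4) (((v - t) ^ 2 / 2) / t) t := by
    intro t ht
    rw [Set.uIcc_of_le hv] at ht
    have ht0 : 0 < t := by linarith [ht.1]
    have h2 := ((Real.hasDerivAt_log ht0.ne').const_mul (v ^ 2 / 2)).sub
      ((hasDerivAt_id t).const_mul v)
    have h3 := h2.add (((hasDerivAt_id t).pow 2).div_const 4)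
    refine h3.congr_deriv ?_
    simp only [id]
    field_simp
    ring
  have h2 : IntervalIntegrable (fun t : ℝ => ((v - t) ^ 2 / 2) / t) MeasureTheory.volume 1 v := by
    apply ContinuousOn.intervalIntegrable
    rw [Set.uIcc_of_le hv]
    refine ContinuousOn.div ?_ continuousOn_id fun t ht => ?_
    · exact ((continuousOn_const.sub continuousOn_id).pow 2).div_const 2
    · have : 0 < t := by linarith [ht.1]
      exact this.ne'
  rw [intervalIntegral.integral_eq_sub_of_hasDerivAt h1 h2, Real.log_one]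
  unfold KK
  ring

theorem Glo_anti (v : ℝ) : AntitoneOn (fun t : ℝ => (v - t) ^ 2 / 2) (Set.Icc 1 v) := by
  intro a ha b hb hab
  have h1 : 0 ≤ v - b := by linarith [hb.2]
  have h2 : v - b ≤ v - a := by linarith
  show (v - b) ^ 2 / 2 ≤ (v - a) ^ 2 / 2
  have h3 : (v - b) ^ 2 ≤ (v - a) ^ 2 := pow_le_pow_left₀ h1 h2 2
  linarith

/-- the two sums over the primes -/
theorem Glo_primes (v : ℝ) (hv : 1 < v) (ε : ℝ) (hε : 0 < ε) : ∃ z₀ : ℝ, 3 ≤ z₀ ∧ ∃ C : ℝ, 0 ≤ C ∧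
    ∀ z : ℝ, z₀ ≤ z →
      ∑ l ∈ PI z (z ^ v), ((v - Real.log l / Real.log z) ^ 2 / 2) / ((l : ℝ) - 1) ≤
        v ^ 2 / 2 - KK v + ε ∧ ∑ l ∈ PI z (z ^ v), 1 / ((l : ℝ) - 1) ≤ C := by
  obtain ⟨D1, hD1, h1⟩ := prime_riemann (fun t => (v - t) ^ 2 / 2) 1 v one_pos hv.le (Glo_anti v)
    (fun t _ => by positivity) ε hε
  obtain ⟨D2, hD2, h2⟩ := prime_riemann (fun _ => 1) 1 v one_pos hv.le
    (fun _ _ _ _ _ => le_rfl) (fun t _ => zero_le_one) 1 one_pos
  refine ⟨max 3 (max D1 D2), le_max_left _ _, max 0 ((∫ t in (1 : ℝ)..v, (1 : ℝ) / t) + 1),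
    le_max_left _ _, fun z hz => ?_⟩
  have hz1 : D1 ≤ z := ((le_max_left _ _).trans (le_max_right _ _)).trans hz
  have hz2 : D2 ≤ z := ((le_max_right _ _).trans (le_max_right _ _)).trans hz
  have g1 := h1 z hz1
  have g2 := h2 z hz2
  rw [Real.rpow_one] at g1 g2
  rw [int_KK v hv.le] at g1
  exact ⟨g1, g2.trans (le_max_right _ _)⟩

/-- the bound for one prime -/
theorem Glo_one (P : ℕ) (hP1 : 1 ≤ P) (v : ℝ) (z x : ℝ) (hz : 3 ≤ z)
    (hx : x ≤ z ^ v) (l : ℕ) (hl : l ∈ PI z x) :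
    1 / (l : ℝ) * EE P (x / l) ≤ (P.totient : ℝ) / P * Real.log z ^ 2 *
      (((v - Real.log l / Real.log z) ^ 2 / 2) / ((l : ℝ) - 1)) +
        (1 + Real.log P) * (v * Real.log z) * (1 / ((l : ℝ) - 1)) := by
  obtain ⟨hp, h1, h2⟩ := mem_PI.1 hl
  have hz0 : 0 < z := by linarith
  have hl3 : (3 : ℝ) ≤ l := hz.trans h1
  have hl0 : (0 : ℝ) < l := by linarith
  have hl1 : (0 : ℝ) < (l : ℝ) - 1 := by linarith
  have hL : 0 < Real.log z := Real.log_pos (by linarith)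
  have hx0 : 0 < x := by linarith
  have hq : 0 < x / l := by positivity
  have hlv : (l : ℝ) ≤ z ^ v := h2.le.trans hx
  have hq1 : 1 ≤ z ^ v / l := by rwa [le_div_iff₀ hl0, one_mul]
  have e1 := (EE_mono P hq (div_le_div_of_nonneg_right hx hl0.le)).trans (EE_le P hP1 _ hq1)
  have e2 : Real.log (z ^ v / l) = v * Real.log z - Real.log l := by
    rw [Real.log_div (Real.rpow_pos_of_pos hz0 v).ne' hl0.ne', Real.log_rpow hz0]
  rw [e2] at e1
  have hlogP : 0 ≤ Real.log (P : ℝ) := Real.log_natCast_nonneg P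
  have hlogl : 0 ≤ Real.log (l : ℝ) := Real.log_natCast_nonneg l
  have hρ : 0 ≤ (P.totient : ℝ) / P := by positivity
  have e3 : (v * Real.log z - Real.log l) ^ 2 / 2 =
      Real.log z ^ 2 * ((v - Real.log l / Real.log z) ^ 2 / 2) := by
    have : v * Real.log z - Real.log l = Real.log z * (v - Real.log l / Real.log z) := by
      field_simp
    rw [this]
    ring
  rw [e3] at e1
  have e4 : (1 + Real.log P) * (v * Real.log z - Real.log l) ≤
      (1 + Real.log P) * (v * Real.log z) :=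
    mul_le_mul_of_nonneg_left (by linarith) (by linarith)
  have hge : 0 ≤ (P.totient : ℝ) / P * (Real.log z ^ 2 * ((v - Real.log l / Real.log z) ^ 2 / 2)) +
      (1 + Real.log P) * (v * Real.log z) := by
    have h5 : 0 ≤ v * Real.log z - Real.log l := by
      rw [← e2]
      exact Real.log_nonneg hq1
    have h6 : 0 ≤ v * Real.log z := by linarith
    positivity
  have e5 : EE P (x / l) ≤ (P.totient : ℝ) / P *
      (Real.log z ^ 2 * ((v - Real.log l / Real.log z) ^ 2 / 2)) +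
        (1 + Real.log P) * (v * Real.log z) := by linarith
  calc 1 / (l : ℝ) * EE P (x / l) ≤ 1 / (l : ℝ) * ((P.totient : ℝ) / P *
      (Real.log z ^ 2 * ((v - Real.log l / Real.log z) ^ 2 / 2)) +
        (1 + Real.log P) * (v * Real.log z)) := mul_le_mul_of_nonneg_left e5 (by positivity)
    _ ≤ 1 / ((l : ℝ) - 1) * ((P.totient : ℝ) / P *
      (Real.log z ^ 2 * ((v - Real.log l / Real.log z) ^ 2 / 2)) +
        (1 + Real.log P) * (v * Real.log z)) := by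
        refine mul_le_mul_of_nonneg_right ?_ hge
        exact one_div_le_one_div_of_le hl1 (by linarith)
    _ = _ := by ring

theorem Glo_arith (ρ L v lP K ε C S E1 E2 : ℝ) (hρ : 0 < ρ) (hL : 0 < L)
    (h1 : ρ * (E1 - E2) ≤ S) (h2 : ρ * ((v * L - lP) ^ 2 / 2) ≤ E1)
    (h3 : E2 ≤ ρ * L ^ 2 * (v ^ 2 / 2 - K + ε / 2) + (1 + lP) * (v * L) * C)
    (h4 : ρ * v * lP + (1 + lP) * v * C ≤ L * (ρ * (ε / 2))) :
    ρ ^ 2 * L ^ 2 * (K - ε) ≤ S := by
  have h5 : ρ * (ρ * ((v * L - lP) ^ 2 / 2) - (ρ * L ^ 2 * (v ^ 2 / 2 - K + ε / 2) +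
      (1 + lP) * (v * L) * C)) ≤ ρ * (E1 - E2) := mul_le_mul_of_nonneg_left (by linarith) hρ.le
  have h6 : ρ * L * (ρ * v * lP + (1 + lP) * v * C) ≤ ρ * L * (L * (ρ * (ε / 2))) :=
    mul_le_mul_of_nonneg_left h4 (by positivity)
  have h7 : 0 ≤ ρ ^ 2 * (lP ^ 2 / 2) := by positivity
  nlinarith

/-- For a fixed even `P`: `∑_(d ∈ SFP P (z ^ v / P)) gg (hS z) d ≥ (φ P / P) ^ 2 (log z) ^ 2 (KK v - ε)` for large `z`.

Proof. `x = z ^ v / P ≥ z`, `ρ = φ P / P ≤ 1`. `rad_le` and `HH_ge`: the sum is at least `ρ ∑ log (x / a) / a` over the smooth `a`; `smooth_ge`, `EE_ge`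
(`EE P x ≥ ρ (v log z - log P) ^ 2 / 2`), and for `l ∈ PI z x ⊆ PI (z ^ 1) (z ^ v)` `EE_mono`, `EE_le`:
`EE P (x / l) ≤ ρ (log z) ^ 2 H (log l / log z) + (1 + log P) v log z`, `H t = (v - t) ^ 2 / 2`; `1 / l ≤ 1 / (l - 1)`, `prime_riemann` for `H` (`D = z`) and for
the constant function `1`, `int_KK`. The total error is `O (log z) + ρ (log z) ^ 2 ε'`. -/
theorem G_smooth (P : ℕ) (hP : 2 ∣ P) (hP0 : P ≠ 0) (v : ℝ) (hv : 1 < v) (ε : ℝ) (hε : 0 < ε) :
    ∃ z₀ : ℝ, 3 ≤ z₀ ∧ ∀ z : ℝ, z₀ ≤ z →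
      ((P.totient : ℝ) / P) ^ 2 * Real.log z ^ 2 * (KK v - ε) ≤ ∑ d ∈ SFP P (z ^ v / P), gg (hS z) d := by
  classical
  have hP1 : 1 ≤ P := Nat.one_le_iff_ne_zero.2 hP0
  have hPr : (1 : ℝ) ≤ P := by exact_mod_cast hP1
  have hPpos : (0 : ℝ) < P := by linarith
  have hv0 : 0 < v := by linarith
  set ρ : ℝ := (P.totient : ℝ) / P with hρdef
  have hρ : 0 < ρ := by
    have : 0 < P.totient := Nat.totient_pos.2 hP1
    have h2 : (0 : ℝ) < P.totient := by exact_mod_cast this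
    positivity
  obtain ⟨z1, hz1, C, hC, hpr⟩ := Glo_primes v hv (ε / 2) (by linarith)
  set L0 : ℝ := (ρ * v * Real.log P + (1 + Real.log P) * v * C) / (ρ * (ε / 2)) with hL0
  refine ⟨max z1 (max (P : ℝ) (Real.exp L0)), hz1.trans (le_max_left _ _), fun z hz => ?_⟩
  have hzz1 : z1 ≤ z := (le_max_left _ _).trans hz
  have hzP : (P : ℝ) ≤ z := ((le_max_left _ _).trans (le_max_right _ _)).trans hz
  have hzL : Real.exp L0 ≤ z := ((le_max_right _ _).trans (le_max_right _ _)).trans hz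
  have hz3 : 3 ≤ z := hz1.trans hzz1
  have hz0 : 0 < z := by linarith
  have hL : 0 < Real.log z := Real.log_pos (by linarith)
  have hLL : L0 ≤ Real.log z := (Real.le_log_iff_exp_le hz0).2 hzL
  obtain ⟨g1, g2⟩ := hpr z hzz1
  have hzv : z ≤ z ^ v := by
    calc z = z ^ (1 : ℝ) := (Real.rpow_one z).symm
      _ ≤ z ^ v := Real.rpow_le_rpow_of_exponent_le (by linarith) hv.le
  have hzv0 : 0 < z ^ v := Real.rpow_pos_of_pos hz0 v
  set x : ℝ := z ^ v / P with hx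
  have hx1 : 1 ≤ x := by
    rw [hx, le_div_iff₀ hPpos, one_mul]
    exact hzP.trans hzv
  have hxv : x ≤ z ^ v := by
    rw [hx]
    exact div_le_self hzv0.le hPr
  have hlogx : Real.log x = v * Real.log z - Real.log P := by
    rw [hx, Real.log_div hzv0.ne' hPpos.ne', Real.log_rpow hz0]
  have a1 := rad_le P hP hP0 z x hx1
  have a2 := smooth_ge P z x hx1
  have a3 := EE_ge P hP1 x hx1
  rw [hlogx] at a3
  have a4 : ρ * ∑ a ∈ (Icc 1 ⌊x⌋₊).filter
      (fun a => a.Coprime P ∧ ∀ p : ℕ, p.Prime → p ∣ a → (p : ℝ) < z), Real.log (x / a) / a ≤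
      ∑ a ∈ (Icc 1 ⌊x⌋₊).filter (fun a => a.Coprime P ∧ ∀ p : ℕ, p.Prime → p ∣ a → (p : ℝ) < z),
        1 / (a : ℝ) * HH P (x / a) := by
    rw [Finset.mul_sum]
    refine Finset.sum_le_sum fun a ha => ?_
    obtain ⟨ha1, ha2⟩ := mem_Icc.1 (mem_filter.1 ha).1
    have ha0 : (0 : ℝ) < a := by exact_mod_cast ha1
    have hax : (a : ℝ) ≤ x := (Nat.le_floor_iff (by linarith)).1 ha2
    have h5 := HH_ge P hP1 (x / a) (by rwa [le_div_iff₀ ha0, one_mul])
    have h6 : ρ * (Real.log (x / a) / a) = 1 / (a : ℝ) * (ρ * Real.log (x / a)) := by ring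
    rw [h6]
    exact mul_le_mul_of_nonneg_left h5 (by positivity)
  have a5 : ∑ l ∈ PI z x, 1 / (l : ℝ) * EE P (x / l) ≤ ρ * Real.log z ^ 2 *
      (v ^ 2 / 2 - KK v + ε / 2) + (1 + Real.log P) * (v * Real.log z) * C := by
    have hlP : 0 ≤ Real.log (P : ℝ) := Real.log_natCast_nonneg P
    have b1 : ∑ l ∈ PI z x, 1 / (l : ℝ) * EE P (x / l) ≤ ∑ l ∈ PI z x,
        (ρ * Real.log z ^ 2 * (((v - Real.log l / Real.log z) ^ 2 / 2) / ((l : ℝ) - 1)) +
          (1 + Real.log P) * (v * Real.log z) * (1 / ((l : ℝ) - 1))) :=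
      Finset.sum_le_sum fun l hl => Glo_one P hP1 v z x hz3 hxv l hl
    have b2 : ∑ l ∈ PI z x,
        (ρ * Real.log z ^ 2 * (((v - Real.log l / Real.log z) ^ 2 / 2) / ((l : ℝ) - 1)) +
          (1 + Real.log P) * (v * Real.log z) * (1 / ((l : ℝ) - 1))) ≤ ∑ l ∈ PI z (z ^ v),
        (ρ * Real.log z ^ 2 * (((v - Real.log l / Real.log z) ^ 2 / 2) / ((l : ℝ) - 1)) +
          (1 + Real.log P) * (v * Real.log z) * (1 / ((l : ℝ) - 1))) := by
      apply Finset.sum_le_sum_of_subset_of_nonneg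
      · intro l hl
        rw [mem_PI] at hl ⊢
        exact ⟨hl.1, hl.2.1, hl.2.2.trans_le hxv⟩
      · intro l hl _
        have hl2 : (3 : ℝ) ≤ l := hz3.trans (mem_PI.1 hl).2.1
        have hl1 : (0 : ℝ) < (l : ℝ) - 1 := by linarith
        positivity
    have b5 : ∑ l ∈ PI z (z ^ v),
        (ρ * Real.log z ^ 2 * (((v - Real.log l / Real.log z) ^ 2 / 2) / ((l : ℝ) - 1)) +
          (1 + Real.log P) * (v * Real.log z) * (1 / ((l : ℝ) - 1))) =
        ρ * Real.log z ^ 2 * ∑ l ∈ PI z (z ^ v),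
          (((v - Real.log l / Real.log z) ^ 2 / 2) / ((l : ℝ) - 1)) +
        (1 + Real.log P) * (v * Real.log z) * ∑ l ∈ PI z (z ^ v), 1 / ((l : ℝ) - 1) := by
      rw [Finset.sum_add_distrib, ← Finset.mul_sum, ← Finset.mul_sum]
    have b3 : ρ * Real.log z ^ 2 * ∑ l ∈ PI z (z ^ v),
        (((v - Real.log l / Real.log z) ^ 2 / 2) / ((l : ℝ) - 1)) ≤
        ρ * Real.log z ^ 2 * (v ^ 2 / 2 - KK v + ε / 2) :=
      mul_le_mul_of_nonneg_left g1 (by positivity)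
    have b4 : (1 + Real.log P) * (v * Real.log z) * ∑ l ∈ PI z (z ^ v), 1 / ((l : ℝ) - 1) ≤
        (1 + Real.log P) * (v * Real.log z) * C :=
      mul_le_mul_of_nonneg_left g2 (by positivity)
    linarith
  have a6 : ρ * v * Real.log P + (1 + Real.log P) * v * C ≤ Real.log z * (ρ * (ε / 2)) := by
    rw [hL0, div_le_iff₀ (by positivity)] at hLL
    exact hLL
  refine Glo_arith ρ (Real.log z) v (Real.log P) (KK v) ε C _ (EE P x)
    (∑ l ∈ PI z x, 1 / (l : ℝ) * EE P (x / l)) hρ hL ?_ a3 a5 a6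
  exact ((mul_le_mul_of_nonneg_left a2 hρ.le).trans a4).trans a1

theorem Glo_hS (z : ℝ) (p : ℕ) (hp : p.Prime) : 0 < hS z p ∧ hS z p < 1 := by
  have h2 : (2 : ℝ) ≤ p := by exact_mod_cast hp.two_le
  have h0 : (0 : ℝ) < p := by linarith
  unfold hS
  split_ifs with h
  · have h3 : 2 < p := lt_of_le_of_ne hp.two_le (Ne.symm h.2)
    have h4 : (2 : ℝ) < p := by exact_mod_cast h3
    exact ⟨by positivity, (div_lt_one h0).2 h4⟩
  · exact ⟨by positivity, (div_lt_one h0).2 (by linarith)⟩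

theorem Glo_GG (z ξ : ℝ) : 0 ≤ GG (hS z) ξ := by
  unfold Pool.Agent.PSG.GG
  refine Finset.sum_nonneg fun d _ => ?_
  unfold gg Pool.Agent.PSG.pp
  refine Finset.prod_nonneg fun p hp => ?_
  have h1 := Glo_hS z p (Nat.prime_of_mem_primeFactors hp)
  exact div_nonneg h1.1.le (by linarith [h1.2])

/-- **The lower bound for Selberg's sum.**

Proof. If `KK v ≤ ε` trivial. Otherwise `prod_small` with a small `ε'`, `split_small` for `hS z` (`ξ = z ^ v`), `G_smooth`. -/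
theorem G_low (v : ℝ) (hv : 1 < v) (ε : ℝ) (hε : 0 < ε) : ∃ z₀ : ℝ, 3 ≤ z₀ ∧ ∀ z : ℝ, z₀ ≤ z →
    V1 z ^ 2 * Real.log z ^ 2 * (KK v - ε) ≤ GG (hS z) (z ^ v) * ∏ p ∈ PI 0 z, (1 - hS z p) := by
  have hB : ∀ z : ℝ, 0 ≤ ∏ p ∈ PI 0 z, (1 - hS z p) := fun z =>
    Finset.prod_nonneg fun p hp => by
      have := (Glo_hS z p (mem_PI.1 hp).1).2
      linarith
  rcases le_or_gt (KK v) ε with hK | hK
  · refine ⟨3, le_rfl, fun z _ => ?_⟩
    refine le_trans ?_ (mul_nonneg (Glo_GG z _) (hB z))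
    exact mul_nonpos_of_nonneg_of_nonpos (by positivity) (by linarith)
  · have hK0 : 0 < KK v := hε.trans hK
    obtain ⟨P, hsq, h2P, hP⟩ := prod_small (ε / (2 * KK v)) (by positivity)
    have hP0 : P ≠ 0 := hsq.ne_zero
    obtain ⟨z1, hz1, hsm⟩ := G_smooth P h2P hP0 v hv (ε / 2) (by linarith)
    refine ⟨max z1 ((P : ℝ) + 1), hz1.trans (le_max_left _ _), fun z hz => ?_⟩
    have g1 := hsm z ((le_max_left _ _).trans hz)
    have g2 := hP z ((le_max_right _ _).trans hz)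
    have hz3 : 3 ≤ z := hz1.trans ((le_max_left _ _).trans hz)
    have hz0 : 0 < z := by linarith
    have g3 := split_small (hS z) (fun p hp => Glo_hS z p hp) P hsq (z ^ v)
      (Real.rpow_nonneg hz0.le v)
    have hA : 0 ≤ ∏ p ∈ P.primeFactors, 1 / (1 - hS z p) :=
      Finset.prod_nonneg fun p hp => by
        have := (Glo_hS z p (Nat.prime_of_mem_primeFactors hp)).2
        exact div_nonneg zero_le_one (by linarith)
    have hB0 := hB z
    set A := ∏ p ∈ P.primeFactors, 1 / (1 - hS z p)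
    set B := ∏ p ∈ PI 0 z, (1 - hS z p)
    set ρ : ℝ := (P.totient : ℝ) / P
    set S := ∑ d ∈ SFP P (z ^ v / P), gg (hS z) d
    have hV : 0 ≤ V1 z ^ 2 := sq_nonneg _
    have hLL : 0 ≤ Real.log z ^ 2 := sq_nonneg _
    have e1 : A * (ρ ^ 2 * Real.log z ^ 2 * (KK v - ε / 2)) * B ≤ GG (hS z) (z ^ v) * B :=
      mul_le_mul_of_nonneg_right ((mul_le_mul_of_nonneg_left g1 hA).trans g3) hB0
    have e2 : (1 - ε / (2 * KK v)) * V1 z ^ 2 * (Real.log z ^ 2 * (KK v - ε / 2)) ≤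
        ρ ^ 2 * A * B * (Real.log z ^ 2 * (KK v - ε / 2)) :=
      mul_le_mul_of_nonneg_right g2 (mul_nonneg hLL (by linarith))
    have e3 : KK v - ε ≤ (1 - ε / (2 * KK v)) * (KK v - ε / 2) := by
      have h5 : ε / (2 * KK v) * KK v = ε / 2 := by field_simp
      have h6 : 0 ≤ ε / (2 * KK v) * (ε / 2) := by positivity
      nlinarith
    have e4 : V1 z ^ 2 * Real.log z ^ 2 * (KK v - ε) ≤
        V1 z ^ 2 * Real.log z ^ 2 * ((1 - ε / (2 * KK v)) * (KK v - ε / 2)) :=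
      mul_le_mul_of_nonneg_left e3 (mul_nonneg hV hLL)
    calc V1 z ^ 2 * Real.log z ^ 2 * (KK v - ε) ≤
        V1 z ^ 2 * Real.log z ^ 2 * ((1 - ε / (2 * KK v)) * (KK v - ε / 2)) := e4
      _ = (1 - ε / (2 * KK v)) * V1 z ^ 2 * (Real.log z ^ 2 * (KK v - ε / 2)) := by ring
      _ ≤ ρ ^ 2 * A * B * (Real.log z ^ 2 * (KK v - ε / 2)) := e2
      _ = A * (ρ ^ 2 * Real.log z ^ 2 * (KK v - ε / 2)) * B := by ring
      _ ≤ GG (hS z) (z ^ v) * B := e1

end Pool.Agent.P4
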