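import Pool.Agent.W_b58c63_h28.ApS

/-!
# The forbidden classes modulo `d` (MP_b58c63_nt, P_4, task Loc)
-/

set_option autoImplicit false

noncomputable section

open Finset Filter

namespace Pool.Agent.P4

open Pool.Agent.Wb58c63
open Pool.Agent.W33m (IW)

open Classical in
theorem Loc_card_mul (P Q : ℕ → Prop) (m n : ℕ) (hm : m ≠ 0) (hn : n ≠ 0) (h : m.Coprime n) :
    ((range (m * n)).filter (fun r => P (r % m) ∧ Q (r % n))).card =
      ((range m).filter P).card * ((range n).filter Q).card := by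
  rw [← card_product]
  refine card_bij' (fun r _ => (r % m, r % n)) (fun x _ => (Nat.chineseRemainder h x.1 x.2 : ℕ))
    ?_ ?_ ?_ ?_
  · intro r hr
    have h1 := (mem_filter.1 hr).2
    refine mem_product.2 ⟨mem_filter.2 ⟨mem_range.2 (Nat.mod_lt _ (Nat.pos_of_ne_zero hm)), h1.1⟩,
      mem_filter.2 ⟨mem_range.2 (Nat.mod_lt _ (Nat.pos_of_ne_zero hn)), h1.2⟩⟩
  · intro x hx
    obtain ⟨h1, h2⟩ := mem_product.1 hx
    obtain ⟨h3, h4⟩ := mem_filter.1 h1
    obtain ⟨h5, h6⟩ := mem_filter.1 h2
    have h7 : (Nat.chineseRemainder h x.1 x.2 : ℕ) % m = x.1 := by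
      have := (Nat.chineseRemainder h x.1 x.2).2.1
      rw [Nat.ModEq, Nat.mod_eq_of_lt (mem_range.1 h3)] at this
      exact this
    have h8 : (Nat.chineseRemainder h x.1 x.2 : ℕ) % n = x.2 := by
      have := (Nat.chineseRemainder h x.1 x.2).2.2
      rw [Nat.ModEq, Nat.mod_eq_of_lt (mem_range.1 h5)] at this
      exact this
    refine mem_filter.2 ⟨mem_range.2 (Nat.chineseRemainder_lt_mul h x.1 x.2 hm hn), ?_, ?_⟩
    · rw [h7]
      exact h4
    · rw [h8]
      exact h6
  · intro r hr
    have h1 := mem_range.1 (mem_filter.1 hr).1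
    have h2 := (Nat.chineseRemainder h (r % m) (r % n)).2
    have h3 : (Nat.chineseRemainder h (r % m) (r % n) : ℕ) ≡ r [MOD m * n] :=
      (Nat.modEq_and_modEq_iff_modEq_mul h).1
        ⟨h2.1.trans (Nat.mod_modEq r m), h2.2.trans (Nat.mod_modEq r n)⟩
    exact Nat.ModEq.eq_of_lt_of_lt h3 (Nat.chineseRemainder_lt_mul h _ _ hm hn) h1
  · intro x hx
    obtain ⟨h1, h2⟩ := mem_product.1 hx
    have h3 := mem_range.1 (mem_filter.1 h1).1
    have h5 := mem_range.1 (mem_filter.1 h2).1
    have h6 := (Nat.chineseRemainder h x.1 x.2).2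
    refine Prod.ext ?_ ?_
    · have := h6.1
      rw [Nat.ModEq, Nat.mod_eq_of_lt h3] at this
      exact this
    · have := h6.2
      rw [Nat.ModEq, Nat.mod_eq_of_lt h5] at this
      exact this

theorem Loc_Om_mod (N : ℕ) (z : ℝ) (d n : ℕ) : Om N z d n ↔ Om N z d (n % d) := by
  unfold Om
  refine forall₂_congr fun p hp => ?_
  have hpd : p ∣ d := Nat.dvd_of_mem_primeFactors hp
  have h1 : (n % d) ≡ n [MOD p] := (Nat.mod_modEq n d).of_dvd hpd
  refine or_congr ?_ (and_congr_right fun _ => and_congr_right fun _ => ?_)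
  · exact (Nat.dvd_mod_iff hpd).symm
  · exact ⟨fun h => h1.trans h, fun h => h1.symm.trans h⟩

open Classical in
theorem Loc_card_prime (N : ℕ) (z : ℝ) (p : ℕ) (hp : p.Prime) :
    ((range p).filter (fun r => Om N z p r)).card = rN N z p := by
  have h1 : ∀ r, Om N z p r ↔ p ∣ r ∨ ((p : ℝ) < z ∧ ¬ p ∣ N ∧ r ≡ N [MOD p]) := by
    intro r
    unfold Om
    rw [hp.primeFactors]
    simp only [mem_singleton, forall_eq]
  unfold rN
  by_cases h : (p : ℝ) < z ∧ ¬ p ∣ N
  · rw [if_pos h]
    have h2 : (range p).filter (fun r => Om N z p r) = {0, N % p} := by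
      ext r
      rw [mem_filter, mem_range, h1, mem_insert, mem_singleton]
      constructor
      · rintro ⟨h3, h4 | ⟨-, -, h4⟩⟩
        · exact Or.inl (Nat.eq_zero_of_dvd_of_lt h4 h3)
        · rw [Nat.ModEq, Nat.mod_eq_of_lt h3] at h4
          exact Or.inr h4
      · rintro (rfl | rfl)
        · exact ⟨hp.pos, Or.inl (dvd_zero _)⟩
        · exact ⟨Nat.mod_lt _ hp.pos, Or.inr ⟨h.1, h.2, Nat.mod_modEq N p⟩⟩
    rw [h2, card_pair]
    intro h3
    exact h.2 (Nat.dvd_of_mod_eq_zero h3.symm)
  · rw [if_neg h]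
    have h2 : (range p).filter (fun r => Om N z p r) = {0} := by
      ext r
      rw [mem_filter, mem_range, h1, mem_singleton]
      constructor
      · rintro ⟨h3, h4 | ⟨h4, h5, -⟩⟩
        · exact Nat.eq_zero_of_dvd_of_lt h4 h3
        · exact absurd ⟨h4, h5⟩ h
      · rintro rfl
        exact ⟨hp.pos, Or.inl (dvd_zero _)⟩
    rw [h2, card_singleton]

open Classical in
/-- The number of the classes modulo a squarefree `d` with `Om` is `rP`.

Proof. Induction on the number of prime factors: `Om N z (p d) n ↔ Om N z p n ∧ Om N z d n` for a prime `p ∤ d`, the Chinese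
remainder theorem (`Nat.chineseRemainder`, or `ZMod.chineseRemainder`), and for a prime `p` the classes `r < p` with `p ∣ r` or
`(p < z, p ∤ N, r ≡ N mod p)` are `rN N z p` in number (the classes `0` and `N % p ≠ 0`). -/
theorem card_Om (N : ℕ) (z : ℝ) (d : ℕ) (hd : Squarefree d) :
    ((range d).filter (fun r => Om N z d r)).card = rP N z d := by
  revert hd
  refine induction_on_primes (motive := fun d => Squarefree d →
    ((range d).filter (fun r => Om N z d r)).card = rP N z d) ?_ ?_ ?_ d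
  · intro h
    exact absurd h not_squarefree_zero
  · intro _
    have h1 : ∀ r, Om N z 1 r := by
      intro r p hp
      rw [Nat.primeFactors_one] at hp
      exact absurd hp (notMem_empty p)
    unfold rP
    rw [Nat.primeFactors_one, prod_empty, filter_true_of_mem fun r _ => h1 r]
    exact card_range 1
  · intro p a hp ih hpa
    obtain ⟨h1, -, h3⟩ := Nat.squarefree_mul_iff.1 hpa
    have h4 : (p * a).primeFactors = p.primeFactors ∪ a.primeFactors :=
      h1.primeFactors_mul
    have h5 : ∀ n, Om N z (p * a) n ↔ Om N z p n ∧ Om N z a n := by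
      intro n
      unfold Om
      rw [h4]
      constructor
      · intro h
        exact ⟨fun q hq => h q (mem_union_left _ hq), fun q hq => h q (mem_union_right _ hq)⟩
      · rintro ⟨h, h'⟩ q hq
        rcases mem_union.1 hq with hq | hq
        · exact h q hq
        · exact h' q hq
    have h6 : rP N z (p * a) = rN N z p * rP N z a := by
      unfold rP
      rw [h4, prod_union (Nat.Coprime.disjoint_primeFactors h1), hp.primeFactors, prod_singleton]
    rw [h6, ← ih h3, ← Loc_card_prime N z p hp,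
      ← Loc_card_mul (fun r => Om N z p r) (fun r => Om N z a r) p a hp.ne_zero h3.ne_zero h1]
    congr 1
    refine filter_congr fun r _ => ?_
    rw [h5, Loc_Om_mod N z p r, Loc_Om_mod N z a r]

/-- `Om N z d n` depends only on `n mod d` (`p ∣ d`). -/
theorem Om_mod (N : ℕ) (z : ℝ) (d n : ℕ) : Om N z d n ↔ Om N z d (n % d) :=
  Loc_Om_mod N z d n

open Classical in
/-- **The local sums.**

Proof. The `n ≡ N mod q` with `Om N z d n` are, over the `r < d` with `Om N z d r` (`card_Om`, `Om_mod`), the `n` in the class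
`c_r` modulo `q d` (Chinese remainder theorem). `ap_sum` for each of these `rP N z d` classes. -/
theorem loc_sum (k : ℕ) : ∃ C : ℝ, 0 < C ∧ ∀ᶠ Y : ℝ in atTop, ∀ (N q d : ℕ) (z : ℝ), Squarefree d →
    q.Coprime d → 1 ≤ q → ((q * d : ℕ) : ℝ) ≤ Y / 4 →
      |∑ n ∈ (IW Y).filter (fun n => n ≡ N [MOD q] ∧ Om N z d n), aw k Y n * Real.log n -
        (rP N z d : ℝ) / (q * d) * WI k Y| ≤ C * rP N z d * Real.log Y := by
  obtain ⟨C, hC, h⟩ := ap_sum k
  refine ⟨C, hC, ?_⟩
  filter_upwards [h] with Y hY N q d z hd hqd hq hle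
  have hd0 : d ≠ 0 := hd.ne_zero
  have hqd1 : 1 ≤ q * d := Nat.mul_pos hq (Nat.pos_of_ne_zero hd0)
  set R := (range d).filter (fun r => Om N z d r) with hR
  have hcard : (R.card : ℝ) = rP N z d := by
    rw [hR, card_Om N z d hd]
  have h1 : ∑ n ∈ (IW Y).filter (fun n => n ≡ N [MOD q] ∧ Om N z d n), aw k Y n * Real.log n =
      ∑ r ∈ R, ∑ n ∈ (IW Y).filter (fun n => n ≡ (Nat.chineseRemainder hqd N r : ℕ) [MOD q * d]),
        aw k Y n * Real.log n := by
    rw [← sum_fiberwise_of_maps_to (s := (IW Y).filter (fun n => n ≡ N [MOD q] ∧ Om N z d n))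
      (t := R) (g := fun n => n % d)]
    · refine sum_congr rfl fun r hr => ?_
      obtain ⟨hr1, hr2⟩ := mem_filter.1 hr
      rw [filter_filter]
      refine sum_congr (filter_congr fun n _ => ?_) fun _ _ => rfl
      have h2 := (Nat.chineseRemainder hqd N r).2
      rw [← Nat.modEq_and_modEq_iff_modEq_mul hqd]
      constructor
      · rintro ⟨⟨h3, -⟩, h5⟩
        refine ⟨h3.trans h2.1.symm, Nat.ModEq.trans ?_ h2.2.symm⟩
        rw [← h5]
        exact (Nat.mod_modEq n d).symm
      · rintro ⟨h3, h4⟩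
        have h5 : n % d = r := by
          have h6 := h4.trans h2.2
          rw [Nat.ModEq, Nat.mod_eq_of_lt (mem_range.1 hr1)] at h6
          exact h6
        refine ⟨⟨h3.trans h2.1, ?_⟩, h5⟩
        rw [Om_mod, h5]
        exact hr2
    · intro n hn
      have h2 := (mem_filter.1 hn).2.2
      rw [Om_mod] at h2
      exact mem_filter.2 ⟨mem_range.2 (Nat.mod_lt _ (Nat.pos_of_ne_zero hd0)), h2⟩
  have h2 : (rP N z d : ℝ) / (q * d) * WI k Y = ∑ r ∈ R, WI k Y / ((q * d : ℕ) : ℝ) := by
    rw [sum_const, nsmul_eq_mul, hcard]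
    push_cast
    ring
  rw [h1, h2, ← sum_sub_distrib]
  refine (abs_sum_le_sum_abs _ _).trans ?_
  have h3 : C * rP N z d * Real.log Y = ∑ r ∈ R, C * Real.log Y := by
    rw [sum_const, nsmul_eq_mul, hcard]
    ring
  rw [h3]
  exact sum_le_sum fun r _ => hY (q * d) _ hqd1 hle

end Pool.Agent.P4
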