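import Mathlib

/-!
# Numerics of the linear part (MP_b58c63_nt, P_4, task NuA)
-/

set_option autoImplicit false

noncomputable section

namespace Pool.Agent.P4

theorem NuA_int (F f : ℝ → ℝ) (a b : ℝ) (hab : a ≤ b)
    (hF : ∀ x, a ≤ x → x ≤ b → HasDerivAt F (f x) x) (hf : ContinuousOn f (Set.Icc a b)) :
    ∫ t in a..b, f t = F b - F a := by
  refine intervalIntegral.integral_eq_sub_of_hasDerivAt ?_ ?_
  · intro x hx
    rw [Set.uIcc_of_le hab] at hx
    exact hF x hx.1 hx.2
  · refine ContinuousOn.intervalIntegrable ?_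
    rwa [Set.uIcc_of_le hab]

theorem NuA_log3 : 5 * Real.log 3 ≤ 8 * Real.log 2 - 26 / 499 := by
  have h1 := Real.le_log_one_add_of_nonneg (x := 13 / 243) (by norm_num)
  have h2 : (1 + 13 / 243 : ℝ) = 2 ^ 8 / 3 ^ 5 := by norm_num
  rw [h2, Real.log_div (by norm_num) (by norm_num), Real.log_pow, Real.log_pow] at h1
  norm_num at h1 ⊢
  linarith

theorem NuA_log53 : 4 * (Real.log 5 - Real.log 3) ≤ 3 * Real.log 2 - 46 / 1273 := by
  have h1 := Real.le_log_one_add_of_nonneg (x := 23 / 625) (by norm_num)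
  have h2 : (1 + 23 / 625 : ℝ) = (2 ^ 3 * 3 ^ 4) / 5 ^ 4 := by norm_num
  rw [h2, Real.log_div (by norm_num) (by norm_num), Real.log_mul (by norm_num) (by norm_num),
    Real.log_pow, Real.log_pow, Real.log_pow] at h1
  norm_num at h1 ⊢
  linarith

theorem NuA_d1 (x : ℝ) (hx : x ≠ 0) : HasDerivAt Real.log (1 / x) x := by
  have h := Real.hasDerivAt_log hx
  rwa [← one_div] at h

theorem NuA_d2 (x : ℝ) (hx : 1 - x ≠ 0) :
    HasDerivAt (fun t => Real.log (1 - t)) (-(1 / (1 - x))) x := by
  have h1 : HasDerivAt (fun t : ℝ => 1 - t) (-1) x := by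
    simpa using (hasDerivAt_id x).const_sub 1
  have h2 := h1.log hx
  rwa [neg_div] at h2

/-- First piece: `0.287 ∫_(1/6)^(1/3) (1 / t - c) dt = 0.287 (log 2 - c / 6)`, `c = 499 / 625`; the value is `0.160743..`. -/
theorem intA : ∫ t in (1 / 6 : ℝ)..(1 / 3), (1 - 499 / 625 * t) * (287 / 1000) / t ≤ 16075 / 100000 := by
  rw [NuA_int (fun t => 287 / 1000 * Real.log t - 287 / 1000 * (499 / 625) * t) _ _ _ (by norm_num)]
  · have h1 : Real.log (1 / 3) = - Real.log 3 := by rw [one_div, Real.log_inv]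
    have h2 : Real.log (1 / 6) = - (Real.log 2 + Real.log 3) := by
      rw [one_div, Real.log_inv, ← Real.log_mul (by norm_num) (by norm_num)]
      norm_num
    have h3 := Real.log_two_lt_d9
    show 287 / 1000 * Real.log (1 / 3) - 287 / 1000 * (499 / 625) * (1 / 3)
      - (287 / 1000 * Real.log (1 / 6) - 287 / 1000 * (499 / 625) * (1 / 6)) ≤ 16075 / 100000
    rw [h1, h2]
    norm_num at h3 ⊢
    linarith
  · intro x hx _
    have h0 : x ≠ 0 := by
      have : (0 : ℝ) < x := lt_of_lt_of_le (by norm_num) hx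
      exact this.ne'
    have h := ((NuA_d1 x h0).const_mul (287 / 1000)).sub
      ((hasDerivAt_id x).const_mul (287 / 1000 * (499 / 625)))
    refine h.congr_deriv ?_
    field_simp
  · refine ContinuousOn.div (by fun_prop) (by fun_prop) ?_
    intro x hx
    have : (0 : ℝ) < x := lt_of_lt_of_le (by norm_num) hx.1
    exact this.ne'

/-- Second piece. With `a = 1.444`, `b = 0.888`, `c = 499 / 625`:
`(1 - c t) (a - b t) / (6 (1 - t) t) = (1 / 6) (a / t - c b + (1 - c) (a - b) / (1 - t))` and the integral is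
`(1 / 6) (a log (3 / 2) - c b / 6 + (1 - c) (a - b) log (4 / 3)) = 0.083263..`. -/
theorem intB : ∫ t in (1 / 3 : ℝ)..(1 / 2), (1 - 499 / 625 * t) * ((1 + 37 / 250 * (3 - 6 * t)) / (6 * (1 - t))) / t ≤
    8327 / 100000 := by
  rw [NuA_int (fun t => 1 / 6 * (361 / 250) * Real.log t - 1 / 6 * (499 / 625 * (111 / 125)) * t
    - 1 / 6 * (126 / 625 * (139 / 250)) * Real.log (1 - t)) _ _ _ (by norm_num)]
  · have h1 : Real.log (1 / 3) = - Real.log 3 := by rw [one_div, Real.log_inv]
    have h2 : Real.log (1 / 2) = - Real.log 2 := by rw [one_div, Real.log_inv]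
    have h3 : Real.log (1 - 1 / 3) = Real.log 2 - Real.log 3 := by
      rw [← Real.log_div (by norm_num) (by norm_num)]
      norm_num
    have h4 : Real.log (1 - 1 / 2) = - Real.log 2 := by
      rw [← h2]
      norm_num
    have h5 := Real.log_two_lt_d9
    have h6 := Real.log_two_gt_d9
    have h7 := NuA_log3
    show 1 / 6 * (361 / 250) * Real.log (1 / 2) - 1 / 6 * (499 / 625 * (111 / 125)) * (1 / 2)
      - 1 / 6 * (126 / 625 * (139 / 250)) * Real.log (1 - 1 / 2)
      - (1 / 6 * (361 / 250) * Real.log (1 / 3) - 1 / 6 * (499 / 625 * (111 / 125)) * (1 / 3)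
      - 1 / 6 * (126 / 625 * (139 / 250)) * Real.log (1 - 1 / 3)) ≤ 8327 / 100000
    rw [h1, h2, h3, h4]
    norm_num at h5 h6 h7 ⊢
    linarith
  · intro x hx hx2
    have h0 : x ≠ 0 := by
      have : (0 : ℝ) < x := lt_of_lt_of_le (by norm_num) hx
      exact this.ne'
    have h1 : 1 - x ≠ 0 := by
      have : (0 : ℝ) < 1 - x := by norm_num at hx2; linarith
      exact this.ne'
    have h := (((NuA_d1 x h0).const_mul (1 / 6 * (361 / 250))).sub
      ((hasDerivAt_id x).const_mul (1 / 6 * (499 / 625 * (111 / 125))))).sub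
      ((NuA_d2 x h1).const_mul (1 / 6 * (126 / 625 * (139 / 250))))
    refine h.congr_deriv ?_
    field_simp
    ring
  · refine ContinuousOn.div ?_ (by fun_prop) ?_
    · refine ContinuousOn.mul (by fun_prop) (ContinuousOn.div (by fun_prop) (by fun_prop) ?_)
      intro x hx
      have : (0 : ℝ) < 6 * (1 - x) := by
        have := hx.2
        norm_num at this
        linarith
      exact this.ne'
    · intro x hx
      have : (0 : ℝ) < x := lt_of_lt_of_le (by norm_num) hx.1
      exact this.ne'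

/-- Third piece: `(1 - c t) / (6 (1 - t) t) = (1 / 6) (1 / t + (1 - c) / (1 - t))`, the integral is
`(1 / 6) (log (5 / 3) + (1 - c) log 3) = 0.122051..`. -/
theorem intC : ∫ t in (1 / 2 : ℝ)..(5 / 6), (1 - 499 / 625 * t) * (1 / (6 * (1 - t))) / t ≤ 12206 / 100000 := by
  rw [NuA_int (fun t => 1 / 6 * Real.log t - 1 / 6 * (126 / 625) * Real.log (1 - t)) _ _ _
    (by norm_num)]
  · have h2 : Real.log (1 / 2) = - Real.log 2 := by rw [one_div, Real.log_inv]
    have h3 : Real.log (5 / 6) = Real.log 5 - (Real.log 2 + Real.log 3) := by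
      rw [← Real.log_mul (by norm_num) (by norm_num), ← Real.log_div (by norm_num) (by norm_num)]
      norm_num
    have h4 : Real.log (1 - 1 / 2) = - Real.log 2 := by
      rw [← h2]
      norm_num
    have h5 : Real.log (1 - 5 / 6) = - (Real.log 2 + Real.log 3) := by
      rw [← Real.log_mul (by norm_num) (by norm_num), ← Real.log_inv]
      norm_num
    have h6 := Real.log_two_lt_d9
    have h7 := NuA_log3
    have h8 := NuA_log53
    show 1 / 6 * Real.log (5 / 6) - 1 / 6 * (126 / 625) * Real.log (1 - 5 / 6)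
      - (1 / 6 * Real.log (1 / 2) - 1 / 6 * (126 / 625) * Real.log (1 - 1 / 2)) ≤ 12206 / 100000
    rw [h2, h3, h4, h5]
    norm_num at h6 h7 h8 ⊢
    linarith
  · intro x hx hx2
    have h0 : x ≠ 0 := by
      have : (0 : ℝ) < x := lt_of_lt_of_le (by norm_num) hx
      exact this.ne'
    have h1 : 1 - x ≠ 0 := by
      have : (0 : ℝ) < 1 - x := by norm_num at hx2; linarith
      exact this.ne'
    have h := ((NuA_d1 x h0).const_mul (1 / 6)).sub
      ((NuA_d2 x h1).const_mul (1 / 6 * (126 / 625)))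
    refine h.congr_deriv ?_
    field_simp
    ring
  · refine ContinuousOn.div ?_ (by fun_prop) ?_
    · refine ContinuousOn.mul (by fun_prop) (ContinuousOn.div (by fun_prop) (by fun_prop) ?_)
      intro x hx
      have : (0 : ℝ) < 6 * (1 - x) := by
        have := hx.2
        norm_num at this
        linarith
      exact this.ne'
    · intro x hx
      have : (0 : ℝ) < x := lt_of_lt_of_le (by norm_num) hx.1
      exact this.ne'

end Pool.Agent.P4
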