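import Pool.Agent.W_b58c63_h68.ArD

/-!
# Riemann sums over primes for continuous functions (MP_b58c63_nt, P_4, task Rie)
-/

set_option autoImplicit false

noncomputable section

open Finset

namespace Pool.Agent.P4

open Pool.Agent.Wb58c63

private theorem Rie_int (H : ℝ → ℝ) (c d : ℝ) (hc : 0 < c) (hcd : c ≤ d)
    (hH : ContinuousOn H (Set.Icc c d)) :
    IntervalIntegrable (fun t => H t / t) MeasureTheory.volume c d := by
  have h2 : ContinuousOn (fun t : ℝ => H t / t) (Set.uIcc c d) := by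
    rw [Set.uIcc_of_le hcd]
    exact hH.div continuousOn_id fun t ht => (hc.trans_le ht.1).ne'
  exact h2.intervalIntegrable

private theorem Rie_piece (H : ℝ → ℝ) (a c d : ℝ) (ha : 0 < a) (hac : a ≤ c) (hcd : c ≤ d)
    (hH : ContinuousOn H (Set.Icc c d)) (hH0 : ∀ t ∈ Set.Icc c d, 0 ≤ H t) (e : ℝ) (he : 0 ≤ e)
    (hv : ∀ s ∈ Set.Icc c d, ∀ t ∈ Set.Icc c d, |H s - H t| ≤ e) (ε : ℝ) (hε : 0 < ε) :
    ∃ D₀ : ℝ, 2 ≤ D₀ ∧ ∀ D : ℝ, D₀ ≤ D →
      ∑ p ∈ PI (D ^ c) (D ^ d), H (Real.log p / Real.log D) / ((p : ℝ) - 1) ≤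
        (∫ t in c..d, H t / t) + 2 * e / a * (d - c) + ε := by
  have hc0 : 0 < c := ha.trans_le hac
  have hcc : c ∈ Set.Icc c d := ⟨le_rfl, hcd⟩
  have hHc : 0 ≤ H c := hH0 c hcc
  obtain ⟨D₀, hD₀, h⟩ := prime_riemann (fun _ => H c + e) c d hc0 hcd
    (fun _ _ _ _ _ => le_rfl) (fun _ _ => by positivity) ε hε
  refine ⟨D₀, hD₀, fun D hD => ?_⟩
  have hD2 : 2 ≤ D := hD₀.trans hD
  have hD0 : 0 < D := by linarith
  have hlD : 0 < Real.log D := Real.log_pos (by linarith)
  have h1 : ∑ p ∈ PI (D ^ c) (D ^ d), H (Real.log p / Real.log D) / ((p : ℝ) - 1) ≤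
      ∑ p ∈ PI (D ^ c) (D ^ d), (H c + e) / ((p : ℝ) - 1) := by
    refine Finset.sum_le_sum fun p hp => ?_
    obtain ⟨hp, h2, h3⟩ := mem_PI.1 hp
    have hp1 : (1 : ℝ) < p := by exact_mod_cast hp.one_lt
    have hp0 : (0 : ℝ) < p := by linarith
    refine div_le_div_of_nonneg_right ?_ (by linarith)
    have h4 : c ≤ Real.log p / Real.log D := by
      rw [le_div_iff₀ hlD, ← Real.log_rpow hD0]
      exact Real.log_le_log (Real.rpow_pos_of_pos hD0 c) h2
    have h5 : Real.log p / Real.log D ≤ d := by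
      rw [div_le_iff₀ hlD, ← Real.log_rpow hD0]
      exact Real.log_le_log hp0 h3.le
    have h6 := (abs_le.1 (hv _ ⟨h4, h5⟩ c hcc)).2
    linarith
  have h2 : (∫ t in c..d, (H c + e) / t) ≤ ∫ t in c..d, (H t / t + 2 * e / a) := by
    apply intervalIntegral.integral_mono_on hcd
    · exact Rie_int (fun _ => H c + e) c d hc0 hcd continuousOn_const
    · exact (Rie_int H c d hc0 hcd hH).add intervalIntegrable_const
    · intro t ht
      have ht0 : 0 < t := hc0.trans_le ht.1
      have h3 := (abs_le.1 (hv c hcc t ht)).2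
      have h4 : (H c + e) / t ≤ (H t + 2 * e) / t :=
        div_le_div_of_nonneg_right (by linarith) ht0.le
      have h5 : 2 * e / t ≤ 2 * e / a :=
        div_le_div_of_nonneg_left (by linarith) ha (hac.trans ht.1)
      rw [add_div (H t)] at h4
      linarith
  have h3 : (∫ t in c..d, (H t / t + 2 * e / a)) =
      (∫ t in c..d, H t / t) + 2 * e / a * (d - c) := by
    rw [intervalIntegral.integral_add (Rie_int H c d hc0 hcd hH) intervalIntegrable_const,
      intervalIntegral.integral_const, smul_eq_mul]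
    ring
  have h4 := h D hD
  linarith

/-- **Riemann sums over primes.** `prime_riemann` (`W_b58c63_h68/ArD.lean`, for antitone functions) for continuous ones.

Proof. Let `e = ε / (2 (b - a) / a + 2)`. By uniform continuity (`IsCompact.uniformContinuousOn_of_continuous`) there is a
partition `a = x_0 < ... < x_m = b` (equidistant; the case `a = b` is trivial: `PI (D ^ a) (D ^ a) = ∅`) such that `H` varies by at
most `e` on every `[x_i, x_(i+1)]`. Let `M_i = H x_i + e ≥ H` on the piece. `prime_riemann` for the constant `M_i` (antitone, `≥ 0`)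
on the piece with the error `ε / (2 m)`: the sum over `PI (D ^ x_i) (D ^ x_(i+1))` is at most `∫ M_i / t + ε / (2 m)` and
`M_i ≤ H t + 2 e` there. The pieces are added by `ArD_PI_union` and `intervalIntegral.sum_integral_adjacent_intervals` (induction
on `m` is fine); `2 e ∫_a^b dt / t ≤ 2 e (b - a) / a ≤ ε / 2`. (Take a slightly smaller `e` if needed.) -/
theorem riemann_cont (H : ℝ → ℝ) (a b : ℝ) (ha : 0 < a) (hab : a ≤ b)
    (hH : ContinuousOn H (Set.Icc a b)) (hH0 : ∀ t ∈ Set.Icc a b, 0 ≤ H t) (ε : ℝ) (hε : 0 < ε) :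
    ∃ D₀ : ℝ, 2 ≤ D₀ ∧ ∀ D : ℝ, D₀ ≤ D →
      ∑ p ∈ PI (D ^ a) (D ^ b), H (Real.log p / Real.log D) / ((p : ℝ) - 1) ≤
        (∫ t in a..b, H t / t) + ε := by
  have hba : 0 ≤ b - a := by linarith
  set e : ℝ := ε / (4 * ((b - a) / a + 1)) with he
  have hq : 0 < 4 * ((b - a) / a + 1) := by
    have : 0 ≤ (b - a) / a := div_nonneg hba ha.le
    linarith
  have he0 : 0 < e := div_pos hε hq
  have he1 : 2 * e / a * (b - a) ≤ ε / 2 := by
    have h1 : e * (4 * ((b - a) / a + 1)) = ε := by
      rw [he]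
      exact div_mul_cancel₀ _ hq.ne'
    have h2 : 2 * e / a * (b - a) = 2 * e * ((b - a) / a) := by ring
    rw [h2]
    nlinarith
  have hu := (isCompact_Icc (a := a) (b := b)).uniformContinuousOn_of_continuous hH
  rw [Metric.uniformContinuousOn_iff] at hu
  obtain ⟨η, hη, hu⟩ := hu e he0
  obtain ⟨J, hJ⟩ := exists_nat_gt ((b - a) / η)
  have hJ0 : (0 : ℝ) < J := lt_of_le_of_lt (div_nonneg hba hη.le) hJ
  set δ : ℝ := (b - a) / J with hδ
  have hδ0 : 0 ≤ δ := div_nonneg hba hJ0.le
  have hJδ : J * δ = b - a := by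
    rw [hδ]
    field_simp
  have hδη : δ < η := by
    rw [hδ, div_lt_iff₀ hJ0]
    rw [div_lt_iff₀ hη] at hJ
    linarith
  have key : ∀ k : ℕ, k ≤ J → ∃ D₀ : ℝ, 2 ≤ D₀ ∧ ∀ D : ℝ, D₀ ≤ D →
      ∑ p ∈ PI (D ^ a) (D ^ (a + k * δ)), H (Real.log p / Real.log D) / ((p : ℝ) - 1) ≤
        (∫ t in a..(a + k * δ), H t / t) + 2 * e / a * (k * δ) + k * (ε / (2 * J)) := by
    intro k
    induction k with
    | zero =>
      intro _
      refine ⟨2, le_rfl, fun D _ => ?_⟩
      have e : PI (D ^ a) (D ^ a) = ∅ := by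
        rw [Finset.eq_empty_iff_forall_notMem]
        intro p hp
        obtain ⟨_, h2, h3⟩ := mem_PI.1 hp
        linarith
      simp [e]
    | succ k ih =>
      intro hk
      obtain ⟨D₁, hD₁, h1⟩ := ih (by omega)
      have hk' : ((k : ℝ) + 1) * δ ≤ b - a := by
        rw [← hJδ]
        refine mul_le_mul_of_nonneg_right ?_ hδ0
        exact_mod_cast hk
      push_cast
      set c : ℝ := a + k * δ with hc
      set d : ℝ := a + (k + 1) * δ with hd
      have hac : a ≤ c := by
        rw [hc]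
        have : 0 ≤ (k : ℝ) * δ := by positivity
        linarith
      have hcd' : d - c = δ := by
        rw [hc, hd]
        ring
      have hcd : c ≤ d := by linarith
      have hdb : d ≤ b := by
        rw [hd]
        linarith
      have hsub : Set.Icc c d ⊆ Set.Icc a b := Set.Icc_subset_Icc hac hdb
      obtain ⟨D₂, hD₂, h2⟩ := Rie_piece H a c d ha hac hcd (hH.mono hsub)
        (fun t ht => hH0 t (hsub ht)) e he0.le (fun s hs t ht => by
          have h3 : dist s t < η := by
            rw [Real.dist_eq, abs_lt]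
            constructor
            · linarith [hs.1, ht.2]
            · linarith [hs.2, ht.1]
          have h4 := hu s (hsub hs) t (hsub ht) h3
          rw [Real.dist_eq] at h4
          exact h4.le) (ε / (2 * J)) (by positivity)
      refine ⟨max D₁ D₂, hD₁.trans (le_max_left _ _), fun D hD => ?_⟩
      have h1' := h1 D ((le_max_left _ _).trans hD)
      have h2' := h2 D ((le_max_right _ _).trans hD)
      have hD2 : 2 ≤ D := hD₁.trans ((le_max_left _ _).trans hD)
      have h3 := ArD_PI_union (D ^ a) (D ^ c) (D ^ d)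
        (Real.rpow_le_rpow_of_exponent_le (by linarith) hac)
        (Real.rpow_le_rpow_of_exponent_le (by linarith) hcd)
        (fun p => H (Real.log p / Real.log D) / ((p : ℝ) - 1))
      have h4 : (∫ t in a..c, H t / t) + (∫ t in c..d, H t / t) = ∫ t in a..d, H t / t := by
        apply intervalIntegral.integral_add_adjacent_intervals
        · exact Rie_int H a c ha hac (hH.mono (Set.Icc_subset_Icc le_rfl (hcd.trans hdb)))
        · exact Rie_int H c d (ha.trans_le hac) hcd (hH.mono hsub)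
      have h5 : 2 * e / a * ((k + 1) * δ) = 2 * e / a * (k * δ) + 2 * e / a * (d - c) := by
        rw [hcd']
        ring
      rw [h3, ← h4, h5]
      linarith
  obtain ⟨D₀, hD₀, h⟩ := key J le_rfl
  refine ⟨D₀, hD₀, fun D hD => ?_⟩
  have h1 := h D hD
  have e1 : a + J * δ = b := by
    rw [hJδ]
    ring
  have e2 : (J : ℝ) * (ε / (2 * J)) = ε / 2 := by
    field_simp
  rw [e1, e2, hJδ] at h1
  linarith

end Pool.Agent.P4
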