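import Mathlib

/-!
# `∫_2^3 log (x - 1) / x dx` (MP_b58c63_nt, P_4, task SfN)
-/

set_option autoImplicit false

noncomputable section

open MeasureTheory

namespace Pool.Agent.P4

private theorem SfN_log_le {y : ℝ} (h1 : 1 ≤ y) (h2 : y ≤ 2) :
    Real.log y ≤ (y - 1) * (y + 5) / (2 * (2 * y + 1)) := by
  have hd : ∀ x ∈ Set.Icc (1 : ℝ) 2, HasDerivAt
      (fun x : ℝ => (x - 1) * (x + 5) / (2 * (2 * x + 1)) - Real.log x)
      ((x - 1) ^ 3 / (x * (2 * x + 1) ^ 2)) x := by
    intro x hx
    have hx0 : (0 : ℝ) < x := lt_of_lt_of_le one_pos hx.1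
    have e1 : HasDerivAt (fun x : ℝ => (x - 1) * (x + 5)) (1 * (x + 5) + (x - 1) * 1) x :=
      ((hasDerivAt_id x).sub_const 1).mul ((hasDerivAt_id x).add_const 5)
    have e2 : HasDerivAt (fun x : ℝ => 2 * (2 * x + 1)) (2 * (2 * 1)) x :=
      (((hasDerivAt_id x).const_mul 2).add_const 1).const_mul 2
    have hne : 2 * (2 * x + 1) ≠ 0 := by positivity
    have e3 := (e1.div e2 hne).sub (Real.hasDerivAt_log hx0.ne')
    refine e3.congr_deriv ?_
    have : (2 * x + 1) ≠ 0 := by positivity
    field_simp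
    ring
  have hmono : MonotoneOn (fun x : ℝ => (x - 1) * (x + 5) / (2 * (2 * x + 1)) - Real.log x)
      (Set.Icc 1 2) := by
    refine monotoneOn_of_deriv_nonneg (convex_Icc 1 2)
      (fun x hx => (hd x hx).continuousAt.continuousWithinAt)
      (fun x hx => (hd x (interior_subset hx)).differentiableAt.differentiableWithinAt) ?_
    intro x hx
    have hx' := interior_subset hx
    rw [(hd x hx').deriv]
    have hx0 : (0 : ℝ) < x := lt_of_lt_of_le one_pos hx'.1
    have : 0 ≤ x - 1 := by linarith [hx'.1]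
    positivity
  have h := hmono (⟨le_refl 1, by norm_num⟩ : (1 : ℝ) ∈ Set.Icc (1 : ℝ) 2)
    (⟨h1, h2⟩ : y ∈ Set.Icc (1 : ℝ) 2) h1
  simp only [sub_self, zero_mul, zero_div, Real.log_one] at h
  linarith

private theorem SfN_log32 : Real.log (3 / 2) ≤ 40548 / 100000 := by
  rw [Real.log_le_iff_le_exp (by norm_num)]
  refine le_trans ?_ (Real.sum_le_exp_of_nonneg (x := 40548 / 100000) (by norm_num) 8)
  norm_num [Finset.sum_range_succ, Nat.factorial]

private theorem SfN_log53 : (510824 / 1000000 : ℝ) ≤ Real.log (5 / 3) := by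
  have h := Real.hasSum_log_sub_log_of_abs_lt_one (x := 1 / 4) (by rw [abs_of_pos] <;> norm_num)
  have h2 := sum_le_hasSum (Finset.range 4) (fun i _ => by positivity) h
  have h3 : Real.log (1 + 1 / 4) - Real.log (1 - 1 / 4) = Real.log (5 / 3) := by
    rw [← Real.log_div (by norm_num) (by norm_num)]
    norm_num
  rw [h3] at h2
  refine le_trans ?_ h2
  norm_num [Finset.sum_range_succ]

/-- `∫_2^3 log (x - 1) / x dx ≤ 0.148` (the value is `0.14722..`).

Proof. For `1 ≤ y ≤ 2`: `log y ≤ (y - 1) (y + 5) / (2 (2 y + 1))` (the derivative of the difference is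
`(y - 1) ^ 3 / (y (2 y + 1) ^ 2) ≥ 0`, equality at `y = 1`). With `y = x - 1`:
`log (x - 1) / x ≤ (x - 2) (x + 4) / (2 (2 x - 1) x) = 1 / 4 + 4 / x - (27 / 4) / (2 x - 1)` on `[2, 3]`, and the integral of the
right side is `1 / 4 + 4 log (3 / 2) - (27 / 8) log (5 / 3) ≤ 0.14783`. (Numerics: `log (3 / 2)`, `log (5 / 3)`; any other proof
is fine, the slack is `0.0002` here and `0.0008` to the true value.) -/
theorem int_log_div : ∫ x in (2 : ℝ)..3, Real.log (x - 1) / x ≤ 37 / 250 := by
  have hF : ∀ x ∈ Set.uIcc (2 : ℝ) 3, HasDerivAt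
      (fun x : ℝ => x / 4 + 4 * Real.log x - 27 / 8 * Real.log (2 * x - 1))
      (1 / 4 + 4 / x - (27 / 4) / (2 * x - 1)) x := by
    intro x hx
    rw [Set.uIcc_of_le (by norm_num)] at hx
    have hx0 : (0 : ℝ) < x := by linarith [hx.1]
    have hx1 : (0 : ℝ) < 2 * x - 1 := by linarith [hx.1]
    have e1 : HasDerivAt (fun x : ℝ => 2 * x - 1) (2 * 1) x :=
      ((hasDerivAt_id x).const_mul 2).sub_const 1
    have e2 := (((hasDerivAt_id x).div_const 4).add
      ((Real.hasDerivAt_log hx0.ne').const_mul 4)).sub ((e1.log hx1.ne').const_mul (27 / 8))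
    refine e2.congr_deriv ?_
    field_simp
    ring
  have hcont2 : ContinuousOn (fun x : ℝ => 1 / 4 + 4 / x - (27 / 4) / (2 * x - 1))
      (Set.uIcc 2 3) := by
    rw [Set.uIcc_of_le (by norm_num)]
    refine ContinuousOn.sub (ContinuousOn.add continuousOn_const
      (ContinuousOn.div continuousOn_const continuousOn_id ?_))
      (ContinuousOn.div continuousOn_const (by fun_prop) ?_)
    · intro x hx
      have : (0 : ℝ) < x := by linarith [hx.1]
      exact this.ne'
    · intro x hx
      have : (0 : ℝ) < 2 * x - 1 := by linarith [hx.1]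
      exact this.ne'
  have hcont1 : ContinuousOn (fun x : ℝ => Real.log (x - 1) / x) (Set.uIcc 2 3) := by
    rw [Set.uIcc_of_le (by norm_num)]
    refine ContinuousOn.div (ContinuousOn.log (by fun_prop) ?_) continuousOn_id ?_
    · intro x hx
      have : (0 : ℝ) < x - 1 := by linarith [hx.1]
      exact this.ne'
    · intro x hx
      have : (0 : ℝ) < x := by linarith [hx.1]
      exact this.ne'
  have hint := intervalIntegral.integral_eq_sub_of_hasDerivAt hF hcont2.intervalIntegrable
  have hle : ∫ x in (2 : ℝ)..3, Real.log (x - 1) / x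
      ≤ ∫ x in (2 : ℝ)..3, (1 / 4 + 4 / x - (27 / 4) / (2 * x - 1)) := by
    refine intervalIntegral.integral_mono_on (by norm_num) hcont1.intervalIntegrable
      hcont2.intervalIntegrable fun x hx => ?_
    have hx0 : (0 : ℝ) < x := by linarith [hx.1]
    have hx1 : (0 : ℝ) < 2 * x - 1 := by linarith [hx.1]
    have h := SfN_log_le (y := x - 1) (by linarith [hx.1]) (by linarith [hx.2])
    have h2 : (x - 1 - 1) * (x - 1 + 5) / (2 * (2 * (x - 1) + 1)) / x
        = 1 / 4 + 4 / x - (27 / 4) / (2 * x - 1) := by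
      have e : 2 * (x - 1) + 1 = 2 * x - 1 := by ring
      have hne1 : 2 * x - 1 ≠ 0 := hx1.ne'
      have hne2 : x ≠ 0 := hx0.ne'
      rw [e, div_div, div_add_div _ _ (by norm_num) hne2, div_div, div_sub_div _ _
        (mul_ne_zero (by norm_num) hne2) (mul_ne_zero (by norm_num) hne1), div_eq_div_iff
        (mul_ne_zero (mul_ne_zero (by norm_num) hne1) hne2)
        (mul_ne_zero (mul_ne_zero (by norm_num) hne2) (mul_ne_zero (by norm_num) hne1))]
      ring
    rw [← h2]
    exact div_le_div_of_nonneg_right h hx0.le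
  refine hle.trans ?_
  rw [hint]
  have h3 : Real.log (2 * 3 - 1) - Real.log (2 * 2 - 1) = Real.log (5 / 3) := by
    rw [← Real.log_div (by norm_num) (by norm_num)]
    norm_num
  have h4 : Real.log 3 - Real.log 2 = Real.log (3 / 2) := by
    rw [← Real.log_div (by norm_num) (by norm_num)]
  have h5 := SfN_log32
  have h6 := SfN_log53
  linarith

end Pool.Agent.P4
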