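import Pool.Agent.W_b58c63_h68.JUw
import Pool.Agent.W_b58c63_h28.SfN

/-!
# The functions of the linear sieve on `[3, 6]` (MP_b58c63_nt, P_4, task SfA)

`UW` is the structure of `W_b58c63_h68/JUw.lean` (`u = F - 1`, `w = 1 - f`); `A = 3 (1 + u 3)`.
-/

set_option autoImplicit false

noncomputable section

open MeasureTheory

namespace Pool.Agent.P4

open Pool.Agent.Wb58c63 (UW)

variable {u w : ℝ → ℝ} {C : ℝ}

private lemma SfA_ii (a b : ℝ) (ha : 2 ≤ a) (hb : 2 ≤ b) :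
    IntervalIntegrable (fun x : ℝ => Real.log (x - 1) / x) volume a b := by
  apply ContinuousOn.intervalIntegrable
  apply ContinuousOn.div
  · apply ContinuousOn.log (by fun_prop)
    intro x hx
    have h1 : 2 ≤ x := (le_min ha hb).trans hx.1
    linarith
  · fun_prop
  · intro x hx
    have h1 : 2 ≤ x := (le_min ha hb).trans hx.1
    linarith

private lemma SfA_mono {x y : ℝ} (h2 : 2 ≤ x) (hxy : x ≤ y) (h3 : y ≤ 3) :
    Real.log (x - 1) / x ≤ Real.log (y - 1) / y := by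
  have hx0 : 0 < x := by linarith
  have hy0 : 0 < y := by linarith
  have ha0 : 0 < x - 1 := by linarith
  have hb0 : 0 < y - 1 := by linarith
  rw [div_le_div_iff₀ hx0 hy0]
  have h4 : 1 - ((y - 1) / (x - 1))⁻¹ ≤ Real.log ((y - 1) / (x - 1)) :=
    Real.one_sub_inv_le_log_of_pos (div_pos hb0 ha0)
  rw [Real.log_div hb0.ne' ha0.ne', inv_div] at h4
  have h5 : 1 - (x - 1) / (y - 1) = (y - x) / (y - 1) := by
    field_simp
    ring
  rw [h5] at h4
  have h6 : Real.log (x - 1) ≤ 1 := by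
    have := Real.log_le_sub_one_of_pos ha0
    linarith
  have h7 : (y - x) * 1 ≤ (y - x) * (x / (y - 1)) := by
    refine mul_le_mul_of_nonneg_left ?_ (by linarith)
    rw [le_div_iff₀ hb0]
    linarith
  have h8 : x * ((y - x) / (y - 1)) ≤ x * (Real.log (y - 1) - Real.log (x - 1)) :=
    mul_le_mul_of_nonneg_left h4 hx0.le
  have h9 : x * ((y - x) / (y - 1)) = (y - x) * (x / (y - 1)) := by ring
  have h10 : (y - x) * Real.log (x - 1) ≤ (y - x) * 1 :=
    mul_le_mul_of_nonneg_left h6 (by linarith)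
  linarith

private lemma SfA_int {v : ℝ} (h0 : 0 ≤ v) (h1 : v ≤ 1) :
    ∫ x in (2 : ℝ)..(2 + v), Real.log (x - 1) / x ≤ 37 / 250 * v := by
  have e1 := intervalIntegral.integral_add_adjacent_intervals
    (SfA_ii 2 (2 + v) le_rfl (by linarith)) (SfA_ii (2 + v) 3 (by linarith) (by norm_num))
  have e2 : ∫ x in (2 : ℝ)..(2 + v), Real.log (x - 1) / x ≤
      ∫ _ in (2 : ℝ)..(2 + v), Real.log (2 + v - 1) / (2 + v) := by
    apply intervalIntegral.integral_mono_on (by linarith) (SfA_ii _ _ le_rfl (by linarith))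
      (by simp)
    intro x hx
    exact SfA_mono hx.1 hx.2 (by linarith)
  have e3 : ∫ _ in (2 + v : ℝ)..3, Real.log (2 + v - 1) / (2 + v) ≤
      ∫ x in (2 + v : ℝ)..3, Real.log (x - 1) / x := by
    apply intervalIntegral.integral_mono_on (by linarith) (by simp)
      (SfA_ii _ _ (by linarith) (by norm_num))
    intro x hx
    exact SfA_mono (by linarith) hx.1 hx.2
  rw [intervalIntegral.integral_const, smul_eq_mul] at e2 e3
  have e4 := int_log_div
  have e5 : (1 - v) * (∫ x in (2 : ℝ)..(2 + v), Real.log (x - 1) / x) ≤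
      (1 - v) * ((2 + v - 2) * (Real.log (2 + v - 1) / (2 + v))) :=
    mul_le_mul_of_nonneg_left e2 (by linarith)
  have e6 : v * ((3 - (2 + v)) * (Real.log (2 + v - 1) / (2 + v))) ≤
      v * ∫ x in (2 + v : ℝ)..3, Real.log (x - 1) / x :=
    mul_le_mul_of_nonneg_left e3 h0
  have e7 : v * (∫ x in (2 : ℝ)..3, Real.log (x - 1) / x) ≤ v * (37 / 250) :=
    mul_le_mul_of_nonneg_left e4 h0
  rw [← e1] at e7
  linarith

private lemma SfA_int_nonneg {v : ℝ} (h0 : 0 ≤ v) :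
    0 ≤ ∫ x in (2 : ℝ)..(2 + v), Real.log (x - 1) / x := by
  apply intervalIntegral.integral_nonneg (by linarith)
  intro x hx
  exact div_nonneg (Real.log_nonneg (by linarith [hx.1])) (by linarith [hx.1])

/-- `s (1 + u s) = A (1 + ∫_2^(s-1) log (x - 1) / x dx)` on `[3, 4]` -/
private lemma SfA_F (h : UW u w C) (s : ℝ) (h3 : 3 ≤ s) (h4 : s ≤ 4) :
    s * (1 + u s) = 3 * (1 + u 3) * (1 + ∫ x in (2 : ℝ)..(2 + (s - 3)), Real.log (x - 1) / x) := by
  have e1 := h.u_eq s (by linarith)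
  have e2 := h.u_eq 3 (by norm_num)
  rw [max_eq_right (by linarith), max_eq_left h3] at e1
  rw [max_eq_right (by norm_num), max_self] at e2
  have e3 := intervalIntegral.integral_Ioi_sub_Ioi (h.w_int 3) h3
  have e4 : ∫ t in (3 : ℝ)..s, w (t - 1) =
      (s - 3) - 3 * (1 + u 3) * ∫ x in (2 : ℝ)..(2 + (s - 3)), Real.log (x - 1) / x := by
    rw [intervalIntegral.integral_comp_sub_right w 1]
    have e5 : (3 : ℝ) - 1 = 2 := by norm_num
    have e6 : s - 1 = 2 + (s - 3) := by ring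
    rw [e5, e6]
    have e7 : ∫ x in (2 : ℝ)..(2 + (s - 3)), w x =
        ∫ x in (2 : ℝ)..(2 + (s - 3)), (1 - 3 * (1 + u 3) * (Real.log (x - 1) / x)) := by
      apply intervalIntegral.integral_congr
      intro x hx
      rw [Set.uIcc_of_le (by linarith)] at hx
      have h1 := h.w_eq_log x hx.1 (by linarith [hx.2])
      have hx0 : x ≠ 0 := by linarith [hx.1]
      simp only
      field_simp
      linarith
    rw [e7, intervalIntegral.integral_sub (by simp)
      ((SfA_ii _ _ le_rfl (by linarith)).const_mul _), intervalIntegral.integral_const_mul]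
    simp only [intervalIntegral.integral_const, smul_eq_mul, mul_one]
    ring
  rw [e4] at e3
  linarith

/-- `s (1 + u s) = A + ∫_2^(s-1) A log (x - 1) / x dx ≤ A (1 + 0.148 (s - 3))` on `[3, 4]`.

Proof. `u_eq` at `s` and at `3` (`max (3 - s) 0 = 0`, `max s 3 = s`): `s u(s) = 3 u(3) - ∫_3^s w (t - 1) dt`
(`intervalIntegral.integral_Ioi_sub_Ioi`, see the proof of `UW.w_eq_log`), so `s (1 + u s) = A + ∫_3^s (1 - w (t - 1)) dt`
`= A + ∫_2^(s-1) (1 - w x) dx`, and `x (1 - w x) = A log (x - 1)` for `2 ≤ x ≤ 4` by `UW.w_eq_log`. Put `v = s - 3 ∈ [0, 1]`. The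
function `g x = log (x - 1) / x` is monotone on `[2, 3]` (`log (x - 1) ≤ log 2 ≤ 1 ≤ x / (x - 1)`), so
`∫_2^(2+v) g = v ∫_0^1 g (2 + v θ) dθ ≤ v ∫_0^1 g (2 + θ) dθ = v ∫_2^3 g ≤ 0.148 v` (`int_log_div`). -/
theorem UW_F34 (h : UW u w C) (s : ℝ) (h3 : 3 ≤ s) (h4 : s ≤ 4) :
    s * (1 + u s) ≤ 3 * (1 + u 3) * (1 + 37 / 250 * (s - 3)) := by
  have hA : 0 ≤ 3 * (1 + u 3) := by
    have := h.u_nonneg 3
    linarith
  rw [SfA_F h s h3 h4]
  exact mul_le_mul_of_nonneg_left
    (by linarith [SfA_int (v := s - 3) (by linarith) (by linarith)]) hA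

/-- `F (s) ≤ 0.287 A` for `s ≥ 4`: `u` is antitone, `UW_F34` at `4`. -/
theorem UW_F4 (h : UW u w C) (s : ℝ) (h4 : 4 ≤ s) : 1 + u s ≤ 3 * (1 + u 3) * (287 / 1000) := by
  have h1 := UW_F34 h 4 (by norm_num) le_rfl
  have h2 := h.u_anti h4
  linarith

/-- `A ≥ 1000 / 287`: `4 ≤ 4 (1 + u 4) ≤ 1.148 A`. -/
theorem UW_A_ge (h : UW u w C) : 1000 / 287 ≤ 3 * (1 + u 3) := by
  have h1 := UW_F34 h 4 (by norm_num) le_rfl
  have h2 := h.u_nonneg 4
  linarith

/-- `f (6) ≥ f (5) ≥ A log 4 / 5`.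

Proof. `w_eq` at `5` and `4`: `5 (1 - w 5) = 4 (1 - w 4) + ∫_4^5 (1 + u (t - 1)) dt`, `4 (1 - w 4) = A log 3` (`UW.w_eq_log`), and
`1 + u x ≥ A / x` on `[3, 4]`: `x (1 + u x) = A + ∫_3^x (1 - w (t - 1)) dt ≥ A` since `w ≤ 1` on `[2, 3]` (`w` is antitone, `UW.w_two`).
So `5 (1 - w 5) ≥ A (log 3 + log (4 / 3)) = A log 4`. Finally `w 6 ≤ w 5`. -/
theorem UW_f6 (h : UW u w C) : 3 * (1 + u 3) * Real.log 4 / 5 ≤ 1 - w 6 := by
  have hA : 0 ≤ 3 * (1 + u 3) := by
    have := h.u_nonneg 3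
    linarith
  have e1 := h.w_eq 5 (by norm_num)
  have e2 := h.w_eq 4 (by norm_num)
  have e3 := intervalIntegral.integral_Ioi_sub_Ioi (h.u_int 4) (show (4 : ℝ) ≤ 5 by norm_num)
  rw [intervalIntegral.integral_comp_sub_right u 1, ← e1, ← e2] at e3
  have e4 := h.w_eq_log 4 (by norm_num) le_rfl
  have i1 : IntervalIntegrable (fun x : ℝ => x⁻¹) volume 3 4 := by
    apply ContinuousOn.intervalIntegrable
    apply continuousOn_inv₀.mono
    intro x hx
    rw [Set.uIcc_of_le (by norm_num)] at hx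
    simp only [Set.mem_compl_iff, Set.mem_singleton_iff]
    linarith [hx.1]
  have iu : IntervalIntegrable u volume 3 4 := h.u_anti.intervalIntegrable
  have e5 : ∫ x in (3 : ℝ)..4, (3 * (1 + u 3) * x⁻¹ - 1) ≤ ∫ x in (3 : ℝ)..4, u x := by
    apply intervalIntegral.integral_mono_on (by norm_num) ((i1.const_mul _).sub (by simp)) iu
    intro x hx
    have h1 := SfA_F h x hx.1 hx.2
    have h2 := SfA_int_nonneg (v := x - 3) (by linarith [hx.1])
    have hx0 : 0 < x := by linarith [hx.1]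
    have h3 : 3 * (1 + u 3) ≤ x * (1 + u x) := by
      rw [h1]
      have := mul_nonneg hA h2
      linarith
    have h4 : 3 * (1 + u 3) * x⁻¹ ≤ 1 + u x := by
      rw [← div_eq_mul_inv, div_le_iff₀ hx0]
      linarith
    linarith
  rw [intervalIntegral.integral_sub (i1.const_mul _) (by simp),
    intervalIntegral.integral_const_mul, integral_inv_of_pos (by norm_num) (by norm_num)] at e5
  simp only [intervalIntegral.integral_const, smul_eq_mul, mul_one] at e5
  have e6 : (5 : ℝ) - 1 = 4 := by norm_num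
  have e7 : (4 : ℝ) - 1 = 3 := by norm_num
  rw [e6, e7] at e3
  rw [e7] at e4
  have e8 : Real.log (4 / 3) = Real.log 4 - Real.log 3 :=
    Real.log_div (by norm_num) (by norm_num)
  rw [e8] at e5
  have e9 : w 6 ≤ w 5 := h.w_anti (by norm_num)
  rw [div_le_iff₀ (by norm_num : (0 : ℝ) < 5)]
  nlinarith

end Pool.Agent.P4
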