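import Pool.Agent.W_b58c63_h68.JFin

/-!
# The linear sieve for all `s` (MP_b58c63_nt, P_4, task SfB)
-/

set_option autoImplicit false

noncomputable section

open Finset

namespace Pool.Agent.P4

open Pool.Agent.Wb58c63

/-- **The linear sieve, final form for all `s`.**

Proof. As `sieve_final` in `W_b58c63_h68/JFin.lean` (copy its set up: `exists_uw`, `C₁ = 10 ^ 6 C`, `ε` small with
`ε C₁ hh 1 ≤ δ` (`JFin_hh_le`: `hh ≤ 1`), `u₀` from `reg_primes`, `rho_sum`, `JFin_VP`), but only `J_main` is needed, directly for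
`above P u₀`, in both directions (`2 log z ≤ log D` resp. `log z ≤ log D`). -/
theorem sieve_gen : ∃ (u w : ℝ → ℝ) (C : ℝ), UW u w C ∧ ∀ δ : ℝ, 0 < δ → ∃ u₀ : ℝ, 3 ≤ u₀ ∧
    ∀ (P : Finset ℕ) (z D : ℝ), u₀ ≤ z → 1 < D → (∀ p ∈ P, p.Prime ∧ 3 ≤ p ∧ (p : ℝ) < z) →
      (2 * Real.log z ≤ Real.log D →
        VP gp P * (1 - w (Real.log D / Real.log z) - δ) ≤
          ∑ S ∈ P.powerset, rhoS false u₀ D S * ∏ p ∈ S, gp p) ∧
      (Real.log z ≤ Real.log D →
        ∑ S ∈ P.powerset, rhoS true u₀ D S * ∏ p ∈ S, gp p ≤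
          VP gp P * (1 + u (Real.log D / Real.log z) + δ)) := by
  obtain ⟨u, w, C, h⟩ := exists_uw
  have hCp := h.C_pos
  refine ⟨u, w, C, h, ?_⟩
  intro δ hδ
  set C₁ : ℝ := 1000000 * C with hC₁
  have hC₁p : 0 < C₁ := by positivity
  set ε : ℝ := min (1 / 1000) (δ / C₁) with hε
  have hε0 : 0 < ε := lt_min (by norm_num) (by positivity)
  have hε1 : ε ≤ 1 / 1000 := min_le_left _ _
  have hεδ : ε * C₁ ≤ δ := by
    have : ε ≤ δ / C₁ := min_le_right _ _
    rwa [le_div_iff₀ hC₁p] at this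
  obtain ⟨u₀, hu₀, HR⟩ := reg_primes ε hε0
  refine ⟨u₀, hu₀, ?_⟩
  intro P z D hz hD hP
  have hQ : ∀ p ∈ above P u₀, u₀ ≤ (p : ℝ) ∧ (p : ℝ) < z := fun p hp =>
    ⟨(JFin_mem_above.mp hp).2, (hP p (JFin_mem_above.mp hp).1).2.2⟩
  have hg : ∀ p ∈ above P u₀, 0 ≤ gp p ∧ gp p < 1 := fun p hp =>
    JFin_gp (by linarith [(hQ p hp).1])
  have hR : Reg gp (above P u₀) (1 + ε) u₀ := HR _ fun p hp =>
    ⟨(hP p (JFin_mem_above.mp hp).1).1, (JFin_mem_above.mp hp).2⟩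
  have hB0 : 0 ≤ VP gp (below P u₀) := by
    refine (VP_pos ?_).le
    intro p hp
    exact JFin_gp (by exact_mod_cast (hP p (JFin_mem_below.mp hp).1).2.1)
  have hVQ : 0 < VP gp (above P u₀) := VP_pos hg
  have hmain := J_main h C₁ le_rfl ε hε0 hε1 gp u₀ (by linarith) (above P u₀) hg hR
  have herr : ∀ s : ℝ, ε * C₁ * hh s ≤ δ := by
    intro s
    have h1 := JFin_hh_le s
    have h2 : 0 ≤ ε * C₁ := by positivity
    nlinarith
  rw [rho_sum, rho_sum, JFin_VP gp P u₀]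
  constructor
  · intro h4
    rw [mul_assoc]
    refine mul_le_mul_of_nonneg_left ?_ hB0
    have h5 := (hmain z D hz hD hQ).1 h4
    refine le_trans (mul_le_mul_of_nonneg_left ?_ hVQ.le) h5
    have h6 := herr (Real.log D / Real.log z)
    linarith
  · intro h4
    rw [mul_assoc]
    refine mul_le_mul_of_nonneg_left ?_ hB0
    have h5 := (hmain z D hz hD hQ).2 h4
    refine h5.trans (mul_le_mul_of_nonneg_left ?_ hVQ.le)
    have h6 := herr (Real.log D / Real.log z)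
    linarith

end Pool.Agent.P4
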