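import Pool.Agent.W_b58c63_h28.Defs
import Pool.Agent.W_b58c63_h28.SfA
import Pool.Agent.W_b58c63_h28.SfB
import Pool.Agent.W_b58c63_h28.Rie
import Pool.Agent.W_b58c63_h28.NuA

/-!
# The main term of the linear part (MP_b58c63_nt, P_4, task MaL)
-/

set_option autoImplicit false

noncomputable section

open Finset

namespace Pool.Agent.P4

open Pool.Agent.Wb58c63

theorem MaL_pow {z : ℝ} (hz : 0 < z) (k : ℕ) (a : ℝ) (h : 6 * a = k) : (z ^ 6) ^ a = z ^ k := by
  have h1 : ((6 : ℕ) : ℝ) * a = (k : ℝ) := by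
    push_cast
    exact h
  rw [← Real.rpow_natCast z 6, ← Real.rpow_mul hz.le, ← Real.rpow_natCast z k, h1]

theorem MaL_t {z : ℝ} (hz : 1 < z) {j k q : ℕ} (hq : q ∈ PI (z ^ j) (z ^ k)) :
    (j : ℝ) / 6 ≤ Real.log q / Real.log (z ^ 6) ∧
      Real.log q / Real.log (z ^ 6) ≤ (k : ℝ) / 6 := by
  obtain ⟨_, h1, h2⟩ := mem_PI.1 hq
  have hlz : 0 < Real.log z := Real.log_pos hz
  have hz0 : 0 < z := by linarith
  have hj : 0 < z ^ j := pow_pos hz0 j
  have h3 : Real.log (z ^ j) ≤ Real.log q := Real.log_le_log hj h1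
  have h4 : Real.log q ≤ Real.log (z ^ k) := Real.log_le_log (by linarith) h2.le
  rw [Real.log_pow] at h3 h4
  rw [Real.log_pow]
  push_cast
  constructor
  · rw [div_le_div_iff₀ (by norm_num) (by positivity)]
    linarith
  · rw [div_le_div_iff₀ (by positivity) (by norm_num)]
    linarith

/-- One piece of the sum. -/
theorem MaL_piece (F H : ℝ → ℝ) (A η : ℝ) (hA : 0 ≤ A) (a b : ℝ) (j k : ℕ) (ha : 6 * a = j)
    (hb : 6 * b = k) (hFH : ∀ t ∈ Set.Icc a b, F t ≤ A * H t) {z : ℝ} (hz : 3 ≤ z)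
    (hR : ∑ p ∈ PI ((z ^ 6) ^ a) ((z ^ 6) ^ b), H (Real.log p / Real.log (z ^ 6)) / ((p : ℝ) - 1) ≤
      (∫ t in a..b, H t / t) + η) :
    ∑ p ∈ PI (z ^ j) (z ^ k), F (Real.log p / Real.log (z ^ 6)) / ((p : ℝ) - 1) ≤
      A * ((∫ t in a..b, H t / t) + η) := by
  rw [MaL_pow (by linarith) j a ha, MaL_pow (by linarith) k b hb] at hR
  refine le_trans ?_ (mul_le_mul_of_nonneg_left hR hA)
  rw [Finset.mul_sum]
  refine Finset.sum_le_sum fun p hp => ?_
  have h1 := MaL_t (by linarith) hp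
  have h2 : (2 : ℝ) ≤ p := by exact_mod_cast (mem_PI.1 hp).1.two_le
  rw [← mul_div_assoc]
  apply div_le_div_of_nonneg_right _ (by linarith)
  apply hFH
  constructor
  · linarith [h1.1]
  · linarith [h1.2]

/-- **The linear part.**

Proof (compare `main_term` in `W_b58c63_h68/HPer.lean`, which has the same structure). `u`, `w` from `sieve_gen`,
`A = 3 (1 + u 3)` (`UW_A_ge`). `D = z ^ 6`, `log D / log z = 6`. First claim: `sieve_gen` for `P = PN N z` and `UW_f6`.
Second claim: for `q ∈ QN N z (z ^ 5)` put `t = log q / log D ∈ [1/6, 5/6)`; `om y q = 1 - (499/625) t` (hypothesis on `y`),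
`gp q = 1 / (q - 1)`, `D / q ≥ z`, `log (D / q) / log z = 6 (1 - t) = s ∈ (1, 5]`, and `1 + u s ≤ A H t` with
`H t = 287/1000` for `t ≤ 1/3` (`UW_F4`), `H t = (1 + 37/250 (3 - 6 t)) / (6 (1 - t))` for `1/3 ≤ t ≤ 1/2` (`UW_F34`), `H t = 1 / (6 (1 - t))` for
`1/2 ≤ t < 5/6` (`UW.F_eq`: `s (1 + u s) = A`). Split `PI z (z ^ 5)` (which contains `QN N z (z ^ 5)`, all terms are `≥ 0`) at `D ^ (1/3) = z ^ 2` and
`D ^ (1/2) = z ^ 3` (`ArD_PI_union`), three times `riemann_cont` with `(1 - 499/625 t) H t` (error `δ / 20` each), `intA`, `intB`,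
`intC` (the sum is `0.36608`). The contribution of the error `δ' ` of `sieve_gen` is `δ' ∑ om gp ≤ δ' (∫_(1/6)^(5/6) dt / t + 1) ≤ 3 δ'`
(`riemann_cont` for the constant function `1`). The factor `A` multiplies the errors of `riemann_cont`, so they are chosen
after `A` (`A` does not depend on `δ`). -/
theorem main_lin : ∃ A : ℝ, 1000 / 287 ≤ A ∧ ∀ δ : ℝ, 0 < δ → ∃ u₀ z₀ : ℝ, 3 ≤ u₀ ∧ 3 ≤ z₀ ∧
    ∀ (N : ℕ) (z y : ℝ), Even N → 1 ≤ N → z₀ ≤ z → Real.log y = 625 / 499 * Real.log (z ^ 6) →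
      VP gp (PN N z) * (A * Real.log 4 / 5 - δ) ≤
          ∑ S ∈ (PN N z).powerset, rhoS false u₀ (z ^ 6) S * ∏ p ∈ S, gp p ∧
      ∑ q ∈ QN N z (z ^ 5), om y q * gp q *
          ∑ S ∈ (PN N z).powerset, rhoS true u₀ (z ^ 6 / q) S * ∏ p ∈ S, gp p ≤
        VP gp (PN N z) * (A * (36608 / 100000) + δ) := by
  obtain ⟨u, w, C, hUW, hS⟩ := sieve_gen
  obtain ⟨A, hA⟩ : ∃ A : ℝ, A = 3 * (1 + u 3) := ⟨_, rfl⟩
  have hA1 : 1000 / 287 ≤ A := by
    rw [hA]
    exact UW_A_ge hUW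
  have hA0 : 0 < A := by linarith
  refine ⟨A, hA1, fun δ hδ => ?_⟩
  obtain ⟨u₀, hu₀, hS2⟩ := hS (δ / 6) (by positivity)
  have hη : 0 < δ / (6 * A) := by positivity
  -- the Riemann sums
  obtain ⟨D₁, hD₁, hR1⟩ := riemann_cont (fun t => (1 - 499 / 625 * t) * (287 / 1000)) (1 / 6) (1 / 3)
    (by norm_num) (by norm_num) (by fun_prop)
    (fun t ht => mul_nonneg (by linarith [ht.2]) (by norm_num)) (δ / (6 * A)) hη
  obtain ⟨D₂, hD₂, hR2⟩ := riemann_cont
    (fun t => (1 - 499 / 625 * t) * ((1 + 37 / 250 * (3 - 6 * t)) / (6 * (1 - t)))) (1 / 3) (1 / 2)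
    (by norm_num) (by norm_num)
    (by
      apply ContinuousOn.mul (by fun_prop)
      apply ContinuousOn.div (by fun_prop) (by fun_prop)
      intro t ht
      have := ht.2
      intro h0
      linarith)
    (fun t ht => mul_nonneg (by linarith [ht.2])
      (div_nonneg (by linarith [ht.2]) (by linarith [ht.2]))) (δ / (6 * A)) hη
  obtain ⟨D₃, hD₃, hR3⟩ := riemann_cont
    (fun t => (1 - 499 / 625 * t) * (1 / (6 * (1 - t)))) (1 / 2) (5 / 6)
    (by norm_num) (by norm_num)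
    (by
      apply ContinuousOn.mul (by fun_prop)
      apply ContinuousOn.div (by fun_prop) (by fun_prop)
      intro t ht
      have := ht.2
      intro h0
      linarith)
    (fun t ht => mul_nonneg (by linarith [ht.2])
      (div_nonneg (by norm_num) (by linarith [ht.2]))) (δ / (6 * A)) hη
  obtain ⟨D₄, hD₄, hR4⟩ := riemann_cont (fun _ => 1) (1 / 6) (5 / 6)
    (by norm_num) (by norm_num) (by fun_prop) (fun t _ => by norm_num) 1 one_pos
  refine ⟨u₀, max (max u₀ 3) (max (max D₁ D₂) (max D₃ D₄)), hu₀,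
    (le_max_right u₀ 3).trans (le_max_left _ _), ?_⟩
  intro N z y hN hN1 hz hy
  have hzu : u₀ ≤ z := (le_max_left u₀ 3).trans ((le_max_left _ _).trans hz)
  have hz3 : 3 ≤ z := (le_max_right u₀ 3).trans ((le_max_left _ _).trans hz)
  have hzD1 : D₁ ≤ z := (le_max_left D₁ D₂).trans ((le_max_left _ _).trans ((le_max_right _ _).trans hz))
  have hzD2 : D₂ ≤ z := (le_max_right D₁ D₂).trans ((le_max_left _ _).trans ((le_max_right _ _).trans hz))
  have hzD3 : D₃ ≤ z := (le_max_left D₃ D₄).trans ((le_max_right _ _).trans ((le_max_right _ _).trans hz))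
  have hzD4 : D₄ ≤ z := (le_max_right D₃ D₄).trans ((le_max_right _ _).trans ((le_max_right _ _).trans hz))
  have hz0 : 0 < z := by linarith
  have hz1 : 1 < z := by linarith
  have hlz : 0 < Real.log z := Real.log_pos hz1
  have hDz : z ≤ z ^ 6 := le_self_pow₀ hz1.le (by norm_num)
  have hD1 : 1 < z ^ 6 := lt_of_lt_of_le hz1 hDz
  have hlD : Real.log (z ^ 6) = 6 * Real.log z := by
    rw [Real.log_pow]
    norm_num
  have hP : ∀ p ∈ PN N z, p.Prime ∧ 3 ≤ p ∧ (p : ℝ) < z := by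
    intro p hp
    obtain ⟨h2, h3⟩ := HW_mem_PN.1 hp
    obtain ⟨h4, _, h5⟩ := mem_PI.1 h2
    refine ⟨h4, ?_, h5⟩
    have h6 : p ≠ 2 := by
      rintro rfl
      exact h3 hN.two_dvd
    have h7 := h4.two_le
    omega
  have hgp : ∀ p ∈ PN N z, 0 ≤ gp p ∧ gp p < 1 := fun p hp =>
    JFin_gp (by exact_mod_cast (hP p hp).2.1)
  have hV : 0 < VP gp (PN N z) := VP_pos hgp
  obtain ⟨V, hVe⟩ : ∃ V : ℝ, V = VP gp (PN N z) := ⟨_, rfl⟩
  rw [← hVe] at hV ⊢
  constructor
  · have h1 := (hS2 (PN N z) z (z ^ 6) hzu hD1 hP).1 (by rw [hlD]; linarith)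
    refine le_trans ?_ h1
    rw [← hVe]
    apply mul_le_mul_of_nonneg_left _ hV.le
    have h2 : Real.log (z ^ 6) / Real.log z = 6 := by
      rw [hlD]
      field_simp
    rw [h2]
    have h3 := UW_f6 hUW
    rw [← hA] at h3
    linarith
  · obtain ⟨F, hF⟩ : ∃ F : ℝ → ℝ, F = fun t => (1 - 499 / 625 * t) * (1 + u (6 * (1 - t))) :=
      ⟨_, rfl⟩
    -- one prime
    have hq : ∀ q ∈ QN N z (z ^ 5), om y q * gp q *
        ∑ S ∈ (PN N z).powerset, rhoS true u₀ (z ^ 6 / q) S * ∏ p ∈ S, gp p ≤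
        V * (F (Real.log q / Real.log (z ^ 6)) / ((q : ℝ) - 1)) + V * (δ / 6) * (1 / ((q : ℝ) - 1)) := by
      intro q hq
      have hq0 := (HW_mem_QN.1 hq).1
      have hq0' : q ∈ PI (z ^ 1) (z ^ 5) := by rwa [pow_one]
      obtain ⟨ht1, ht2⟩ := MaL_t hz1 hq0'
      push_cast at ht1 ht2
      obtain ⟨hq1, hq2, hq3⟩ := mem_PI.1 hq0
      have hqz : 0 < (q : ℝ) := by linarith
      have hq4 : (0 : ℝ) < (q : ℝ) - 1 := by linarith
      have hlq : Real.log q ≤ 5 * Real.log z := by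
        have := Real.log_le_log hqz hq3.le
        rw [Real.log_pow] at this
        exact_mod_cast this
      have hlDq : Real.log (z ^ 6 / q) = 6 * Real.log z - Real.log q := by
        rw [Real.log_div (by positivity) hqz.ne', hlD]
      have hDq1 : 1 < z ^ 6 / q := by
        rw [one_lt_div hqz]
        calc (q : ℝ) < z ^ 5 := hq3
          _ ≤ z ^ 6 := pow_le_pow_right₀ hz1.le (by norm_num)
      have h4 := (hS2 (PN N z) z (z ^ 6 / q) hzu hDq1 hP).2 (by rw [hlDq]; linarith)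
      rw [← hVe] at h4
      obtain ⟨t, ht⟩ : ∃ t : ℝ, t = Real.log q / Real.log (z ^ 6) := ⟨_, rfl⟩
      rw [← ht] at ht1 ht2 ⊢
      have hs : Real.log (z ^ 6 / q) / Real.log z = 6 * (1 - t) := by
        rw [hlDq, ht, hlD]
        field_simp
      rw [hs] at h4
      have hom : om y q = 1 - 499 / 625 * t := by
        unfold om
        rw [hy, ht]
        field_simp
      have hom0 : 0 ≤ om y q := by
        rw [hom]
        linarith
      have hom1 : om y q ≤ 1 := by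
        rw [hom]
        linarith
      have hgq : gp q = 1 / ((q : ℝ) - 1) := rfl
      have hg0 : 0 ≤ gp q := by
        rw [hgq]
        positivity
      refine (mul_le_mul_of_nonneg_left h4 (mul_nonneg hom0 hg0)).trans ?_
      have h5 : om y q * gp q * (V * (1 + u (6 * (1 - t)) + δ / 6)) =
          V * (F t / ((q : ℝ) - 1)) + V * (δ / 6) * (om y q * (1 / ((q : ℝ) - 1))) := by
        rw [hF, hom, hgq]
        ring
      rw [h5]
      have h6 : om y q * (1 / ((q : ℝ) - 1)) ≤ 1 / ((q : ℝ) - 1) :=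
        mul_le_of_le_one_left (by positivity) hom1
      have h7 : 0 ≤ V * (δ / 6) := by positivity
      have h8 := mul_le_mul_of_nonneg_left h6 h7
      linarith
    have hF0 : ∀ q ∈ PI z (z ^ 5), 0 ≤ F (Real.log q / Real.log (z ^ 6)) / ((q : ℝ) - 1) := by
      intro q hq
      have hq' : q ∈ PI (z ^ 1) (z ^ 5) := by rwa [pow_one]
      obtain ⟨ht1, ht2⟩ := MaL_t hz1 hq'
      push_cast at ht1 ht2
      have h2 : (2 : ℝ) ≤ q := by exact_mod_cast (mem_PI.1 hq).1.two_le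
      rw [hF]
      refine div_nonneg (mul_nonneg (by linarith) ?_) (by linarith)
      have := hUW.u_nonneg (6 * (1 - Real.log q / Real.log (z ^ 6)))
      linarith
    have hsum : ∑ q ∈ QN N z (z ^ 5), om y q * gp q *
        ∑ S ∈ (PN N z).powerset, rhoS true u₀ (z ^ 6 / q) S * ∏ p ∈ S, gp p ≤
        V * (∑ q ∈ PI z (z ^ 5), F (Real.log q / Real.log (z ^ 6)) / ((q : ℝ) - 1)) +
          V * (δ / 6) * ∑ q ∈ PI z (z ^ 5), 1 / ((q : ℝ) - 1) := by
      refine (Finset.sum_le_sum hq).trans ?_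
      rw [Finset.mul_sum, Finset.mul_sum, ← Finset.sum_add_distrib]
      refine Finset.sum_le_sum_of_subset_of_nonneg (fun q hq => (HW_mem_QN.1 hq).1) ?_
      intro q hq _
      have h2 : (2 : ℝ) ≤ q := by exact_mod_cast (mem_PI.1 hq).1.two_le
      have h3 := hF0 q hq
      have h4 : (0 : ℝ) ≤ 1 / ((q : ℝ) - 1) := div_nonneg (by norm_num) (by linarith)
      positivity
    refine hsum.trans ?_
    -- the three pieces
    have hp1 : z ≤ z ^ 2 := le_self_pow₀ hz1.le (by norm_num)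
    have hp2 : z ^ 2 ≤ z ^ 3 := pow_le_pow_right₀ hz1.le (by norm_num)
    have hp3 : z ^ 3 ≤ z ^ 5 := pow_le_pow_right₀ hz1.le (by norm_num)
    rw [ArD_PI_union z (z ^ 2) (z ^ 5) hp1 (hp2.trans hp3)
        (fun q : ℕ => F (Real.log q / Real.log (z ^ 6)) / ((q : ℝ) - 1)),
      ArD_PI_union (z ^ 2) (z ^ 3) (z ^ 5) hp2 hp3
        (fun q : ℕ => F (Real.log q / Real.log (z ^ 6)) / ((q : ℝ) - 1))]
    have hcoef : ∀ t : ℝ, t ≤ 5 / 6 → 0 ≤ 1 - 499 / 625 * t := fun t ht => by linarith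
    have hA1' : ∑ q ∈ PI z (z ^ 2), F (Real.log q / Real.log (z ^ 6)) / ((q : ℝ) - 1) ≤
        A * ((∫ t in (1 / 6 : ℝ)..(1 / 3), (1 - 499 / 625 * t) * (287 / 1000) / t) +
          δ / (6 * A)) := by
      have h1 := MaL_piece F (fun t => (1 - 499 / 625 * t) * (287 / 1000)) A (δ / (6 * A)) hA0.le
        (1 / 6) (1 / 3) 1 2 (by norm_num) (by norm_num) (fun t ht => ?_) hz3
        (hR1 (z ^ 6) (hzD1.trans hDz))
      · rwa [pow_one] at h1
      · rw [hF]
        simp only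
        have h2 := UW_F4 hUW (6 * (1 - t)) (by linarith [ht.2])
        rw [← hA] at h2
        have h3 := mul_le_mul_of_nonneg_left h2 (hcoef t (by linarith [ht.2]))
        linarith
    have hB1 : ∑ q ∈ PI (z ^ 2) (z ^ 3), F (Real.log q / Real.log (z ^ 6)) / ((q : ℝ) - 1) ≤
        A * ((∫ t in (1 / 3 : ℝ)..(1 / 2),
          (1 - 499 / 625 * t) * ((1 + 37 / 250 * (3 - 6 * t)) / (6 * (1 - t))) / t) +
          δ / (6 * A)) := by
      refine MaL_piece F (fun t => (1 - 499 / 625 * t) * ((1 + 37 / 250 * (3 - 6 * t)) /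
        (6 * (1 - t)))) A (δ / (6 * A)) hA0.le
        (1 / 3) (1 / 2) 2 3 (by norm_num) (by norm_num) (fun t ht => ?_) hz3
        (hR2 (z ^ 6) (hzD2.trans hDz))
      rw [hF]
      simp only
      have h2 := UW_F34 hUW (6 * (1 - t)) (by linarith [ht.2]) (by linarith [ht.1])
      rw [← hA] at h2
      have h1t : 0 < 6 * (1 - t) := by linarith [ht.2]
      have h4 : 1 + u (6 * (1 - t)) ≤ A * ((1 + 37 / 250 * (3 - 6 * t)) / (6 * (1 - t))) := by
        rw [← mul_div_assoc, le_div_iff₀ h1t]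
        calc (1 + u (6 * (1 - t))) * (6 * (1 - t)) = 6 * (1 - t) * (1 + u (6 * (1 - t))) := by ring
          _ ≤ A * (1 + 37 / 250 * (6 * (1 - t) - 3)) := h2
          _ = A * (1 + 37 / 250 * (3 - 6 * t)) := by ring
      have h3 := mul_le_mul_of_nonneg_left h4 (hcoef t (by linarith [ht.2]))
      linarith
    have hC1 : ∑ q ∈ PI (z ^ 3) (z ^ 5), F (Real.log q / Real.log (z ^ 6)) / ((q : ℝ) - 1) ≤
        A * ((∫ t in (1 / 2 : ℝ)..(5 / 6),
          (1 - 499 / 625 * t) * (1 / (6 * (1 - t))) / t) + δ / (6 * A)) := by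
      refine MaL_piece F (fun t => (1 - 499 / 625 * t) * (1 / (6 * (1 - t)))) A (δ / (6 * A)) hA0.le
        (1 / 2) (5 / 6) 3 5 (by norm_num) (by norm_num) (fun t ht => ?_) hz3
        (hR3 (z ^ 6) (hzD3.trans hDz))
      rw [hF]
      simp only
      have h2 := hUW.F_eq (6 * (1 - t)) (by linarith [ht.2]) (by linarith [ht.1])
      rw [← hA] at h2
      have h1t : 0 < 6 * (1 - t) := by linarith [ht.2]
      have h4 : 1 + u (6 * (1 - t)) = A * (1 / (6 * (1 - t))) := by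
        rw [mul_one_div, eq_div_iff h1t.ne', mul_comm]
        exact h2
      rw [h4]
      exact le_of_eq (by ring)
    have hD1' : ∑ q ∈ PI z (z ^ 5), 1 / ((q : ℝ) - 1) ≤ 3 := by
      have h1 := hR4 (z ^ 6) (hzD4.trans hDz)
      rw [MaL_pow hz0 1 (1 / 6) (by norm_num), MaL_pow hz0 5 (5 / 6) (by norm_num), pow_one] at h1
      have h2 : ∫ t in (1 / 6 : ℝ)..(5 / 6), (1 : ℝ) / t = Real.log 5 := by
        rw [integral_one_div_of_pos (by norm_num) (by norm_num)]
        norm_num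
      rw [h2] at h1
      have h3 : Real.log 5 ≤ 2 := by
        rw [Real.log_le_iff_le_exp (by norm_num)]
        have h4 : (2.7 : ℝ) ≤ Real.exp 1 := by linarith [Real.exp_one_gt_d9]
        have h5 : Real.exp 2 = Real.exp 1 * Real.exp 1 := by
          rw [← Real.exp_add]
          norm_num
        rw [h5]
        nlinarith
      linarith
    have hiA := intA
    have hiB := intB
    have hiC := intC
    have h1 : A * ((∫ t in (1 / 6 : ℝ)..(1 / 3), (1 - 499 / 625 * t) * (287 / 1000) / t) +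
          δ / (6 * A)) + (A * ((∫ t in (1 / 3 : ℝ)..(1 / 2),
          (1 - 499 / 625 * t) * ((1 + 37 / 250 * (3 - 6 * t)) / (6 * (1 - t))) / t) +
          δ / (6 * A)) + A * ((∫ t in (1 / 2 : ℝ)..(5 / 6),
          (1 - 499 / 625 * t) * (1 / (6 * (1 - t))) / t) + δ / (6 * A))) ≤
        A * (36608 / 100000) + δ / 2 := by
      have h2 : A * (36608 / 100000) + δ / 2 = A * (36608 / 100000 + 3 * (δ / (6 * A))) := by
        field_simp
        ring
      rw [h2, ← mul_add, ← mul_add]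
      apply mul_le_mul_of_nonneg_left _ hA0.le
      linarith
    have h2 := mul_le_mul_of_nonneg_left ((add_le_add hA1' (add_le_add hB1 hC1)).trans h1) hV.le
    have h3 : V * (δ / 6) * ∑ q ∈ PI z (z ^ 5), 1 / ((q : ℝ) - 1) ≤ V * (δ / 6) * 3 :=
      mul_le_mul_of_nonneg_left hD1' (by positivity)
    have h4 : V * (A * (36608 / 100000) + δ) = V * (A * (36608 / 100000) + δ / 2) + V * (δ / 6) * 3 := by
      ring
    rw [h4]
    exact add_le_add h2 h3

end Pool.Agent.P4
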