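import Mathlib

/-!
# `∫_0^∞ e^(-t) log t dt = - γ` (MP_b58c63_nt, P_4, task MeA)
-/

set_option autoImplicit false

noncomputable section

open MeasureTheory Set

namespace Pool.Agent.P4

/-- `exp (- t) log t` is integrable on `(0, ∞)`, its integral is `- γ`.

Proof. `Complex.hasDerivAt_GammaIntegral` at `s = 1` (its proof, `mellin_hasDerivAt_of_isBigO_rpow`, also gives the convergence
of the integral), `Complex.Gamma = GammaIntegral` near `1` (`Complex.Gamma_eq_integral`) and `Complex.hasDerivAt_Gamma_one`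
(`Mathlib/NumberTheory/Harmonic/GammaDeriv.lean`). Integrability also by hand: `|log t| ≤ t ^ (-1/2) * 2` on `(0, 1]`, `≤ t` on `[1, ∞)`,
`Real.GammaIntegral_convergent`. -/
theorem int_exp_log : IntegrableOn (fun t : ℝ => Real.exp (-t) * Real.log t) (Ioi 0) ∧
    ∫ t in Ioi (0 : ℝ), Real.exp (-t) * Real.log t = -Real.eulerMascheroniConstant := by
  -- the complex integrand of the derivative at one
  have hcong : ∀ t ∈ Ioi (0 : ℝ), ((t : ℂ) ^ ((1 : ℂ) - 1) * ((Real.log t : ℂ) * (Real.exp (-t) : ℂ))) =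
      ((Real.exp (-t) * Real.log t : ℝ) : ℂ) := by
    intro t _
    rw [sub_self, Complex.cpow_zero, one_mul]
    push_cast
    ring
  have hconv : MellinConvergent (fun t : ℝ => Real.log t • ((Real.exp (-t) : ℝ) : ℂ)) (1 : ℂ) := by
    refine (mellin_hasDerivAt_of_isBigO_rpow (E := ℂ) (a := 2) (b := 0)
      (f := fun t : ℝ => ((Real.exp (-t) : ℝ) : ℂ)) (s := (1 : ℂ)) ?_ ?_ ?_ ?_ ?_).1
    · refine (Continuous.continuousOn ?_).locallyIntegrableOn measurableSet_Ioi
      exact Complex.continuous_ofReal.comp (Real.continuous_exp.comp continuous_neg)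
    · rw [← Asymptotics.isBigO_norm_left]
      simp_rw [Complex.norm_real, Asymptotics.isBigO_norm_left]
      simpa only [neg_one_mul] using (isLittleO_exp_neg_mul_rpow_atTop zero_lt_one _).isBigO
    · norm_num
    · simp_rw [neg_zero, Real.rpow_zero]
      refine Asymptotics.isBigO_const_of_tendsto
        (?_ : Filter.Tendsto _ _ (nhds (1 : ℂ))) one_ne_zero
      rw [(by simp : (1 : ℂ) = Real.exp (-0))]
      exact (Complex.continuous_ofReal.comp
        (Real.continuous_exp.comp continuous_neg)).continuousWithinAt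
    · norm_num
  have hint : IntegrableOn (fun t : ℝ => ((Real.exp (-t) * Real.log t : ℝ) : ℂ)) (Ioi 0) := by
    refine IntegrableOn.congr_fun hconv ?_ measurableSet_Ioi
    intro t ht
    simp only [sub_self, Complex.cpow_zero, one_smul, Complex.real_smul]
    push_cast
    ring
  have hintR : IntegrableOn (fun t : ℝ => Real.exp (-t) * Real.log t) (Ioi 0) := by
    have h := hint.re
    simp only [RCLike.re_to_complex, Complex.ofReal_re] at h
    exact h
  refine ⟨hintR, ?_⟩
  have h1 : HasDerivAt Complex.GammaIntegral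
      (∫ t : ℝ in Ioi 0, (t : ℂ) ^ ((1 : ℂ) - 1) * ((Real.log t : ℂ) * (Real.exp (-t) : ℂ))) 1 :=
    Complex.hasDerivAt_GammaIntegral (by norm_num)
  have h2 : HasDerivAt Complex.Gamma
      (∫ t : ℝ in Ioi 0, (t : ℂ) ^ ((1 : ℂ) - 1) * ((Real.log t : ℂ) * (Real.exp (-t) : ℂ))) 1 := by
    refine h1.congr_of_eventuallyEq ?_
    have hop : IsOpen {s : ℂ | 0 < s.re} := Complex.continuous_re.isOpen_preimage _ isOpen_Ioi
    filter_upwards [hop.mem_nhds (by simp : (1 : ℂ) ∈ {s : ℂ | 0 < s.re})] with a ha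
    exact Complex.Gamma_eq_integral ha
  have h3 := h2.unique Complex.hasDerivAt_Gamma_one
  rw [setIntegral_congr_fun measurableSet_Ioi hcong] at h3
  have h4 : ∫ t in Ioi (0 : ℝ), ((Real.exp (-t) * Real.log t : ℝ) : ℂ) =
      ((∫ t in Ioi (0 : ℝ), Real.exp (-t) * Real.log t : ℝ) : ℂ) := integral_complex_ofReal
  rw [h4] at h3
  exact_mod_cast h3

end Pool.Agent.P4
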