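import Mathlib

/-!
# Comparison with the zeta function (MP_b58c63_nt, P_4, task MeB)
-/

set_option autoImplicit false

noncomputable section

open Finset

namespace Pool.Agent.P4

/-- telescoping comparison. -/
theorem meB_tel (δ : ℝ) (hδ : 0 < δ) (n : ℕ) (hn : 1 ≤ n) :
    ((n + 1 : ℕ) : ℝ) ^ (-(1 + δ)) ≤ (1 / δ) * ((n : ℝ) ^ (-δ) - ((n + 1 : ℕ) : ℝ) ^ (-δ)) := by
  have hn0 : (0 : ℝ) < n := by exact_mod_cast hn
  have hN : ((n + 1 : ℕ) : ℝ) = (n : ℝ) + 1 := by push_cast; ring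
  rw [hN]
  have hN0 : (0 : ℝ) < (n : ℝ) + 1 := by linarith
  have e1 : ((n : ℝ) + 1) ^ (-(1 + δ)) = ((n : ℝ) + 1) ^ (-δ) * (1 / ((n : ℝ) + 1)) := by
    have : -(1 + δ) = -δ + (-1) := by ring
    rw [this, Real.rpow_add hN0, Real.rpow_neg_one, one_div]
  have e2 : (n : ℝ) ^ (-δ) = ((n : ℝ) + 1) ^ (-δ) * ((n : ℝ) / ((n : ℝ) + 1)) ^ (-δ) := by
    rw [← Real.mul_rpow hN0.le (by positivity)]
    congr 1
    field_simp
  have hq : (0 : ℝ) < (n : ℝ) / ((n : ℝ) + 1) := by positivity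
  have e3 : 1 + δ * (1 / ((n : ℝ) + 1)) ≤ ((n : ℝ) / ((n : ℝ) + 1)) ^ (-δ) := by
    rw [Real.rpow_def_of_pos hq]
    have h1 := Real.add_one_le_exp (Real.log ((n : ℝ) / ((n : ℝ) + 1)) * (-δ))
    have h2 := Real.log_le_sub_one_of_pos hq
    have h3 : (n : ℝ) / ((n : ℝ) + 1) - 1 = -(1 / ((n : ℝ) + 1)) := by
      field_simp; ring
    have h4 : δ * (1 / ((n : ℝ) + 1)) ≤ Real.log ((n : ℝ) / ((n : ℝ) + 1)) * (-δ) := by
      have : 1 / ((n : ℝ) + 1) ≤ -Real.log ((n : ℝ) / ((n : ℝ) + 1)) := by linarith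
      nlinarith [mul_le_mul_of_nonneg_left this hδ.le]
    linarith
  have hA : (0 : ℝ) < ((n : ℝ) + 1) ^ (-δ) := Real.rpow_pos_of_pos hN0 _
  rw [e1, e2]
  have h5 := mul_le_mul_of_nonneg_left e3 hA.le
  have h6 : (1 / δ) * (((n : ℝ) + 1) ^ (-δ) * (1 + δ * (1 / ((n : ℝ) + 1))) - ((n : ℝ) + 1) ^ (-δ))
      = ((n : ℝ) + 1) ^ (-δ) * (1 / ((n : ℝ) + 1)) := by
    field_simp; ring
  rw [← h6]
  apply mul_le_mul_of_nonneg_left _ (by positivity)
  linarith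

/-- initial sums of the zeta series. -/
theorem meB_part (δ : ℝ) (hδ : 0 < δ) (N : ℕ) :
    ∑ n ∈ Finset.range (N + 2), (n : ℝ) ^ (-(1 + δ))
      ≤ 1 + (1 / δ) * (1 - ((N + 1 : ℕ) : ℝ) ^ (-δ)) := by
  induction N with
  | zero =>
    have h0 : (-(1 + δ)) ≠ 0 := by linarith
    have h1 := Real.zero_rpow h0
    rw [Finset.sum_range_succ, Finset.sum_range_succ]
    simp only [Finset.range_zero, Finset.sum_empty, Nat.cast_zero, zero_add, Nat.cast_one, Real.one_rpow, h1]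
    linarith
  | succ N ih =>
    rw [Finset.sum_range_succ]
    have h := meB_tel δ hδ (N + 1) (by omega)
    have : (1 / δ) * (((N + 1 : ℕ) : ℝ) ^ (-δ) - ((N + 1 + 1 : ℕ) : ℝ) ^ (-δ)) +
      (1 + (1 / δ) * (1 - ((N + 1 : ℕ) : ℝ) ^ (-δ))) = 1 + (1 / δ) * (1 - ((N + 1 + 1 : ℕ) : ℝ) ^ (-δ)) := by
      ring
    rw [← this]
    have e : (N + 2 : ℕ) = N + 1 + 1 := by omega
    rw [e] at *
    linarith

/-- finite sums of the zeta series. -/
theorem meB_fin (δ : ℝ) (hδ : 0 < δ) (T : Finset ℕ) :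
    ∑ n ∈ T, (n : ℝ) ^ (-(1 + δ)) ≤ 1 + 1 / δ := by
  have hsub : T ⊆ Finset.range (T.sup id + 2) := by
    intro n hn
    have : n ≤ T.sup id := Finset.le_sup (f := id) hn
    simp; omega
  refine (Finset.sum_le_sum_of_subset_of_nonneg hsub ?_).trans ((meB_part δ hδ _).trans ?_)
  · intro i _ _; positivity
  · have : (0 : ℝ) ≤ ((T.sup id + 1 : ℕ) : ℝ) ^ (-δ) := by positivity
    have h2 : 0 ≤ (1 / δ) * ((T.sup id + 1 : ℕ) : ℝ) ^ (-δ) := by positivity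
    linarith

/-- The completely multiplicative function of the zeta series. -/
def meB_f (δ : ℝ) (hδ : 0 < δ) : ℕ →* ℝ where
  toFun n := (n : ℝ) ^ (-(1 + δ))
  map_one' := by simp
  map_mul' m n := by
    rw [Nat.cast_mul, Real.mul_rpow (Nat.cast_nonneg m) (Nat.cast_nonneg n)]

/-- Finite Euler products are at most `ζ (1 + δ) ≤ 1 + 1 / δ`.

Proof. `∏_(p ∈ T) (1 - p ^ (-s))⁻¹ = ∑_(n, all prime factors in T) n ^ (-s) ≤ ∑_n n ^ (-s)`
(`EulerProduct.summable_and_hasSum_factoredNumbers_prod_filter_prime_geometric` or its `primesBelow` version; enlarging `T` only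
increases the product), and `∑_n n ^ (-(1 + δ)) ≤ 1 + ∫_1^∞ x ^ (-1 - δ) dx = 1 + 1 / δ`. -/
theorem euler_le (δ : ℝ) (hδ : 0 < δ) (T : Finset ℕ) (hT : ∀ p ∈ T, p.Prime) :
    ∏ p ∈ T, (1 - (p : ℝ) ^ (-(1 + δ)))⁻¹ ≤ 1 + 1 / δ := by
  have hlt : ∀ {p : ℕ}, p.Prime → ‖meB_f δ hδ p‖ < 1 := by
    intro p hp
    have h1 : (1 : ℝ) < p := by exact_mod_cast hp.one_lt
    have h2 : (p : ℝ) ^ (-(1 + δ)) < 1 := Real.rpow_lt_one_of_one_lt_of_neg h1 (by linarith)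
    have h3 : 0 ≤ (p : ℝ) ^ (-(1 + δ)) := by positivity
    show ‖(p : ℝ) ^ (-(1 + δ))‖ < 1
    rw [Real.norm_of_nonneg h3]; exact h2
  have H := (EulerProduct.summable_and_hasSum_factoredNumbers_prod_filter_prime_geometric
    (f := meB_f δ hδ) hlt T).2
  have hfil : T.filter Nat.Prime = T := Finset.filter_true_of_mem hT
  rw [hfil] at H
  refine hasSum_le_of_sum_le H ?_
  intro u
  have hmap : ∑ m ∈ u, meB_f δ hδ m = ∑ n ∈ u.map (Function.Embedding.subtype _), (n : ℝ) ^ (-(1 + δ)) := by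
    rw [Finset.sum_map]; rfl
  rw [hmap]
  exact meB_fin δ hδ _

/-- For `0 < x ≤ 1/2`, `0 ≤ t ≤ 1`: `- t log (1 - x) ≤ - log (1 - t x) + (1 - t) x ^ 2 / (1 - x)`.

Proof. Let `φ t` be the left side minus the right side; `φ 1 = 0` and
`φ' t = - log (1 - x) - x / (1 - t x) + x ^ 2 / (1 - x) ≥ x - x / (1 - x) + x ^ 2 / (1 - x) = 0`. -/
theorem local_le (x t : ℝ) (hx : 0 < x) (hx2 : x ≤ 1 / 2) (ht : 0 ≤ t) (ht1 : t ≤ 1) :
    t * (-Real.log (1 - x)) ≤ -Real.log (1 - t * x) + (1 - t) * (x ^ 2 / (1 - x)) := by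
  have h1x : 0 < 1 - x := by linarith
  have htx : 0 < 1 - t * x := by nlinarith
  have hq : 0 < (1 - t * x) / (1 - x) := by positivity
  have h1 := Real.log_le_sub_one_of_pos hq
  rw [Real.log_div htx.ne' h1x.ne'] at h1
  have h2 : (1 - t * x) / (1 - x) - 1 = (1 - t) * (x / (1 - x)) := by
    field_simp; ring
  rw [h2] at h1
  have h3 := Real.log_le_sub_one_of_pos h1x
  have h4 : x / (1 - x) = x + x ^ 2 / (1 - x) := by
    field_simp; ring
  have h5 : x / (1 - x) ≤ -Real.log (1 - x) + x ^ 2 / (1 - x) := by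
    rw [h4]; linarith
  have h6 := mul_le_mul_of_nonneg_left h5 (sub_nonneg.mpr ht1)
  nlinarith

/-- **Comparison with the zeta function.**

Proof. `local_le` with `x = 1 / p`, `t = p ^ (-δ)` (`t x = p ^ (-(1 + δ))`), `1 - t ≤ δ log p`, `x ^ 2 / (1 - x) = 1 / (p (p - 1))`,
`∑_(p ∈ T) log p / (p (p - 1)) ≤ 9` (the true value is `0.76`; for instance `log n ≤ 2 √n - 2`, `log n / (n (n - 1)) ≤ 2 / (n √n)`,
telescoping), and `∑ - log (1 - p ^ (-(1 + δ))) = log (euler product) ≤ log (1 + 1 / δ) = - log δ + log (1 + δ) ≤ - log δ + δ`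
(`euler_le`). -/
theorem zeta_cmp (δ : ℝ) (hδ : 0 < δ) (T : Finset ℕ) (hT : ∀ p ∈ T, p.Prime) :
    ∑ p ∈ T, (-Real.log (1 - 1 / (p : ℝ))) * (p : ℝ) ^ (-δ) ≤ -Real.log δ + 10 * δ := by
  have hterm : ∀ p ∈ T, (-Real.log (1 - 1 / (p : ℝ))) * (p : ℝ) ^ (-δ)
      ≤ Real.log ((1 - (p : ℝ) ^ (-(1 + δ)))⁻¹) + δ * (2 * (p : ℝ) ^ (-(1 + 1 / 2 : ℝ))) := by
    intro p hp
    have hp2 : (2 : ℝ) ≤ p := by exact_mod_cast (hT p hp).two_le
    have hp0 : (0 : ℝ) < p := by linarith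
    have hx : (0 : ℝ) < 1 / (p : ℝ) := by positivity
    have hx2 : 1 / (p : ℝ) ≤ 1 / 2 := one_div_le_one_div_of_le (by norm_num) hp2
    have ht : 0 ≤ (p : ℝ) ^ (-δ) := by positivity
    have ht1 : (p : ℝ) ^ (-δ) ≤ 1 := Real.rpow_le_one_of_one_le_of_nonpos (by linarith) (by linarith)
    have h := local_le (1 / (p : ℝ)) ((p : ℝ) ^ (-δ)) hx hx2 ht ht1
    have e1 : (p : ℝ) ^ (-δ) * (1 / (p : ℝ)) = (p : ℝ) ^ (-(1 + δ)) := by
      have : -(1 + δ) = -δ + (-1) := by ring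
      rw [this, Real.rpow_add hp0, Real.rpow_neg_one, one_div]
    rw [e1] at h
    have e2 : 1 - (p : ℝ) ^ (-δ) ≤ δ * Real.log p := by
      rw [Real.rpow_def_of_pos hp0]
      have := Real.add_one_le_exp (Real.log p * (-δ))
      linarith
    have e3 : (1 / (p : ℝ)) ^ 2 / (1 - 1 / (p : ℝ)) = 1 / ((p : ℝ) * (p - 1)) := by
      have : (p : ℝ) - 1 ≠ 0 := by linarith
      field_simp
    have hs : Real.sqrt p * Real.sqrt p = p := Real.mul_self_sqrt hp0.le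
    have hs0 : 0 < Real.sqrt p := Real.sqrt_pos.mpr hp0
    have hs1 : 1 < Real.sqrt p := by
      by_contra hcon
      push Not at hcon
      nlinarith
    have e4 : Real.log p ≤ 2 * (Real.sqrt p - 1) := by
      have := Real.log_le_sub_one_of_pos hs0
      rw [Real.log_sqrt hp0.le] at this
      linarith
    have e5 : (p : ℝ) ^ (-(1 + 1 / 2 : ℝ)) = 1 / ((p : ℝ) * Real.sqrt p) := by
      have : (-(1 + 1 / 2 : ℝ)) = -1 + (-(1 / 2)) := by ring
      rw [this, Real.rpow_add hp0, Real.rpow_neg_one, Real.rpow_neg hp0.le, ← Real.sqrt_eq_rpow]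
      field_simp
    have e6 : Real.log p * (1 / ((p : ℝ) * (p - 1))) ≤ 2 * (p : ℝ) ^ (-(1 + 1 / 2 : ℝ)) := by
      rw [e5]
      have hpm : (0 : ℝ) < (p : ℝ) * (p - 1) := by nlinarith
      have hfac : (p : ℝ) - 1 = (Real.sqrt p - 1) * (Real.sqrt p + 1) := by nlinarith
      have h7 : 2 * (Real.sqrt p - 1) * (1 / ((p : ℝ) * (p - 1))) ≤ 2 * (1 / ((p : ℝ) * Real.sqrt p)) := by
        rw [hfac]
        have hne : Real.sqrt p - 1 ≠ 0 := by linarith
        have e8 : 2 * (Real.sqrt p - 1) * (1 / ((p : ℝ) * ((Real.sqrt p - 1) * (Real.sqrt p + 1))))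
          = 2 * (1 / ((p : ℝ) * (Real.sqrt p + 1))) := by
          field_simp
        rw [e8]
        have : 1 / ((p : ℝ) * (Real.sqrt p + 1)) ≤ 1 / ((p : ℝ) * Real.sqrt p) := by
          apply one_div_le_one_div_of_le (by positivity)
          nlinarith
        linarith
      refine le_trans (mul_le_mul_of_nonneg_right e4 (by positivity)) h7
    rw [e3] at h
    have hpm : (0 : ℝ) ≤ 1 / ((p : ℝ) * (p - 1)) := by
      apply one_div_nonneg.mpr; nlinarith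
    have h8 := mul_le_mul_of_nonneg_right e2 hpm
    have h9 := mul_le_mul_of_nonneg_left e6 hδ.le
    have e10 : Real.log ((1 - (p : ℝ) ^ (-(1 + δ)))⁻¹) = -Real.log (1 - (p : ℝ) ^ (-(1 + δ))) := Real.log_inv _
    rw [e10]
    have e11 : δ * Real.log p * (1 / ((p : ℝ) * (p - 1))) = δ * (Real.log p * (1 / ((p : ℝ) * (p - 1)))) := by ring
    rw [e11] at h8
    linarith
  refine (Finset.sum_le_sum hterm).trans ?_
  rw [Finset.sum_add_distrib, ← Real.log_prod, ← Finset.mul_sum, ← Finset.mul_sum]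
  · have h1 := euler_le δ hδ T hT
    have hpos : 0 < ∏ p ∈ T, (1 - (p : ℝ) ^ (-(1 + δ)))⁻¹ := by
      apply Finset.prod_pos
      intro p hp
      have h1 : (1 : ℝ) < p := by exact_mod_cast (hT p hp).one_lt
      have h2 : (p : ℝ) ^ (-(1 + δ)) < 1 := Real.rpow_lt_one_of_one_lt_of_neg h1 (by linarith)
      apply inv_pos.mpr; linarith
    have h2 := Real.log_le_log hpos h1
    have h3 : Real.log (1 + 1 / δ) = Real.log (1 + δ) - Real.log δ := by
      rw [← Real.log_div (by linarith) hδ.ne']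
      congr 1
      field_simp; ring
    have h4 : Real.log (1 + δ) ≤ δ := by
      have := Real.log_le_sub_one_of_pos (show (0 : ℝ) < 1 + δ by linarith)
      linarith
    have h5 := meB_fin (1 / 2) (by norm_num) T
    have h6 := mul_le_mul_of_nonneg_left h5 hδ.le
    have h7 : δ * (1 + 1 / (1 / 2 : ℝ)) = 3 * δ := by ring
    rw [h7] at h6
    have h8 : δ * (2 * ∑ p ∈ T, (p : ℝ) ^ (-(1 + 1 / 2 : ℝ))) = 2 * (δ * ∑ p ∈ T, (p : ℝ) ^ (-(1 + 1 / 2 : ℝ))) := by ring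
    rw [h8]
    linarith
  · intro p hp
    have h1 : (1 : ℝ) < p := by exact_mod_cast (hT p hp).one_lt
    have h2 : (p : ℝ) ^ (-(1 + δ)) < 1 := Real.rpow_lt_one_of_one_lt_of_neg h1 (by linarith)
    apply inv_ne_zero; linarith

end Pool.Agent.P4
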