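import Pool.Agent.W_b58c63_h28.Defs

/-!
# Abel summation (MP_b58c63_nt, P_4, task MeC)
-/

set_option autoImplicit false

noncomputable section

open Finset MeasureTheory

namespace Pool.Agent.P4

open Pool.Agent.Wb58c63 (PI mem_PI)

open Classical in
theorem MeC_intble (p : ℕ) (a δ U V : ℝ) (_hp : p.Prime) (ha : 0 ≤ a) (_hδ : 0 < δ) :
    IntervalIntegrable (fun u : ℝ => Real.exp (-u) * (if δ * Real.log p < u then a else 0)) volume U V := by
  have hm : Monotone (fun u : ℝ => (if δ * Real.log p < u then a else 0)) := by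
    intro u v huv
    by_cases h1 : δ * Real.log p < u
    · have h2 : δ * Real.log p < v := lt_of_lt_of_le h1 huv
      simp only [h1, h2, if_true, le_refl]
    · by_cases h2 : δ * Real.log p < v
      · simp only [h1, h2, if_true, if_false, ha]
      · simp only [h1, h2, if_false, le_refl]
  exact (hm.intervalIntegrable).continuousOn_mul (Real.continuous_exp.comp continuous_neg).continuousOn

open Classical in
theorem MeC_one (p : ℕ) (a δ U : ℝ) (hp : p.Prime) (ha : 0 ≤ a) (hδ : 0 < δ)
    (hpU : δ * Real.log p < U) :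
    ∫ u in (0 : ℝ)..U, Real.exp (-u) * (if δ * Real.log p < u then a else 0) ≤ a * (p : ℝ) ^ (-δ) := by
  have hp1 : (1 : ℝ) < p := by exact_mod_cast hp.one_lt
  have hlog : 0 < Real.log p := Real.log_pos hp1
  have hc : 0 < δ * Real.log p := mul_pos hδ hlog
  rw [← intervalIntegral.integral_add_adjacent_intervals
    (MeC_intble p a δ 0 (δ * Real.log p) hp ha hδ) (MeC_intble p a δ (δ * Real.log p) U hp ha hδ)]
  have h1 : ∫ u in (0 : ℝ)..(δ * Real.log p), Real.exp (-u) * (if δ * Real.log p < u then a else 0) = 0 := by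
    have h0 : ∫ u in (0 : ℝ)..(δ * Real.log p), (0 : ℝ) = 0 := by simp
    refine Eq.trans ?_ h0
    apply intervalIntegral.integral_congr
    intro u hu
    rw [Set.uIcc_of_le hc.le] at hu
    have : ¬ (δ * Real.log p < u) := not_lt.2 hu.2
    simp only [this, if_false, mul_zero]
  have h2 : ∫ u in (δ * Real.log p)..U, Real.exp (-u) * (if δ * Real.log p < u then a else 0) ≤
      ∫ u in (δ * Real.log p)..U, a * Real.exp (-u) := by
    apply intervalIntegral.integral_mono_on hpU.le (MeC_intble p a δ (δ * Real.log p) U hp ha hδ)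
    · exact (continuous_const.mul (Real.continuous_exp.comp continuous_neg)).intervalIntegrable _ _
    · intro u _
      have he : 0 < Real.exp (-u) := Real.exp_pos _
      by_cases h : δ * Real.log p < u
      · simp only [h, if_true]; exact (mul_comm _ _).le
      · simp only [h, if_false, mul_zero]; exact mul_nonneg ha he.le
  have h3 : ∫ u in (δ * Real.log p)..U, a * Real.exp (-u) =
      a * (Real.exp (-(δ * Real.log p)) - Real.exp (-U)) := by
    rw [intervalIntegral.integral_const_mul]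
    congr 1
    have := intervalIntegral.integral_comp_neg (a := δ * Real.log p) (b := U) (fun x => Real.exp x)
    rw [this, integral_exp]
  have h4 : Real.exp (-(δ * Real.log p)) = (p : ℝ) ^ (-δ) := by
    rw [Real.rpow_def_of_pos (by linarith)]
    congr 1
    ring
  rw [h1, zero_add]
  refine h2.trans ?_
  rw [h3, h4]
  have := Real.exp_pos (-U)
  nlinarith [mul_nonneg ha this.le]

/-- **Abel summation.**

Proof. Let `T = PI 0 (exp (U / δ))`. For `0 < u ≤ U` the inner sum is `∑_(p ∈ T) a p [p < exp (u / δ)]`, and `p < exp (u / δ)` iff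
`δ log p < u`; interchange the finite sum and the integral: `∑_(p ∈ T) a p ∫_(δ log p)^U exp (-u) du ≤ ∑ a p exp (- δ log p)`. -/
theorem abel_prime (a : ℕ → ℝ) (ha : ∀ p : ℕ, p.Prime → 0 ≤ a p) (δ U : ℝ) (hδ : 0 < δ) (hU : 0 < U) :
    ∫ u in (0 : ℝ)..U, Real.exp (-u) * ∑ p ∈ PI 0 (Real.exp (u / δ)), a p ≤
      ∑ p ∈ PI 0 (Real.exp (U / δ)), a p * (p : ℝ) ^ (-δ) := by
  classical
  have hT : ∀ p ∈ PI 0 (Real.exp (U / δ)), p.Prime ∧ δ * Real.log p < U := by
    intro p hp
    obtain ⟨h1, h2, h3⟩ := mem_PI.1 hp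
    refine ⟨h1, ?_⟩
    have hp0 : (0 : ℝ) < p := by exact_mod_cast h1.pos
    have := (Real.log_lt_iff_lt_exp hp0).2 h3
    rw [lt_div_iff₀ hδ] at this
    linarith
  have key : ∫ u in (0 : ℝ)..U, Real.exp (-u) * ∑ p ∈ PI 0 (Real.exp (u / δ)), a p =
      ∫ u in (0 : ℝ)..U, ∑ p ∈ PI 0 (Real.exp (U / δ)),
        Real.exp (-u) * (if δ * Real.log p < u then a p else 0) := by
    apply intervalIntegral.integral_congr
    intro u hu
    rw [Set.uIcc_of_le hU.le] at hu
    simp only
    rw [← Finset.mul_sum]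
    congr 1
    rw [← Finset.sum_filter]
    apply Finset.sum_congr _ (fun _ _ => rfl)
    ext p
    rw [Finset.mem_filter, mem_PI, mem_PI]
    constructor
    · rintro ⟨h1, h2, h3⟩
      have hp0 : (0 : ℝ) < p := by exact_mod_cast h1.pos
      refine ⟨⟨h1, h2, lt_of_lt_of_le h3 (Real.exp_le_exp.2 (div_le_div_of_nonneg_right hu.2 hδ.le))⟩, ?_⟩
      have := (Real.log_lt_iff_lt_exp hp0).2 h3
      rw [lt_div_iff₀ hδ] at this
      linarith
    · rintro ⟨⟨h1, h2, h3⟩, h4⟩
      have hp0 : (0 : ℝ) < p := by exact_mod_cast h1.pos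
      refine ⟨h1, h2, ?_⟩
      apply (Real.log_lt_iff_lt_exp hp0).1
      rw [lt_div_iff₀ hδ]
      linarith
  rw [key, intervalIntegral.integral_finsetSum]
  · apply Finset.sum_le_sum
    intro p hp
    obtain ⟨h1, h2⟩ := hT p hp
    exact MeC_one p (a p) δ U h1 (ha p h1) hδ h2
  · intro p hp
    obtain ⟨h1, h2⟩ := hT p hp
    exact MeC_intble p (a p) δ 0 U h1 (ha p h1) hδ

end Pool.Agent.P4
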