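import Pool.Agent.W_b58c63_h28.MeA
import Pool.Agent.W_b58c63_h28.MeB
import Pool.Agent.W_b58c63_h28.MeC
import Pool.Agent.W_b58c63_h28.Defs
import Pool.Agent.W_a617e8_h51.B0
import Pool.Agent.W_92892s_h88.Gam

/-!
# Mertens' theorem with the constant (MP_b58c63_nt, P_4, task Mer)
-/

set_option autoImplicit false

noncomputable section

open Finset

namespace Pool.Agent.P4

open Pool.Agent.Wb58c63 (PI mem_PI)

/-- The prime sum `- log V1`. -/
private def Mer_a (p : ℕ) : ℝ := -Real.log (1 - 1 / (p : ℝ))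

private theorem Mer_one_sub {p : ℕ} (hp : p.Prime) : 0 < 1 - 1 / (p : ℝ) ∧ 1 - 1 / (p : ℝ) ≤ 1 := by
  have h2 : (2 : ℝ) ≤ p := by exact_mod_cast hp.two_le
  have h1 : 1 / (p : ℝ) ≤ 1 / 2 := one_div_le_one_div_of_le (by norm_num) h2
  have h0 : 0 ≤ 1 / (p : ℝ) := by positivity
  constructor <;> linarith

private theorem Mer_a_nonneg {p : ℕ} (hp : p.Prime) : 0 ≤ Mer_a p := by
  obtain ⟨h1, h2⟩ := Mer_one_sub hp
  unfold Mer_a
  have := Real.log_nonpos h1.le h2
  linarith

private theorem Mer_V1_pos (z : ℝ) : 0 < V1 z := by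
  unfold V1
  exact prod_pos fun p hp => (Mer_one_sub (mem_PI.1 hp).1).1

private theorem Mer_log_V1 (z : ℝ) : ∑ p ∈ PI 0 z, Mer_a p = -Real.log (V1 z) := by
  unfold V1 Mer_a
  rw [Real.log_prod (fun p hp => (Mer_one_sub (mem_PI.1 hp).1).1.ne'), sum_neg_distrib]

private theorem Mer_mono {z w : ℝ} (h : z ≤ w) : ∑ p ∈ PI 0 z, Mer_a p ≤ ∑ p ∈ PI 0 w, Mer_a p := by
  apply sum_le_sum_of_subset_of_nonneg
  · intro p hp
    rw [mem_PI] at hp ⊢
    exact ⟨hp.1, hp.2.1, hp.2.2.trans_le h⟩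
  · intro p hp _
    exact Mer_a_nonneg (mem_PI.1 hp).1

private theorem Mer_int_exp {k : ℝ} (hk : 0 < k) (U : ℝ) :
    ∫ u in (0 : ℝ)..U, Real.exp (-(k * u)) = (1 - Real.exp (-(k * U))) / k := by
  have h1 : ∀ x ∈ Set.uIcc 0 U, HasDerivAt (fun u => -Real.exp (-(k * u)) / k)
      (Real.exp (-(k * x))) x := by
    intro x _
    have h2 : HasDerivAt (fun u : ℝ => -(k * u)) (-k) x := by
      have := ((hasDerivAt_id x).const_mul k).neg
      rw [mul_one] at this
      exact this
    have h3 := (h2.exp.neg).div_const k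
    refine h3.congr_deriv ?_
    field_simp
  rw [intervalIntegral.integral_eq_sub_of_hasDerivAt h1
    (Continuous.intervalIntegrable (by fun_prop) _ _)]
  simp only [mul_zero, neg_zero, Real.exp_zero]
  ring

/-- If `V1 z log z ≤ c` for all `z ≥ z₁` then `- γ - log c ≤ 0`.

Proof. `L z = - log (V1 z) = ∑_(p ∈ PI 0 z) a p ≥ 0`, `a p = - log (1 - 1 / p)`. `L (exp s) ≥ log s - log c` for `s ≥ s₁ = log z₁` (take `z₁ ≥ 3`), and with
`C = max 0 (log s₁ - log c)`: `L (exp s) ≥ log s - log c - C [s < s₁]` for all `s > 0`. For `0 < δ < 1`, `U > 0` with `δ s₁ ≤ U`: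
`- log δ + 10 δ ≥ ∑ a p p ^ (-δ) ≥ ∫_0^U exp (-u) L (exp (u / δ)) du ≥ ∫_0^U exp (-u) (log u - log (δ c)) du - C δ s₁`
(`zeta_cmp`, `abel_prime`, `exp (-u) ≤ 1`). `U → ∞` (`intervalIntegral_tendsto_integral_Ioi`, `int_exp_log`, `∫ exp (-u) = 1`):
`10 δ + C δ s₁ ≥ - γ - log c`. `δ → 0`. -/
theorem mertens_lim (c z₁ : ℝ) (hc : 0 < c) (hz₁ : 3 ≤ z₁) (h : ∀ z : ℝ, z₁ ≤ z → V1 z * Real.log z ≤ c) :
    -Real.eulerMascheroniConstant - Real.log c ≤ 0 := by
  set s₁ : ℝ := Real.log z₁ with hs₁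
  have hz0 : 0 < z₁ := by linarith
  have hs1 : 1 ≤ s₁ := by
    rw [hs₁, Real.le_log_iff_exp_le hz0]
    exact Real.exp_one_lt_three.le.trans hz₁
  have hs0 : 0 < s₁ := by linarith
  set C : ℝ := max 0 (Real.log s₁ - Real.log c) with hC
  have hC0 : 0 ≤ C := le_max_left _ _
  have hC1 : Real.log s₁ - Real.log c ≤ C := le_max_right _ _
  -- the lower bound of the prime sum
  have hL : ∀ s : ℝ, 0 < s → Real.log s - Real.log c - C * Real.exp (1 - s / s₁) ≤
      ∑ p ∈ PI 0 (Real.exp s), Mer_a p := by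
    intro s hs
    rcases lt_or_ge s s₁ with h1 | h1
    · have h2 : 0 ≤ ∑ p ∈ PI 0 (Real.exp s), Mer_a p :=
        sum_nonneg fun p hp => Mer_a_nonneg (mem_PI.1 hp).1
      have h3 : Real.log s ≤ Real.log s₁ := Real.log_le_log hs h1.le
      have h4 : 1 ≤ Real.exp (1 - s / s₁) := by
        apply Real.one_le_exp
        have : s / s₁ ≤ 1 := (div_le_one hs0).2 h1.le
        linarith
      have h5 : C * 1 ≤ C * Real.exp (1 - s / s₁) := mul_le_mul_of_nonneg_left h4 hC0
      linarith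
    · have hz : z₁ ≤ Real.exp s := by
        rw [← Real.exp_log hz0]
        exact Real.exp_le_exp.2 h1
      have h2 := h (Real.exp s) hz
      rw [Real.log_exp] at h2
      have h3 := Mer_V1_pos (Real.exp s)
      have h4 : Real.log (V1 (Real.exp s)) + Real.log s ≤ Real.log c := by
        rw [← Real.log_mul h3.ne' hs.ne']
        exact Real.log_le_log (mul_pos h3 hs) h2
      rw [Mer_log_V1]
      have h5 : 0 ≤ C * Real.exp (1 - s / s₁) := mul_nonneg hC0 (Real.exp_pos _).le
      linarith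
  -- the inequality for fixed `δ` and `U`
  have hmain : ∀ δ U : ℝ, 0 < δ → 0 < U →
      (∫ t in (0 : ℝ)..U, Real.exp (-t) * Real.log t) -
        (Real.log δ + Real.log c) * (1 - Real.exp (-U)) - C * Real.exp 1 * (δ * s₁) ≤
      -Real.log δ + 10 * δ := by
    intro δ U hδ hU
    have hT : ∀ p ∈ PI 0 (Real.exp (U / δ)), p.Prime := fun p hp => (mem_PI.1 hp).1
    have h1 := zeta_cmp δ hδ (PI 0 (Real.exp (U / δ))) hT
    have h2 := abel_prime Mer_a (fun p hp => Mer_a_nonneg hp) δ U hδ hU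
    have h3 : ∑ p ∈ PI 0 (Real.exp (U / δ)), Mer_a p * (p : ℝ) ^ (-δ) ≤ -Real.log δ + 10 * δ := h1
    have h4 := h2.trans h3
    refine le_trans ?_ h4
    set k : ℝ := 1 / (δ * s₁) with hk
    have hk0 : 0 < k := by positivity
    have hi0 : IntervalIntegrable (fun t : ℝ => Real.exp (-t) * Real.log t) MeasureTheory.volume 0 U := by
      rw [intervalIntegrable_iff, Set.uIoc_of_le hU.le]
      exact int_exp_log.1.mono_set Set.Ioc_subset_Ioi_self
    have hi1 : IntervalIntegrable (fun t : ℝ => Real.exp (-t) * (Real.log δ + Real.log c))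
        MeasureTheory.volume 0 U := Continuous.intervalIntegrable (by fun_prop) _ _
    have hi2 : IntervalIntegrable (fun t : ℝ => C * Real.exp 1 * Real.exp (-(k * t)))
        MeasureTheory.volume 0 U := Continuous.intervalIntegrable (by fun_prop) _ _
    have hi3 : IntervalIntegrable (fun u : ℝ => ∑ p ∈ PI 0 (Real.exp (u / δ)), Mer_a p)
        MeasureTheory.volume 0 U := by
      apply MonotoneOn.intervalIntegrable
      intro u _ w _ huw
      exact Mer_mono (Real.exp_le_exp.2 (div_le_div_of_nonneg_right huw hδ.le))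
    have hi4 : IntervalIntegrable (fun u : ℝ => Real.exp (-u) *
        ∑ p ∈ PI 0 (Real.exp (u / δ)), Mer_a p) MeasureTheory.volume 0 U :=
      hi3.continuousOn_mul (Continuous.continuousOn (by fun_prop))
    have hcmp : ∫ t in (0 : ℝ)..U, (Real.exp (-t) * Real.log t -
          Real.exp (-t) * (Real.log δ + Real.log c) - C * Real.exp 1 * Real.exp (-(k * t))) ≤
        ∫ u in (0 : ℝ)..U, Real.exp (-u) * ∑ p ∈ PI 0 (Real.exp (u / δ)), Mer_a p := by
      refine intervalIntegral.integral_mono_on_of_le_Ioo hU.le ((hi0.sub hi1).sub hi2) hi4 ?_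
      intro u hu
      have hu0 : 0 < u := hu.1
      have h5 := hL (u / δ) (by positivity)
      rw [Real.log_div hu0.ne' hδ.ne'] at h5
      have h6 : Real.exp (1 - u / δ / s₁) = Real.exp 1 * Real.exp (-(k * u)) := by
        rw [← Real.exp_add]
        congr 1
        rw [hk]
        field_simp
        ring
      rw [h6] at h5
      have h7 := mul_le_mul_of_nonneg_left h5 (Real.exp_pos (-u)).le
      have h8 : Real.exp (-u) ≤ 1 := by
        rw [Real.exp_le_one_iff]
        linarith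
      have h9 : 0 ≤ C * Real.exp 1 * Real.exp (-(k * u)) := by positivity
      have h10 : Real.exp (-u) * (C * Real.exp 1 * Real.exp (-(k * u))) ≤
          1 * (C * Real.exp 1 * Real.exp (-(k * u))) := mul_le_mul_of_nonneg_right h8 h9
      refine le_trans ?_ h7
      have h11 : Real.exp (-u) * (Real.log u - Real.log δ - Real.log c -
          C * (Real.exp 1 * Real.exp (-(k * u)))) = Real.exp (-u) * Real.log u -
          Real.exp (-u) * (Real.log δ + Real.log c) -
          Real.exp (-u) * (C * Real.exp 1 * Real.exp (-(k * u))) := by ring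
      rw [h11]
      linarith
    refine le_trans ?_ hcmp
    · rw [intervalIntegral.integral_sub (hi0.sub hi1) hi2, intervalIntegral.integral_sub hi0 hi1,
        intervalIntegral.integral_mul_const, intervalIntegral.integral_const_mul,
        Mer_int_exp hk0]
      have e1 := Mer_int_exp one_pos U
      simp only [one_mul, div_one] at e1
      rw [e1]
      have h12 : (1 - Real.exp (-(k * U))) / k ≤ δ * s₁ := by
        rw [div_le_iff₀ hk0, hk]
        have : δ * s₁ * (1 / (δ * s₁)) = 1 := by field_simp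
        rw [this]
        have := Real.exp_pos (-(1 / (δ * s₁) * U))
        linarith
      have h13 := mul_le_mul_of_nonneg_left h12 (by positivity : 0 ≤ C * Real.exp 1)
      have h14 : (1 - Real.exp (-U)) * (Real.log δ + Real.log c) =
          (Real.log δ + Real.log c) * (1 - Real.exp (-U)) := by ring
      linarith
  -- `U → ∞`
  have hlim : ∀ δ : ℝ, 0 < δ → -Real.eulerMascheroniConstant - Real.log c ≤
      (10 + C * Real.exp 1 * s₁) * δ := by
    intro δ hδ
    have t1 := MeasureTheory.intervalIntegral_tendsto_integral_Ioi 0 int_exp_log.1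
      (Filter.tendsto_id (α := ℝ) (x := Filter.atTop))
    rw [int_exp_log.2] at t1
    have t2 : Filter.Tendsto (fun U : ℝ => Real.exp (-U)) Filter.atTop (nhds 0) :=
      Real.tendsto_exp_neg_atTop_nhds_zero
    have t3 := (t1.sub ((t2.const_sub 1).const_mul (Real.log δ + Real.log c))).sub_const
      (C * Real.exp 1 * (δ * s₁))
    have h5 := le_of_tendsto t3 (b := -Real.log δ + 10 * δ) (by
      filter_upwards [Filter.eventually_gt_atTop 0] with U hU
      exact hmain δ U hδ hU)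
    have h6 : (10 + C * Real.exp 1 * s₁) * δ = 10 * δ + C * Real.exp 1 * (δ * s₁) := by ring
    rw [h6]
    linarith
  by_contra hcon
  push Not at hcon
  have hA : 0 < 10 + C * Real.exp 1 * s₁ := by positivity
  have h5 := hlim ((-Real.eulerMascheroniConstant - Real.log c) / (2 * (10 + C * Real.exp 1 * s₁)))
    (by positivity)
  have h6 : (10 + C * Real.exp 1 * s₁) * ((-Real.eulerMascheroniConstant - Real.log c) /
      (2 * (10 + C * Real.exp 1 * s₁))) = (-Real.eulerMascheroniConstant - Real.log c) / 2 := by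
    field_simp
  rw [h6] at h5
  linarith

/-- **Mertens' theorem.** `V1 z log z → e ^ (-γ) = 0.56145..`, so it is at least `0.561` for large `z`.

Proof. `log s dl s → c > 0` (`Pool.Agent.W_a617e8_h51.mertens_prod`, `dl s = ∏_(p ≤ s) (1 - 1 / p)`); `V1 z = dl (⌈z⌉₊ - 1)` and
`log ⌈z⌉₊ - log z → 0`, so `V1 z log z → c`. If `c ≥ 0.5611` done. Otherwise `V1 z log z ≤ 0.5611` for large `z`, so `log 0.5611 ≥ - γ` by
`mertens_lim`, `0.5611 e ^ γ ≥ 1`, but `e ^ γ < 1.7821` (`LAF.exp_gamma_upper`) and `0.5611 * 1.7821 < 1`. -/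
theorem V1_ge : ∃ z₀ : ℝ, 3 ≤ z₀ ∧ ∀ z : ℝ, z₀ ≤ z → 561 / 1000 ≤ V1 z * Real.log z := by
  obtain ⟨c, hc0, hc⟩ := Pool.Agent.W_a617e8_h51.mertens_prod
  have hdl : ∀ z : ℝ, 3 ≤ z → V1 z = Pool.Agent.W_a617e8_h51.dl (⌈z⌉₊ - 1) := by
    intro z hz
    unfold V1 Pool.Agent.W_a617e8_h51.dl
    apply prod_congr _ fun _ _ => rfl
    ext p
    rw [mem_PI, mem_filter, mem_Icc]
    constructor
    · rintro ⟨h1, -, h3⟩
      rw [← Nat.lt_ceil] at h3
      exact ⟨⟨h1.one_le, by omega⟩, h1⟩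
    · rintro ⟨⟨h1, h2⟩, h3⟩
      refine ⟨h3, Nat.cast_nonneg _, ?_⟩
      rw [← Nat.lt_ceil]
      omega
  have hdl1 : ∀ m : ℕ, 0 ≤ Pool.Agent.W_a617e8_h51.dl m ∧ Pool.Agent.W_a617e8_h51.dl m ≤ 1 := by
    intro m
    unfold Pool.Agent.W_a617e8_h51.dl
    constructor
    · exact prod_nonneg fun p hp => (Mer_one_sub (mem_filter.1 hp).2).1.le
    · exact prod_le_one (fun p hp => (Mer_one_sub (mem_filter.1 hp).2).1.le)
        fun p hp => (Mer_one_sub (mem_filter.1 hp).2).2
  have hm1 : ∀ z : ℝ, 3 ≤ z → (2 : ℝ) ≤ ((⌈z⌉₊ - 1 : ℕ) : ℝ) ∧ ((⌈z⌉₊ - 1 : ℕ) : ℝ) ≤ z ∧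
      z ≤ ((⌈z⌉₊ - 1 : ℕ) : ℝ) + 1 := by
    intro z hz
    have h1 : 3 ≤ ⌈z⌉₊ := by
      have : (3 : ℝ) ≤ ⌈z⌉₊ := hz.trans (Nat.le_ceil z)
      exact_mod_cast this
    have h2 : ((⌈z⌉₊ - 1 : ℕ) : ℝ) = (⌈z⌉₊ : ℝ) - 1 := by
      rw [Nat.cast_sub (by omega)]
      norm_num
    have h3 : (3 : ℝ) ≤ ⌈z⌉₊ := by exact_mod_cast h1
    have h4 := Nat.le_ceil z
    have h5 := Nat.ceil_lt_add_one (show (0 : ℝ) ≤ z by linarith)
    rw [h2]
    refine ⟨by linarith, by linarith, by linarith⟩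
  have hup : Filter.Tendsto (fun m : ℕ => Real.log ((m : ℝ) + 1) * Pool.Agent.W_a617e8_h51.dl m)
      Filter.atTop (nhds c) := by
    have h1 : Filter.Tendsto (fun m : ℕ => (Real.log ((m : ℝ) + 1) - Real.log m) *
        Pool.Agent.W_a617e8_h51.dl m) Filter.atTop (nhds 0) := by
      refine squeeze_zero' (Filter.eventually_atTop.2 ⟨1, fun m hm => ?_⟩)
        (Filter.eventually_atTop.2 ⟨1, fun m hm => ?_⟩) tendsto_one_div_atTop_nhds_zero_nat
      · have hm0 : (0 : ℝ) < m := by exact_mod_cast hm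
        have h2 : Real.log m ≤ Real.log ((m : ℝ) + 1) := Real.log_le_log hm0 (by linarith)
        exact mul_nonneg (by linarith) (hdl1 m).1
      · have hm0 : (0 : ℝ) < m := by exact_mod_cast hm
        have h2 : Real.log ((m : ℝ) + 1) - Real.log m ≤ 1 / m := by
          rw [← Real.log_div (by positivity) hm0.ne']
          have h3 := Real.log_le_sub_one_of_pos (show 0 < ((m : ℝ) + 1) / m by positivity)
          have h4 : ((m : ℝ) + 1) / m - 1 = 1 / m := by
            field_simp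
            ring
          linarith
        have h3 : 0 ≤ Real.log ((m : ℝ) + 1) - Real.log m := by
          have : Real.log m ≤ Real.log ((m : ℝ) + 1) := Real.log_le_log hm0 (by linarith)
          linarith
        calc (Real.log ((m : ℝ) + 1) - Real.log m) * Pool.Agent.W_a617e8_h51.dl m
            ≤ (Real.log ((m : ℝ) + 1) - Real.log m) * 1 :=
              mul_le_mul_of_nonneg_left (hdl1 m).2 h3
          _ ≤ 1 / m := by rw [mul_one]; exact h2
    have h2 := h1.add hc
    rw [zero_add] at h2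
    refine h2.congr fun m => ?_
    ring
  rcases le_or_gt (5611 / 10000) c with h | h
  · have h1 := (tendsto_order.1 hc).1 (561 / 1000) (by linarith)
    obtain ⟨N, hN⟩ := Filter.eventually_atTop.1 h1
    refine ⟨max 3 (N + 2), le_max_left _ _, fun z hz => ?_⟩
    have hz3 : 3 ≤ z := (le_max_left _ _).trans hz
    have hzN : (N : ℝ) + 2 ≤ z := (le_max_right _ _).trans hz
    obtain ⟨k1, k2, k3⟩ := hm1 z hz3
    have hNm : N ≤ ⌈z⌉₊ - 1 := by
      have : (N : ℝ) ≤ ((⌈z⌉₊ - 1 : ℕ) : ℝ) := by linarith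
      exact_mod_cast this
    have h2 := hN _ hNm
    rw [hdl z hz3]
    have h3 : Real.log ((⌈z⌉₊ - 1 : ℕ) : ℝ) ≤ Real.log z := Real.log_le_log (by linarith) k2
    have h4 := mul_le_mul_of_nonneg_left h3 (hdl1 (⌈z⌉₊ - 1)).1
    linarith
  · exfalso
    have h1 := (tendsto_order.1 hup).2 (5611 / 10000) h
    obtain ⟨N, hN⟩ := Filter.eventually_atTop.1 h1
    have h2 := mertens_lim (5611 / 10000) (max 3 (N + 2)) (by norm_num) (le_max_left _ _)
      (fun z hz => by
        have hz3 : 3 ≤ z := (le_max_left _ _).trans hz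
        have hzN : (N : ℝ) + 2 ≤ z := (le_max_right _ _).trans hz
        obtain ⟨k1, k2, k3⟩ := hm1 z hz3
        have hNm : N ≤ ⌈z⌉₊ - 1 := by
          have : (N : ℝ) ≤ ((⌈z⌉₊ - 1 : ℕ) : ℝ) := by linarith
          exact_mod_cast this
        have h2 := hN _ hNm
        rw [hdl z hz3]
        have h3 : Real.log z ≤ Real.log (((⌈z⌉₊ - 1 : ℕ) : ℝ) + 1) :=
          Real.log_le_log (by linarith) k3
        have h4 := mul_le_mul_of_nonneg_left h3 (hdl1 (⌈z⌉₊ - 1)).1
        linarith)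
    have h3 : -Real.eulerMascheroniConstant ≤ Real.log (5611 / 10000) := by linarith
    rw [Real.le_log_iff_exp_le (by norm_num)] at h3
    have h4 := LAF.exp_gamma_upper
    have h5 : Real.exp (-Real.eulerMascheroniConstant) * Real.exp Real.eulerMascheroniConstant = 1 := by
      rw [← Real.exp_add]
      simp
    have h6 := Real.exp_pos Real.eulerMascheroniConstant
    have h7 := Real.exp_pos (-Real.eulerMascheroniConstant)
    nlinarith

end Pool.Agent.P4
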