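import Pool.Agent.W_b58c63_h28.Defs

/-!
# Monotonicity in the density (MP_b58c63_nt, P_4, task Mon)
-/

set_option autoImplicit false

noncomputable section

open Finset

namespace Pool.Agent.P4

open Pool.Agent.Wb58c63 (PI mem_PI)
open Pool.Agent.PSG (gg GG SF pp)

private theorem Mon_agree {h h' : ℕ → ℝ} {d : ℕ}
    (hd : ∀ p ∈ d.primeFactors, h p = h' p) : gg h d = gg h' d := by
  unfold gg pp
  refine Finset.prod_congr rfl fun p hp => ?_
  show h p / (1 - h p) = h' p / (1 - h' p)
  rw [hd p hp]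

private theorem Mon_split (h : ℕ → ℝ) (l : ℕ) (hl : l.Prime) (ξ : ℝ) :
    GG h ξ = ∑ d ∈ (SF ξ).filter (fun d => ¬ l ∣ d), gg h d +
      h l / (1 - h l) * ∑ e ∈ (SF (ξ / l)).filter (fun d => ¬ l ∣ d), gg h e := by
  have hl0 : (0 : ℝ) < l := by exact_mod_cast hl.pos
  unfold GG
  rw [← Finset.sum_filter_add_sum_filter_not (SF ξ) (fun d => ¬ l ∣ d)]
  congr 1
  have hg : gg h l = h l / (1 - h l) := by
    unfold gg pp
    rw [hl.primeFactors, Finset.prod_singleton]
  rw [← hg, Finset.mul_sum]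
  symm
  refine Finset.sum_bij (fun e _ => l * e) ?_ ?_ ?_ ?_
  · intro e he
    rw [mem_filter, PSG.Sel_mem] at he
    obtain ⟨⟨h1, h2, h3⟩, h4⟩ := he
    rw [mem_filter, PSG.Sel_mem]
    refine ⟨⟨Nat.mul_pos hl.pos h1, ?_, ?_⟩, ?_⟩
    · push_cast
      rw [le_div_iff₀ hl0] at h2
      linarith
    · rw [Nat.squarefree_mul ((Nat.Prime.coprime_iff_not_dvd hl).2 h4)]
      exact ⟨hl.squarefree, h3⟩
    · rw [not_not]
      exact dvd_mul_right l e
  · intro e₁ _ e₂ _ h12
    exact Nat.eq_of_mul_eq_mul_left hl.pos h12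
  · intro d hd
    rw [mem_filter, PSG.Sel_mem, not_not] at hd
    obtain ⟨⟨h1, h2, h3⟩, e, rfl⟩ := hd
    have he1 : 1 ≤ e := by
      rcases Nat.eq_zero_or_pos e with h0 | h0
      · subst h0
        simp at h1
      · exact h0
    have hle : ¬ l ∣ e := by
      rintro ⟨f, rfl⟩
      have h5 : l * l ∣ l * (l * f) := ⟨f, by ring⟩
      exact hl.one_lt.ne' (Nat.isUnit_iff.1 (h3 l h5))
    refine ⟨e, ?_, rfl⟩
    rw [mem_filter, PSG.Sel_mem]
    refine ⟨⟨he1, ?_, h3.squarefree_of_dvd (dvd_mul_left e l)⟩, hle⟩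
    rw [le_div_iff₀ hl0]
    push_cast at h2
    linarith
  · intro e he
    rw [mem_filter] at he
    exact (PSG.Sel_gg_mul h ((Nat.Prime.coprime_iff_not_dvd hl).2 he.2)).symm

/-- One prime `l`: if `h = h'` except at `l` and `h l ≤ h' l` then `GG h' ξ (1 - h' l) ≤ GG h ξ (1 - h l)`.

Proof. Let `Φ x = ∑ gg h d` over the `d ∈ SF x` with `l ∤ d` (the same for `h'`). The `d ∈ SF ξ` with `l ∣ d` are the `l e`,
`e ∈ SF (ξ / l)`, `l ∤ e`, so `GG h ξ = Φ ξ + h l / (1 - h l) Φ (ξ / l)`, `GG h ξ (1 - h l) = Φ ξ - h l (Φ ξ - Φ (ξ / l))`, and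
`Φ ξ ≥ Φ (ξ / l)`. -/
theorem GG_one (h h' : ℕ → ℝ) (l : ℕ) (hl : l.Prime) (ξ : ℝ) (hh : ∀ p : ℕ, p.Prime → 0 < h p ∧ h p ≤ h' p ∧ h' p < 1)
    (he : ∀ p : ℕ, p.Prime → p ≠ l → h p = h' p) :
    GG h' ξ * (1 - h' l) ≤ GG h ξ * (1 - h l) := by
  have hl1 : (1 : ℝ) ≤ l := by exact_mod_cast hl.pos
  have hag : ∀ d : ℕ, ¬ l ∣ d → gg h' d = gg h d := by
    intro d hd
    refine (Mon_agree fun p hp => ?_).symm
    refine he p (Nat.prime_of_mem_primeFactors hp) ?_
    rintro rfl
    exact hd (Nat.dvd_of_mem_primeFactors hp)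
  have hS : ∀ x : ℝ, ∑ d ∈ (SF x).filter (fun d => ¬ l ∣ d), gg h' d =
      ∑ d ∈ (SF x).filter (fun d => ¬ l ∣ d), gg h d :=
    fun x => Finset.sum_congr rfl fun d hd => hag d (mem_filter.1 hd).2
  rw [Mon_split h l hl ξ, Mon_split h' l hl ξ, hS, hS]
  set A := ∑ d ∈ (SF ξ).filter (fun d => ¬ l ∣ d), gg h d with hA
  set B := ∑ d ∈ (SF (ξ / l)).filter (fun d => ¬ l ∣ d), gg h d with hB
  have hpos : ∀ d, 0 < gg h d :=
    PSG.Sel_gg_pos h fun p hp => ⟨(hh p hp).1, lt_of_le_of_lt (hh p hp).2.1 (hh p hp).2.2⟩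
  have hBA : B ≤ A := by
    rcases le_or_gt 0 ξ with hξ | hξ
    · refine Finset.sum_le_sum_of_subset_of_nonneg ?_ fun d _ _ => (hpos d).le
      intro d hd
      rw [mem_filter, PSG.Sel_mem] at hd ⊢
      refine ⟨⟨hd.1.1, hd.1.2.1.trans ?_, hd.1.2.2⟩, hd.2⟩
      exact div_le_self hξ hl1
    · have h0 : (SF (ξ / l)).filter (fun d => ¬ l ∣ d) = ∅ := by
        rw [Finset.eq_empty_iff_forall_notMem]
        intro d hd
        rw [mem_filter, PSG.Sel_mem] at hd
        have h1 : ξ / l < 0 := div_neg_of_neg_of_pos hξ (by linarith)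
        have h2 : (0 : ℝ) ≤ d := Nat.cast_nonneg d
        linarith [hd.1.2.1]
      rw [hB, h0, Finset.sum_empty]
      exact Finset.sum_nonneg fun d _ => (hpos d).le
  obtain ⟨ha, haa, ha1⟩ := hh l hl
  have e1 : (A + h l / (1 - h l) * B) * (1 - h l) = A - h l * (A - B) := by
    have h1 : (1 - h l) ≠ 0 := by linarith
    field_simp
    ring
  have e2 : (A + h' l / (1 - h' l) * B) * (1 - h' l) = A - h' l * (A - B) := by
    have h1 : (1 - h' l) ≠ 0 := by linarith
    field_simp
    ring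
  rw [e1, e2]
  nlinarith

/-- **Monotonicity in the density.** Induction on a finite set `T ⊆ PI 0 z` of primes with `GG_one` for
`h_T p = if p ∈ T then h' p else h p`. (`GG h` depends only on the values of `h` at primes.) -/
theorem GG_mono (h h' : ℕ → ℝ) (z ξ : ℝ) (hh : ∀ p : ℕ, p.Prime → 0 < h p ∧ h p ≤ h' p ∧ h' p < 1)
    (hz : ∀ p : ℕ, p.Prime → z ≤ p → h p = h' p) :
    GG h' ξ * ∏ p ∈ PI 0 z, (1 - h' p) ≤ GG h ξ * ∏ p ∈ PI 0 z, (1 - h p) := by
  classical
  have key : ∀ T : Finset ℕ, (∀ p ∈ T, p.Prime) →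
      GG (fun p => if p ∈ T then h' p else h p) ξ * ∏ p ∈ T, (1 - h' p) ≤
        GG h ξ * ∏ p ∈ T, (1 - h p) := by
    intro T
    induction T using Finset.induction_on with
    | empty =>
      intro _
      simp
    | insert l T hlT ih =>
      intro hT
      have hl : l.Prime := hT l (Finset.mem_insert_self l T)
      have hT' : ∀ p ∈ T, p.Prime := fun p hp => hT p (Finset.mem_insert_of_mem hp)
      have h1 := GG_one (fun p => if p ∈ T then h' p else h p)
        (fun p => if p ∈ insert l T then h' p else h p) l hl ξ ?_ ?_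
      · have e1 : (if l ∈ insert l T then h' l else h l) = h' l := by
          simp
        have e2 : (if l ∈ T then h' l else h l) = h l := by
          simp [hlT]
        rw [e1, e2] at h1
        have hpos : 0 ≤ ∏ p ∈ T, (1 - h' p) :=
          Finset.prod_nonneg fun p hp => by linarith [(hh p (hT' p hp)).2.2]
        have h2 := mul_le_mul_of_nonneg_right h1 hpos
        have h3 : 0 ≤ 1 - h l := by
          linarith [(hh l hl).2.1, (hh l hl).2.2]
        have h4 := mul_le_mul_of_nonneg_right (ih hT') h3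
        rw [Finset.prod_insert hlT, Finset.prod_insert hlT]
        calc GG (fun p => if p ∈ insert l T then h' p else h p) ξ *
              ((1 - h' l) * ∏ p ∈ T, (1 - h' p))
            = GG (fun p => if p ∈ insert l T then h' p else h p) ξ * (1 - h' l) *
              ∏ p ∈ T, (1 - h' p) := by ring
          _ ≤ GG (fun p => if p ∈ T then h' p else h p) ξ * (1 - h l) *
              ∏ p ∈ T, (1 - h' p) := h2
          _ = (GG (fun p => if p ∈ T then h' p else h p) ξ * ∏ p ∈ T, (1 - h' p)) *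
              (1 - h l) := by ring
          _ ≤ (GG h ξ * ∏ p ∈ T, (1 - h p)) * (1 - h l) := h4
          _ = GG h ξ * ((1 - h l) * ∏ p ∈ T, (1 - h p)) := by ring
      · intro p hp
        obtain ⟨h5, h6, h7⟩ := hh p hp
        by_cases hpT : p ∈ T
        · have h8 : p ∈ insert l T := Finset.mem_insert_of_mem hpT
          simp only [hpT, h8, if_true]
          exact ⟨by linarith, le_rfl, h7⟩
        · by_cases hpl : p = l
          · subst hpl
            have h8 : p ∈ insert p T := Finset.mem_insert_self p T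
            simp only [hpT, h8, if_true, if_false]
            exact ⟨h5, h6, h7⟩
          · have h8 : p ∉ insert l T := by
              rw [Finset.mem_insert]
              tauto
            simp only [hpT, h8, if_false]
            exact ⟨h5, le_rfl, by linarith⟩
      · intro p _ hpl
        by_cases hpT : p ∈ T
        · have h8 : p ∈ insert l T := Finset.mem_insert_of_mem hpT
          simp only [hpT, h8, if_true]
        · have h8 : p ∉ insert l T := by
            rw [Finset.mem_insert]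
            tauto
          simp only [hpT, h8, if_false]
  have h1 := key (PI 0 z) fun p hp => (mem_PI.1 hp).1
  have h2 : GG (fun p => if p ∈ PI 0 z then h' p else h p) ξ = GG h' ξ := by
    unfold GG
    refine Finset.sum_congr rfl fun d _ => ?_
    refine Mon_agree fun p hp => ?_
    have hp1 := Nat.prime_of_mem_primeFactors hp
    by_cases hpz : p ∈ PI 0 z
    · simp only [hpz, if_true]
    · simp only [hpz, if_false]
      refine hz p hp1 ?_
      by_contra hlt
      exact hpz (mem_PI.2 ⟨hp1, Nat.cast_nonneg p, not_le.1 hlt⟩)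
  rw [h2] at h1
  exact h1

end Pool.Agent.P4
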