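import Pool.Agent.W_b58c63_h28.Defs

/-!
# Sums of `rP` (MP_b58c63_nt, P_4, task RpS)
-/

set_option autoImplicit false

noncomputable section

open Finset

namespace Pool.Agent.P4

open Pool.Agent.Wb58c63
open Pool.Agent.PSG (pp SF)

private lemma RpS_rN_pos (N : ℕ) (z : ℝ) (p : ℕ) : 1 ≤ rN N z p := by
  unfold rN
  split_ifs <;> norm_num

private lemma RpS_rN_le (N : ℕ) (z : ℝ) (p : ℕ) : rN N z p ≤ 2 := by
  unfold rN
  split_ifs <;> norm_num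

private lemma RpS_primeFactors_lcm {d e : ℕ} (hd : d ≠ 0) (he : e ≠ 0) :
    (Nat.lcm d e).primeFactors = d.primeFactors ∪ e.primeFactors := by
  ext p
  rw [mem_union, Nat.mem_primeFactors, Nat.mem_primeFactors, Nat.mem_primeFactors]
  constructor
  · rintro ⟨hp, h, -⟩
    rcases (hp.dvd_mul).mp (h.trans (Nat.lcm_dvd_mul d e)) with h | h
    · exact Or.inl ⟨hp, h, hd⟩
    · exact Or.inr ⟨hp, h, he⟩
  · rintro (⟨hp, h, -⟩ | ⟨hp, h, -⟩)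
    · exact ⟨hp, h.trans (Nat.dvd_lcm_left d e), Nat.lcm_ne_zero hd he⟩
    · exact ⟨hp, h.trans (Nat.dvd_lcm_right d e), Nat.lcm_ne_zero hd he⟩

/-- `rN ≥ 1` at every prime factor. -/
theorem rP_lcm (N : ℕ) (z : ℝ) (d e : ℕ) (hd : d ≠ 0) (he : e ≠ 0) :
    rP N z (Nat.lcm d e) ≤ rP N z d * rP N z e := by
  unfold rP
  rw [RpS_primeFactors_lcm hd he, ← Finset.prod_union_inter]
  exact Nat.le_mul_of_pos_right _ (Finset.prod_pos fun p _ => RpS_rN_pos N z p)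

private lemma RpS_rP_le (N : ℕ) (z : ℝ) {d : ℕ} (hd : d ≠ 0) : rP N z d ≤ d.divisors.card := by
  rw [Nat.card_divisors hd]
  unfold rP
  refine Finset.prod_le_prod' fun p hp => ?_
  have h1 := RpS_rN_le N z p
  have h2 : 0 < d.factorization p :=
    (Nat.prime_of_mem_primeFactors hp).factorization_pos_of_dvd hd (Nat.dvd_of_mem_primeFactors hp)
  omega

private lemma RpS_sum_card (n : ℕ) :
    ∑ d ∈ Icc 1 n, d.divisors.card = ∑ a ∈ Icc 1 n, n / a := by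
  have h1 : ∀ d ∈ Icc 1 n, d.divisors.card = ∑ a ∈ Icc 1 n, if a ∣ d then 1 else 0 := by
    intro d hd
    rw [mem_Icc] at hd
    rw [← Finset.card_filter]
    congr 1
    ext a
    rw [Nat.mem_divisors, mem_filter, mem_Icc]
    constructor
    · rintro ⟨h1, h2⟩
      exact ⟨⟨Nat.pos_of_dvd_of_pos h1 (by omega), (Nat.le_of_dvd (by omega) h1).trans hd.2⟩, h1⟩
    · rintro ⟨-, h1⟩
      exact ⟨h1, by omega⟩
  rw [Finset.sum_congr rfl h1, Finset.sum_comm]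
  refine Finset.sum_congr rfl fun a ha => ?_
  rw [← Finset.card_filter]
  have h2 : (Icc 1 n).filter (fun d => a ∣ d) = (Ioc 0 n).filter (fun d => a ∣ d) := by
    ext x
    simp only [mem_filter, mem_Icc, mem_Ioc]
    omega
  rw [h2, Nat.Ioc_filter_dvd_card_eq_div]

/-- `rP N z d ≤ 2 ^ ω(d) ≤ τ(d)` (the number of the divisors), and `∑_(d ≤ ξ) τ(d) ≤ ∑_(a ≤ ξ) ξ / a ≤ ξ (1 + log ξ)`. -/
theorem rP_sum (N : ℕ) (z ξ : ℝ) (hξ : 1 ≤ ξ) : ∑ d ∈ SF ξ, (rP N z d : ℝ) ≤ ξ * (1 + Real.log ξ) := by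
  have h1 : ∑ d ∈ SF ξ, (rP N z d : ℝ) ≤ ∑ d ∈ Icc 1 ⌊ξ⌋₊, (d.divisors.card : ℝ) := by
    unfold SF
    refine (Finset.sum_le_sum (g := fun d : ℕ => (d.divisors.card : ℝ)) fun d hd => ?_).trans
      (Finset.sum_le_sum_of_subset_of_nonneg (Finset.filter_subset _ _) fun d _ _ => by positivity)
    rw [mem_filter, mem_Icc] at hd
    exact_mod_cast RpS_rP_le N z (by omega)
  have h2 : ∑ d ∈ Icc 1 ⌊ξ⌋₊, (d.divisors.card : ℝ) = ∑ a ∈ Icc 1 ⌊ξ⌋₊, ((⌊ξ⌋₊ / a : ℕ) : ℝ) := by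
    exact_mod_cast RpS_sum_card ⌊ξ⌋₊
  have h3 : ∑ a ∈ Icc 1 ⌊ξ⌋₊, ((⌊ξ⌋₊ / a : ℕ) : ℝ) ≤ ∑ a ∈ Icc 1 ⌊ξ⌋₊, ξ * (a : ℝ)⁻¹ := by
    refine Finset.sum_le_sum fun a ha => ?_
    rw [mem_Icc] at ha
    have h4 : ((⌊ξ⌋₊ / a : ℕ) : ℝ) ≤ (⌊ξ⌋₊ : ℝ) / a := Nat.cast_div_le
    have h5 : (⌊ξ⌋₊ : ℝ) ≤ ξ := Nat.floor_le (by linarith)
    rw [← div_eq_mul_inv]
    exact h4.trans (div_le_div_of_nonneg_right h5 (by positivity))
  have h6 : ∑ a ∈ Icc 1 ⌊ξ⌋₊, ξ * (a : ℝ)⁻¹ = ξ * ((harmonic ⌊ξ⌋₊ : ℚ) : ℝ) := by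
    rw [← Finset.mul_sum, harmonic_eq_sum_Icc]
    push_cast
    rfl
  have h7 := harmonic_floor_le_one_add_log ξ hξ
  calc ∑ d ∈ SF ξ, (rP N z d : ℝ) ≤ ∑ a ∈ Icc 1 ⌊ξ⌋₊, ξ * (a : ℝ)⁻¹ := by
        rw [h2] at h1
        exact h1.trans h3
    _ = ξ * ((harmonic ⌊ξ⌋₊ : ℚ) : ℝ) := h6
    _ ≤ ξ * (1 + Real.log ξ) := mul_le_mul_of_nonneg_left h7 (by linarith)

/-- `hN N z p = rN N z p / p`; `∏ p = d` for squarefree `d`. -/
theorem pp_hN (N : ℕ) (z : ℝ) (d : ℕ) (hd : Squarefree d) : pp (hN N z) d = (rP N z d : ℝ) / d := by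
  unfold pp hN rP
  rw [Finset.prod_div_distrib]
  congr 1
  · push_cast
    rfl
  · conv_rhs => rw [← Nat.prod_primeFactors_of_squarefree hd]
    push_cast
    rfl

/-- `N` even: `hN N z 2 = 1 / 2`, `hN N z p ≤ 2 / 3` for `p ≥ 3`. -/
theorem hN_bd (N : ℕ) (hN' : Even N) (z : ℝ) (p : ℕ) (hp : p.Prime) : 0 < hN N z p ∧ hN N z p < 1 := by
  have hp0 : (0 : ℝ) < p := by exact_mod_cast hp.pos
  have h1 : (1 : ℝ) ≤ rN N z p := by exact_mod_cast RpS_rN_pos N z p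
  unfold hN
  refine ⟨by positivity, ?_⟩
  rw [div_lt_one hp0]
  have h2 : rN N z p < p := by
    rcases hp.two_le.eq_or_lt with h | h
    · have h3 : rN N z p = 1 := by
        unfold rN
        rw [if_neg]
        rintro ⟨-, h4⟩
        exact h4 (h ▸ hN'.two_dvd)
      omega
    · have := RpS_rN_le N z p
      omega
  exact_mod_cast h2

/-- `Om` for the lcm: the prime factors of `lcm d e` are those of `d` and those of `e`. -/
theorem Om_lcm (N : ℕ) (z : ℝ) (d e n : ℕ) (hd : d ≠ 0) (he : e ≠ 0) :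
    Om N z (Nat.lcm d e) n ↔ Om N z d n ∧ Om N z e n := by
  unfold Om
  rw [RpS_primeFactors_lcm hd he]
  constructor
  · intro h
    exact ⟨fun p hp => h p (mem_union_left _ hp), fun p hp => h p (mem_union_right _ hp)⟩
  · rintro ⟨h1, h2⟩ p hp
    rcases mem_union.mp hp with h | h
    · exact h1 p h
    · exact h2 p h

end Pool.Agent.P4
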