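import Pool.Agent.W_b58c63_h28.Mon
import Pool.Agent.W_b58c63_h28.RpS

/-!
# The products (MP_b58c63_nt, P_4, task Pro)
-/

set_option autoImplicit false

noncomputable section

open Finset

namespace Pool.Agent.P4

open Pool.Agent.Wb58c63
open Pool.Agent.PSG (GG)

/-- An even `N` and a prime which does not divide it. -/
theorem Pro_three_le {N p : ℕ} (hNe : Even N) (hp : p.Prime) (h : ¬ p ∣ N) : 3 ≤ p := by
  rcases hp.two_le.eq_or_lt with h2 | h2
  · exact absurd (h2 ▸ hNe.two_dvd) h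
  · exact h2

/-- `(1 - 1 / (p - 1)) (1 - 1 / p) = 1 - 2 / p`; `PN N z` is the set of the primes of `PI 0 z` (or `PI 2 z`, see `HW_mem_PN`) which
do not divide `N`, and these are odd as `N` is even. -/
theorem hN_prod (N : ℕ) (hNe : Even N) (z : ℝ) :
    ∏ p ∈ PI 0 z, (1 - hN N z p) = VP gp (PN N z) * V1 z := by
  unfold VP V1 PN
  rw [prod_filter, ← prod_mul_distrib]
  refine prod_congr rfl fun p hp => ?_
  obtain ⟨hp1, -, hp2⟩ := mem_PI.1 hp
  have hp0 : (0 : ℝ) < p := by exact_mod_cast hp1.pos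
  unfold hN rN
  by_cases h : p ∣ N
  · rw [if_neg (by tauto), if_neg (by tauto), one_mul]
    norm_num
  · rw [if_pos ⟨hp2, h⟩, if_pos h]
    have h3 : (3 : ℝ) ≤ p := by exact_mod_cast Pro_three_le hNe hp1 h
    have h4 : (p : ℝ) - 1 ≠ 0 := by linarith
    unfold gp
    field_simp
    push_cast
    ring

/-- `hN ≤ hS < 1`. -/
theorem hN_le_hS (N : ℕ) (hN' : Even N) (z : ℝ) (p : ℕ) (hp : p.Prime) :
    hN N z p ≤ hS z p ∧ hS z p < 1 := by
  have hp0 : (0 : ℝ) < p := by exact_mod_cast hp.pos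
  have hp2 : (2 : ℝ) ≤ p := by exact_mod_cast hp.two_le
  have h12 : (1 : ℝ) / p ≤ 2 / p := by
    gcongr
    norm_num
  constructor
  · unfold hN rN hS
    by_cases h : (p : ℝ) < z ∧ ¬ p ∣ N
    · have h3 := Pro_three_le hN' hp h.2
      rw [if_pos h, if_pos ⟨h.1, by omega⟩]
      norm_num
    · rw [if_neg h]
      split_ifs
      · simpa using h12
      · simp
  · unfold hS
    split_ifs with h
    · have h3 : 3 ≤ p := by
        have h4 := hp.two_le
        have h5 := h.2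
        omega
      have h4 : (3 : ℝ) ≤ p := by exact_mod_cast h3
      rw [div_lt_one hp0]
      linarith
    · rw [div_lt_one hp0]
      linarith

/-- `GG_mono` for `hN N z ≤ hS z` and `hN_prod`. -/
theorem GN_ge (N : ℕ) (hN' : Even N) (z ξ : ℝ) :
    GG (hS z) ξ * ∏ p ∈ PI 0 z, (1 - hS z p) ≤ GG (hN N z) ξ * (VP gp (PN N z) * V1 z) := by
  rw [← hN_prod N hN' z]
  refine GG_mono (hN N z) (hS z) z ξ (fun p hp => ?_) (fun p hp hz => ?_)
  · exact ⟨(hN_bd N hN' z p hp).1, (hN_le_hS N hN' z p hp).1, (hN_le_hS N hN' z p hp).2⟩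
  · unfold hN rN hS
    rw [if_neg (fun h => absurd h.1 (not_lt.2 hz)), if_neg (fun h => absurd h.1 (not_lt.2 hz))]
    norm_num

end Pool.Agent.P4
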