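import Pool.Agent.W_b58c63_h28.Loc
import Pool.Agent.W_b58c63_h28.RpS

/-!
# Selberg's upper bound (MP_b58c63_nt, P_4, task SeL)
-/

set_option autoImplicit false

noncomputable section

open Finset Filter

namespace Pool.Agent.P4

open Pool.Agent.Wb58c63
open Pool.Agent.W33m (IW)

open Classical in
/-- **Pointwise**: a counted prime is weighted by `1`.

Proof. `lam` as in `selberg_exists` (`lam 1 = 1`). If `1 ≠ d ∈ SF ξ` then `d` has a prime factor `l ≤ ξ < p`, so `l ∤ p`; if moreover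
`l < z`, `l ∤ N`, `p ≡ N mod l` then `l ∈ PN N z` and `l ∣ N - p`, against `sif N z (N - p)` (`p ≤ N`). So `Om N z d p` fails and the sum is
`lam 1 = 1` (`Om N z 1 p` holds trivially). -/
theorem lam_one (N : ℕ) (z ξ : ℝ) (hξ : 1 ≤ ξ) (lam : ℕ → ℝ) (h1 : lam 1 = 1) (p : ℕ) (hp : p.Prime)
    (hpN : p ≤ N) (hpξ : ξ < p) (hs : sif N z (N - p)) :
    ∑ d ∈ (Pool.Agent.PSG.SF ξ).filter (fun d => Om N z d p), lam d = 1 := by
  have hmem : (Pool.Agent.PSG.SF ξ).filter (fun d => Om N z d p) = {1} := by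
    ext d
    rw [mem_filter, mem_singleton]
    constructor
    · rintro ⟨hd, hO⟩
      by_contra hd1
      obtain ⟨h3, h4, _⟩ := Pool.Agent.PSG.Sel_mem.1 hd
      obtain ⟨l, hl, hld⟩ := Nat.exists_prime_and_dvd hd1
      have hlp : (l : ℝ) < p := by
        have h5 : l ≤ d := Nat.le_of_dvd h3 hld
        have h6 : (l : ℝ) ≤ d := by exact_mod_cast h5
        linarith
      have hlp' : l < p := by exact_mod_cast hlp
      have hnd : ¬ l ∣ p := by
        intro h7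
        have h8 := (Nat.prime_dvd_prime_iff_eq hl hp).1 h7
        omega
      rcases hO l (Nat.mem_primeFactors.2 ⟨hl, hld, by omega⟩) with h7 | ⟨h7, h8, h9⟩
      · exact hnd h7
      · refine hs l ?_ ?_
        · unfold PN
          rw [mem_filter]
          exact ⟨mem_PI.2 ⟨hl, by positivity, h7⟩, h8⟩
        · exact (Nat.modEq_iff_dvd' hpN).1 h9
    · rintro rfl
      refine ⟨Pool.Agent.PSG.Sel_mem.2 ⟨le_rfl, by exact_mod_cast hξ, squarefree_one⟩, ?_⟩
      intro l hl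
      simp at hl
  rw [hmem, sum_singleton, h1]

open Classical in
/-- The expansion of the square. -/
theorem SeL_expand (N : ℕ) (z ξ : ℝ) (lam : ℕ → ℝ) (I : Finset ℕ) (w : ℕ → ℝ) (P : ℕ → Prop) [DecidablePred P] :
    ∑ n ∈ I.filter P, w n * (∑ d ∈ (Pool.Agent.PSG.SF ξ).filter (fun d => Om N z d n), lam d) ^ 2 =
      ∑ d ∈ Pool.Agent.PSG.SF ξ, ∑ e ∈ Pool.Agent.PSG.SF ξ, lam d * lam e *
        ∑ n ∈ I.filter (fun n => P n ∧ Om N z (Nat.lcm d e) n), w n := by
  have key : ∀ n, w n * (∑ d ∈ (Pool.Agent.PSG.SF ξ).filter (fun d => Om N z d n), lam d) ^ 2 =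
      ∑ d ∈ Pool.Agent.PSG.SF ξ, ∑ e ∈ Pool.Agent.PSG.SF ξ, lam d * lam e *
        (if Om N z (Nat.lcm d e) n then w n else 0) := by
    intro n
    rw [pow_two, sum_filter, sum_mul_sum, mul_sum]
    refine sum_congr rfl fun d hd => ?_
    rw [mul_sum]
    refine sum_congr rfl fun e he => ?_
    have hd0 : d ≠ 0 := by
      have := (Pool.Agent.PSG.Sel_mem.1 hd).1
      omega
    have he0 : e ≠ 0 := by
      have := (Pool.Agent.PSG.Sel_mem.1 he).1
      omega
    have h := Om_lcm N z d e n hd0 he0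
    by_cases h1 : Om N z d n
    · by_cases h2 : Om N z e n
      · rw [if_pos h1, if_pos h2, if_pos (h.2 ⟨h1, h2⟩)]
        ring
      · rw [if_pos h1, if_neg h2, if_neg (fun h3 => h2 (h.1 h3).2)]
        ring
    · rw [if_neg h1, if_neg (fun h3 => h1 (h.1 h3).1)]
      ring
  rw [sum_congr rfl fun n _ => key n, sum_comm]
  refine sum_congr rfl fun d _ => ?_
  rw [sum_comm]
  refine sum_congr rfl fun e _ => ?_
  rw [← mul_sum]
  congr 1
  rw [← sum_filter, filter_filter]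

/-- **Selberg's upper bound for one `q`.**

Proof. `lam` from `Pool.Agent.PSG.selberg_exists (hN N z) (hN_bd ..) ξ`. For `p` counted in `SQ` with `ap ≠ 0`: `Y < p < 2 Y` (`aw_support`),
`ap k Y p = aw k Y p * log p`, `p ∈ IW Y`, `p ≤ N` (`N > Y ^ 2 / 2 ≥ 2 Y`), `ξ < p`, `p ≡ N mod q`; by `lam_one`
`SQ ≤ ∑_{n ∈ IW Y, n ≡ N mod q} aw k Y n log n (∑_{d ∈ SF ξ, Om d n} lam d) ^ 2` (all terms `≥ 0`). Expand the square (`Om_lcm`):
`= ∑_{d, e ∈ SF ξ} lam d lam e T(lcm d e)`, `T(l)` = the sum of `loc_sum`, `l = lcm d e` squarefree, `l ≤ ξ ^ 2`, `q l ≤ Y / 4`, `q` coprime to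
`l` since `q` is a prime `> ξ ≥ d, e`. `T(l) = rP l / (q l) WI + O (C rP l log Y)`, `rP l / l = pp (hN N z) l` (`pp_hN`), the main terms
give `WI / q * 1 / GG` by `selberg_value`, the errors at most `C log Y ∑ rP d rP e ≤ C log Y (ξ (1 + log ξ)) ^ 2` (`|lam| ≤ 1`, `rP_lcm`, `rP_sum`). -/
theorem SQ_le (k : ℕ) : ∃ C : ℝ, 0 < C ∧ ∀ᶠ Y : ℝ in atTop, ∀ (N q : ℕ) (z ξ : ℝ), Even N →
    Y ^ 2 / 2 < N → (N : ℝ) ≤ Y ^ 2 → q.Prime → 1 ≤ ξ → ξ < q → q * ξ ^ 2 ≤ Y / 4 →
      SQ k Y N z q ≤ WI k Y / (q * Pool.Agent.PSG.GG (hN N z) ξ) +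
        C * Real.log Y * (ξ * (1 + Real.log ξ)) ^ 2 := by
  classical
  obtain ⟨C, hC, hloc⟩ := loc_sum k
  refine ⟨C, hC, ?_⟩
  filter_upwards [hloc, eventually_ge_atTop (4 : ℝ)] with Y hY hY4
  intro N q z ξ hEven hN1 hN2 hq hξ hξq hqξ
  have hY1 : 1 ≤ Y := by linarith
  obtain ⟨lam, hl1, hlb, _, hlf⟩ := Pool.Agent.PSG.selberg_exists (hN N z)
    (fun p hp => hN_bd N hEven z p hp) ξ hξ
  have hval := Pool.Agent.PSG.selberg_value (hN N z) (fun p hp => hN_bd N hEven z p hp) ξ hξ lam hlf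
  have hq0 : (0 : ℝ) < q := by exact_mod_cast hq.pos
  have hq1 : (1 : ℝ) ≤ q := by exact_mod_cast hq.one_lt.le
  have hξY : ξ ≤ Y / 4 := by
    refine le_trans ?_ hqξ
    nlinarith [mul_nonneg (sub_nonneg.2 hq1) (sq_nonneg ξ)]
  have hlogY : 0 ≤ Real.log Y := Real.log_nonneg hY1
  -- step 1
  have h1 : SQ k Y N z q ≤ ∑ n ∈ (IW Y).filter (fun n => n ≡ N [MOD q]), (aw k Y n * Real.log n) *
      (∑ d ∈ (Pool.Agent.PSG.SF ξ).filter (fun d => Om N z d n), lam d) ^ 2 := by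
    unfold SQ
    rw [← sum_filter_ne_zero]
    have hsub : ((Pr Y).filter (fun p => q ∣ N - p ∧ sif N z (N - p))).filter (fun p => ap k Y p ≠ 0) ⊆
        (IW Y).filter (fun n => n ≡ N [MOD q]) := by
      intro p hp
      rw [mem_filter, mem_filter] at hp
      obtain ⟨⟨_, hqd, _⟩, hp3⟩ := hp
      have haw : aw k Y p ≠ 0 := by
        intro h0
        apply hp3
        unfold ap
        rw [h0, zero_mul]
      obtain ⟨h5, h6⟩ := aw_support k Y hY1 p haw
      have hpN : p ≤ N := by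
        have h7 : (p : ℝ) ≤ N := by nlinarith
        exact_mod_cast h7
      rw [mem_filter]
      refine ⟨?_, (Nat.modEq_iff_dvd' hpN).2 hqd⟩
      unfold IW
      rw [mem_Ico]
      refine ⟨?_, ?_⟩
      · refine Nat.floor_le_of_le ?_
        linarith
      · rw [Nat.lt_ceil]
        exact h6
    refine le_trans ?_ (sum_le_sum_of_subset_of_nonneg hsub ?_)
    · refine sum_le_sum fun p hp => ?_
      rw [mem_filter, mem_filter] at hp
      obtain ⟨⟨hpr, _, hsif⟩, hp3⟩ := hp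
      have hpp : p.Prime := by
        unfold Pr at hpr
        exact (mem_filter.1 hpr).2
      have haw : aw k Y p ≠ 0 := by
        intro h0
        apply hp3
        unfold ap
        rw [h0, zero_mul]
      obtain ⟨h5, h6⟩ := aw_support k Y hY1 p haw
      have hpN : p ≤ N := by
        have h7 : (p : ℝ) ≤ N := by nlinarith
        exact_mod_cast h7
      rw [lam_one N z ξ hξ lam hl1 p hpp hpN (by linarith) hsif, one_pow, mul_one]
      exact le_rfl
    · intro n _ _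
      exact mul_nonneg (mul_nonneg (aw_nonneg k Y hY1 n) (Real.log_natCast_nonneg n)) (sq_nonneg _)
  -- step 2
  rw [SeL_expand N z ξ lam (IW Y) (fun n => aw k Y n * Real.log n) (fun n => n ≡ N [MOD q])] at h1
  -- step 3
  have h3 : ∀ d ∈ Pool.Agent.PSG.SF ξ, ∀ e ∈ Pool.Agent.PSG.SF ξ,
      lam d * lam e * ∑ n ∈ (IW Y).filter (fun n => n ≡ N [MOD q] ∧ Om N z (Nat.lcm d e) n),
        aw k Y n * Real.log n ≤
      lam d * lam e * Pool.Agent.PSG.pp (hN N z) (Nat.lcm d e) * (WI k Y / q) +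
        C * Real.log Y * ((rP N z d : ℝ) * rP N z e) := by
    intro d hd e he
    obtain ⟨hd1, hd2, hd3⟩ := Pool.Agent.PSG.Sel_mem.1 hd
    obtain ⟨he1, he2, he3⟩ := Pool.Agent.PSG.Sel_mem.1 he
    have hd0 : d ≠ 0 := by omega
    have he0 : e ≠ 0 := by omega
    have hlcm0 : Nat.lcm d e ≠ 0 := Nat.lcm_ne_zero hd0 he0
    have hsq : Squarefree (Nat.lcm d e) := by
      rw [Nat.squarefree_iff_factorization_le_one hlcm0]
      intro r
      rw [Nat.factorization_lcm hd0 he0, Finsupp.sup_apply]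
      exact sup_le ((Nat.squarefree_iff_factorization_le_one hd0).1 hd3 r)
        ((Nat.squarefree_iff_factorization_le_one he0).1 he3 r)
    have hcop : q.Coprime (Nat.lcm d e) := by
      rw [Nat.Prime.coprime_iff_not_dvd hq]
      intro hdv
      rcases (Nat.Prime.dvd_lcm hq).1 hdv with h | h
      · have h7 : q ≤ d := Nat.le_of_dvd hd1 h
        have h8 : (q : ℝ) ≤ d := by exact_mod_cast h7
        linarith
      · have h7 : q ≤ e := Nat.le_of_dvd he1 h
        have h8 : (q : ℝ) ≤ e := by exact_mod_cast h7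
        linarith
    have hle : ((Nat.lcm d e : ℕ) : ℝ) ≤ ξ ^ 2 := by
      have h7 : Nat.lcm d e ≤ d * e := Nat.le_of_dvd (by positivity) (Nat.lcm_dvd_mul d e)
      have h8 : ((Nat.lcm d e : ℕ) : ℝ) ≤ d * e := by exact_mod_cast h7
      have h9 : (0 : ℝ) ≤ e := by positivity
      have h10 : (d : ℝ) * e ≤ ξ * ξ := mul_le_mul hd2 he2 h9 (by linarith)
      nlinarith
    have hql : ((q * Nat.lcm d e : ℕ) : ℝ) ≤ Y / 4 := by
      push_cast
      refine le_trans (mul_le_mul_of_nonneg_left hle hq0.le) hqξ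
    have h4 := hY N q (Nat.lcm d e) z hsq hcop hq.one_lt.le hql
    rw [pp_hN N z _ hsq]
    have hrl : (rP N z (Nat.lcm d e) : ℝ) ≤ (rP N z d : ℝ) * rP N z e := by
      exact_mod_cast rP_lcm N z d e hd0 he0
    set T : ℝ := ∑ n ∈ (IW Y).filter (fun n => n ≡ N [MOD q] ∧ Om N z (Nat.lcm d e) n),
        aw k Y n * Real.log n with hT
    have hlam : |lam d * lam e| ≤ 1 := by
      rw [abs_mul]
      exact mul_le_one₀ (hlb d) (abs_nonneg _) (hlb e)
    have h5 : lam d * lam e * T - lam d * lam e * ((rP N z (Nat.lcm d e) : ℝ) / (q * (Nat.lcm d e : ℕ)) * WI k Y) ≤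
        C * Real.log Y * ((rP N z d : ℝ) * rP N z e) := by
      rw [← mul_sub]
      refine (le_abs_self _).trans ?_
      rw [abs_mul]
      have h6 : |T - (rP N z (Nat.lcm d e) : ℝ) / (q * (Nat.lcm d e : ℕ)) * WI k Y| ≤
          C * Real.log Y * ((rP N z d : ℝ) * rP N z e) := by
        refine h4.trans ?_
        have h7 : C * (rP N z (Nat.lcm d e) : ℝ) * Real.log Y = C * Real.log Y * rP N z (Nat.lcm d e) := by ring
        rw [h7]
        exact mul_le_mul_of_nonneg_left hrl (mul_nonneg hC.le hlogY)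
      calc _ ≤ 1 * (C * Real.log Y * ((rP N z d : ℝ) * rP N z e)) :=
            mul_le_mul hlam h6 (abs_nonneg _) zero_le_one
        _ = _ := one_mul _
    have h8 : (rP N z (Nat.lcm d e) : ℝ) / (q * (Nat.lcm d e : ℕ)) * WI k Y =
        (rP N z (Nat.lcm d e) : ℝ) / (Nat.lcm d e : ℕ) * (WI k Y / q) := by
      field_simp
    rw [h8] at h5
    have h9 : lam d * lam e * ((rP N z (Nat.lcm d e) : ℝ) / (Nat.lcm d e : ℕ)) * (WI k Y / q) =
        lam d * lam e * ((rP N z (Nat.lcm d e) : ℝ) / (Nat.lcm d e : ℕ) * (WI k Y / q)) := by ring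
    rw [h9]
    linarith
  have h4 := h1.trans (sum_le_sum fun d hd => sum_le_sum fun e he => h3 d hd e he)
  refine h4.trans ?_
  simp only [sum_add_distrib]
  have h5 : ∑ d ∈ Pool.Agent.PSG.SF ξ, ∑ e ∈ Pool.Agent.PSG.SF ξ,
      lam d * lam e * Pool.Agent.PSG.pp (hN N z) (Nat.lcm d e) * (WI k Y / q) =
      WI k Y / (q * Pool.Agent.PSG.GG (hN N z) ξ) := by
    simp only [← sum_mul]
    rw [hval]
    have hG : Pool.Agent.PSG.GG (hN N z) ξ ≠ 0 := by
      have h1mem : 1 ∈ Pool.Agent.PSG.SF ξ :=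
        Pool.Agent.PSG.Sel_mem.2 ⟨le_rfl, by exact_mod_cast hξ, squarefree_one⟩
      refine (Finset.sum_pos (fun d _ => Pool.Agent.PSG.Sel_gg_pos (hN N z)
        (fun p hp => hN_bd N hEven z p hp) d) ⟨1, h1mem⟩).ne'
    field_simp
  have h6 : ∑ d ∈ Pool.Agent.PSG.SF ξ, ∑ e ∈ Pool.Agent.PSG.SF ξ,
      C * Real.log Y * ((rP N z d : ℝ) * rP N z e) ≤ C * Real.log Y * (ξ * (1 + Real.log ξ)) ^ 2 := by
    simp only [← mul_sum]
    refine mul_le_mul_of_nonneg_left ?_ (mul_nonneg hC.le hlogY)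
    have h7 := rP_sum N z ξ hξ
    have h8 : ∑ d ∈ Pool.Agent.PSG.SF ξ, (rP N z d : ℝ) * ∑ e ∈ Pool.Agent.PSG.SF ξ, (rP N z e : ℝ) =
        (∑ d ∈ Pool.Agent.PSG.SF ξ, (rP N z d : ℝ)) ^ 2 := by
      rw [← sum_mul, pow_two]
    rw [h8]
    refine pow_le_pow_left₀ (sum_nonneg fun d _ => by positivity) h7 2
  linarith

end Pool.Agent.P4
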