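import Pool.Agent.W_b58c63_h28.SeL
import Pool.Agent.W_b58c63_h28.Pro
import Pool.Agent.W_b58c63_h28.Glo
import Pool.Agent.W_b58c63_h28.Mer
import Pool.Agent.W_b58c63_h68.JFin
import Pool.Agent.W_b58c63_h68.ExB

/-!
# The Selberg part for one prime (MP_b58c63_nt, P_4, task SqA)
-/

set_option autoImplicit false

noncomputable section

open Finset

namespace Pool.Agent.P4

open Pool.Agent.Wb58c63
open Pool.Agent.W33m (IW XM_PNT)

/-- `WI ≤ (1 + δ) log Y * XM` for large `Y`: `log n ≤ log (2 Y)` in the window, `XM_PNT`. -/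
theorem WI_le (k : ℕ) (δ : ℝ) (hδ : 0 < δ) : ∀ᶠ Y : ℝ in Filter.atTop,
    WI k Y ≤ (1 + δ) * Real.log Y * XM k Y := by
  obtain ⟨ε, hε⟩ : ∃ ε : ℝ, ε = δ / (2 + δ) := ⟨_, rfl⟩
  have hε0 : 0 < ε := by rw [hε]; positivity
  have hεδ : 1 + ε = (1 + δ) * (1 - ε) := by
    rw [hε]
    have : 2 + δ ≠ 0 := by linarith
    field_simp
    ring
  filter_upwards [XM_PNT ε hε0 k, Filter.eventually_ge_atTop (3 : ℝ),
    Real.tendsto_log_atTop.eventually_ge_atTop (1 / ε)] with Y h1 hY3 hY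
  have hY0 : 0 < Y := by linarith
  have hY1 : 1 ≤ Y := by linarith
  have hl1 := ExB_log hY3
  have h2 : Real.log (2 * Y) ≤ (1 + ε) * Real.log Y := by
    rw [Real.log_mul (by norm_num) hY0.ne']
    have h3 : Real.log 2 ≤ 1 := by
      have := Real.log_two_lt_d9
      linarith
    rw [div_le_iff₀ hε0] at hY
    linarith
  have h3 : WI k Y ≤ (1 + ε) * Real.log Y * ∑ n ∈ IW Y, aw k Y n := by
    unfold WI
    rw [Finset.mul_sum]
    refine Finset.sum_le_sum fun n _ => ?_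
    by_cases h0 : aw k Y n = 0
    · rw [h0]
      simp
    · obtain ⟨h4, h5⟩ := aw_support k Y hY1 n h0
      have h6 : Real.log n ≤ (1 + ε) * Real.log Y :=
        (Real.log_le_log (by linarith) h5.le).trans h2
      have h7 := mul_le_mul_of_nonneg_left h6 (aw_nonneg k Y hY1 n)
      linarith
  refine h3.trans ?_
  rw [hεδ]
  have h8 : 0 ≤ (1 + δ) * Real.log Y := by positivity
  have h9 := mul_le_mul_of_nonneg_left h1 h8
  calc (1 + δ) * (1 - ε) * Real.log Y * ∑ n ∈ IW Y, aw k Y n =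
      (1 + δ) * Real.log Y * ((1 - ε) * ∑ n ∈ IW Y, aw k Y n) := by ring
    _ ≤ _ := h9

theorem SqA_V1_pos (z : ℝ) : 0 < V1 z := by
  unfold V1
  refine Finset.prod_pos fun p hp => ?_
  obtain ⟨hp, _, _⟩ := mem_PI.1 hp
  have h2 : (2 : ℝ) ≤ p := by exact_mod_cast hp.two_le
  have h3 : 1 / (p : ℝ) ≤ 1 / 2 := one_div_le_one_div_of_le (by norm_num) h2
  linarith

theorem SqA_VP_pos (N : ℕ) (hN : Even N) (z : ℝ) : 0 < VP gp (PN N z) := by
  unfold VP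
  refine Finset.prod_pos fun p hp => ?_
  obtain ⟨h1, h2⟩ := HW_mem_PN.1 hp
  obtain ⟨hp, _, _⟩ := mem_PI.1 h1
  have h3 : p ≠ 2 := by
    rintro rfl
    exact h2 hN.two_dvd
  have h4 : 3 ≤ p := by
    have := hp.two_le
    omega
  have h5 : (3 : ℝ) ≤ p := by exact_mod_cast h4
  unfold gp
  have h6 : 1 / ((p : ℝ) - 1) ≤ 1 / 2 := one_div_le_one_div_of_le (by norm_num) (by linarith)
  linarith

/-- The main term: `GG (hN N z) (z ^ u) * V ≥ 0.561 log z (KK u - δ)` for large `z` (`GN_ge`, `G_low`, `V1_ge`). -/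
theorem GN_low (u : ℝ) (hu : 1 < u) (hK : 0 < KK u) (δ : ℝ) (hδ : 0 < δ) : ∃ z₀ : ℝ, 3 ≤ z₀ ∧ ∀ z : ℝ, z₀ ≤ z →
    ∀ N : ℕ, Even N →
      561 / 1000 * Real.log z * (KK u - δ) ≤ Pool.Agent.PSG.GG (hN N z) (z ^ u) * VP gp (PN N z) := by
  obtain ⟨z₁, hz₁, h1⟩ := G_low u hu δ hδ
  obtain ⟨z₂, hz₂, h2⟩ := V1_ge
  refine ⟨max z₁ z₂, hz₁.trans (le_max_left _ _), fun z hz N hN => ?_⟩
  have hz1 := h1 z ((le_max_left _ _).trans hz)
  have hz2 := h2 z ((le_max_right _ _).trans hz)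
  have hz3 : 3 ≤ z := (hz₁.trans (le_max_left _ _)).trans hz
  have hlz := ExB_log hz3
  have hV1 := SqA_V1_pos z
  have hV := SqA_VP_pos N hN z
  have hG : 0 ≤ Pool.Agent.PSG.GG (Pool.Agent.P4.hN N z) (z ^ u) := by
    unfold Pool.Agent.PSG.GG
    exact Finset.sum_nonneg fun d _ =>
      (Pool.Agent.PSG.Sel_gg_pos (Pool.Agent.P4.hN N z) (fun p hp => hN_bd N hN z p hp) d).le
  rcases le_or_gt (KK u) δ with hKδ | hKδ
  · have h3 : 561 / 1000 * Real.log z * (KK u - δ) ≤ 0 :=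
      mul_nonpos_of_nonneg_of_nonpos (by positivity) (by linarith)
    exact h3.trans (mul_nonneg hG hV.le)
  · have h3 := hz1.trans (GN_ge N hN z (z ^ u))
    have h4 : V1 z * (Real.log z ^ 2 * (KK u - δ)) ≤
        Pool.Agent.PSG.GG (Pool.Agent.P4.hN N z) (z ^ u) * VP gp (PN N z) := by
      refine le_of_mul_le_mul_right ?_ hV1
      calc V1 z * (Real.log z ^ 2 * (KK u - δ)) * V1 z = V1 z ^ 2 * Real.log z ^ 2 * (KK u - δ) := by ring
        _ ≤ _ := h3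
        _ = _ := by ring
    refine le_trans ?_ h4
    calc 561 / 1000 * Real.log z * (KK u - δ) ≤ V1 z * Real.log z * Real.log z * (KK u - δ) := by
          refine mul_le_mul_of_nonneg_right ?_ (by linarith)
          exact mul_le_mul_of_nonneg_right hz2 (by linarith)
      _ = _ := by ring

/-- **The Selberg part for one prime.**

Proof. `SQ_le` with `z = Y ^ (499/6000)`, `ξ = z ^ u = Y ^ (499 u / 6000)`, `ξ < q`, `q ξ ^ 2 ≤ Y ^ (v + 499 u / 3000) ≤ Y / 4`. `WI_le`, `GN_low`,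
`log z = (499/6000) log Y`, `1 / q ≤ gp q`; the error `C log Y (ξ (1 + log ξ)) ^ 2 ≤ δ XM VP gp q` for large `Y` by `XM_ge`
(`XM ≥ c Y`), `VP_ge` (`VP ≥ c / log z`), `gp q ≥ 1 / q ≥ Y ^ (-v)`. -/
theorem SQ_asymp (k : ℕ) (a v u δ : ℝ) (hu : 1 < u) (hK : 0 < KK u) (hv : 499 / 3000 * u < 1 - v)
    (ha : 499 / 6000 * u < a) (hδ : 0 < δ) : ∃ Y₀ : ℝ, 3 ≤ Y₀ ∧ ∀ (Y : ℝ) (N q : ℕ), Y₀ ≤ Y → Even N →
      Y ^ 2 / 2 < N → (N : ℝ) ≤ Y ^ 2 → q.Prime → Y ^ a ≤ q → (q : ℝ) ≤ Y ^ v →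
        SQ k Y N (Y ^ (499 / 6000 : ℝ)) q ≤ XM k Y * VP gp (PN N (Y ^ (499 / 6000 : ℝ))) *
          (gp q * (6000000 / (499 * 561 * KK u) + δ)) := by
  obtain ⟨C, hC, hSQ⟩ := SQ_le k
  obtain ⟨c₂, hc₂, hVP⟩ := VP_ge
  obtain ⟨c₃, Y₁, hc₃, hY₁, hXM⟩ := XM_ge k
  obtain ⟨C₀, hC₀⟩ : ∃ C₀ : ℝ, C₀ = 6000000 / (499 * 561) := ⟨_, rfl⟩
  have hC₀0 : 0 < C₀ := by rw [hC₀]; norm_num
  obtain ⟨η, hη⟩ : ∃ η : ℝ, η = δ / 2 * KK u / C₀ := ⟨_, rfl⟩
  have hη0 : 0 < η := by rw [hη]; positivity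
  obtain ⟨δ₁, hδ₁⟩ : ∃ δ₁ : ℝ, δ₁ = η / (2 + η) := ⟨_, rfl⟩
  have hδ₁0 : 0 < δ₁ := by rw [hδ₁]; positivity
  have hδ₁1 : δ₁ < 1 := by
    rw [hδ₁, div_lt_one (by linarith)]
    linarith
  have hη1 : 1 + δ₁ = (1 + η) * (1 - δ₁) := by
    rw [hδ₁]
    have : 2 + η ≠ 0 := by linarith
    field_simp
    ring
  obtain ⟨z₀, hz₀, hGN⟩ := GN_low u hu hK (δ₁ * KK u) (by positivity)
  obtain ⟨β, hβ⟩ : ∃ β : ℝ, β = 499 / 6000 * u := ⟨_, rfl⟩
  have hβ0 : 0 < β := by rw [hβ]; positivity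
  obtain ⟨e, he⟩ : ∃ e : ℝ, e = 1 - v - 2 * β := ⟨_, rfl⟩
  have he0 : 0 < e := by rw [he, hβ]; linarith
  -- large `Y`
  obtain ⟨c₅, hc₅⟩ : ∃ c₅ : ℝ, c₅ = δ / 2 * (c₃ * c₂) / (C * (1 + β) ^ 2) := ⟨_, rfl⟩
  have hc₅0 : 0 < c₅ := by rw [hc₅]; positivity
  have hev1 : ∀ᶠ Y : ℝ in Filter.atTop, Real.log Y ^ 4 ≤ c₅ * Y ^ e := by
    have h1 := isLittleO_log_rpow_rpow_atTop 4 he0
    have h2 := h1.bound hc₅0
    filter_upwards [h2, Filter.eventually_ge_atTop 1] with Y hY hY1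
    rw [Real.norm_of_nonneg (Real.rpow_nonneg (Real.log_nonneg hY1) _),
      Real.norm_of_nonneg (Real.rpow_nonneg (by linarith) _)] at hY
    rw [← Real.rpow_natCast]
    exact_mod_cast hY
  have hev2 : ∀ᶠ Y : ℝ in Filter.atTop, (4 : ℝ) ≤ Y ^ e :=
    (tendsto_rpow_atTop he0).eventually_ge_atTop 4
  have hev3 : ∀ᶠ Y : ℝ in Filter.atTop, z₀ ≤ Y ^ (499 / 6000 : ℝ) :=
    (tendsto_rpow_atTop (by norm_num)).eventually_ge_atTop z₀
  obtain ⟨Y₂, hY₂⟩ := Filter.eventually_atTop.1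
    ((hSQ.and (WI_le k δ₁ hδ₁0)).and (hev1.and (hev2.and hev3)))
  refine ⟨max (max 3 Y₁) Y₂, (le_max_left _ _).trans (le_max_left _ _), ?_⟩
  intro Y N q hY hN hN1 hN2 hq hqa hqv
  have hY3 : 3 ≤ Y := ((le_max_left _ _).trans (le_max_left _ _)).trans hY
  have hYa : Y₁ ≤ Y := ((le_max_right _ _).trans (le_max_left _ _)).trans hY
  obtain ⟨⟨h1, h2⟩, h3, h4, h5⟩ := hY₂ Y ((le_max_right _ _).trans hY)
  have hY0 : 0 < Y := by linarith
  have hY1 : 1 ≤ Y := by linarith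
  have hY1' : 1 < Y := by linarith
  have hl1 := ExB_log hY3
  have hl0 : 0 < Real.log Y := by linarith
  obtain ⟨z, hz⟩ : ∃ z, z = Y ^ (499 / 6000 : ℝ) := ⟨_, rfl⟩
  rw [← hz] at h5 ⊢
  have hz3 : 3 ≤ z := hz₀.trans h5
  have hz0 : 0 < z := by linarith
  have hlz : Real.log z = 499 / 6000 * Real.log Y := by rw [hz, Real.log_rpow hY0]
  have hlz1 := ExB_log hz3
  have hlzY : Real.log z ≤ Real.log Y := by rw [hlz]; linarith
  have hξ : z ^ u = Y ^ β := by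
    rw [hz, hβ, ← Real.rpow_mul hY0.le]
  have hξ1 : 1 ≤ Y ^ β := Real.one_le_rpow hY1 hβ0.le
  have hξ0 : 0 < Y ^ β := by linarith
  have hξq : Y ^ β < q := lt_of_lt_of_le (Real.rpow_lt_rpow_of_exponent_lt hY1' (by rw [hβ]; exact ha)) hqa
  have hq0 : (0 : ℝ) < q := by linarith
  have hq1 : (1 : ℝ) < q := by linarith
  have hY2β : (Y ^ β) ^ 2 = Y ^ (2 * β) := by
    rw [← Real.rpow_natCast, ← Real.rpow_mul hY0.le]
    congr 1
    push_cast
    ring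
  have hYe : Y ^ v * Y ^ (2 * β) * Y ^ e = Y := by
    rw [← Real.rpow_add hY0, ← Real.rpow_add hY0]
    rw [show v + 2 * β + e = 1 by rw [he]; ring, Real.rpow_one]
  have hYv0 : 0 < Y ^ v := Real.rpow_pos_of_pos hY0 _
  have hY2β0 : 0 < Y ^ (2 * β) := Real.rpow_pos_of_pos hY0 _
  have hYe0 : 0 < Y ^ e := Real.rpow_pos_of_pos hY0 _
  have hqξ : q * (Y ^ β) ^ 2 ≤ Y / 4 := by
    rw [hY2β]
    have h6 : (q : ℝ) * Y ^ (2 * β) ≤ Y ^ v * Y ^ (2 * β) := mul_le_mul_of_nonneg_right hqv hY2β0.le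
    have h7 : Y ^ v * Y ^ (2 * β) * 4 ≤ Y := by
      calc Y ^ v * Y ^ (2 * β) * 4 ≤ Y ^ v * Y ^ (2 * β) * Y ^ e :=
            mul_le_mul_of_nonneg_left h4 (by positivity)
        _ = Y := hYe
    linarith
  have hmain := h1 N q z (Y ^ β) hN hN1 hN2 hq hξ1 hξq hqξ
  have hGNz := hGN z h5 N hN
  rw [hξ] at hGNz
  have hV := SqA_VP_pos N hN z
  have hXM0 : c₃ * Y ≤ XM k Y := hXM Y hYa
  have hXM1 : 0 < XM k Y := lt_of_lt_of_le (by positivity) hXM0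
  have hVz : c₂ / Real.log z ≤ VP gp (PN N z) := by
    refine hVP (PN N z) z hz3 (fun p hp => ?_)
    obtain ⟨e2, e3⟩ := HW_mem_PN.1 hp
    obtain ⟨e4, _, e5⟩ := mem_PI.1 e2
    refine ⟨e4, ?_, e5⟩
    have e6 : p ≠ 2 := by
      rintro rfl
      exact e3 hN.two_dvd
    have e7 := e4.two_le
    omega
  have hgp : 1 / (q : ℝ) ≤ gp q := by
    unfold gp
    exact one_div_le_one_div_of_le (by linarith) (by linarith)
  have hgp0 : 0 < gp q := lt_of_lt_of_le (by positivity) hgp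
  -- the main term
  obtain ⟨G, hG⟩ : ∃ G, G = Pool.Agent.PSG.GG (Pool.Agent.P4.hN N z) (Y ^ β) := ⟨_, rfl⟩
  obtain ⟨V, hVV⟩ : ∃ V, V = VP gp (PN N z) := ⟨_, rfl⟩
  rw [← hG, ← hVV] at hGNz
  rw [← hG] at hmain
  rw [← hVV] at hV hVz ⊢
  have hKδ : KK u - δ₁ * KK u = (1 - δ₁) * KK u := by ring
  rw [hKδ, hlz] at hGNz
  have h1δ : 0 < 1 - δ₁ := by linarith
  have hGV : 0 < G * V := lt_of_lt_of_le (by positivity) hGNz
  have hG0 : 0 < G := (pos_iff_pos_of_mul_pos hGV).2 hV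
  have hm1 : WI k Y / (q * G) ≤ XM k Y * V * (1 / (q : ℝ) * (C₀ / KK u + δ / 2)) := by
    rw [div_le_iff₀ (by positivity)]
    have e1 : C₀ / KK u + δ / 2 = C₀ / KK u * (1 + η) := by
      rw [hη]
      field_simp
    have e2 : XM k Y * V * (1 / (q : ℝ) * (C₀ / KK u + δ / 2)) * (q * G) =
        XM k Y * (C₀ / KK u * (1 + η)) * (G * V) := by
      rw [e1]
      field_simp
    rw [e2]
    have e3 : XM k Y * (C₀ / KK u * (1 + η)) * (561 / 1000 * (499 / 6000 * Real.log Y) * ((1 - δ₁) * KK u)) =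
        (1 + δ₁) * Real.log Y * XM k Y := by
      rw [hη1, hC₀]
      field_simp
      ring
    calc WI k Y ≤ (1 + δ₁) * Real.log Y * XM k Y := h2
      _ = _ := e3.symm
      _ ≤ _ := mul_le_mul_of_nonneg_left hGNz (by positivity)
  -- the error term
  have hm2 : C * Real.log Y * (Y ^ β * (1 + Real.log (Y ^ β))) ^ 2 ≤ XM k Y * V * (1 / (q : ℝ) * (δ / 2)) := by
    have e1 : 1 + Real.log (Y ^ β) ≤ (1 + β) * Real.log Y := by
      rw [Real.log_rpow hY0]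
      linarith
    have e2 : 0 ≤ 1 + Real.log (Y ^ β) := by
      have := Real.log_nonneg hξ1
      linarith
    have e3 : (Y ^ β * (1 + Real.log (Y ^ β))) ^ 2 ≤ Y ^ (2 * β) * ((1 + β) ^ 2 * Real.log Y ^ 2) := by
      rw [mul_pow, hY2β, ← mul_pow]
      exact mul_le_mul_of_nonneg_left (pow_le_pow_left₀ e2 e1 2) hY2β0.le
    have e4 : C * Real.log Y * (Y ^ β * (1 + Real.log (Y ^ β))) ^ 2 ≤
        C * (1 + β) ^ 2 * Y ^ (2 * β) * Real.log Y ^ 4 / Real.log Y := by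
      rw [le_div_iff₀ hl0]
      calc C * Real.log Y * (Y ^ β * (1 + Real.log (Y ^ β))) ^ 2 * Real.log Y ≤
          C * Real.log Y * (Y ^ (2 * β) * ((1 + β) ^ 2 * Real.log Y ^ 2)) * Real.log Y := by
            refine mul_le_mul_of_nonneg_right ?_ hl0.le
            exact mul_le_mul_of_nonneg_left e3 (by positivity)
        _ = _ := by ring
    have e5 : C * (1 + β) ^ 2 * Y ^ (2 * β) * Real.log Y ^ 4 ≤ δ / 2 * (c₃ * c₂) * (Y ^ (2 * β) * Y ^ e) := by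
      calc C * (1 + β) ^ 2 * Y ^ (2 * β) * Real.log Y ^ 4 ≤
          C * (1 + β) ^ 2 * Y ^ (2 * β) * (c₅ * Y ^ e) := mul_le_mul_of_nonneg_left h3 (by positivity)
        _ = _ := by
            rw [hc₅]
            have : C * (1 + β) ^ 2 ≠ 0 := by positivity
            field_simp
    have e6 : Y ^ (2 * β) * Y ^ e = Y / Y ^ v := by
      rw [eq_div_iff hYv0.ne']
      linarith
    have e7 : Y / Y ^ v ≤ Y / q := div_le_div_of_nonneg_left hY0.le hq0 hqv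
    have e8 : δ / 2 * (c₃ * c₂) * (Y / q) / Real.log Y ≤ XM k Y * V * (1 / (q : ℝ) * (δ / 2)) := by
      have e9 : c₂ / Real.log Y ≤ V := le_trans (div_le_div_of_nonneg_left hc₂.le (by linarith) hlzY) hVz
      have e10 : c₃ * Y * (c₂ / Real.log Y) ≤ XM k Y * V :=
        mul_le_mul hXM0 e9 (by positivity) hXM1.le
      calc δ / 2 * (c₃ * c₂) * (Y / q) / Real.log Y =
          c₃ * Y * (c₂ / Real.log Y) * (1 / (q : ℝ) * (δ / 2)) := by
            field_simp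
        _ ≤ _ := mul_le_mul_of_nonneg_right e10 (by positivity)
    refine e4.trans (le_trans ?_ e8)
    refine div_le_div_of_nonneg_right ?_ hl0.le
    refine e5.trans ?_
    rw [e6]
    exact mul_le_mul_of_nonneg_left e7 (by positivity)
  have hK' : C₀ / KK u = 6000000 / (499 * 561 * KK u) := by
    rw [hC₀]
    field_simp
  rw [← hK']
  calc SQ k Y N z q ≤ XM k Y * V * (1 / (q : ℝ) * (C₀ / KK u + δ / 2)) +
        XM k Y * V * (1 / (q : ℝ) * (δ / 2)) := hmain.trans (add_le_add hm1 hm2)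
    _ = XM k Y * V * (1 / (q : ℝ) * (C₀ / KK u + δ)) := by ring
    _ ≤ _ := by
        refine mul_le_mul_of_nonneg_left ?_ (by positivity)
        exact mul_le_mul_of_nonneg_right hgp (by positivity)

end Pool.Agent.P4
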